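import Pool.Agent.Work.MP_dc7914_al.Center
import Pool.Agent.Work.MP_76dc41_al.Types

/-! Bundle of small proof modules (one section per former module). -/

section

/-!
# Sums over all irreducible characters
-/

set_option autoImplicit false
set_option linter.unusedSectionVars false

open Module Representation Pool.Agent.DC7914

namespace Pool.Agent.RadIndex

/-- the finite set of the irreducible characters -/
noncomputable def irrs (G : Type*) [Group G] [Finite G] : Finset (G → ℂ) :=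
  (irr_finite (G := G)).toFinset

section

variable {G : Type*} [Group G] [Finite G]

theorem mem_irrs {χ : G → ℂ} : χ ∈ irrs G ↔ IsIrrChar χ := by
  simp [irrs]

open Classical in
theorem reg_trace [Fintype G] (g : G) :
    (regRep G).character g = if g = 1 then (Fintype.card G : ℂ) else 0 := by
  have h1 : (regRep G).character g = ∑ h : G, (regRep G g (Pi.single h 1)) h := by
    rw [Representation.character, LinearMap.trace_eq_matrix_trace ℂ (Pi.basisFun ℂ G), Matrix.trace]
    refine Finset.sum_congr rfl fun h _ => ?_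
    rw [Matrix.diag_apply, LinearMap.toMatrix_apply]
    simp [Pi.basisFun_apply, Pi.basisFun_repr]
  rw [h1]
  have h2 : ∀ h : G, (regRep G g (Pi.single h (1 : ℂ))) h = if g = 1 then 1 else 0 := by
    intro h
    change (Pi.single h (1 : ℂ) : G → ℂ) (h * g) = _
    rw [Pi.single_apply]
    have : h * g = h ↔ g = 1 := mul_eq_left
    simp only [this]
  simp only [h2]
  split_ifs <;> simp

open Classical in
/-- the character of the regular representation -/
theorem sum_deg [Fintype G] (g : G) :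
    ∑ χ ∈ irrs G, χ 1 * χ g = if g = 1 then (Fintype.card G : ℂ) else 0 := by
  classical
  obtain ⟨s, hs, hsum⟩ := decomp (regRep G)
  have hirr : ∀ θ ∈ s, IsIrrChar θ := fun θ h => (hs θ h).1
  have hc : ∀ θ : G → ℂ, IsIrrChar θ → (Multiset.count θ s : ℂ) = θ 1 := by
    intro θ hθ
    have h1 := inner_sum s hirr θ hθ
    rw [← hsum] at h1
    have h2 : ∑ g, θ g * (regRep G).character g⁻¹ = θ 1 * Fintype.card G := by
      rw [Finset.sum_eq_single (1 : G)]
      · rw [inv_one, reg_trace, if_pos rfl]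
      · intro b _ hb
        rw [reg_trace, if_neg (by simpa using hb), mul_zero]
      · intro h
        exact absurd (Finset.mem_univ _) h
    rw [h2, Nat.card_eq_fintype_card] at h1
    have h3 : (Fintype.card G : ℂ) ≠ 0 := by exact_mod_cast Fintype.card_ne_zero
    exact (mul_right_cancel₀ h3 h1).symm
  have hset : s.toFinset = irrs G := by
    ext θ
    rw [Multiset.mem_toFinset, mem_irrs]
    refine ⟨hirr θ, fun hθ => ?_⟩
    rw [← Multiset.count_pos]
    by_contra h
    have h0 : Multiset.count θ s = 0 := by omega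
    have := hc θ hθ
    rw [h0, Nat.cast_zero] at this
    exact hθ.one_ne_zero this.symm
  rw [← reg_trace, hsum, Finset.sum_multiset_count, hset, Finset.sum_apply]
  refine Finset.sum_congr rfl fun χ hχ => ?_
  rw [Pi.smul_apply, nsmul_eq_mul, hc χ (mem_irrs.1 hχ)]

end

end Pool.Agent.RadIndex

end

section

/-!
# Restriction to a normal subgroup (a part of Clifford's theorem)
-/

set_option autoImplicit false
set_option linter.unusedSectionVars false

open Module Representation Pool.Agent.DC7914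

namespace Pool.Agent.RadIndex

section

variable {G : Type*} [Group G] [Fintype G] {N : Subgroup G} [N.Normal]

/-- the conjugate of a function on `N` -/
def cj (g : G) (l : N → ℂ) : N → ℂ := fun n => l (MulAut.conjNormal g n)

theorem cj_one_val (g : G) (l : N → ℂ) : cj g l 1 = l 1 := by simp [cj]

theorem cj_cj (g h : G) (l : N → ℂ) : cj h (cj g l) = cj (g * h) l := by
  ext n; simp [cj]

theorem cj_id (l : N → ℂ) : cj 1 l = l := by
  ext n; simp [cj]

theorem cj_inv (g : G) (l : N → ℂ) (n : N) : cj g l n⁻¹ = l (MulAut.conjNormal g n)⁻¹ := by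
  simp [cj]

theorem irr_cj (g : G) {l : N → ℂ} (hl : IsIrrChar l) : IsIrrChar (cj g l) := by
  obtain ⟨n, ρ, hρ, rfl⟩ := hl
  refine ⟨n, ρ.comp (MulAut.conjNormal g : MulAut N).toMonoidHom, ?_, ?_⟩
  · rw [DC7914.irreducible_iff] at hρ ⊢
    refine ⟨hρ.1, fun U hU => hρ.2 U fun x v hv => ?_⟩
    have := hU ((MulAut.conjNormal g : MulAut N).symm x) v hv
    simpa using this
  · rfl

open Classical in
/-- the orbit -/
noncomputable def orb (N : Subgroup G) [N.Normal] (l : N → ℂ) : Finset (N → ℂ) :=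
  Finset.univ.image fun g : G => cj g l

theorem mem_orb {l m : N → ℂ} : m ∈ orb N l ↔ ∃ g : G, cj g l = m := by
  classical
  simp [orb]

theorem self_mem_orb (l : N → ℂ) : l ∈ orb N l := mem_orb.2 ⟨1, cj_id l⟩

theorem cj_mem_orb {l m : N → ℂ} (h : m ∈ orb N l) (g : G) : cj g m ∈ orb N l := by
  obtain ⟨x, rfl⟩ := mem_orb.1 h
  exact mem_orb.2 ⟨x * g, (cj_cj x g l).symm⟩

theorem irr_orb {l m : N → ℂ} (hl : IsIrrChar l) (h : m ∈ orb N l) : IsIrrChar m := by
  obtain ⟨x, rfl⟩ := mem_orb.1 h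
  exact irr_cj x hl

theorem one_orb {l m : N → ℂ} (h : m ∈ orb N l) : m 1 = l 1 := by
  obtain ⟨x, rfl⟩ := mem_orb.1 h
  exact cj_one_val x l

/-- the idempotent of the orbit -/
noncomputable def fO (l : N → ℂ) (m : N) : ℂ :=
  ∑ l' ∈ orb N l, (l' 1 / Nat.card N) * l' m⁻¹

theorem fO_cj (l : N → ℂ) (x : G) (m : N) : fO l (MulAut.conjNormal x m) = fO l m := by
  unfold fO
  refine Finset.sum_nbij' (fun l' => cj x l') (fun l' => cj x⁻¹ l') ?_ ?_ ?_ ?_ ?_
  · intro l' h; exact cj_mem_orb h x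
  · intro l' h; exact cj_mem_orb h x⁻¹
  · intro l' _; rw [cj_cj, mul_inv_cancel, cj_id]
  · intro l' _; rw [cj_cj, inv_mul_cancel, cj_id]
  · intro l' _
    rw [cj_one_val, cj_inv]

open Classical in
/-- extension by zero -/
noncomputable def ext0 (f : N → ℂ) (g : G) : ℂ := if h : g ∈ N then f ⟨g, h⟩ else 0

theorem ext0_coe (f : N → ℂ) (n : N) : ext0 f (n : G) = f n := by
  simp [ext0]

theorem ext0_class (l : N → ℂ) : IsClassFn (ext0 (fO l)) := by
  intro g x
  unfold ext0
  by_cases h : g ∈ N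
  · have h' : x * g * x⁻¹ ∈ N := ‹N.Normal›.conj_mem g h x
    rw [dif_pos h, dif_pos h']
    have e : (⟨x * g * x⁻¹, h'⟩ : N) = MulAut.conjNormal x ⟨g, h⟩ := by
      ext; simp
    rw [e, fO_cj]
  · have h' : ¬ x * g * x⁻¹ ∈ N := by
      intro h2
      apply h
      have := ‹N.Normal›.conj_mem _ h2 x⁻¹
      simpa [mul_assoc] using this
    rw [dif_neg h, dif_neg h']

variable [Fintype N]

/-- sums over the normal subgroup -/
theorem sum_ext {M : Type*} [AddCommMonoid M] (F : G → M) (h : ∀ g, g ∉ N → F g = 0) :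
    ∑ g, F g = ∑ n : N, F n := by
  classical
  have h1 : ∑ g, F g = ∑ g ∈ Finset.univ.filter (fun g => g ∈ N), F g := by
    rw [Finset.sum_filter]
    refine Finset.sum_congr rfl fun g _ => ?_
    split_ifs with h2
    · rfl
    · exact h g h2
  rw [h1]
  exact Finset.sum_subtype _ (by simp) F

variable {V : Type*} [AddCommGroup V] [Module ℂ V] [FiniteDimensional ℂ V]

/-- the restriction of a representation -/
noncomputable def resRep (N : Subgroup G) (ρ : Representation ℂ G V) : Representation ℂ N V :=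
  ρ.comp N.subtype

theorem op_ext (ρ : Representation ℂ G V) (f : N → ℂ) :
    op ρ (ext0 f) = op (resRep N ρ) f := by
  unfold op
  rw [sum_ext (N := N) (fun g => ext0 f g • ρ g)
    (fun g h => by rw [ext0, dif_neg h, zero_smul])]
  refine Finset.sum_congr rfl fun n _ => ?_
  rw [ext0_coe]
  rfl

open Classical in
theorem om_fO {l θ : N → ℂ} (hl : IsIrrChar l) (hθ : IsIrrChar θ) :
    om θ (fO l) = if θ ∈ orb N l then 1 else 0 := by
  unfold om fO
  have hN : (Nat.card N : ℂ) ≠ 0 := by exact_mod_cast Nat.card_pos.ne'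
  have h1 : ∑ g, (∑ l' ∈ orb N l, (l' 1 / Nat.card N) * l' g⁻¹) * θ g =
      ∑ l' ∈ orb N l, (l' 1 / Nat.card N) * ∑ g, θ g * l' g⁻¹ := by
    simp only [Finset.sum_mul, Finset.mul_sum]
    rw [Finset.sum_comm]
    refine Finset.sum_congr rfl fun l' _ => Finset.sum_congr rfl fun g _ => ?_
    ring
  rw [h1]
  have h2 : ∀ l' ∈ orb N l, (l' 1 / Nat.card N) * ∑ g, θ g * l' g⁻¹ = if θ = l' then θ 1 else 0 := by
    intro l' h
    rw [hθ.orthonormal (irr_orb hl h)]
    split_ifs with h3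
    · rw [h3]; field_simp
    · rw [mul_zero]
  rw [Finset.sum_congr rfl h2, Finset.sum_ite_eq]
  split_ifs
  · exact div_self hθ.one_ne_zero
  · rw [zero_div]

/-- Clifford's theorem, in the form needed here -/
theorem clifford {χ : G → ℂ} (hχ : IsIrrChar χ) (N : Subgroup G) [N.Normal] [Fintype N] :
    ∃ s : Multiset (N → ℂ), (∀ θ ∈ s, IsIrrChar θ) ∧ (∀ n : N, χ n = s.sum n) ∧
      ∀ l ∈ s, (∀ θ ∈ s, θ ∈ orb N l) ∧ ∀ g : G, ∑ m : N, fO l m * χ (g * m) = χ g := by
  obtain ⟨d, ρ, hρ, rfl⟩ := hχ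
  obtain ⟨s, hs, hsum⟩ := decomp (resRep N ρ)
  refine ⟨s, fun θ h => (hs θ h).1, fun n => ?_, fun l hl => ?_⟩
  · rw [← hsum]; rfl
  · have hl' := (hs l hl).1
    obtain ⟨c, hc⟩ := schur ρ hρ (op ρ (ext0 (fO l))) (fun g => op_comm_of_class ρ _ (ext0_class l) g)
    have hc' : op (resRep N ρ) (fO l) = c • (1 : End ℂ (Fin d → ℂ)) := by rw [← op_ext, hc]
    have h1 := (hs l hl).2 _ c hc'
    rw [om_fO hl' hl', if_pos (self_mem_orb l)] at h1
    constructor
    · intro θ hθ
      have h2 := (hs θ hθ).2 _ c hc'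
      rw [om_fO hl' (hs θ hθ).1, ← h1] at h2
      by_contra h3
      rw [if_neg h3] at h2
      exact zero_ne_one h2
    · intro g
      have h2 : op ρ (ext0 (fO l)) * ρ g = ρ g := by rw [hc, ← h1, one_smul, one_mul]
      have h3 := trace_op_mul ρ (ext0 (fO l)) g
      rw [h2] at h3
      have h4 : ∑ h : G, ext0 (fO l) h * ρ.character (h * g) =
          ∑ m : N, fO l m * ρ.character (m * g) := by
        rw [sum_ext (N := N) (fun h => ext0 (fO l) h * ρ.character (h * g))
          (fun h hh => by rw [ext0, dif_neg hh, zero_mul])]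
        refine Finset.sum_congr rfl fun m _ => ?_
        rw [ext0_coe]
      rw [h4] at h3
      have h5 : ∀ m : N, ρ.character (g * m) = ρ.character (m * g) := fun m =>
        char_mul_comm ρ (m : G) g
      simp only [h5]
      exact h3.symm

end

end Pool.Agent.RadIndex

end

section

/-!
# The number of characters over an orbit
-/

set_option autoImplicit false
set_option linter.unusedSectionVars false

open Module Representation Pool.Agent.DC7914

namespace Pool.Agent.RadIndex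

section One

variable {N : Type*} [Group N] {V : Type*} [AddCommGroup V] [Module ℂ V] [FiniteDimensional ℂ V]

/-- the space of intertwining operators between a representation and its twist -/
def inter (ρ : Representation ℂ N V) (σ : MulAut N) : Submodule ℂ (End ℂ V) where
  carrier := {A | ∀ k, ρ k * A = A * ρ (σ k)}
  add_mem' := fun {A B} hA hB k => by
    rw [mul_add, add_mul, hA k, hB k]
  zero_mem' := fun k => by rw [mul_zero, zero_mul]
  smul_mem' := fun c A hA k => by
    rw [mul_smul_comm, smul_mul_assoc, hA k]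

theorem inter_le_one (ρ : Representation ℂ N V) (hρ : ρ.IsIrreducible) (σ : MulAut N) :
    finrank ℂ (inter ρ σ) ≤ 1 := by
  by_cases h : ∃ A : inter ρ σ, A ≠ 0
  · obtain ⟨⟨A, hA⟩, hA0⟩ := h
    have hA0' : A ≠ 0 := fun h => hA0 (Subtype.ext h)
    have hker : LinearMap.ker A = ⊥ := by
      rcases ((DC7914.irreducible_iff ρ).1 hρ).2 (LinearMap.ker A) (by
        intro g v hv
        rw [LinearMap.mem_ker] at hv ⊢
        have h1 := LinearMap.congr_fun (hA (σ.symm g)) v
        have h2 : σ (σ.symm g) = g := σ.apply_symm_apply g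
        rw [h2] at h1
        have h3 : A (ρ g v) = ρ (σ.symm g) (A v) := h1.symm
        rw [h3, hv, map_zero]) with h1 | h1
      · exact h1
      · exact absurd (LinearMap.ker_eq_top.1 h1) hA0'
    have hu : IsUnit A := (LinearMap.isUnit_iff_ker_eq_bot A).2 hker
    obtain ⟨B, hB1, hB2⟩ := isUnit_iff_exists.1 hu
    refine finrank_le_one (⟨A, hA⟩ : inter ρ σ) ?_
    rintro ⟨C, hC⟩
    have hBk : ∀ k, B * ρ k = ρ (σ k) * B := by
      intro k
      calc B * ρ k = B * ρ k * (A * B) := by rw [hB1, mul_one]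
        _ = B * (ρ k * A) * B := by simp only [mul_assoc]
        _ = B * (A * ρ (σ k)) * B := by rw [hA k]
        _ = (B * A) * ρ (σ k) * B := by simp only [mul_assoc]
        _ = ρ (σ k) * B := by rw [hB2, one_mul]
    obtain ⟨c, hc⟩ := schur ρ hρ (C * B) (fun k => by
      rw [mul_assoc, hBk k, ← mul_assoc, ← hC k, mul_assoc])
    refine ⟨c, Subtype.ext ?_⟩
    change c • A = C
    calc c • A = (c • (1 : End ℂ V)) * A := by rw [smul_mul_assoc, one_mul]
      _ = C * (B * A) := by rw [← hc, mul_assoc]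
      _ = C := by rw [hB2, mul_one]
  · push Not at h
    have : Subsingleton (inter ρ σ) := ⟨fun a b => by rw [h a, h b]⟩
    rw [finrank_zero_of_subsingleton]
    exact Nat.zero_le _

end One

section

variable {G : Type*} [Group G] [Fintype G] {N : Subgroup G} [N.Normal] [Fintype N]

/-- the operator of a function on a coset -/
noncomputable def AF {V : Type*} [AddCommGroup V] [Module ℂ V] [FiniteDimensional ℂ V]
    (ρ : Representation ℂ N V) (g : G) : (G → ℂ) →ₗ[ℂ] End ℂ V where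
  toFun f := ∑ n : N, f (g * n) • ρ n⁻¹
  map_add' f f' := by
    simp only [Pi.add_apply, add_smul, Finset.sum_add_distrib]
  map_smul' c f := by
    simp only [Pi.smul_apply, smul_eq_mul, mul_smul, Finset.smul_sum, RingHom.id_apply]

theorem AF_mem {V : Type*} [AddCommGroup V] [Module ℂ V] [FiniteDimensional ℂ V]
    (ρ : Representation ℂ N V) (g : G) {f : G → ℂ} (hf : IsClassFn f) :
    AF ρ g f ∈ inter ρ (MulAut.conjNormal g⁻¹) := by
  intro k
  change ρ k * (∑ n : N, f (g * n) • ρ n⁻¹) = (∑ n : N, f (g * n) • ρ n⁻¹) * ρ (MulAut.conjNormal g⁻¹ k)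
  rw [Finset.mul_sum, Finset.sum_mul]
  let e : N ≃ N := (Equiv.mulLeft (MulAut.conjNormal g⁻¹ k)).trans (Equiv.mulRight k⁻¹)
  refine Fintype.sum_equiv e _ _ fun n => ?_
  have he : e n = MulAut.conjNormal g⁻¹ k * n * k⁻¹ := rfl
  rw [he, mul_smul_comm, smul_mul_assoc, ← map_mul, ← map_mul]
  congr 1
  · have h1 : g * ((MulAut.conjNormal g⁻¹ k * n * k⁻¹ : N) : G) = k * (g * n) * (k : G)⁻¹ := by
      push_cast
      rw [MulAut.conjNormal_apply]
      group
    rw [h1, hf]
  · congr 1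
    group

theorem AF_trace {V : Type*} [AddCommGroup V] [Module ℂ V] [FiniteDimensional ℂ V]
    (ρ : Representation ℂ N V) (g : G) (f : G → ℂ) (n : N) :
    LinearMap.trace ℂ V (AF ρ g f * ρ n) = ∑ m : N, ρ.character m⁻¹ * f (g * n * m) := by
  change LinearMap.trace ℂ V ((∑ k : N, f (g * k) • ρ k⁻¹) * ρ n) = _
  rw [Finset.sum_mul, map_sum]
  refine Fintype.sum_equiv (Equiv.mulLeft n⁻¹) _ _ fun k => ?_
  rw [smul_mul_assoc, map_smul, ← map_mul, smul_eq_mul, mul_comm]
  congr 1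
  · have : (Equiv.mulLeft n⁻¹ k)⁻¹ = k⁻¹ * n := by
      simp [mul_inv_rev]
    rw [this]
    rfl
  · have : g * n * ((Equiv.mulLeft n⁻¹ k : N) : G) = g * k := by
      simp [mul_assoc]
    rw [this]

/-- the class functions over the orbit of `l` -/
noncomputable def WO (l : N → ℂ) : Submodule ℂ (G → ℂ) where
  carrier := {f | IsClassFn f ∧ ∀ g, ∑ m : N, fO l m * f (g * m) = f g}
  add_mem' := by
    rintro f f' ⟨h1, h2⟩ ⟨h1', h2'⟩
    refine ⟨fun g x => ?_, fun g => ?_⟩
    · simp only [Pi.add_apply, h1 g x, h1' g x]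
    · simp only [Pi.add_apply, mul_add, Finset.sum_add_distrib, h2, h2']
  zero_mem' := ⟨fun g x => rfl, fun g => by simp⟩
  smul_mem' := by
    rintro c f ⟨h1, h2⟩
    refine ⟨fun g x => ?_, fun g => ?_⟩
    · simp only [Pi.smul_apply, h1 g x]
    · simp only [Pi.smul_apply, smul_eq_mul, ← h2 g, Finset.mul_sum]
      refine Finset.sum_congr rfl fun m _ => ?_
      ring

theorem WO_finrank (l : N → ℂ) (hl : IsIrrChar l) :
    finrank ℂ (WO (G := G) l) ≤ Nat.card (ConjClasses (G ⧸ N)) * (orb N l).card := by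
  classical
  have := Fintype.ofFinite (ConjClasses (G ⧸ N))
  have hirr : ∀ m : {m // m ∈ orb N l}, IsIrrChar m.1 := fun m => irr_orb hl m.2
  choose d ρ hρ hch using hirr
  -- representatives of the classes of the quotient
  have hrep : ∀ C : ConjClasses (G ⧸ N), ∃ g : G, ConjClasses.mk (g : G ⧸ N) = C := by
    intro C
    obtain ⟨q, rfl⟩ := ConjClasses.exists_rep C
    obtain ⟨g, rfl⟩ := QuotientGroup.mk_surjective q
    exact ⟨g, rfl⟩
  choose r hr using hrep
  let ι := ConjClasses (G ⧸ N) × {m // m ∈ orb N l}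
  let Φ : WO (G := G) l →ₗ[ℂ] (∀ i : ι, inter (ρ i.2) (MulAut.conjNormal (r i.1)⁻¹)) :=
    LinearMap.pi fun i => LinearMap.codRestrict _ ((AF (ρ i.2) (r i.1)).comp (WO (G := G) l).subtype)
      (fun f => AF_mem (ρ i.2) (r i.1) f.2.1)
  have hinj : Function.Injective Φ := by
    rw [← LinearMap.ker_eq_bot, LinearMap.ker_eq_bot']
    intro f hf
    have hA : ∀ (C : ConjClasses (G ⧸ N)) (m : {m // m ∈ orb N l}), AF (ρ m) (r C) f.1 = 0 := by
      intro C m
      exact congrArg Subtype.val (congrFun hf (C, m))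
    have h0 : ∀ (C : ConjClasses (G ⧸ N)) (n : N), f.1 (r C * n) = 0 := by
      intro C n
      rw [← f.2.2 (r C * n)]
      unfold fO
      have h1 : ∑ m : N, (∑ l' ∈ orb N l, (l' 1 / Nat.card N) * l' m⁻¹) * f.1 (r C * n * m) =
          ∑ l' ∈ orb N l, (l' 1 / Nat.card N) * ∑ m : N, l' m⁻¹ * f.1 (r C * n * m) := by
        simp only [Finset.sum_mul, Finset.mul_sum]
        rw [Finset.sum_comm]
        refine Finset.sum_congr rfl fun l' _ => Finset.sum_congr rfl fun g _ => ?_
        ring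
      rw [h1]
      refine Finset.sum_eq_zero fun l' hl' => ?_
      have h2 := AF_trace (ρ ⟨l', hl'⟩) (r C) f.1 n
      rw [hA C ⟨l', hl'⟩, zero_mul, map_zero] at h2
      have h3 : (ρ ⟨l', hl'⟩).character = l' := (hch ⟨l', hl'⟩).symm
      rw [h3] at h2
      rw [← h2, mul_zero]
    apply Subtype.ext
    funext x
    change f.1 x = 0
    obtain ⟨C, hC⟩ : ∃ C, C = ConjClasses.mk (x : G ⧸ N) := ⟨_, rfl⟩
    have h1 : ConjClasses.mk ((r C : G) : G ⧸ N) = ConjClasses.mk (x : G ⧸ N) := by rw [hr C, hC]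
    rw [ConjClasses.mk_eq_mk_iff_isConj, isConj_iff] at h1
    obtain ⟨c, hc⟩ := h1
    obtain ⟨y, rfl⟩ := QuotientGroup.mk_surjective c
    have h2 : ((y * r C * y⁻¹ : G) : G ⧸ N) = x := by
      rw [← hc]; rfl
    have h3 : (y * r C * y⁻¹)⁻¹ * x ∈ N := QuotientGroup.eq.1 h2
    -- x = y * (r C * n) * y⁻¹
    have h4 : y⁻¹ * ((y * r C * y⁻¹)⁻¹ * x) * (y⁻¹)⁻¹ ∈ N := ‹N.Normal›.conj_mem _ h3 y⁻¹
    have h5 : x = y * (r C * ((⟨_, h4⟩ : N) : G)) * y⁻¹ := by
      simp only
      group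
    rw [h5, f.2.1]
    exact h0 C ⟨_, h4⟩
  have h1 := LinearMap.finrank_le_finrank_of_injective hinj
  refine h1.trans ?_
  rw [Module.finrank_pi_fintype]
  refine (Finset.sum_le_card_nsmul _ _ 1 fun i _ => inter_le_one _ (hρ i.2) _).trans ?_
  rw [smul_eq_mul, mul_one, Finset.card_univ, Fintype.card_prod, Nat.card_eq_fintype_card,
    Fintype.card_coe]

end

end Pool.Agent.RadIndex

end

section

/-!
# The inequality
-/

set_option autoImplicit false
set_option linter.unusedSectionVars false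

open Module Representation Pool.Agent.DC7914

namespace Pool.Agent.RadIndex

section

variable {G : Type*} [Group G] [Fintype G] {N : Subgroup G} [N.Normal] [Fintype N]

/-- the inner product with a function on the normal subgroup (not normalised) -/
noncomputable def mu (χ : G → ℂ) (l : N → ℂ) : ℂ := ∑ n : N, l n * χ ((n⁻¹ : N) : G)

theorem mu_cj {χ : G → ℂ} (hχ : IsClassFn χ) (g : G) (l : N → ℂ) : mu χ (cj g l) = mu χ l := by
  unfold mu
  refine Fintype.sum_equiv (MulAut.conjNormal g).toEquiv _ _ fun n => ?_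
  have h1 : (MulAut.conjNormal g).toEquiv n = MulAut.conjNormal g n := rfl
  rw [h1]
  have h2 : (((MulAut.conjNormal g n : N)⁻¹ : N) : G) = g * ((n⁻¹ : N) : G) * g⁻¹ := by
    push_cast
    rw [MulAut.conjNormal_apply]
    group
  rw [h2, hχ]
  rfl

theorem norm_deg {H : Type*} [Group H] {χ : H → ℂ} (hχ : IsIrrChar χ) : ((‖χ 1‖ : ℝ) : ℂ) = χ 1 := by
  obtain ⟨n, -, h⟩ := hχ.degree
  rw [h]; simp

theorem one_le_deg {H : Type*} [Group H] {χ : H → ℂ} (hχ : IsIrrChar χ) : 1 ≤ ‖χ 1‖ := by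
  obtain ⟨n, hn, h⟩ := hχ.degree
  rw [h]; simp
  exact_mod_cast hn

/-- the constituents of the restriction -/
theorem char_data {χ : G → ℂ} (hχ : IsIrrChar χ) (N : Subgroup G) [N.Normal] [Fintype N] :
    ∃ O : Finset (N → ℂ), O.Nonempty ∧ (∀ l ∈ O, IsIrrChar l ∧ orb N l = O ∧ χ ∈ WO (G := G) l ∧
      ∃ e : ℕ, 0 < e ∧ mu χ l = e * Nat.card N ∧ χ 1 = e * O.card * l 1) ∧
      ∀ l : N → ℂ, IsIrrChar l → mu χ l ≠ 0 → l ∈ O := by
  classical
  obtain ⟨s, hs, hsum, hl⟩ := clifford hχ N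
  have hN : (Nat.card N : ℂ) ≠ 0 := by exact_mod_cast Nat.card_pos.ne'
  have hmu : ∀ l : N → ℂ, IsIrrChar l → mu χ l = Multiset.count l s * Nat.card N := by
    intro l h
    rw [← inner_sum s hs l h]
    unfold mu
    refine Finset.sum_congr rfl fun n _ => ?_
    rw [hsum n⁻¹]
  have hcount : ∀ l : N → ℂ, l ∈ s → ∀ m ∈ orb N l, Multiset.count m s = Multiset.count l s := by
    intro l h m hm
    obtain ⟨g, rfl⟩ := mem_orb.1 hm
    have h1 := hmu l (hs l h)
    have h2 := hmu (cj g l) (irr_cj g (hs l h))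
    rw [mu_cj hχ.isClassFn, h1] at h2
    have h3 := mul_right_cancel₀ hN h2
    exact_mod_cast h3.symm
  have horb : ∀ l ∈ s, orb N l = s.toFinset := by
    intro l h
    ext m
    rw [Multiset.mem_toFinset]
    constructor
    · intro hm
      have h1 := hcount l h m hm
      rw [← Multiset.count_pos, h1, Multiset.count_pos]
      exact h
    · exact (hl l h).1 m
  refine ⟨s.toFinset, ?_, ?_, ?_⟩
  · rw [Multiset.toFinset_nonempty]
    rintro rfl
    have := hsum 1
    simp at this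
    exact hχ.one_ne_zero this
  · intro l h
    rw [Multiset.mem_toFinset] at h
    refine ⟨hs l h, horb l h, ⟨hχ.isClassFn, (hl l h).2⟩, Multiset.count l s,
      Multiset.count_pos.2 h, hmu l (hs l h), ?_⟩
    have h1 : χ 1 = s.sum 1 := by
      have := hsum 1
      simpa using this
    rw [h1, Finset.sum_multiset_count, Finset.sum_apply]
    have h2 : ∀ m ∈ s.toFinset, (Multiset.count m s • m) 1 = (Multiset.count l s : ℂ) * l 1 := by
      intro m hm
      rw [← horb l h] at hm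
      rw [Pi.smul_apply, hcount l h m hm, nsmul_eq_mul, one_orb hm]
    rw [Finset.sum_congr rfl h2, Finset.sum_const, nsmul_eq_mul]
    ring
  · intro l h hne
    rw [hmu l h] at hne
    rw [Multiset.mem_toFinset, ← Multiset.count_pos]
    by_contra h3
    have h0 : Multiset.count l s = 0 := by omega
    rw [h0] at hne
    simp at hne

theorem sum_mu (l : N → ℂ) : ∑ χ ∈ irrs G, χ 1 * mu χ l = l 1 * Fintype.card G := by
  classical
  have h1 : ∑ χ ∈ irrs G, χ 1 * mu χ l = ∑ n : N, l n * ∑ χ ∈ irrs G, χ 1 * χ ((n⁻¹ : N) : G) := by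
    unfold mu
    simp only [Finset.mul_sum]
    rw [Finset.sum_comm]
    refine Finset.sum_congr rfl fun n _ => Finset.sum_congr rfl fun χ _ => ?_
    ring
  rw [h1]
  simp only [sum_deg]
  rw [Finset.sum_eq_single (1 : N)]
  · simp
  · intro n _ hn
    have : ¬ (((n⁻¹ : N) : G) = 1) := by simpa using hn
    rw [if_neg this, mul_zero]
  · intro h; exact absurd (Finset.mem_univ _) h

theorem card_mul (N : Subgroup G) : (Nat.card G : ℝ) = Nat.card (G ⧸ N) * Nat.card N := by
  exact_mod_cast Subgroup.card_eq_card_quotient_mul_card_subgroup N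

/-- the characters over one orbit -/
theorem block (O : (G → ℂ) → Finset (N → ℂ))
    (hO : ∀ χ ∈ irrs G, (O χ).Nonempty ∧ (∀ l ∈ O χ, IsIrrChar l ∧ orb N l = O χ ∧
      χ ∈ WO (G := G) l ∧
      ∃ e : ℕ, 0 < e ∧ mu χ l = e * Nat.card N ∧ χ 1 = e * (O χ).card * l 1) ∧
      ∀ l : N → ℂ, IsIrrChar l → mu χ l ≠ 0 → l ∈ O χ)
    (P : Finset (N → ℂ)) (B : Finset (G → ℂ)) (hB : ∀ χ, χ ∈ B ↔ χ ∈ irrs G ∧ O χ = P)
    (hne : B.Nonempty) :
    (∀ χ ∈ B, (P.card : ℝ) ≤ ‖χ 1‖) ∧
    (P.card : ℝ) * Nat.card (G ⧸ N) ≤ ∑ χ ∈ B, ‖χ 1‖ ^ 2 ∧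
    (B.card : ℝ) ≤ Nat.card (ConjClasses (G ⧸ N)) * P.card ∧ 1 ≤ (P.card : ℝ) := by
  classical
  obtain ⟨χ₀, hχ₀⟩ := hne
  obtain ⟨hχ₀i, hχ₀P⟩ := (hB χ₀).1 hχ₀
  obtain ⟨l, hl⟩ := (hO χ₀ hχ₀i).1
  obtain ⟨hlirr, horb, -, -⟩ := (hO χ₀ hχ₀i).2.1 l hl
  rw [hχ₀P] at hl horb
  have hPpos : 0 < P.card := Finset.card_pos.2 ⟨l, hl⟩
  have hl1 := one_le_deg hlirr
  have hNr : (0 : ℝ) < Nat.card N := by exact_mod_cast Nat.card_pos
  have hNc : (Nat.card N : ℂ) ≠ 0 := by exact_mod_cast Nat.card_pos.ne'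
  -- data for the members of the block
  have hd : ∀ χ ∈ B, ∃ e : ℝ, 1 ≤ e ∧ (e : ℂ) * Nat.card N = mu χ l ∧
      ‖χ 1‖ = e * P.card * ‖l 1‖ := by
    intro χ h
    obtain ⟨h1, h2⟩ := (hB χ).1 h
    obtain ⟨-, -, -, e, he, hmu, hval⟩ := (hO χ h1).2.1 l (by rw [h2]; exact hl)
    rw [h2] at hval
    refine ⟨e, by exact_mod_cast he, by rw [hmu]; push_cast; rfl, ?_⟩
    rw [hval]; simp
  refine ⟨?_, ?_, ?_, by exact_mod_cast hPpos⟩
  · intro χ h
    obtain ⟨e, he, -, hv⟩ := hd χ h
    rw [hv]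
    have h1 : (1 : ℝ) ≤ e * ‖l 1‖ := one_le_mul_of_one_le_of_one_le he hl1
    have h2 : (0 : ℝ) ≤ P.card := Nat.cast_nonneg _
    nlinarith
  · choose! e he hmu hv using hd
    have h1 : ∑ χ ∈ B, χ 1 * mu χ l = l 1 * Fintype.card G := by
      rw [← sum_mu (G := G) l]
      refine Finset.sum_subset (fun χ h => ((hB χ).1 h).1) fun χ h h' => ?_
      have h2 : mu χ l = 0 := by
        by_contra hne
        apply h'
        have h3 := (hO χ h).2.2 l hlirr hne
        have h4 := ((hO χ h).2.1 l h3).2.1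
        exact (hB χ).2 ⟨h, by rw [← h4, horb]⟩
      rw [h2, mul_zero]
    have h2 : ∑ χ ∈ B, ‖χ 1‖ * (e χ * Nat.card N) = ‖l 1‖ * Nat.card G := by
      have h3 : ((∑ χ ∈ B, ‖χ 1‖ * (e χ * Nat.card N) : ℝ) : ℂ) = ((‖l 1‖ * Nat.card G : ℝ) : ℂ) := by
        push_cast
        rw [norm_deg hlirr, Nat.card_eq_fintype_card (α := G), ← h1]
        refine Finset.sum_congr rfl fun χ h => ?_
        rw [norm_deg (mem_irrs.1 ((hB χ).1 h).1), hmu χ h]
      exact_mod_cast h3
    have h3 : ∑ χ ∈ B, ‖χ 1‖ * e χ = ‖l 1‖ * Nat.card (G ⧸ N) := by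
      rw [card_mul N] at h2
      have h4 : (∑ χ ∈ B, ‖χ 1‖ * e χ) * Nat.card N = ‖l 1‖ * Nat.card (G ⧸ N) * Nat.card N := by
        rw [Finset.sum_mul]
        calc ∑ χ ∈ B, ‖χ 1‖ * e χ * Nat.card N = ∑ χ ∈ B, ‖χ 1‖ * (e χ * Nat.card N) :=
              Finset.sum_congr rfl fun χ _ => by ring
          _ = ‖l 1‖ * (Nat.card (G ⧸ N) * Nat.card N) := h2
          _ = _ := by ring
      exact mul_right_cancel₀ hNr.ne' h4
    have h4 : ∑ χ ∈ B, ‖χ 1‖ ^ 2 = P.card * ‖l 1‖ * (‖l 1‖ * Nat.card (G ⧸ N)) := by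
      rw [← h3, Finset.mul_sum]
      refine Finset.sum_congr rfl fun χ h => ?_
      rw [pow_two]
      nth_rewrite 2 [hv χ h]
      ring
    rw [h4]
    have h5 : (1 : ℝ) ≤ ‖l 1‖ * ‖l 1‖ := one_le_mul_of_one_le_of_one_le hl1 hl1
    have h6 : (0 : ℝ) ≤ P.card * Nat.card (G ⧸ N) := by positivity
    nlinarith
  · have h1 : B.card ≤ finrank ℂ (WO (G := G) l) := by
      let v : B → WO (G := G) l := fun χ => ⟨χ.1, by
        obtain ⟨h1, h2⟩ := (hB χ.1).1 χ.2
        exact ((hO χ.1 h1).2.1 l (by rw [h2]; exact hl)).2.2.1⟩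
      have hv : LinearIndependent ℂ v := by
        have h2 : LinearIndependent ℂ (fun χ : B => χ.1) := by
          have h3 := (irr_linearIndependent (G := G)).comp
            (fun χ : B => (⟨χ.1, mem_irrs.1 ((hB χ.1).1 χ.2).1⟩ : {χ : G → ℂ // IsIrrChar χ}))
            (fun a b h => Subtype.ext (by have h5 := congrArg Subtype.val h; exact h5))
          exact h3
        exact LinearIndependent.of_comp (WO (G := G) l).subtype h2
      have h4 := hv.fintype_card_le_finrank
      rwa [Fintype.card_coe] at h4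
    have h2 := WO_finrank (G := G) l hlirr
    rw [horb] at h2
    exact_mod_cast h1.trans h2

/-- the main inequality -/
theorem main_fin (N : Subgroup G) [N.Normal] [Fintype N] :
    (Nat.card (G ⧸ N) : ℝ) ≤ (Nat.card (ConjClasses (G ⧸ N)) : ℝ) ^ 2 * acd G ^ 3 := by
  classical
  have hdat : ∀ χ : G → ℂ, ∃ O : Finset (N → ℂ), χ ∈ irrs G → (O.Nonempty ∧ (∀ l ∈ O, IsIrrChar l ∧
      orb N l = O ∧ χ ∈ WO (G := G) l ∧
      ∃ e : ℕ, 0 < e ∧ mu χ l = e * Nat.card N ∧ χ 1 = e * O.card * l 1) ∧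
      ∀ l : N → ℂ, IsIrrChar l → mu χ l ≠ 0 → l ∈ O) := by
    intro χ
    by_cases h : χ ∈ irrs G
    · obtain ⟨O, hO⟩ := char_data (mem_irrs.1 h) N
      exact ⟨O, fun _ => hO⟩
    · exact ⟨∅, fun h' => absurd h' h⟩
  choose O hO using hdat
  -- the average
  have hne : (irrs G).Nonempty := by
    by_contra h
    rw [Finset.not_nonempty_iff_eq_empty] at h
    have h1 := sum_deg (G := G) 1
    rw [h, Finset.sum_empty, if_pos rfl] at h1
    exact Fintype.card_ne_zero (by exact_mod_cast h1.symm)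
  have hcard : Nat.card {χ : G → ℂ // IsIrrChar χ} = (irrs G).card := by
    exact (Nat.card_coe_set_eq {χ : G → ℂ | IsIrrChar χ}).trans
      (Set.ncard_eq_toFinset_card _ (irr_finite (G := G)))
  have hsum : ∑ᶠ χ : {χ : G → ℂ // IsIrrChar χ}, ‖χ.1 1‖ = ∑ χ ∈ irrs G, ‖χ 1‖ := by
    have : Fintype {χ : G → ℂ // IsIrrChar χ} := (irr_finite (G := G)).fintype
    rw [finsum_eq_sum_of_fintype]
    refine (Finset.sum_subtype (irrs G) (fun χ => mem_irrs) (fun χ => ‖χ 1‖)).symm
  have hpos : (0 : ℝ) < (irrs G).card := by exact_mod_cast Finset.card_pos.2 hne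
  have hacd : ∑ χ ∈ irrs G, ‖χ 1‖ = acd G * (irrs G).card := by
    rw [acd, hcard, hsum, div_mul_cancel₀ _ hpos.ne']
  have ha0 : 0 ≤ acd G := by
    rw [acd, hsum]
    positivity
  by_contra hcon
  push Not at hcon
  set a := acd G with ha
  set k : ℝ := (Nat.card (ConjClasses (G ⧸ N)) : ℝ) with hk
  set H : ℝ := (Nat.card (G ⧸ N) : ℝ) with hH
  have hH0 : 0 < H := by rw [hH]; exact_mod_cast Nat.card_pos
  have hblock : ∀ P ∈ (irrs G).image O,
      a * ((irrs G).filter (fun χ => O χ = P)).card < ∑ χ ∈ (irrs G).filter (fun χ => O χ = P), ‖χ 1‖ := by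
    intro P hP
    obtain ⟨χ₀, h1, h2⟩ := Finset.mem_image.1 hP
    have hB : ∀ χ, χ ∈ (irrs G).filter (fun χ => O χ = P) ↔ χ ∈ irrs G ∧ O χ = P := fun χ =>
      Finset.mem_filter
    have hBne : ((irrs G).filter (fun χ => O χ = P)).Nonempty := ⟨χ₀, (hB χ₀).2 ⟨h1, h2⟩⟩
    obtain ⟨b1, b2, b3, b4⟩ := block O hO P _ hB hBne
    set B := (irrs G).filter (fun χ => O χ = P) with hBdef
    have hBpos : (0 : ℝ) < B.card := by exact_mod_cast Finset.card_pos.2 hBne
    have hsq : ∑ χ ∈ B, ‖χ 1‖ ^ 2 ≤ (∑ χ ∈ B, ‖χ 1‖) ^ 2 :=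
      Finset.sum_sq_le_sq_sum_of_nonneg fun χ _ => norm_nonneg _
    have hS0 : 0 ≤ ∑ χ ∈ B, ‖χ 1‖ := Finset.sum_nonneg fun χ _ => norm_nonneg _
    rcases lt_or_ge a P.card with hlt | hge
    · calc a * B.card < P.card * B.card := by nlinarith
        _ = ∑ χ ∈ B, (P.card : ℝ) := by rw [Finset.sum_const, nsmul_eq_mul, mul_comm]
        _ ≤ _ := Finset.sum_le_sum b1
    · have h3 : (a * B.card) ^ 2 < (∑ χ ∈ B, ‖χ 1‖) ^ 2 := by
        refine lt_of_lt_of_le ?_ (b2.trans hsq)
        have hP0 : (0 : ℝ) < P.card := by linarith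
        have h5 : (a * B.card) ^ 2 ≤ (a * (k * P.card)) ^ 2 := by
          apply pow_le_pow_left₀ (by positivity)
          exact mul_le_mul_of_nonneg_left b3 ha0
        have h6 : (a * (k * P.card)) ^ 2 ≤ P.card * (k ^ 2 * a ^ 3) := by
          have h7 : (P.card : ℝ) * (k ^ 2 * a ^ 3) - (a * (k * P.card)) ^ 2 =
              (k * a) ^ 2 * P.card * (a - P.card) := by ring
          have h8 : 0 ≤ (k * a) ^ 2 * P.card * (a - P.card) :=
            mul_nonneg (by positivity) (by linarith)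
          linarith
        have h7 : (P.card : ℝ) * (k ^ 2 * a ^ 3) < P.card * H := mul_lt_mul_of_pos_left hcon hP0
        linarith
      exact lt_of_pow_lt_pow_left₀ 2 hS0 h3
  have htot : a * (irrs G).card < ∑ χ ∈ irrs G, ‖χ 1‖ := by
    rw [← Finset.sum_fiberwise_of_maps_to (s := irrs G) (t := (irrs G).image O) (g := O)
      (fun χ h => Finset.mem_image_of_mem O h) (fun χ => ‖χ 1‖),
      Finset.card_eq_sum_card_fiberwise (s := irrs G) (t := (irrs G).image O) (f := O)
      (fun χ h => Finset.mem_image_of_mem O h)]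
    push_cast
    rw [Finset.mul_sum]
    exact Finset.sum_lt_sum_of_nonempty (hne.image O) hblock
  rw [hacd] at htot
  exact lt_irrefl _ htot

end

/-- the main inequality -/
theorem main (G : Type*) [Group G] [Finite G] (N : Subgroup G) [N.Normal] :
    (Nat.card (G ⧸ N) : ℝ) ≤ (Nat.card (ConjClasses (G ⧸ N)) : ℝ) ^ 2 * acd G ^ 3 := by
  have := Fintype.ofFinite G
  have := Fintype.ofFinite N
  exact main_fin N

end Pool.Agent.RadIndex

end
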