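import Pool.Agent.Work.MP_76dc41_al.Bd.B01
import Pool.Agent.Work.MP_76dc41_al.Part

/-! Bundle of small proof modules (one section per former module). -/

section

/-!
# Groups with few conjugacy classes
-/

set_option autoImplicit false

namespace Pool.Agent.RadIndex

/-- the number of conjugacy classes -/
noncomputable def kcl (H : Type*) [Group H] : ℕ := Nat.card (ConjClasses H)

theorem kcl_pos (H : Type*) [Group H] [Finite H] : 0 < kcl H := by
  have : Nonempty (ConjClasses H) := ⟨ConjClasses.mk 1⟩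
  exact Nat.card_pos

theorem kcl_prob (H : Type*) [Group H] [Finite H] : (kcl H : ℚ) = commProb H * Nat.card H := by
  rw [commProb_def', kcl, div_mul_cancel₀]
  exact_mod_cast Nat.card_pos.ne'

theorem kcl_congr {H K : Type*} [Group H] [Group K] (e : H ≃* K) : kcl H = kcl K := by
  unfold kcl
  refine Nat.card_congr ⟨ConjClasses.map e.toMonoidHom, ConjClasses.map e.symm.toMonoidHom, ?_, ?_⟩
  · intro C
    obtain ⟨x, rfl⟩ := ConjClasses.exists_rep C
    change ConjClasses.mk (e.symm (e x)) = _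
    rw [e.symm_apply_apply]
  · intro C
    obtain ⟨x, rfl⟩ := ConjClasses.exists_rep C
    change ConjClasses.mk (e (e.symm x)) = _
    rw [e.apply_symm_apply]

theorem kcl_pi {ι : Type*} [Fintype ι] (H : ι → Type*) [∀ i, Group (H i)] [∀ i, Finite (H i)] :
    kcl (∀ i, H i) = ∏ i, kcl (H i) := by
  have h : (kcl (∀ i, H i) : ℚ) = ((∏ i, kcl (H i) : ℕ) : ℚ) := by
    rw [kcl_prob, commProb_pi, Nat.card_pi]
    push_cast
    rw [← Finset.prod_mul_distrib]
    exact Finset.prod_congr rfl fun i _ => (kcl_prob (H i)).symm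
  exact_mod_cast h

theorem kcl_subgroup {H : Type*} [Group H] [Finite H] (K : Subgroup H) :
    kcl K ≤ K.index * kcl H := by
  have h1 := Subgroup.commProb_subgroup_le K
  have hK : (0 : ℚ) < Nat.card K := by exact_mod_cast Nat.card_pos
  have h2 : (kcl K : ℚ) ≤ K.index * kcl H := by
    rw [kcl_prob K, kcl_prob H]
    have h3 : (Nat.card H : ℚ) = Nat.card K * K.index := by exact_mod_cast K.card_mul_index.symm
    calc commProb K * Nat.card K ≤ commProb H * (K.index : ℚ) ^ 2 * Nat.card K :=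
          mul_le_mul_of_nonneg_right h1 hK.le
      _ = K.index * (commProb H * Nat.card H) := by rw [h3]; ring
  exact_mod_cast h2

/-- few conjugacy classes: `k(H)^8 ≤ |H|` -/
def Few (H : Type*) [Group H] : Prop := kcl H ^ 8 ≤ Nat.card H

theorem Few.congr {H K : Type*} [Group H] [Group K] (e : H ≃* K) (h : Few K) : Few H := by
  unfold Few at *
  rw [kcl_congr e, Nat.card_congr e.toEquiv]
  exact h

theorem Few.pi {ι : Type*} [Fintype ι] (H : ι → Type*) [∀ i, Group (H i)] [∀ i, Finite (H i)]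
    (h : ∀ i, Few (H i)) : Few (∀ i, H i) := by
  unfold Few at *
  rw [kcl_pi, Nat.card_pi, ← Finset.prod_pow]
  exact Finset.prod_le_prod' fun i _ => h i

theorem kcl_perm (n : ℕ) : kcl (Equiv.Perm (Fin n)) ≤ pn n := by
  classical
  unfold kcl pn
  rw [← Nat.card_eq_fintype_card]
  have e : Fintype.card (Fin n) = n := Fintype.card_fin n
  have h : Nat.card (ConjClasses (Equiv.Perm (Fin n))) ≤
      Nat.card (Nat.Partition (Fintype.card (Fin n))) := by
    refine Nat.card_le_card_of_injective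
      (fun C => Quotient.lift (fun σ : Equiv.Perm (Fin n) => σ.partition)
        (fun a b hab => Equiv.Perm.partition_eq_of_isConj.1 hab) C) ?_
    intro C D h
    obtain ⟨σ, rfl⟩ := ConjClasses.exists_rep C
    obtain ⟨τ, rfl⟩ := ConjClasses.exists_rep D
    exact ConjClasses.mk_eq_mk_iff_isConj.2 (Equiv.Perm.partition_eq_of_isConj.2 h)
  rwa [e] at h

theorem few_perm (n : ℕ) (hn : 31 ≤ n) : Few (Equiv.Perm (Fin n)) := by
  unfold Few
  have h1 := pn_bound n hn
  have h2 : Nat.card (Equiv.Perm (Fin n)) = n.factorial := by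
    rw [Nat.card_eq_fintype_card, Fintype.card_perm, Fintype.card_fin]
  rw [h2]
  calc kcl (Equiv.Perm (Fin n)) ^ 8 ≤ pn n ^ 8 := Nat.pow_le_pow_left (kcl_perm n) 8
    _ ≤ (2 * pn n) ^ 8 := Nat.pow_le_pow_left (by omega) 8
    _ ≤ 2 * (2 * pn n) ^ 8 := by omega
    _ ≤ _ := h1

theorem few_alt (n : ℕ) (hn : 31 ≤ n) : Few (alternatingGroup (Fin n)) := by
  unfold Few
  have h1 := pn_bound n hn
  have : Nontrivial (Fin n) := Fin.nontrivial_iff_two_le.2 (by omega)
  have h2 : 2 * Nat.card (alternatingGroup (Fin n)) = n.factorial := by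
    rw [two_mul_nat_card_alternatingGroup, Nat.card_eq_fintype_card, Fintype.card_perm,
      Fintype.card_fin]
  have hidx : (alternatingGroup (Fin n)).index = 2 := by
    have h3 := (alternatingGroup (Fin n)).card_mul_index
    have h4 : 0 < Nat.card (alternatingGroup (Fin n)) := Nat.card_pos
    have h5 : Nat.card (Equiv.Perm (Fin n)) = 2 * Nat.card (alternatingGroup (Fin n)) :=
      two_mul_nat_card_alternatingGroup.symm
    rw [h5, mul_comm] at h3
    exact Nat.eq_of_mul_eq_mul_right h4 h3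
  have h3 := kcl_subgroup (alternatingGroup (Fin n))
  rw [hidx] at h3
  have h4 : kcl (alternatingGroup (Fin n)) ≤ 2 * pn n :=
    h3.trans (Nat.mul_le_mul_left _ (kcl_perm n))
  have h5 := Nat.pow_le_pow_left h4 8
  omega

/-- the corollary for groups with few classes -/
theorem few_main (G : Type*) [Group G] [Finite G] (N : Subgroup G) [N.Normal] (h : Few (G ⧸ N)) :
    (Nat.card (G ⧸ N) : ℝ) ≤ acd G ^ 4 := by
  have h1 := main G N
  set H : ℝ := (Nat.card (G ⧸ N) : ℝ) with hH
  have hH0 : 0 < H := by rw [hH]; exact_mod_cast Nat.card_pos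
  have hk : ((Nat.card (ConjClasses (G ⧸ N)) : ℝ)) ^ 8 ≤ H := by
    rw [hH]; exact_mod_cast h
  set k : ℝ := (Nat.card (ConjClasses (G ⧸ N)) : ℝ) with hkdef
  have ha : 0 ≤ acd G := by
    unfold acd
    refine div_nonneg (finsum_nonneg fun _ => norm_nonneg _) (Nat.cast_nonneg _)
  set a := acd G with hadef
  have h2 : H ^ 4 ≤ (k ^ 2 * a ^ 3) ^ 4 := pow_le_pow_left₀ hH0.le h1 4
  have h3 : (k ^ 2 * a ^ 3) ^ 4 = k ^ 8 * (a ^ 4) ^ 3 := by ring
  have h4 : k ^ 8 * (a ^ 4) ^ 3 ≤ H * (a ^ 4) ^ 3 := by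
    have : 0 ≤ (a ^ 4) ^ 3 := by positivity
    exact mul_le_mul_of_nonneg_right hk this
  have h5 : H * H ^ 3 ≤ H * (a ^ 4) ^ 3 := by
    calc H * H ^ 3 = H ^ 4 := by ring
      _ ≤ _ := h2
      _ = _ := h3
      _ ≤ _ := h4
  have h6 : H ^ 3 ≤ (a ^ 4) ^ 3 := le_of_mul_le_mul_left h5 hH0
  exact le_of_pow_le_pow_left₀ (by norm_num) (by positivity) h6

end Pool.Agent.RadIndex

end

section

/-!
# The number of conjugacy classes of `GL_n(q)` is at most `2^(n-1) q^n`
-/

set_option autoImplicit false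

namespace Pool.Agent.RadIndex

open Polynomial Module

variable {F : Type} [Field F] {n : ℕ}

/-- the monic polynomial of a block -/
noncomputable def gpol (c : Composition n) (v : Fin n → F) (i : Fin c.length) : F[X] :=
  X ^ (c.blocksFun i) + ∑ j : Fin (c.blocksFun i), C (v (c.embedding i j)) * X ^ (j : ℕ)

/-- the module of the data -/
abbrev Dmod (c : Composition n) (v : Fin n → F) : Type :=
  ∀ i : Fin c.length, F[X] ⧸ Ideal.span {gpol c v i}

theorem exists_data {k : ℕ} (f : Fin k → F[X]) (hm : ∀ i, (f i).Monic)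
    (hd : ∀ i, 0 < (f i).natDegree) (hs : ∑ i, (f i).natDegree = n) :
    ∃ (c : Composition n) (v : Fin n → F),
      Nonempty ((∀ i : Fin k, F[X] ⧸ Ideal.span {f i}) ≃ₗ[F[X]] Dmod c v) := by
  let c : Composition n := ⟨List.ofFn fun i => (f i).natDegree, by
    intro i hi
    rw [List.mem_ofFn] at hi
    obtain ⟨j, rfl⟩ := hi
    exact hd j, by rw [List.sum_ofFn]; exact hs⟩
  have hk : c.length = k := List.length_ofFn
  have hb : ∀ i : Fin c.length, c.blocksFun i = (f (Fin.cast hk i)).natDegree := by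
    intro i
    change (List.ofFn fun i => (f i).natDegree).get i = _
    rw [List.get_ofFn]
  let v : Fin n → F := fun x => (f (Fin.cast hk (c.index x))).coeff (c.invEmbedding x)
  have hg : ∀ i : Fin c.length, gpol c v i = f (Fin.cast hk i) := by
    intro i
    have h1 := (hm (Fin.cast hk i)).as_sum
    rw [h1]
    unfold gpol
    have h2 : ∀ j : Fin (c.blocksFun i), v (c.embedding i j) = (f (Fin.cast hk i)).coeff j := by
      intro j
      change (f (Fin.cast hk (c.index (c.embedding i j)))).coeff (c.invEmbedding (c.embedding i j)) = _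
      rw [c.invEmbedding_comp, c.index_embedding]
    rw [Finset.sum_congr rfl fun j _ => by rw [h2 j],
      Fin.sum_univ_eq_sum_range (fun j => C ((f (Fin.cast hk i)).coeff j) * X ^ j) (c.blocksFun i),
      hb i]
  refine ⟨c, v, ⟨?_⟩⟩
  refine (LinearEquiv.piCongrLeft' F[X] (fun i : Fin k => F[X] ⧸ Ideal.span {f i})
    (finCongr hk).symm).trans (LinearEquiv.piCongrRight fun i => ?_)
  refine Submodule.quotEquivOfEq _ _ ?_
  rw [hg i]
  rfl

/-- trivial factors may be dropped -/
theorem drop_trivial {R : Type*} [Ring R] {ι : Type*} (M : ι → Type*)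
    [∀ i, AddCommGroup (M i)] [∀ i, Module R (M i)] (P : ι → Prop)
    (h : ∀ i, ¬ P i → Subsingleton (M i)) :
    Nonempty ((∀ i, M i) ≃ₗ[R] ∀ i : {i // P i}, M i.1) := by
  classical
  refine ⟨LinearEquiv.ofBijective
    (LinearMap.pi fun i : {i // P i} => LinearMap.proj i.1) ⟨?_, ?_⟩⟩
  · intro x y hxy
    funext i
    by_cases hi : P i
    · exact congrFun hxy ⟨i, hi⟩
    · exact (h i hi).elim _ _
  · intro y
    refine ⟨fun i => if hi : P i then y ⟨i, hi⟩ else 0, ?_⟩
    funext i
    change (if hi : P i.1 then y ⟨i.1, hi⟩ else 0) = y i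
    rw [dif_pos i.2]

theorem exists_list (A : Module.End F (Fin n → F)) :
    ∃ (k : ℕ) (f : Fin k → F[X]), (∀ i, (f i).Monic) ∧ (∀ i, 0 < (f i).natDegree) ∧
      (∑ i, (f i).natDegree = n) ∧
      Nonempty (AEval' A ≃ₗ[F[X]] ∀ i : Fin k, F[X] ⧸ Ideal.span {f i}) := by
  classical
  obtain ⟨ι, _, p, hp, e, ⟨E⟩⟩ := Module.equiv_directSum_of_isTorsion
    (AEval.isTorsion_of_finiteDimensional F (Fin n → F) A)
  let g : ι → F[X] := fun i => normalize (p i ^ e i)
  have hg : ∀ i, (g i).Monic := fun i => monic_normalize (pow_ne_zero _ (hp i).ne_zero)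
  have E1 : (DirectSum ι fun i => F[X] ⧸ Submodule.span F[X] {p i ^ e i}) ≃ₗ[F[X]]
      ∀ i, F[X] ⧸ Ideal.span {g i} :=
    (DirectSum.linearEquivFunOnFintype F[X] ι _).trans (LinearEquiv.piCongrRight fun i =>
      Submodule.quotEquivOfEq _ _ (Ideal.span_singleton_eq_span_singleton.2
        (associated_normalize (p i ^ e i))))
  obtain ⟨E2⟩ := drop_trivial (R := F[X]) (fun i => F[X] ⧸ Ideal.span {g i})
    (fun i => 0 < (g i).natDegree) (by
      intro i hi
      have h1 : (g i).natDegree = 0 := by omega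
      have h2 : g i = 1 := (hg i).natDegree_eq_zero.1 h1
      change Subsingleton (F[X] ⧸ Ideal.span {g i})
      rw [h2, Ideal.span_singleton_one]
      exact Ideal.Quotient.subsingleton_iff.2 rfl)
  let eqv : {i // 0 < (g i).natDegree} ≃ Fin (Fintype.card {i // 0 < (g i).natDegree}) :=
    Fintype.equivFin _
  let f : Fin (Fintype.card {i // 0 < (g i).natDegree}) → F[X] := fun j => g (eqv.symm j).1
  have E3 : (∀ i : {i // 0 < (g i).natDegree}, F[X] ⧸ Ideal.span {g i.1}) ≃ₗ[F[X]]
      ∀ j, F[X] ⧸ Ideal.span {f j} :=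
    LinearEquiv.piCongrLeft' F[X]
      (fun i : {i // 0 < (g i).natDegree} => F[X] ⧸ Ideal.span {g i.1}) eqv
  have E4 := ((E.trans E1).trans E2).trans E3
  refine ⟨_, f, fun j => hg _, fun j => (eqv.symm j).2, ?_, ⟨E4⟩⟩
  have h1 : Module.finrank F (AEval' A) = n := by
    rw [← (AEval'.of A).finrank_eq, Module.finrank_fintype_fun_eq_card, Fintype.card_fin]
  have h2 := (E4.restrictScalars F).finrank_eq
  have hfin : ∀ j, Module.Finite F (F[X] ⧸ Ideal.span {f j}) := fun j => (hg _).finite_quotient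
  rw [h1, Module.finrank_pi_fintype] at h2
  rw [h2]
  exact Finset.sum_congr rfl fun j _ => finrank_quotient_span_eq_natDegree.symm

/-- an isomorphism of modules gives a conjugation -/
theorem conj_of_iso (A B : LinearMap.GeneralLinearGroup F (Fin n → F))
    (e : AEval' (A : Module.End F (Fin n → F)) ≃ₗ[F[X]] AEval' (B : Module.End F (Fin n → F))) :
    IsConj A B := by
  let T : (Fin n → F) ≃ₗ[F] (Fin n → F) :=
    ((AEval'.of (A : Module.End F (Fin n → F))).trans (e.restrictScalars F)).trans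
      (AEval'.of (B : Module.End F (Fin n → F))).symm
  have hT : ∀ v, T ((A : Module.End F (Fin n → F)) v) = (B : Module.End F (Fin n → F)) (T v) := by
    intro v
    change (AEval'.of (B : Module.End F (Fin n → F))).symm
      (e (AEval'.of (A : Module.End F (Fin n → F)) ((A : Module.End F (Fin n → F)) v))) =
      (B : Module.End F (Fin n → F)) ((AEval'.of (B : Module.End F (Fin n → F))).symm
        (e (AEval'.of (A : Module.End F (Fin n → F)) v)))
    rw [← AEval'.X_smul_of, map_smul, AEval'.of_symm_X_smul]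
  rw [isConj_iff]
  refine ⟨LinearMap.GeneralLinearGroup.ofLinearEquiv T, ?_⟩
  rw [mul_inv_eq_iff_eq_mul]
  ext1
  refine LinearMap.ext fun v => ?_
  exact hT v

/-- the number of conjugacy classes of the general linear group -/
theorem kcl_GL (n : ℕ) (F : Type) [Field F] [Finite F] :
    kcl (Matrix.GeneralLinearGroup (Fin n) F) ≤ 2 ^ (n - 1) * Nat.card F ^ n := by
  classical
  have := Fintype.ofFinite F
  rw [kcl_congr (Matrix.GeneralLinearGroup.toLin (n := Fin n) (R := F))]
  have key : ∀ A : LinearMap.GeneralLinearGroup F (Fin n → F),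
      ∃ d : Composition n × (Fin n → F),
        Nonempty (AEval' (A : Module.End F (Fin n → F)) ≃ₗ[F[X]] Dmod d.1 d.2) := by
    intro A
    obtain ⟨k, f, h1, h2, h3, ⟨e⟩⟩ := exists_list (A : Module.End F (Fin n → F))
    obtain ⟨c, v, ⟨e'⟩⟩ := exists_data f h1 h2 h3
    exact ⟨(c, v), ⟨e.trans e'⟩⟩
  choose d hd using key
  have hc : Nat.card (Composition n × (Fin n → F)) = 2 ^ (n - 1) * Nat.card F ^ n := by
    rw [Nat.card_prod, Nat.card_eq_fintype_card, composition_card, Nat.card_fun, Nat.card_fin]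
  unfold kcl
  rw [← hc]
  refine Nat.card_le_card_of_injective (fun C => d C.out) ?_
  intro C D h
  obtain ⟨e1⟩ := hd C.out
  obtain ⟨e2⟩ := hd D.out
  have h' : d C.out = d D.out := h
  rw [h'] at e1
  have h3 := conj_of_iso _ _ (e1.trans e2.symm)
  rw [← Quotient.out_eq C, ← Quotient.out_eq D]
  exact Quotient.sound h3

end Pool.Agent.RadIndex

end

section

/-!
# The criterion in terms of a subgroup of the quotient
-/

set_option autoImplicit false

namespace Pool.Agent.RadIndex

open Subgroup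

theorem cent_card {H : Type*} [Group H] [Finite H] (U : Subgroup H) (x : H) :
    Nat.card {y : H // Commute x y} ≤ U.index * Nat.card {u : U // Commute x (u : H)} := by
  set C : Subgroup H := Subgroup.centralizer {x} with hC
  have hmem : ∀ y : H, y ∈ C ↔ Commute x y := by
    intro y
    rw [hC, Subgroup.mem_centralizer_singleton_iff]
    exact ⟨fun h => h.symm, fun h => h.symm⟩
  have h1 : Nat.card {y : H // Commute x y} = Nat.card C :=
    Nat.card_congr (Equiv.subtypeEquivRight fun y => (hmem y).symm)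
  have h2 : Nat.card {u : U // Commute x (u : H)} = Nat.card (C.subgroupOf U) :=
    Nat.card_congr (Equiv.subtypeEquivRight fun u => by
      rw [Subgroup.mem_subgroupOf]; exact (hmem u).symm)
  have h3 : Nat.card (C.subgroupOf U) = Nat.card (U.subgroupOf C) := by
    refine Nat.card_congr ⟨fun z => ⟨⟨z.1.1, z.2⟩, z.1.2⟩, fun z => ⟨⟨z.1.1, z.2⟩, z.1.2⟩, ?_, ?_⟩
    · intro z; rfl
    · intro z; rfl
  have h4 : Nat.card (U.subgroupOf C) * (U.subgroupOf C).index = Nat.card C :=
    (U.subgroupOf C).card_mul_index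
  have h5 : (U.subgroupOf C).index ≤ U.index := by
    have h6 := Subgroup.relIndex_le_of_le_right (H := U) (K := C) (L := ⊤) le_top
      (by rw [Subgroup.relIndex_top_right]; exact Subgroup.FiniteIndex.index_ne_zero)
    rwa [Subgroup.relIndex_top_right] at h6
  rw [h1, h2, h3, ← h4, mul_comm]
  exact Nat.mul_le_mul_right _ h5

/-- `k(H) ≤ |H : U| k(U)` -/
theorem kcl_le {H : Type*} [Group H] [Finite H] (U : Subgroup H) :
    kcl H ≤ U.index * kcl U := by
  classical
  have := Fintype.ofFinite H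
  have := Fintype.ofFinite U
  have hp : ∀ (A B : Type _) [Finite A] [Finite B] (r : A → B → Prop),
      Nat.card {p : A × B // r p.1 p.2} = ∑ᶠ a : A, Nat.card {b : B // r a b} := by
    intro A B _ _ r
    have := Fintype.ofFinite A
    rw [finsum_eq_sum_of_fintype, ← Nat.card_sigma]
    refine Nat.card_congr ⟨fun p => ⟨p.1.1, p.1.2, p.2⟩, fun p => ⟨(p.1, p.2.1), p.2.2⟩, ?_, ?_⟩
    · intro p; rfl
    · intro p; rfl
  have hA := card_comm_eq_card_conjClasses_mul_card H
  have hB := card_comm_eq_card_conjClasses_mul_card U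
  have h1 : Nat.card {p : H × H // Commute p.1 p.2} ≤
      U.index * Nat.card {p : H × U // Commute p.1 (p.2 : H)} := by
    rw [hp H H (fun x y => Commute x y), hp H U (fun x y => Commute x (y : H)),
      finsum_eq_sum_of_fintype, finsum_eq_sum_of_fintype, Finset.mul_sum]
    exact Finset.sum_le_sum fun x _ => cent_card U x
  have h2 : Nat.card {p : H × U // Commute p.1 (p.2 : H)} =
      Nat.card {p : U × H // Commute (p.1 : H) p.2} :=
    Nat.card_congr ⟨fun p => ⟨(p.1.2, p.1.1), p.2.symm⟩, fun p => ⟨(p.1.2, p.1.1), p.2.symm⟩,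
      fun p => rfl, fun p => rfl⟩
  have h3 : Nat.card {p : U × H // Commute (p.1 : H) p.2} ≤
      U.index * Nat.card {p : U × U // Commute p.1 p.2} := by
    rw [hp U H (fun x y => Commute (x : H) y), hp U U (fun x y => Commute x y),
      finsum_eq_sum_of_fintype, finsum_eq_sum_of_fintype, Finset.mul_sum]
    refine Finset.sum_le_sum fun x _ => ?_
    refine (cent_card U (x : H)).trans (le_of_eq ?_)
    congr 1
    refine Nat.card_congr (Equiv.subtypeEquivRight fun u => ?_)
    unfold Commute SemiconjBy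
    rw [Subtype.ext_iff]
    rfl
  have h4 : kcl H * Nat.card H ≤ U.index * (U.index * (kcl U * Nat.card U)) := by
    have h5 := h1.trans (Nat.mul_le_mul_left _ ((le_of_eq h2).trans h3))
    rw [hA, hB] at h5
    exact h5
  have h6 : Nat.card U * U.index = Nat.card H := U.card_mul_index
  have h7 : U.index * (U.index * (kcl U * Nat.card U)) = (U.index * kcl U) * Nat.card H := by
    rw [← h6]; ring
  rw [h7] at h4
  exact Nat.le_of_mul_le_mul_right h4 Nat.card_pos

/-- the criterion -/
theorem few_of_sub {H : Type*} [Group H] [Finite H] (U : Subgroup H)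
    (h : U.index ^ 7 * kcl U ^ 8 ≤ Nat.card U) : Few H := by
  unfold Few
  calc kcl H ^ 8 ≤ (U.index * kcl U) ^ 8 := Nat.pow_le_pow_left (kcl_le U) 8
    _ = (U.index ^ 7 * kcl U ^ 8) * U.index := by ring
    _ ≤ Nat.card U * U.index := Nat.mul_le_mul_right _ h
    _ = Nat.card H := U.card_mul_index

theorem kcl_alt_le (n : ℕ) (hn : 2 ≤ n) : kcl (alternatingGroup (Fin n)) ≤ 2 * pn n := by
  have : Nontrivial (Fin n) := Fin.nontrivial_iff_two_le.2 hn
  have hidx : (alternatingGroup (Fin n)).index = 2 := by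
    have h3 := (alternatingGroup (Fin n)).card_mul_index
    have h4 : 0 < Nat.card (alternatingGroup (Fin n)) := Nat.card_pos
    have h5 : Nat.card (Equiv.Perm (Fin n)) = 2 * Nat.card (alternatingGroup (Fin n)) :=
      two_mul_nat_card_alternatingGroup.symm
    rw [h5, mul_comm] at h3
    exact Nat.eq_of_mul_eq_mul_right h4 h3
  have h3 := kcl_subgroup (alternatingGroup (Fin n))
  rw [hidx] at h3
  exact h3.trans (Nat.mul_le_mul_left _ (kcl_perm n))

/-- powers: `U` is a product of powers `S_i^(m_i)`, of index at most `∏ c_i ^ m_i` -/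
theorem few_of_pow {H : Type*} [Group H] [Finite H] (U : Subgroup H) {ι : Type*} [Fintype ι]
    (S : ι → Type*) [∀ i, Group (S i)] [∀ i, Finite (S i)] (m c : ι → ℕ)
    (e : U ≃* (∀ i, Fin (m i) → S i)) (hidx : U.index ≤ ∏ i, c i ^ m i)
    (h : ∀ i, c i ^ 7 * kcl (S i) ^ 8 ≤ Nat.card (S i)) : Few H := by
  apply few_of_sub U
  have hk : kcl U = ∏ i, kcl (S i) ^ m i := by
    rw [kcl_congr e, kcl_pi]
    refine Finset.prod_congr rfl fun i _ => ?_
    rw [kcl_pi, Finset.prod_const, Finset.card_univ, Fintype.card_fin]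
  have hc : Nat.card U = ∏ i, Nat.card (S i) ^ m i := by
    rw [Nat.card_congr e.toEquiv, Nat.card_pi]
    refine Finset.prod_congr rfl fun i _ => ?_
    rw [Nat.card_pi, Finset.prod_const, Finset.card_univ, Fintype.card_fin]
  rw [hk, hc]
  calc U.index ^ 7 * (∏ i, kcl (S i) ^ m i) ^ 8
      ≤ (∏ i, c i ^ m i) ^ 7 * (∏ i, kcl (S i) ^ m i) ^ 8 :=
        Nat.mul_le_mul_right _ (Nat.pow_le_pow_left hidx 7)
    _ = ∏ i, (c i ^ 7 * kcl (S i) ^ 8) ^ m i := by
        rw [← Finset.prod_pow, ← Finset.prod_pow, ← Finset.prod_mul_distrib]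
        refine Finset.prod_congr rfl fun i _ => ?_
        rw [mul_pow, ← pow_mul, ← pow_mul, ← pow_mul, ← pow_mul, mul_comm 7, mul_comm 8]
    _ ≤ ∏ i, Nat.card (S i) ^ m i :=
        Finset.prod_le_prod' fun i _ => Nat.pow_le_pow_left (h i) (m i)

theorem sym_bound (n c : ℕ) (h : 2 * (c ^ 7 * (2 * pn n) ^ 8) ≤ n.factorial) :
    c ^ 7 * kcl (Equiv.Perm (Fin n)) ^ 8 ≤ Nat.card (Equiv.Perm (Fin n)) := by
  have h2 : Nat.card (Equiv.Perm (Fin n)) = n.factorial := by
    rw [Nat.card_eq_fintype_card, Fintype.card_perm, Fintype.card_fin]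
  have h3 : kcl (Equiv.Perm (Fin n)) ^ 8 ≤ (2 * pn n) ^ 8 :=
    Nat.pow_le_pow_left ((kcl_perm n).trans (by omega)) 8
  have h4 := Nat.mul_le_mul_left (c ^ 7) h3
  omega

theorem alt_bound (n c : ℕ) (h : 2 * (c ^ 7 * (2 * pn n) ^ 8) ≤ n.factorial) :
    c ^ 7 * kcl (alternatingGroup (Fin n)) ^ 8 ≤ Nat.card (alternatingGroup (Fin n)) := by
  rcases Nat.eq_zero_or_pos c with rfl | hc
  · simp
  rcases Nat.lt_or_ge n 2 with hn | hn
  · exfalso
    have h1 : n.factorial = 1 := by
      interval_cases n <;> rfl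
    have h2 : 0 < pn n := Fintype.card_pos
    have h3 : 0 < c ^ 7 * (2 * pn n) ^ 8 := by positivity
    omega
  · have : Nontrivial (Fin n) := Fin.nontrivial_iff_two_le.2 hn
    have h2 : 2 * Nat.card (alternatingGroup (Fin n)) = n.factorial := by
      rw [two_mul_nat_card_alternatingGroup, Nat.card_eq_fintype_card, Fintype.card_perm,
        Fintype.card_fin]
    have h3 := Nat.pow_le_pow_left (kcl_alt_le n hn) 8
    have h4 := Nat.mul_le_mul_left (c ^ 7) h3
    omega

end Pool.Agent.RadIndex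

end
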