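import Pool.Agent.Work.MP_76dc41_al.Bd.B01
import Pool.Agent.Work.MP_76dc41_al.RB.Rad

/-! Bundle of small proof modules (one section per former module). -/

section

/-!
# Inner products of characters on subgroups: definitions and basic facts
-/

set_option autoImplicit false
set_option linter.unusedSectionVars false

open Module Representation Pool.Agent.DC7914 Pool.Agent.RadIndex

namespace Pool.Agent.RB

/-- the degree of a character, as a natural number -/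
noncomputable def dg {G : Type} [Group G] (χ : G → ℂ) : ℕ := ⌊‖χ 1‖⌋₊

/-- the inner product `[χ, ψ]_U`, as a natural number -/
noncomputable def ip {G : Type} [Group G] (U : Subgroup G) (χ ψ : G → ℂ) : ℕ :=
  ⌊‖(∑ᶠ u : U, χ (u : G) * ψ (u : G)⁻¹) / (Nat.card U : ℂ)‖⌋₊

/-- the restrictions to `N` are proportional -/
def sim {G : Type} [Group G] (N : Subgroup G) (χ ψ : G → ℂ) : Prop :=
  ∀ x ∈ N, χ x * ψ 1 = ψ x * χ 1

open Classical in
/-- the irreducible characters of `G` proportional to `χ` on `N` -/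
noncomputable def cls {G : Type} [Group G] [Finite G] (N : Subgroup G) (χ : G → ℂ) :
    Finset (G → ℂ) :=
  (irrs G).filter (fun ψ => sim N χ ψ)

/-- the order of `Y ∩ g Y g⁻¹` -/
noncomputable def ov {G : Type} [Group G] (Y : Subgroup G) (g : G) : ℕ :=
  Nat.card {y : G // y ∈ Y ∧ g⁻¹ * y * g ∈ Y}

/-- the space `Hom_U(V, W)` -/
def homs {G V W : Type} [Group G] [AddCommGroup V] [Module ℂ V] [AddCommGroup W] [Module ℂ W]
    (U : Subgroup G) (ρ : Representation ℂ G V) (σ : Representation ℂ G W) :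
    Submodule ℂ (V →ₗ[ℂ] W) where
  carrier := {f | ∀ u ∈ U, f ∘ₗ ρ u = σ u ∘ₗ f}
  add_mem' := fun {a b} ha hb u hu => by
    rw [LinearMap.add_comp, LinearMap.comp_add, ha u hu, hb u hu]
  zero_mem' := fun u _ => by rw [LinearMap.zero_comp, LinearMap.comp_zero]
  smul_mem' := fun c f hf u hu => by
    rw [LinearMap.smul_comp, LinearMap.comp_smul, hf u hu]

section

variable {G : Type} [Group G]
variable {V W : Type} [AddCommGroup V] [Module ℂ V] [AddCommGroup W] [Module ℂ W]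

theorem mem_homs {U : Subgroup G} {ρ : Representation ℂ G V} {σ : Representation ℂ G W}
    {f : V →ₗ[ℂ] W} : f ∈ homs U ρ σ ↔ ∀ u ∈ U, f ∘ₗ ρ u = σ u ∘ₗ f := Iff.rfl

theorem homs_mono {U U' : Subgroup G} (h : U ≤ U') (ρ : Representation ℂ G V)
    (σ : Representation ℂ G W) : homs U' ρ σ ≤ homs U ρ σ := fun _ hf u hu => hf u (h hu)

variable [FiniteDimensional ℂ V] [FiniteDimensional ℂ W]

/-- the dimension of `Hom_U(V, W)` is the inner product of the characters on `U` -/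
theorem finrank_homs [Finite G] (U : Subgroup G) (ρ : Representation ℂ G V)
    (σ : Representation ℂ G W) :
    ∑ᶠ u : U, σ.character (u : G) * ρ.character (u : G)⁻¹ =
      (finrank ℂ (homs U ρ σ) : ℂ) * Nat.card U := by
  have := Fintype.ofFinite U
  have hU : (Nat.card U : ℂ) ≠ 0 := by exact_mod_cast Nat.card_pos.ne'
  have : Invertible (Nat.card U : ℂ) := invertibleOfNonzero hU
  let ρ' : Representation ℂ U V := ρ.comp U.subtype
  let σ' : Representation ℂ U W := σ.comp U.subtype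
  have h1 := card_inv_mul_sum_char_eq_finrank (linHom ρ' σ')
  have h2 : (linHom ρ' σ').invariants = homs U ρ σ := by
    ext f
    rw [mem_invariants, mem_homs]
    constructor
    · intro h u hu
      have h3 := h ⟨u, hu⟩
      rw [linHom_apply] at h3
      nth_rewrite 1 [← h3]
      change (σ u ∘ₗ f ∘ₗ ρ (u⁻¹)) ∘ₗ ρ u = σ u ∘ₗ f
      rw [LinearMap.comp_assoc, LinearMap.comp_assoc]
      have h4 : ρ u⁻¹ ∘ₗ ρ u = LinearMap.id := by
        have := map_mul ρ u⁻¹ u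
        rw [inv_mul_cancel, map_one] at this
        exact this.symm
      rw [h4, LinearMap.comp_id]
    · intro h u
      rw [linHom_apply]
      change σ (u : G) ∘ₗ f ∘ₗ ρ ((u : G)⁻¹) = f
      rw [← LinearMap.comp_assoc, ← h u u.2, LinearMap.comp_assoc]
      have h4 : ρ (u : G) ∘ₗ ρ (u : G)⁻¹ = LinearMap.id := by
        have := map_mul ρ (u : G) (u : G)⁻¹
        rw [mul_inv_cancel, map_one] at this
        exact this.symm
      rw [h4, LinearMap.comp_id]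
  rw [h2] at h1
  rw [finsum_eq_sum_of_fintype, ← h1]
  have h5 : ∀ u : U, (linHom ρ' σ').character u = σ.character (u : G) * ρ.character (u : G)⁻¹ := by
    intro u
    rw [char_linHom, mul_comm]
    rfl
  simp only [h5]
  field_simp

theorem ip_eq_finrank [Finite G] (U : Subgroup G) (ρ : Representation ℂ G V)
    (σ : Representation ℂ G W) :
    ip U σ.character ρ.character = finrank ℂ (homs U ρ σ) := by
  have hU : (Nat.card U : ℂ) ≠ 0 := by exact_mod_cast Nat.card_pos.ne'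
  rw [ip, finrank_homs, mul_div_cancel_right₀ _ hU, Complex.norm_natCast, Nat.floor_natCast]

end

section

variable {G : Type} [Group G]

theorem dg_spec {χ : G → ℂ} (hχ : IsIrrChar χ) : (dg χ : ℂ) = χ 1 := by
  obtain ⟨n, -, h⟩ := hχ.degree
  rw [dg, h, Complex.norm_natCast, Nat.floor_natCast]

theorem dg_pos {χ : G → ℂ} (hχ : IsIrrChar χ) : 0 < dg χ := by
  obtain ⟨n, hn, h⟩ := hχ.degree
  rw [dg, h, Complex.norm_natCast, Nat.floor_natCast]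
  exact hn

theorem dg_norm {χ : G → ℂ} (hχ : IsIrrChar χ) : (dg χ : ℝ) = ‖χ 1‖ := by
  rw [← dg_spec hχ, Complex.norm_natCast]

theorem finrank_eq_dg {n : ℕ} (ρ : Representation ℂ G (Fin n → ℂ)) :
    dg ρ.character = n := by
  rw [dg, char_one, Complex.norm_natCast, Nat.floor_natCast]
  simp

variable [Finite G]

theorem ip_spec (U : Subgroup G) {χ ψ : G → ℂ} (hχ : IsIrrChar χ) (hψ : IsIrrChar ψ) :
    ∑ᶠ u : U, χ (u : G) * ψ (u : G)⁻¹ = (ip U χ ψ : ℂ) * Nat.card U := by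
  obtain ⟨n, ρ, hρ, rfl⟩ := hχ
  obtain ⟨m, σ, hσ, rfl⟩ := hψ
  rw [ip_eq_finrank, finrank_homs]

theorem ip_comm (U : Subgroup G) (χ ψ : G → ℂ) : ip U χ ψ = ip U ψ χ := by
  unfold ip
  have h : ∑ᶠ u : U, χ (u : G) * ψ (u : G)⁻¹ = ∑ᶠ u : U, ψ (u : G) * χ (u : G)⁻¹ := by
    refine finsum_eq_of_bijective (fun u : U => u⁻¹) (Equiv.inv U).bijective fun u => ?_
    simp [mul_comm]
  rw [h]

theorem ip_mono {U U' : Subgroup G} (h : U ≤ U') {χ ψ : G → ℂ} (hχ : IsIrrChar χ)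
    (hψ : IsIrrChar ψ) : ip U' χ ψ ≤ ip U χ ψ := by
  obtain ⟨n, ρ, hρ, rfl⟩ := hχ
  obtain ⟨m, σ, hσ, rfl⟩ := hψ
  rw [ip_eq_finrank, ip_eq_finrank]
  exact Submodule.finrank_mono (homs_mono h σ ρ)

/-- if the inner products on `U ≤ U'` agree then the Hom spaces agree -/
theorem homs_eq {U U' : Subgroup G} (h : U ≤ U') {V W : Type} [AddCommGroup V] [Module ℂ V]
    [AddCommGroup W] [Module ℂ W] [FiniteDimensional ℂ V] [FiniteDimensional ℂ W]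
    (ρ : Representation ℂ G V) (σ : Representation ℂ G W)
    (he : ip U' σ.character ρ.character = ip U σ.character ρ.character) :
    homs U' ρ σ = homs U ρ σ := by
  rw [ip_eq_finrank, ip_eq_finrank] at he
  exact Submodule.eq_of_le_of_finrank_eq (homs_mono h ρ σ) he

open Classical in
theorem ip_top {χ ψ : G → ℂ} (hχ : IsIrrChar χ) (hψ : IsIrrChar ψ) :
    ip ⊤ χ ψ = if χ = ψ then 1 else 0 := by
  have := Fintype.ofFinite G
  have hG : (Nat.card G : ℂ) ≠ 0 := by exact_mod_cast Nat.card_pos.ne'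
  have h1 := ip_spec ⊤ hχ hψ
  have h2 : ∑ᶠ u : (⊤ : Subgroup G), χ (u : G) * ψ (u : G)⁻¹ = ∑ g, χ g * ψ g⁻¹ := by
    rw [← finsum_eq_sum_of_fintype]
    refine finsum_eq_of_bijective (fun u : (⊤ : Subgroup G) => (u : G))
      (Subgroup.topEquiv (G := G)).bijective fun u => rfl
  have h3 : Nat.card (⊤ : Subgroup G) = Nat.card G := Nat.card_congr Subgroup.topEquiv.toEquiv
  rw [h2, hχ.orthonormal hψ, h3] at h1
  split_ifs with h
  · rw [if_pos h] at h1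
    have := mul_right_cancel₀ hG ((one_mul _).trans h1)
    exact_mod_cast this.symm
  · rw [if_neg h] at h1
    have := (mul_eq_zero.1 h1.symm).resolve_right hG
    exact_mod_cast this

theorem ip_self_pos (U : Subgroup G) {χ : G → ℂ} (hχ : IsIrrChar χ) : 0 < ip U χ χ := by
  have h1 := ip_mono (le_top : U ≤ ⊤) hχ hχ
  rw [ip_top hχ hχ, if_pos rfl] at h1
  exact h1

theorem ip_le (U : Subgroup G) {χ ψ : G → ℂ} (hχ : IsIrrChar χ) (hψ : IsIrrChar ψ) :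
    ip U χ ψ ≤ dg χ * dg ψ := by
  obtain ⟨n, ρ, hρ, rfl⟩ := hχ
  obtain ⟨m, σ, hσ, rfl⟩ := hψ
  rw [ip_eq_finrank, finrank_eq_dg, finrank_eq_dg]
  refine (Submodule.finrank_le _).trans ?_
  rw [Module.finrank_linearMap]
  simp [mul_comm]

theorem sim_refl (N : Subgroup G) (χ : G → ℂ) : sim N χ χ := fun _ _ => rfl

theorem sim_symm {N : Subgroup G} {χ ψ : G → ℂ} (h : sim N χ ψ) : sim N ψ χ :=
  fun x hx => (h x hx).symm

theorem sim_trans {N : Subgroup G} {χ ψ θ : G → ℂ} (hψ : IsIrrChar ψ) (h1 : sim N χ ψ)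
    (h2 : sim N ψ θ) : sim N χ θ := by
  intro x hx
  have e1 := h1 x hx
  have e2 := h2 x hx
  have h0 := hψ.one_ne_zero
  have : (χ x * θ 1) * ψ 1 = (θ x * χ 1) * ψ 1 := by
    linear_combination θ 1 * e1 + χ 1 * e2
  exact mul_right_cancel₀ h0 this

theorem sim_mono {N N' : Subgroup G} (h : N ≤ N') {χ ψ : G → ℂ} (h1 : sim N' χ ψ) :
    sim N χ ψ := fun x hx => h1 x (h hx)

theorem mem_cls {N : Subgroup G} {χ ψ : G → ℂ} : ψ ∈ cls N χ ↔ IsIrrChar ψ ∧ sim N χ ψ := by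
  classical
  rw [cls, Finset.mem_filter, mem_irrs]

theorem self_mem_cls (N : Subgroup G) {χ : G → ℂ} (hχ : IsIrrChar χ) : χ ∈ cls N χ :=
  mem_cls.2 ⟨hχ, sim_refl N χ⟩

theorem cls_eq {N : Subgroup G} {χ ψ : G → ℂ} (hχ : IsIrrChar χ) (hψ : IsIrrChar ψ)
    (h : sim N χ ψ) : cls N χ = cls N ψ := by
  ext θ
  rw [mem_cls, mem_cls]
  exact ⟨fun ⟨a, b⟩ => ⟨a, sim_trans hχ (sim_symm h) b⟩, fun ⟨a, b⟩ => ⟨a, sim_trans hψ h b⟩⟩

/-- proportional characters have proportional inner products -/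
theorem sim_ip {N U : Subgroup G} (hU : U ≤ N) {χ ψ θ : G → ℂ} (hχ : IsIrrChar χ)
    (hψ : IsIrrChar ψ) (hθ : IsIrrChar θ) (h : sim N χ ψ) :
    ip U χ θ * dg ψ = ip U ψ θ * dg χ := by
  have hU0 : (Nat.card U : ℂ) ≠ 0 := by exact_mod_cast Nat.card_pos.ne'
  have h1 := ip_spec U hχ hθ
  have h2 := ip_spec U hψ hθ
  have := Fintype.ofFinite U
  rw [finsum_eq_sum_of_fintype] at h1 h2
  have h3 : (∑ u : U, χ (u : G) * θ (u : G)⁻¹) * ψ 1 = (∑ u : U, ψ (u : G) * θ (u : G)⁻¹) * χ 1 := by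
    rw [Finset.sum_mul, Finset.sum_mul]
    refine Finset.sum_congr rfl fun u _ => ?_
    have := h u (hU u.2)
    linear_combination θ (u : G)⁻¹ * this
  rw [h1, h2, ← dg_spec hχ, ← dg_spec hψ] at h3
  have h4 : ((ip U χ θ : ℂ) * dg ψ) * Nat.card U = ((ip U ψ θ : ℂ) * dg χ) * Nat.card U := by
    linear_combination h3
  have h5 := mul_right_cancel₀ hU0 h4
  exact_mod_cast h5

theorem sim_ip' {N U : Subgroup G} (hU : U ≤ N) {χ ψ θ : G → ℂ} (hχ : IsIrrChar χ)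
    (hψ : IsIrrChar ψ) (hθ : IsIrrChar θ) (h : sim N χ ψ) :
    ip U θ χ * dg ψ = ip U θ ψ * dg χ := by
  rw [ip_comm U θ χ, ip_comm U θ ψ]
  exact sim_ip hU hχ hψ hθ h

/-- proportional characters have nonzero inner product -/
theorem ip_ne_zero_of_sim {N : Subgroup G} {χ ψ : G → ℂ} (hχ : IsIrrChar χ)
    (hψ : IsIrrChar ψ) (h : sim N χ ψ) : ip N χ ψ ≠ 0 := by
  have h1 := sim_ip' le_rfl hχ hψ hχ h
  have h2 := ip_self_pos N hχ
  have h3 := dg_pos hψ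
  intro h0
  rw [h0, zero_mul] at h1
  exact (mul_pos h2 h3).ne' h1

/-- the self inner products of proportional characters -/
theorem sim_ip_self {N U : Subgroup G} (hU : U ≤ N) {χ ψ : G → ℂ} (hχ : IsIrrChar χ)
    (hψ : IsIrrChar ψ) (h : sim N χ ψ) :
    ip U χ χ * dg ψ ^ 2 = ip U ψ ψ * dg χ ^ 2 := by
  have h1 := sim_ip hU hχ hψ hχ h
  have h2 := sim_ip' hU hχ hψ hψ h
  calc ip U χ χ * dg ψ ^ 2 = (ip U χ χ * dg ψ) * dg ψ := by ring
    _ = (ip U ψ χ * dg ψ) * dg χ := by rw [h1]; ring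
    _ = _ := by rw [h2]; ring

/-- the condition `[χ, χ]_T = [χ, χ]_M` is constant on `T`-classes -/
theorem b0_congr {M T : Subgroup G} (hMT : M ≤ T) {χ ψ : G → ℂ} (hχ : IsIrrChar χ)
    (hψ : IsIrrChar ψ) (h : sim T χ ψ) : (ip T χ χ = ip M χ χ ↔ ip T ψ ψ = ip M ψ ψ) := by
  have h1 := sim_ip_self le_rfl hχ hψ h
  have h2 := sim_ip_self hMT hχ hψ h
  have p1 : 0 < dg ψ ^ 2 := pow_pos (dg_pos hψ) 2
  have p2 : 0 < dg χ ^ 2 := pow_pos (dg_pos hχ) 2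
  constructor
  · intro e
    rw [e, h2] at h1
    exact (Nat.eq_of_mul_eq_mul_right p2 h1).symm
  · intro e
    rw [e, ← h2] at h1
    exact Nat.eq_of_mul_eq_mul_right p1 h1

/-- for `χ` with `[χ, χ]_T = [χ, χ]_M` and `ψ` proportional to it on `T` the inner products agree
on all intermediate groups -/
theorem b0_ip {M T Y : Subgroup G} (hMY : M ≤ Y) (hYT : Y ≤ T) {χ ψ : G → ℂ} (hχ : IsIrrChar χ)
    (hψ : IsIrrChar ψ) (h : sim T χ ψ) (h0 : ip T χ χ = ip M χ χ) :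
    ip Y χ ψ = ip T χ ψ := by
  have h1 := sim_ip' le_rfl hχ hψ hχ h
  have h2 := sim_ip' (hMY.trans hYT) hχ hψ hχ h
  have p2 : 0 < dg χ := dg_pos hχ
  rw [h0, h2] at h1
  have h3 := Nat.eq_of_mul_eq_mul_right p2 h1
  have h4 := ip_mono hMY hχ hψ
  have h5 := ip_mono hYT hχ hψ
  omega

/-- the central element `∑ g x g⁻¹` -/
theorem sim_of_ip {N : Subgroup G} [hN : N.Normal] {χ ψ : G → ℂ} (hχ : IsIrrChar χ)
    (hψ : IsIrrChar ψ) (h : ip N χ ψ ≠ 0) : sim N χ ψ := by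
  have := Fintype.ofFinite G
  obtain ⟨n, ρ, hρ, rfl⟩ := hχ
  obtain ⟨m, σ, hσ, rfl⟩ := hψ
  rw [ip_eq_finrank] at h
  obtain ⟨f, hf, hf0⟩ : ∃ f ∈ homs N σ ρ, f ≠ 0 := by
    by_contra hcon
    push Not at hcon
    apply h
    have : homs N σ ρ = ⊥ := by
      rw [eq_bot_iff]
      intro f hf
      rw [Submodule.mem_bot]
      exact hcon f hf
    rw [this]
    exact finrank_bot ℂ _
  intro x hx
  have hG : (Nat.card G : ℂ) ≠ 0 := by exact_mod_cast Nat.card_pos.ne'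
  have key : ∀ {k : ℕ} (τ : Representation ℂ G (Fin k → ℂ)), τ.IsIrreducible →
      ∃ c : ℂ, ∑ g : G, τ (g * x * g⁻¹) = c • (1 : End ℂ (Fin k → ℂ)) ∧
        c * τ.character 1 = Nat.card G * τ.character x := by
    intro k τ hτ
    obtain ⟨c, hc⟩ := schur τ hτ (∑ g : G, τ (g * x * g⁻¹)) (by
      intro y
      rw [Finset.sum_mul, Finset.mul_sum]
      refine Fintype.sum_equiv (Equiv.mulLeft y⁻¹) _ _ fun g => ?_
      rw [← map_mul, ← map_mul]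
      congr 1
      simp only [Equiv.coe_mulLeft]
      group)
    refine ⟨c, hc, ?_⟩
    have h1 := congrArg (LinearMap.trace ℂ (Fin k → ℂ)) hc
    rw [map_sum, map_smul, LinearMap.trace_one, smul_eq_mul] at h1
    rw [char_one, ← h1]
    have h2 : ∀ g : G, LinearMap.trace ℂ (Fin k → ℂ) (τ (g * x * g⁻¹)) = τ.character x := by
      intro g
      exact char_conj τ x g
    simp only [h2, Finset.sum_const, Finset.card_univ, nsmul_eq_mul, Nat.card_eq_fintype_card]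
  obtain ⟨c, hc, hc'⟩ := key ρ hρ
  obtain ⟨d, hd, hd'⟩ := key σ hσ
  obtain ⟨v, hv⟩ : ∃ v, f v ≠ 0 := by
    by_contra hcon
    push Not at hcon
    exact hf0 (LinearMap.ext hcon)
  have h1 : f ((∑ g : G, σ (g * x * g⁻¹)) v) = (∑ g : G, ρ (g * x * g⁻¹)) (f v) := by
    rw [LinearMap.sum_apply, LinearMap.sum_apply, map_sum]
    refine Finset.sum_congr rfl fun g _ => ?_
    exact LinearMap.congr_fun (hf _ (hN.conj_mem x hx g)) v
  rw [hc, hd] at h1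
  have h2 : (d - c) • f v = 0 := by
    rw [LinearMap.smul_apply, LinearMap.smul_apply, map_smul] at h1
    rw [sub_smul, sub_eq_zero]
    exact h1
  have h3 : d = c := sub_eq_zero.1 ((smul_eq_zero.1 h2).resolve_right hv)
  rw [h3] at hd'
  have h4 : (Nat.card G : ℂ) * (ρ.character x * σ.character 1) =
      Nat.card G * (σ.character x * ρ.character 1) := by
    linear_combination σ.character 1 * (-hc') + ρ.character 1 * hd'
  exact mul_left_cancel₀ hG h4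

end

end Pool.Agent.RB

end

section

/-!
# The statements of the project `RadicalBound`
-/

set_option autoImplicit false
set_option linter.unusedSectionVars false

open Module Representation Pool.Agent.DC7914 Pool.Agent.RadIndex

namespace Pool.Agent.RB

/-- no nontrivial solvable normal subgroup -/
def NoSol (K : Type) [Group K] : Prop :=
  ∀ N : Subgroup K, N.Normal → Group.IsSolvable N → N = ⊥

/-- no nontrivial abelian normal subgroup -/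
def NoAb (K : Type) [Group K] : Prop :=
  ∀ N : Subgroup K, N.Normal → (∀ x ∈ N, ∀ y ∈ N, x * y = y * x) → N = ⊥

/-- `T / M` is a minimal normal subgroup of `G / M` -/
def MinOver {G : Type} [Group G] (M T : Subgroup G) : Prop :=
  T.Normal ∧ M ≤ T ∧ T ≠ M ∧ ∀ N : Subgroup G, N.Normal → M ≤ N → N ≤ T → N = M ∨ N = T

/-- the preimage in `T ≤ G` of a subgroup of `T / M` -/
def ysub {G : Type} [Group G] (M T : Subgroup G) [M.Normal]
    (N : Subgroup (T ⧸ M.subgroupOf T)) : Subgroup G :=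
  (N.comap (QuotientGroup.mk' (M.subgroupOf T))).map T.subtype

/-- the inequality obtained from the characters, for a subgroup `N` of `K` -/
def HK {K : Type} [Group K] (a : ℕ) (N : Subgroup K) : Prop :=
  Nat.card N * Nat.card K + a * Nat.card N ^ 2 ≤ Nat.card N ^ 2 + a * ∑ᶠ k : K, ov N k

/-! ### Characters -/

/-- column orthogonality -/
def S_COL : Prop := ∀ (G : Type) [Group G] [Finite G] (x y : G),
  ∑ χ ∈ irrs G, χ x * χ y⁻¹ = (Nat.card {g : G // g * x * g⁻¹ = y} : ℂ)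

def S_STAR : Prop := ∀ (G : Type) [Group G] [Finite G] (T : Subgroup G) [T.Normal] (χ₀ : G → ℂ),
  IsIrrChar χ₀ → ∀ x : G,
    (x ∈ T → ∑ χ ∈ irrs G, (ip T χ₀ χ : ℂ) * χ x = (T.index : ℂ) * χ₀ x) ∧
    (x ∉ T → ∑ χ ∈ irrs G, (ip T χ₀ χ : ℂ) * χ x = 0)

def S_DEG : Prop := ∀ (G : Type) [Group G] [Finite G] (U : Subgroup G) (Λ : G → ℂ),
  IsIrrChar Λ → ∑ χ ∈ irrs G, ip U Λ χ * dg χ = U.index * dg Λ

def S_L3 : Prop := ∀ (G : Type) [Group G] [Finite G] (M T L : Subgroup G) [M.Normal] [T.Normal],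
  M ≤ T → M ≤ L → L ⊔ T = ⊤ → ∀ Λ Λ' : G → ℂ, IsIrrChar Λ → IsIrrChar Λ' →
    ip T Λ Λ' = ip M Λ Λ' → ip L Λ Λ' = ip ⊤ Λ Λ'

def S_L4 : Prop := ∀ (G : Type) [Group G] [Finite G] (Y T L : Subgroup G) [T.Normal],
  L ⊓ T = Y → L ⊔ T = ⊤ → ∀ Λ χ₀ : G → ℂ, IsIrrChar Λ → IsIrrChar χ₀ →
    ip Y Λ χ₀ ≠ 0 → ∃ χ ∈ cls T χ₀, ip L Λ χ ≠ 0

def S_L5 : Prop := ∀ (G : Type) [Group G] [Finite G] (Y L : Subgroup G), Y ≤ L →
  ∀ S : Finset (G → ℂ), (∀ θ ∈ S, IsIrrChar θ) →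
    (∀ θ ∈ S, ∀ θ' ∈ S, ip L θ θ' = ip ⊤ θ θ') → ∀ χ Λ : G → ℂ, IsIrrChar χ → IsIrrChar Λ →
      ∑ θ ∈ S, ip L χ θ * ip Y θ Λ ≤ ip Y χ Λ

def S_LB : Prop := ∀ (G : Type) [Group G] [Finite G] (M Y T L : Subgroup G) [M.Normal] [T.Normal],
  M ≤ Y → Y ≤ T → L ⊓ T = Y → L ⊔ T = ⊤ → ∀ Λ χ₀ : G → ℂ, IsIrrChar Λ → IsIrrChar χ₀ →
    ip T Λ Λ = ip M Λ Λ → (∀ θ ∈ cls T Λ, dg Λ ≤ dg θ) → ip Y χ₀ Λ ≠ 0 →
      (cls T Λ).card * ip M Λ Λ * dg χ₀ ≤ ip Y χ₀ Λ * ∑ χ ∈ cls T χ₀, dg χ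

def S_UNI : Prop := ∀ (G : Type) [Group G] [Finite G] (M T : Subgroup G) [M.Normal] [T.Normal],
  M ≤ T → T ≤ M ⊔ ⁅T, T⁆ → ∀ Λ Λ' : G → ℂ, IsIrrChar Λ → IsIrrChar Λ' →
    ip T Λ Λ = ip M Λ Λ → ip T Λ' Λ' = ip M Λ' Λ' → ip M Λ Λ' ≠ 0 → sim T Λ Λ'

def S_SQ : Prop := ∀ (G : Type) [Group G] [Finite G] (M Y T : Subgroup G) [M.Normal] [T.Normal],
  M ≤ Y → Y ≤ T → ∀ Λ : G → ℂ, IsIrrChar Λ → ip T Λ Λ = ip M Λ Λ →
    (∑ χ ∈ irrs G, ip Y Λ χ ^ 2) * Nat.card Y ^ 2 = ip M Λ Λ * ∑ᶠ g : G, ov Y g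

def S_OVG : Prop := ∀ (G : Type) [Group G] [Finite G] (Y T L : Subgroup G) [T.Normal],
  L ⊓ T = Y → L ⊔ T = ⊤ → ∑ᶠ g : G, ov Y g = T.index * ∑ᶠ t : T, ov Y (t : G)

def S_AVG : Prop := ∀ (G : Type) [Group G] [Finite G] (M : Subgroup G) (A : ℕ), acd G ≤ A →
  ∃ θ : G → ℂ, IsIrrChar θ ∧ ∑ χ ∈ cls M θ, dg χ ≤ A * (cls M θ).card

def S_CB : Prop := ∀ (G : Type) [Group G] [Finite G] (M Y T L : Subgroup G) [M.Normal] [T.Normal],
  M ≤ Y → Y ≤ T → L ⊓ T = Y → L ⊔ T = ⊤ → T ≤ M ⊔ ⁅T, T⁆ → ∀ A : ℕ, acd G ≤ A →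
    (∀ χ : G → ℂ, IsIrrChar χ → ip T χ χ ≠ ip M χ χ → 2 * A < dg χ) →
      Nat.card Y * Nat.card T + 2 * A * Nat.card Y ^ 2 ≤
        Nat.card Y ^ 2 + 2 * A * ∑ᶠ t : T, ov Y (t : G)

def S_CONJ : Prop := ∀ (G : Type) [Group G] [Finite G] (M : Subgroup G) [M.Normal] (χ : G → ℂ),
  IsIrrChar χ → ∃ (d : ℕ) (σ : Representation ℂ G (Fin d → ℂ)), d ≤ dg χ ^ 2 ∧
    (∀ u ∈ M, σ u = 1) ∧
    ∀ U : Subgroup G, M ≤ U → ((∀ u ∈ U, σ u = 1) ↔ ip U χ χ = ip M χ χ)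

def S_JB : Prop := ∀ (G : Type) [Group G] [Finite G] (M : Subgroup G) [M.Normal] (m : ℕ)
  (T : Fin m → Subgroup G), (∀ i, M ≤ T i) → (∀ i, T i ≤ M ⊔ ⁅T i, T i⁆) →
    (∀ i j, i ≠ j → ⁅T i, T j⁆ ≤ M) → ∀ χ : G → ℂ, IsIrrChar χ →
      (Finset.univ.filter (fun i => ip (T i) χ χ ≠ ip M χ χ)).card ≤ dg χ ^ 4

def S_MUL : Prop := ∀ (G : Type) [Group G] [Finite G] (M M' S : Subgroup G),
  M ≤ M' → M ≤ S → ∀ χ : G → ℂ, IsIrrChar χ → ip S χ χ = ip M χ χ →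
    ip (M' ⊔ S) χ χ = ip M' χ χ

/-! ### Sylow subgroups of `T / M` -/

def S_FR : Prop := ∀ (G : Type) [Group G] [Finite G] (M T : Subgroup G) [M.Normal] [T.Normal],
  M ≤ T → ∀ (p : ℕ) [Fact p.Prime] (Q : Sylow p (T ⧸ M.subgroupOf T)) (Y : Subgroup G),
    Y = ysub M T (Subgroup.normalizer (Q : Set (T ⧸ M.subgroupOf T))) →
      M ≤ Y ∧ Y ≤ T ∧ Subgroup.normalizer (Y : Set G) ⊓ T = Y ∧
        Subgroup.normalizer (Y : Set G) ⊔ T = ⊤

def S_OVK : Prop := ∀ (G : Type) [Group G] [Finite G] (M T : Subgroup G) [M.Normal] [T.Normal],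
  M ≤ T → ∀ N : Subgroup (T ⧸ M.subgroupOf T),
    Nat.card (ysub M T N) = Nat.card M * Nat.card N ∧
    Nat.card T = Nat.card M * Nat.card (T ⧸ M.subgroupOf T) ∧
    ∑ᶠ t : T, ov (ysub M T N) (t : G) = Nat.card M ^ 2 * ∑ᶠ k : T ⧸ M.subgroupOf T, ov N k

def S_YEX : Prop := ∀ (G : Type) [Group G] [Finite G] (M T : Subgroup G) [M.Normal] [T.Normal],
  M ≤ T → M ≠ T → T ≤ M ⊔ ⁅T, T⁆ → ∃ Y L : Subgroup G, M ≤ Y ∧ Y ≤ T ∧ Y ≠ T ∧
    L ⊓ T = Y ∧ L ⊔ T = ⊤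

/-! ### Group theory -/

def S_G5 : Prop := ∀ (K : Type) [Group K] [Finite K] (p : ℕ) [Fact p.Prime] (Q : Sylow p K)
  (a : ℕ), Subgroup.normalizer (Q : Set K) ≠ ⊤ → HK a (Subgroup.normalizer (Q : Set K)) → p ≤ a

def S_G1 : Prop := ∀ (K : Type) [Group K] [Finite K] (p : ℕ) [Fact p.Prime] (Q : Sylow p K)
  (a : ℕ), 1 ≤ a → HK a (Subgroup.normalizer (Q : Set K)) →
    Nat.card Q * Nat.card K ≤ a * ∑ᶠ k : K, ov (Q : Subgroup K) k

def S_PROD : Prop := ∀ (K : Type) [Group K] [Finite K] (X : Set K) (c : ℕ), (1 : K) ∈ X →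
  (∀ x ∈ X, x⁻¹ ∈ X) → Nat.card K ≤ c * Nat.card X → ∀ g ∈ Subgroup.closure X,
    ∃ l : List K, l.length ≤ 3 * c ∧ (∀ x ∈ l, x ∈ X) ∧ l.prod = g

def S_G2 : Prop := ∀ (K : Type) [Group K] [Finite K] (Q : Subgroup K) (a : ℕ), 1 ≤ a →
  Nat.card Q * Nat.card K ≤ a * ∑ᶠ k : K, ov Q k →
    ∃ K₀ : Subgroup K, Q ≤ K₀ ∧ K₀.index ≤ 2 * a ∧
      ∀ g ∈ K₀, Nat.card Q ≤ (2 * a) ^ (6 * a) * ov Q g

def S_BL : Prop := ∀ W : ℕ, ∃ k : ℕ, ∀ (H : Type) [Group H] [Finite H] (Q : Subgroup H),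
  (∀ h : H, Nat.card Q ≤ W * ov Q h) →
    ∃ I : Subgroup H, I ≤ Q ∧ Nat.card Q ≤ W ^ k * Nat.card I ∧
      Nat.card (Subgroup.normalClosure (I : Set H)) ≤ W * Nat.card Q

def S_NS : Prop := ∀ (K : Type) [Group K] [Finite K], NoSol K →
  ∀ H : Subgroup K, H.Normal → NoSol H

def S_G4 : Prop := ∀ (H : Type) [Group H] [Finite H], NoSol H →
  ∀ (w : ℕ) (T I : Subgroup H), T.Normal → I ≤ T → Group.IsSolvable I →
    Nat.card T ≤ w * Nat.card I → Nat.card T ≤ w.factorial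

def S_QB : Prop := ∀ a : ℕ, 1 ≤ a → ∃ F : ℕ, ∀ (K : Type) [Group K] [Finite K], NoSol K →
  ∀ Q : Subgroup K, Group.IsSolvable Q → Nat.card Q * Nat.card K ≤ a * ∑ᶠ k : K, ov Q k →
    Nat.card Q ≤ F

def S_GM : Prop := ∀ a : ℕ, 1 ≤ a → ∃ F : ℕ, ∀ (K : Type) [Group K] [Finite K], NoSol K →
  (∀ (p : ℕ) [Fact p.Prime] (Q : Sylow p K), HK a (Subgroup.normalizer (Q : Set K))) →
    Nat.card K ≤ F

def S_JOR : Prop := ∀ d : ℕ, ∃ J : ℕ, ∀ (K : Type) [Group K] [Finite K], NoAb K →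
  ∀ ρ : Representation ℂ K (Fin d → ℂ), Function.Injective ρ → Nat.card K ≤ J

/-! ### Part 1 -/

def S_P1 : Prop := ∀ A : ℕ, ∃ F : ℕ, ∀ (G : Type) [Group G] [Finite G] (M T : Subgroup G)
  [M.Normal] [T.Normal], MinOver M T → T ≤ M ⊔ ⁅T, T⁆ → NoSol (T ⧸ M.subgroupOf T) →
    acd G ≤ A → Nat.card (T ⧸ M.subgroupOf T) ≤ F

/-! ### Part 2 -/

def S_STEP : Prop := ∀ (G : Type) [Group G] [Finite G] (M T : Subgroup G) [M.Normal] [T.Normal],
  M ≤ T → M ≠ T → T ≤ M ⊔ ⁅T, T⁆ → ∀ Λ : G → ℂ, IsIrrChar Λ → ip T Λ Λ = ip M Λ Λ →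
    ∃ χ₀ : G → ℂ, IsIrrChar χ₀ ∧ sim M Λ χ₀ ∧ ip T χ₀ χ₀ ≠ ip M χ₀ χ₀ ∧
      (cls T Λ).card ≤ ∑ χ ∈ cls T χ₀, dg χ

def S_STEP2 : Prop := ∀ (G : Type) [Group G] [Finite G] (M T : Subgroup G) [M.Normal] [T.Normal],
  M ≤ T → M ≠ T → T ≤ M ⊔ ⁅T, T⁆ → ∀ E : Finset (G → ℂ), (∀ χ ∈ E, IsIrrChar χ) →
    (∀ χ ∈ E, cls M χ ⊆ E) →
      (E.filter (fun χ => ip T χ χ = ip M χ χ)).card ≤
        ∑ χ ∈ E.filter (fun χ => ip T χ χ ≠ ip M χ χ), dg χ

def S_COMB : Prop := ∀ (α : Type) (D : Finset α) (m A : ℕ) (J : α → Finset (Fin m)) (d : α → ℕ),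
  D.Nonempty → (∑ χ ∈ D, d χ ≤ A * D.card) → (∀ χ ∈ D, 1 ≤ d χ) →
    (∀ χ ∈ D, (J χ).card ≤ d χ ^ 4) →
      (∀ (S : Finset (Fin m)) (j : Fin m), j ∉ S → (D.filter (fun χ => J χ = S)).card ≤
        ∑ χ ∈ D.filter (fun χ => J χ = insert j S), d χ) → m < (2 * A + 1) ^ 5

def S_M1 : Prop := ∀ (G : Type) [Group G] [Finite G] (M T : Subgroup G) [M.Normal],
  NoAb (G ⧸ M) → MinOver M T → T ≤ M ⊔ ⁅T, T⁆ ∧ NoSol (T ⧸ M.subgroupOf T)

def S_M2 : Prop := ∀ (G : Type) [Group G] [Finite G] (M T T' : Subgroup G) [M.Normal],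
  MinOver M T → MinOver M T' → T ≠ T' → ⁅T, T'⁆ ≤ M

def S_M3 : Prop := ∀ (G : Type) [Group G] [Finite G] (M : Subgroup G) [M.Normal] (m : ℕ)
  (T : Fin m → Subgroup G), (∀ i, MinOver M (T i)) → Function.Injective T →
    (∀ i, T i ≤ M ⊔ ⁅T i, T i⁆) → ∀ j : Fin m, ∃ M' T' : Subgroup G,
      M'.Normal ∧ T'.Normal ∧ M ≤ M' ∧ (∀ i, i ≠ j → T i ≤ M') ∧ M' ⊔ T j = T' ∧ M' ≠ T' ∧
        T' ≤ M' ⊔ ⁅T', T'⁆

def S_P2 : Prop := ∀ (G : Type) [Group G] [Finite G] (M : Subgroup G) [M.Normal] (m A : ℕ)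
  (T : Fin m → Subgroup G), (∀ i, MinOver M (T i)) → Function.Injective T →
    (∀ i, T i ≤ M ⊔ ⁅T i, T i⁆) → acd G ≤ A → m < (2 * A + 1) ^ 5

/-! ### Part 3 -/

def S_P3 : Prop := ∀ (G : Type) [Group G] [Finite G] (M : Subgroup G) [M.Normal],
  NoAb (G ⧸ M) → ∀ F m : ℕ,
    (∀ T : Subgroup G, MinOver M T → Nat.card (T ⧸ M.subgroupOf T) ≤ F) →
      Nat.card {T : Subgroup G // MinOver M T} ≤ m → M.index ≤ F.factorial ^ m

def S_RAD : Prop := ∀ (G : Type) [Group G] [Finite G] (R : Subgroup G) [R.Normal], IsRad R →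
  NoAb (G ⧸ R)

def S_MAIN : Prop := ∀ A : ℝ, ∃ B : ℕ, ∀ (G : Type) [Group G] [Finite G] (M : Subgroup G)
  [M.Normal], NoAb (G ⧸ M) → acd G ≤ A → M.index ≤ B

end Pool.Agent.RB

end
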