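import Pool.Agent.Work.MP_76dc41_al.Bd.B01

/-! Bundle of small proof modules (one section per former module). -/

section

/-!
# Products of perfect groups: definitions
-/

set_option autoImplicit false
set_option linter.unusedSectionVars false

open Module Representation Pool.Agent.DC7914

namespace Pool.Agent.RadIndex

section

variable {G : Type} [Group G]

open Classical in
/-- the irreducible characters of `G` whose restriction to `N` contains `l` -/
noncomputable def ovr [Fintype G] (N : Subgroup G) [Fintype N] (l : N → ℂ) : Finset (G → ℂ) :=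
  (irrs G).filter (fun χ => mu χ l ≠ 0)

/-- a function on `N ≤ A`, seen as a function on `N.subgroupOf A` -/
def down {N A : Subgroup G} (h : N ≤ A) (l : N → ℂ) (x : N.subgroupOf A) : ℂ :=
  l (Subgroup.subgroupOfEquivOfLe h x)

/-- `A` and `B` are normal subgroups with `A B = G`, `A ∩ B = N`, and `A / N` has no nontrivial
linear characters -/
structure SetQ (N A B : Subgroup G) : Prop where
  nA : N ≤ A
  nB : N ≤ B
  inf : A ⊓ B ≤ N
  sup : ∀ g : G, ∃ a ∈ A, ∃ b ∈ B, g = a * b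
  perf : ∀ f : A →* ℂˣ, (∀ n : A, (n : G) ∈ N → f n = 1) → f = 1

/-- the functions on `B` which are invariant under conjugation by `G` and lie over the orbit of `l` -/
noncomputable def WB [Fintype G] {N : Subgroup G} [N.Normal] [Fintype N] (B : Subgroup G) [B.Normal]
    (h : N ≤ B) (l : N → ℂ) : Submodule ℂ (B → ℂ) where
  carrier := {f | (∀ (g : G) (b : B), f (MulAut.conjNormal g b) = f b) ∧
    ∀ b : B, ∑ m : N, fO (G := G) l m * f (b * Subgroup.inclusion h m) = f b}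
  add_mem' := by
    rintro f f' ⟨h1, h2⟩ ⟨h1', h2'⟩
    refine ⟨fun g x => ?_, fun g => ?_⟩
    · simp only [Pi.add_apply, h1 g x, h1' g x]
    · simp only [Pi.add_apply, mul_add, Finset.sum_add_distrib, h2, h2']
  zero_mem' := ⟨fun g x => rfl, fun g => by simp⟩
  smul_mem' := by
    rintro c f ⟨h1, h2⟩
    refine ⟨fun g x => ?_, fun g => ?_⟩
    · simp only [Pi.smul_apply, h1 g x]
    · simp only [Pi.smul_apply, smul_eq_mul, ← h2 g, Finset.mul_sum]
      refine Finset.sum_congr rfl fun m _ => ?_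
      ring

/-- the average degree (relative to the degree of `l`) of the characters over `l` is at least `β`,
for all extensions of `H` -/
def PB (H : Type) [Group H] (β : ℝ) : Prop :=
  ∀ (G : Type) [Group G] [Fintype G] (N : Subgroup G) [N.Normal] [Fintype N] (l : N → ℂ),
    Nonempty (G ⧸ N ≃* H) → IsIrrChar l →
    β * ‖l 1‖ * (ovr N l).card ≤ ∑ χ ∈ ovr N l, ‖χ 1‖

/-- a stronger form of `PB`, used for the perfect factors -/
def PS (H : Type) [Group H] (β : ℝ) : Prop :=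
  ∀ (G : Type) [Group G] [Fintype G] (N : Subgroup G) [N.Normal] [Fintype N] (l : N → ℂ),
    Nonempty (G ⧸ N ≃* H) → IsIrrChar l →
    ((∀ g : G, cj g l = l) ∧ β * ‖l 1‖ * (ovr N l).card ≤ ∑ χ ∈ ovr N l, ‖χ 1‖) ∨
    ∀ χ ∈ ovr N l, β * ‖l 1‖ ≤ ‖χ 1‖

end

end Pool.Agent.RadIndex

end

section

/-!
# Products of perfect groups: statements
-/

set_option autoImplicit false
set_option linter.unusedSectionVars false

open Module Representation Pool.Agent.DC7914

namespace Pool.Agent.RadIndex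

/-- Schur orthogonality (explicit form of Burnside's theorem) -/
def S_BURN : Prop :=
  ∀ (N : Type) [Group N] [Fintype N] (W : Type) [AddCommGroup W] [Module ℂ W]
    [FiniteDimensional ℂ W] (σ : Representation ℂ N W), σ.IsIrreducible →
    ∀ Z : End ℂ W, ∑ n : N, LinearMap.trace ℂ W (Z * σ n⁻¹) • σ n =
      ((Fintype.card N : ℂ) / finrank ℂ W) • Z

/-- the transfer homomorphism of an isotypic representation -/
def S_TRANSFER : Prop :=
  ∀ (N : Type) [Group N] [Fintype N] (W : Type) [AddCommGroup W] [Module ℂ W]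
    [FiniteDimensional ℂ W] (σ : Representation ℂ N W), σ.IsIrreducible →
    ∀ (V : Type) [AddCommGroup V] [Module ℂ V] [FiniteDimensional ℂ V] (τ : Representation ℂ N V)
      (e : ℂ), (∀ n, τ.character n = e * σ.character n) →
    ∃ R : End ℂ W →ₐ[ℂ] End ℂ V, (∀ n, R (σ n) = τ n) ∧
      (∀ Z, R Z ∈ Submodule.span ℂ (Set.range fun n => τ n)) ∧
      ∀ Z, LinearMap.trace ℂ V (R Z) = e * LinearMap.trace ℂ W Z

/-- intertwining operators from the equality of characters -/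
def S_INTER : Prop :=
  ∀ (N : Type) [Group N] [Fintype N] (W : Type) [AddCommGroup W] [Module ℂ W]
    [FiniteDimensional ℂ W] (σ : Representation ℂ N W), σ.IsIrreducible →
    ∀ φ : MulAut N, (∀ n, σ.character (φ n) = σ.character n) →
    ∃ Y Yi : End ℂ W, Y * Yi = 1 ∧ Yi * Y = 1 ∧ ∀ n, Y * σ n = σ (φ n) * Y

/-- the restriction of a character over an invariant character -/
def S_ISO : Prop :=
  ∀ (A : Type) [Group A] [Fintype A] (N : Subgroup A) [N.Normal] [Fintype N] (θ : N → ℂ),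
    IsIrrChar θ → (∀ a : A, cj a θ = θ) → ∀ χ : A → ℂ, IsIrrChar χ → mu χ θ ≠ 0 →
    ∃ e : ℕ, 0 < e ∧ ∀ n : N, χ n = e * θ n

/-- the operator implementing an automorphism `β` with `β a = a` modulo `N` -/
def S_CORE : Prop :=
  ∀ (A : Type) [Group A] [Fintype A] (N : Subgroup A) [N.Normal] [Fintype N] (β : MulAut A)
    (_hc : ∀ a, a * (β a)⁻¹ ∈ N) (hβ : ∀ n : N, β n ∈ N)
    (_hp : ∀ f : A →* ℂˣ, (∀ n ∈ N, f n = 1) → f = 1)
    (θ : N → ℂ) (_hθ : IsIrrChar θ) (_hA : ∀ a : A, cj a θ = θ)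
    (_hb : ∀ n : N, θ ⟨β n, hβ n⟩ = θ n)
    (V : Type) [AddCommGroup V] [Module ℂ V] [FiniteDimensional ℂ V] (τ : Representation ℂ A V)
    (_hτ : τ.IsIrreducible) (_hov : mu τ.character θ ≠ 0),
    ∃ X Xi : End ℂ V, X ∈ Submodule.span ℂ (Set.range fun n : N => τ n) ∧
      Xi ∈ Submodule.span ℂ (Set.range fun n : N => τ n) ∧ X * Xi = 1 ∧ Xi * X = 1 ∧
      ∀ a, X * τ a = τ (β a) * X

/-- transitivity of `lies over` -/
def S_TRANS : Prop :=
  ∀ (G : Type) [Group G] [Fintype G] (N A : Subgroup G) [N.Normal] [A.Normal] [Fintype N]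
    [Fintype A] [Fintype (N.subgroupOf A)] (h : N ≤ A) (l : N → ℂ), IsIrrChar l →
    ∀ χ : G → ℂ, IsIrrChar χ →
    (mu χ l ≠ 0 ↔ ∃ η : A → ℂ, IsIrrChar η ∧ mu χ η ≠ 0 ∧ mu η (down h l) ≠ 0)

/-- the orbit of `l` is recovered from any character over it -/
def S_ORB : Prop :=
  ∀ (G : Type) [Group G] [Fintype G] (N : Subgroup G) [N.Normal] [Fintype N] (l l' : N → ℂ),
    IsIrrChar l → IsIrrChar l' → ∀ χ : G → ℂ, IsIrrChar χ → mu χ l ≠ 0 →
    (mu χ l' ≠ 0 ↔ l' ∈ orb N l)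

/-- the characters over `l` are a basis of `WO l` -/
def S_WOB : Prop :=
  ∀ (G : Type) [Group G] [Fintype G] (N : Subgroup G) [N.Normal] [Fintype N] (l : N → ℂ),
    IsIrrChar l → Submodule.span ℂ (ovr N l : Set (G → ℂ)) = WO (G := G) l ∧
      (ovr N l).card = finrank ℂ (WO (G := G) l)

/-- the function `fO l` is idempotent -/
def S_IDEM : Prop :=
  ∀ (G : Type) [Group G] [Fintype G] (N : Subgroup G) [N.Normal] [Fintype N] (l : N → ℂ),
    IsIrrChar l → ∀ n : N, ∑ m : N, fO (G := G) l m * fO (G := G) l (m⁻¹ * n) = fO (G := G) l n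

/-- the block of an orbit -/
def S_BLOCK : Prop :=
  ∀ (G : Type) [Group G] [Fintype G] (N : Subgroup G) [N.Normal] [Fintype N] (l : N → ℂ),
    IsIrrChar l →
    (∀ χ ∈ ovr N l, ((orb N l).card : ℝ) * ‖l 1‖ ≤ ‖χ 1‖) ∧
    ((orb N l).card : ℝ) * Nat.card (G ⧸ N) * ‖l 1‖ ^ 2 = ∑ χ ∈ ovr N l, ‖χ 1‖ ^ 2 ∧
    ((ovr N l).card ≤ Nat.card (ConjClasses (G ⧸ N)) * (orb N l).card) ∧
    (∃ K : Subgroup (G ⧸ N), K.index = (orb N l).card) ∧
    ((orb N l).card = 1 → ∀ g : G, cj g l = l)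

/-- conjugate constituents with the same constituent below are equal -/
def S_EONE : Prop :=
  ∀ (G : Type) [Group G] [Fintype G] (N A B : Subgroup G) [N.Normal] [A.Normal] [B.Normal]
    [Fintype N] [Fintype A] [Fintype (N.subgroupOf A)] (hQ : SetQ N A B) (l : N → ℂ),
    IsIrrChar l → (∀ a ∈ A, cj a l = l) → ∀ η : A → ℂ, IsIrrChar η → mu η (down hQ.nA l) ≠ 0 →
    ∀ g : G, mu (cj g η) (down hQ.nA l) ≠ 0 → cj g η = η

/-- the orbits of `η` and of `l` correspond to each other by restriction -/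
def S_BIJ : Prop :=
  ∀ (G : Type) [Group G] [Fintype G] (N A B : Subgroup G) [N.Normal] [A.Normal] [B.Normal]
    [Fintype N] [Fintype A] [Fintype (N.subgroupOf A)] (hQ : SetQ N A B) (l : N → ℂ),
    IsIrrChar l → (∀ a ∈ A, cj a l = l) → ∀ η : A → ℂ, IsIrrChar η → mu η (down hQ.nA l) ≠ 0 →
    ∃ (e : ℕ) (r : (A → ℂ) → (N → ℂ)), 0 < e ∧
      (∀ η' ∈ orb A η, ∀ n : N, η' (Subgroup.inclusion hQ.nA n) = e * r η' n) ∧
      Set.BijOn r (orb A η) (orb N l) ∧
      ∃ c : ℂ, c ≠ 0 ∧ ∀ n : N, fO (G := G) η (Subgroup.inclusion hQ.nA n) = c * fO (G := G) l n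

/-- the operators of a class function are combinations of the operators of `N` -/
def S_ZSPAN : Prop :=
  ∀ (G : Type) [Group G] [Fintype G] (N A B : Subgroup G) [N.Normal] [A.Normal] [B.Normal]
    [Fintype N] [Fintype A] [Fintype (N.subgroupOf A)] (hQ : SetQ N A B) (l : N → ℂ),
    IsIrrChar l → (∀ a ∈ A, cj a l = l) → ∀ (V : Type) [AddCommGroup V] [Module ℂ V]
    [FiniteDimensional ℂ V] (τ : Representation ℂ A V), τ.IsIrreducible → ∀ e : ℂ, e ≠ 0 →
    (∀ n : N, τ.character (Subgroup.inclusion hQ.nA n) = e * l n) →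
    ∀ f : G → ℂ, IsClassFn f → ∀ b ∈ B,
    AF τ b f ∈ Submodule.span ℂ (Set.range fun n : N => τ (Subgroup.inclusion hQ.nA n))

/-- orthogonality for operators in the span of the operators of `N` -/
def S_ORTH : Prop :=
  ∀ (A : Type) [Group A] [Fintype A] (N : Type) [Group N] [Fintype N] (i : N →* A)
    (V' V'' : Type) [AddCommGroup V'] [Module ℂ V'] [FiniteDimensional ℂ V'] [AddCommGroup V'']
    [Module ℂ V''] [FiniteDimensional ℂ V''] (τ' : Representation ℂ A V')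
    (τ'' : Representation ℂ A V'') (l' l'' : N → ℂ) (e : ℂ), IsIrrChar l' → IsIrrChar l'' →
    (∀ n, τ'.character (i n) = e * l' n) → (∀ n, τ''.character (i n) = e * l'' n) →
    ∀ Z ∈ Submodule.span ℂ (Set.range fun n : N => τ' (i n)),
    (l' ≠ l'' → ∑ n : N, LinearMap.trace ℂ V' (Z * τ' (i n)) • τ'' (i n⁻¹) = 0) ∧
    ∀ Z'' ∈ Submodule.span ℂ (Set.range fun n : N => τ'' (i n)),
      ∑ n : N, LinearMap.trace ℂ V'' (Z'' * τ'' (i n)) • τ'' (i n⁻¹) =
        (e * Fintype.card N / l'' 1) • Z''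

/-- extension of a function on `B` to a function over the orbit of `η` -/
def S_UP : Prop :=
  ∀ (G : Type) [Group G] [Fintype G] (N A B : Subgroup G) [N.Normal] [A.Normal] [B.Normal]
    [Fintype N] [Fintype A] [Fintype (N.subgroupOf A)] (hQ : SetQ N A B) (l : N → ℂ),
    IsIrrChar l → (∀ a ∈ A, cj a l = l) → ∀ η : A → ℂ, IsIrrChar η → mu η (down hQ.nA l) ≠ 0 →
    finrank ℂ (WB B hQ.nB l) ≤ finrank ℂ (WO (G := G) η)

/-- restriction to `B` is injective -/
def S_DOWN : Prop :=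
  ∀ (G : Type) [Group G] [Fintype G] (N A B : Subgroup G) [N.Normal] [A.Normal] [B.Normal]
    [Fintype N] [Fintype A] [Fintype (N.subgroupOf A)] (hQ : SetQ N A B) (l : N → ℂ),
    IsIrrChar l → (∀ a ∈ A, cj a l = l) → ∀ η : A → ℂ, IsIrrChar η → mu η (down hQ.nA l) ≠ 0 →
    finrank ℂ (WO (G := G) η) ≤ finrank ℂ (WB B hQ.nB l)

/-- the step -/
def S_STEP : Prop :=
  ∀ (H₁ H₂ : Type) [Group H₁] [Group H₂] [Finite H₁] [Finite H₂] (β₁ β₂ : ℝ), 0 ≤ β₁ → 0 ≤ β₂ →
    (∀ f : H₁ →* ℂˣ, f = 1) → PS H₁ β₁ → PB H₂ β₂ → PB (H₁ × H₂) (β₁ * β₂)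

/-- from blocks to the average degree -/
def S_ACD : Prop :=
  ∀ (H : Type) [Group H] [Finite H] (β : ℝ), 0 ≤ β → PB H β →
    ∀ (G : Type) [Group G] [Finite G] (N : Subgroup G) [N.Normal], Nonempty (G ⧸ N ≃* H) →
    β ≤ acd G

/-- groups with few classes -/
def S_FEW : Prop :=
  ∀ (H : Type) [Group H] [Finite H] (h : ℝ), 0 < h → h ^ 4 = Nat.card H →
    Nat.card (ConjClasses H) ^ 8 ≤ Nat.card H → PB H h

/-- groups with not too many classes and without subgroups of small index -/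
def S_MID : Prop :=
  ∀ (H : Type) [Group H] [Finite H] (h : ℝ), 0 < h → h ^ 4 = Nat.card H →
    Nat.card (ConjClasses H) ^ 4 ≤ Nat.card H →
    (∀ K : Subgroup H, K ≠ ⊤ → Nat.card H ≤ K.index ^ 4) → PS H h

end Pool.Agent.RadIndex

end

section

/-!
# Groups with a large torus acting on a unipotent subgroup: statements
-/

set_option autoImplicit false
set_option linter.unusedSectionVars false

open Module Representation Pool.Agent.DC7914

namespace Pool.Agent.RadIndex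

/-- every alternating form on `F` which is invariant under the multiplication by `c` is trivial -/
def FormTriv (F : Type) [Field F] (c : F) : Prop :=
  ∀ B : F → F → ℂ, (∀ x x' y, B (x + x') y = B x y * B x' y) →
    (∀ x y y', B x (y + y') = B x y * B x y') → (∀ x, B x x = 1) →
    (∀ x y, B (c * x) (c * y) = B x y) → (∀ x y, B x y ≠ 0) → ∀ x y, B x y = 1

/-- a subgroup of `S` isomorphic to the additive group of `F`, normalised by an element `t` which
acts as the multiplication by an element `c` of order `τ` -/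
structure UData (S F : Type) [Group S] [Field F] (τ : ℕ) where
  u : Multiplicative F →* S
  inj : Function.Injective u
  t : S
  c : F
  act : ∀ x : F, t * u (Multiplicative.ofAdd x) * t⁻¹ = u (Multiplicative.ofAdd (c * x))
  ord : orderOf c = τ
  pos : 1 < τ

/-- `P / N` is isomorphic to the additive group of `F`, and an automorphism `b` of `P` acts as the
multiplication by `c` -/
structure PData (P F : Type) [Group P] [Field F] (N : Subgroup P) (τ : ℕ) where
  p : P →* Multiplicative F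
  sur : Function.Surjective p
  ker : ∀ x, p x = 1 ↔ x ∈ N
  b : MulAut P
  c : F
  act : ∀ x, p (b x) = Multiplicative.ofAdd (c * Multiplicative.toAdd (p x))
  ord : orderOf c = τ
  pos : 1 < τ

/-- the commutator form of an invariant character -/
def S_FORM : Prop :=
  ∀ (P : Type) [Group P] [Fintype P] (N : Subgroup P) [N.Normal] [Fintype N]
    (hc : ∀ x y : P, x * y * x⁻¹ * y⁻¹ ∈ N) (W : Type) [AddCommGroup W] [Module ℂ W]
    [FiniteDimensional ℂ W] (σ : Representation ℂ N W), σ.IsIrreducible →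
    (∀ a : P, cj a σ.character = σ.character) →
    ∃ (Y Yi : P → End ℂ W) (B : P → P → ℂ), (∀ x, Y x * Yi x = 1 ∧ Yi x * Y x = 1) ∧
      (∀ x (n : N), Y x * σ n = σ (MulAut.conjNormal x n) * Y x) ∧
      (∀ x y, Y x * Y y = B x y • (σ ⟨x * y * x⁻¹ * y⁻¹, hc x y⟩ * Y y * Y x)) ∧
      (∀ x x' y, B (x * x') y = B x y * B x' y) ∧ (∀ x y y', B x (y * y') = B x y * B x y') ∧
      (∀ (n : N) y, B n y = 1 ∧ B y n = 1) ∧ (∀ x, B x x = 1) ∧
      ∀ (b : MulAut P) (hb : ∀ n : N, b n ∈ N),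
        (∀ n : N, σ.character ⟨b n, hb n⟩ = σ.character n) → ∀ x y, B (b x) (b y) = B x y

/-- an invariant form is trivial if the powers of `c` do not satisfy a certain relation -/
def S_TRICK : Prop :=
  ∀ (F : Type) [Field F] (c : F), c ≠ 0 →
    (∃ i j k : ℕ, c ^ i + c ^ j = c ^ k ∧ (c ^ i)⁻¹ + (c ^ j)⁻¹ ≠ (c ^ k)⁻¹) → FormTriv F c

/-- alternating forms over prime fields are trivial -/
def S_PRIME : Prop :=
  ∀ (F : Type) [Field F] (c : F), (Nat.card F).Prime → FormTriv F c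

/-- the characters of `P` over `θ` extend `θ` -/
def S_EXT : Prop :=
  ∀ (P F : Type) [Group P] [Fintype P] [Field F] (N : Subgroup P) [N.Normal] [Fintype N] (τ : ℕ)
    (D : PData P F N τ), FormTriv F D.c → ∀ θ : N → ℂ, IsIrrChar θ → (∀ a : P, cj a θ = θ) →
    ∀ hb : ∀ n : N, D.b n ∈ N, (∀ n : N, θ ⟨D.b n, hb n⟩ = θ n) →
    ∀ ξ : P → ℂ, IsIrrChar ξ → mu ξ θ ≠ 0 → ∀ n : N, ξ n = θ n

/-- the extensions of an irreducible character differ by linear characters -/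
def S_GALL : Prop :=
  ∀ (P : Type) [Group P] [Fintype P] (N : Subgroup P) [N.Normal] [Fintype N] (θ : N → ℂ),
    IsIrrChar θ → ∀ ξ : P → ℂ, IsIrrChar ξ → (∀ n : N, ξ n = θ n) →
    (∀ ξ' : P → ℂ, IsIrrChar ξ' → (∀ n : N, ξ' n = θ n) →
      ∃ f : P →* ℂˣ, (∀ n ∈ N, f n = 1) ∧ ∀ x, ξ' x = f x * ξ x) ∧
    (∀ f : P →* ℂˣ, IsIrrChar (fun x => f x * ξ x)) ∧
    ∀ f : P →* ℂˣ, (∀ n ∈ N, f n = 1) → (∀ x, (f x : ℂ) * ξ x = ξ x) → f = 1

/-- the fixed points on the set of the extensions -/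
def S_FIX : Prop :=
  ∀ (P F : Type) [Group P] [Fintype P] [Field F] (N : Subgroup P) [N.Normal] [Fintype N] (τ : ℕ)
    (D : PData P F N τ), FormTriv F D.c → ∀ θ : N → ℂ, IsIrrChar θ → (∀ a : P, cj a θ = θ) →
    ∀ hb : ∀ n : N, D.b n ∈ N, (∀ n : N, θ ⟨D.b n, hb n⟩ = θ n) →
    ∃ ξ₀ ∈ ovr N θ, (∀ x, ξ₀ (D.b x) = ξ₀ x) ∧
      ∀ ξ ∈ ovr N θ, ∀ k : ℕ, 0 < k → k < τ → (∀ x, ξ ((D.b ^ k) x) = ξ x) → ξ = ξ₀

/-- the degrees of the characters over an invariant character -/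
def S_DEG : Prop :=
  ∀ (S F : Type) [Group S] [Finite S] [Field F] (τ : ℕ), IsSimpleGroup S →
    ∀ D : UData S F τ, FormTriv F D.c →
    ∀ (G : Type) [Group G] [Fintype G] (N : Subgroup G) [N.Normal] [Fintype N] (l : N → ℂ),
    Nonempty (G ⧸ N ≃* S) → IsIrrChar l → (∀ g : G, cj g l = l) →
    ∀ χ ∈ ovr N l, ‖χ 1‖ = ‖l 1‖ ∨ (τ : ℝ) * ‖l 1‖ ≤ ‖χ 1‖

/-- the relative degrees over an invariant character, for a perfect quotient -/
def S_ONE : Prop :=
  ∀ (S : Type) [Group S] [Finite S], (∀ f : S →* ℂˣ, f = 1) →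
    ∀ (G : Type) [Group G] [Fintype G] (N : Subgroup G) [N.Normal] [Fintype N] (l : N → ℂ),
    Nonempty (G ⧸ N ≃* S) → IsIrrChar l → (∀ g : G, cj g l = l) →
    ∃ e : (G → ℂ) → ℕ, (∀ χ ∈ ovr N l, 0 < e χ ∧ ‖χ 1‖ = e χ * ‖l 1‖) ∧
      (∀ χ ∈ ovr N l, ∀ χ' ∈ ovr N l, e χ = 1 → e χ' = 1 → χ = χ') ∧
      ∑ χ ∈ ovr N l, e χ ^ 2 = Nat.card S ∧ (ovr N l).card ≤ Nat.card (ConjClasses S)

/-- the index of the proper subgroups -/
def S_IDX : Prop :=
  ∀ (S F : Type) [Group S] [Finite S] [Field F] (τ : ℕ), IsSimpleGroup S → UData S F τ →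
    ∀ K : Subgroup S, K ≠ ⊤ → 1 + τ ≤ K.index

/-- the numerical lemma for large groups -/
def S_NUM : Prop :=
  ∀ (ι : Type) (s : Finset ι) (e : ι → ℝ) (h d : ℝ), 1 ≤ h → h + 1 ≤ d →
    (∀ i ∈ s, e i = 1 ∨ d ≤ e i) → (∀ i ∈ s, ∀ j ∈ s, e i = 1 → e j = 1 → i = j) →
    ∑ i ∈ s, e i ^ 2 = h ^ 4 → h * s.card ≤ ∑ i ∈ s, e i

/-- the numerical lemma for small groups -/
def S_SMALL : Prop :=
  ∀ (n k d : ℕ), (n = 60 ∧ k = 5 ∧ d = 2 ∨ n = 168 ∧ k = 6 ∧ d = 3 ∨ n = 360 ∧ k = 7 ∧ d = 2 ∨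
    n = 660 ∧ k = 8 ∧ d = 5 ∨ n = 1092 ∧ k = 9 ∧ d = 6 ∨ n = 2448 ∧ k = 11 ∧ d = 8) →
    ∀ (ι : Type) (s : Finset ι) (e : ι → ℕ), s.card ≤ k → (∀ i ∈ s, e i = 1 ∨ d ≤ e i) →
    (∀ i ∈ s, ∀ j ∈ s, e i = 1 → e j = 1 → i = j) → ∑ i ∈ s, e i ^ 2 = n →
    n * s.card ^ 4 ≤ (∑ i ∈ s, e i) ^ 4

/-- the unipotent and diagonal elements of `PSL_2(F)` -/
def S_UNIP : Prop :=
  ∀ (F : Type) [Field F] [Finite F], 4 ≤ Nat.card F →
    ∃ D : UData (Matrix.ProjectiveSpecialLinearGroup (Fin 2) F) F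
      ((Nat.card F - 1) / Nat.gcd 2 (Nat.card F - 1)),
      (8 ≤ Nat.card F ∧ Even (Nat.card F)) ∨ 17 ≤ Nat.card F ∨ (Nat.card F).Prime →
      FormTriv F D.c

/-- the order of `PSL_2(F)` -/
def S_CARD : Prop :=
  ∀ (F : Type) [Field F] [Finite F],
    Nat.card (Matrix.ProjectiveSpecialLinearGroup (Fin 2) F) * Nat.gcd 2 (Nat.card F - 1) =
      Nat.card F * (Nat.card F ^ 2 - 1)

/-- the number of conjugacy classes of `PSL_2(F)` -/
def S_KPSL : Prop :=
  ∀ (F : Type) [Field F] [Finite F],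
    (Odd (Nat.card F) → 2 * Nat.card (ConjClasses (Matrix.ProjectiveSpecialLinearGroup (Fin 2) F)) ≤
      Nat.card F + 5) ∧
    (Even (Nat.card F) → Nat.card (ConjClasses (Matrix.ProjectiveSpecialLinearGroup (Fin 2) F)) ≤
      Nat.card F + 1)

/-- `PSL_2(F)` is simple and has no nontrivial linear characters -/
def S_PERF : Prop :=
  ∀ (F : Type) [Field F] [Finite F], 4 ≤ Nat.card F →
    IsSimpleGroup (Matrix.ProjectiveSpecialLinearGroup (Fin 2) F) ∧
    ∀ f : Matrix.ProjectiveSpecialLinearGroup (Fin 2) F →* ℂˣ, f = 1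

/-- the groups `PSL_2(F)` -/
def S_PSL : Prop :=
  ∀ (F : Type) [Field F] [Finite F], 4 ≤ Nat.card F →
    ∀ h : ℝ, 0 < h → h ^ 4 = Nat.card (Matrix.ProjectiveSpecialLinearGroup (Fin 2) F) →
    PS (Matrix.ProjectiveSpecialLinearGroup (Fin 2) F) h

end Pool.Agent.RadIndex

end
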