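import Mathlib
import Pool.Agent.Work.MP_76dc41_al.Bd.B04
import Pool.Agent.Work.MP_76dc41_al.Pf.Types2

/-! Bundle of small proof modules (one section per former module). -/

section

/-!
# Products of perfect groups: assembly
-/

set_option autoImplicit false
set_option linter.unusedSectionVars false

open Module Representation Pool.Agent.DC7914

namespace Pool.Agent.RadIndex

theorem PB_congr {H H' : Type} [Group H] [Group H'] (e : H ≃* H') {β : ℝ} (h : PB H β) :
    PB H' β := by
  intro G _ _ N _ _ l ⟨f⟩ hl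
  exact h G N l ⟨f.trans e.symm⟩ hl

theorem PS_congr {H H' : Type} [Group H] [Group H'] (e : H ≃* H') {β : ℝ} (h : PS H β) :
    PS H' β := by
  intro G _ _ N _ _ l ⟨f⟩ hl
  exact h G N l ⟨f.trans e.symm⟩ hl

/-- the fourth root of the order -/
noncomputable def rt (H : Type) : ℝ := (Nat.card H : ℝ) ^ ((1 : ℝ) / 4)

theorem rt_pow (H : Type) : rt H ^ 4 = Nat.card H := by
  unfold rt
  rw [← Real.rpow_natCast, ← Real.rpow_mul (Nat.cast_nonneg _)]
  norm_num

theorem rt_pos (H : Type) [Finite H] [Nonempty H] : 0 < rt H := by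
  unfold rt
  apply Real.rpow_pos_of_pos
  exact_mod_cast Nat.card_pos

theorem rt_prod (H K : Type) [Finite H] [Finite K] : rt (H × K) = rt H * rt K := by
  unfold rt
  rw [Nat.card_prod, Nat.cast_mul, Real.mul_rpow (Nat.cast_nonneg _) (Nat.cast_nonneg _)]

theorem rt_congr {H K : Type} (e : H ≃ K) : rt H = rt K := by
  unfold rt
  rw [Nat.card_congr e]

theorem PB_pi (step : S_STEP) (H : Type) [Group H] [Finite H] (hH : PB H (rt H)) :
    ∀ (ι : Type) [Finite ι] (S : ι → Type) [∀ i, Group (S i)] [∀ i, Finite (S i)],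
      (∀ i, (∀ f : S i →* ℂˣ, f = 1) ∧ PS (S i) (rt (S i))) →
      PB ((∀ i, S i) × H) (rt ((∀ i, S i) × H)) := by
  intro ι _
  induction ι using Finite.induction_empty_option with
  | of_equiv e ih =>
    intro S _ _ h
    have h1 := ih (fun a => S (e a)) (fun a => h (e a))
    let E' : (∀ b, S b) ≃* (∀ a, S (e a)) :=
      { (Equiv.piCongrLeft S e).symm with
        map_mul' := fun x y => rfl }
    let E := E'.symm
    have h2 := PB_congr (E.prodCongr (MulEquiv.refl H)) h1
    rwa [rt_congr (E.prodCongr (MulEquiv.refl H)).toEquiv] at h2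
  | h_empty =>
    intro S _ _ _
    let E : H ≃* ((∀ i : PEmpty, S i) × H) :=
      { toFun := fun x => (1, x)
        invFun := fun x => x.2
        left_inv := fun x => rfl
        right_inv := fun x => Prod.ext (Subsingleton.elim _ _) rfl
        map_mul' := fun x y => Prod.ext (Subsingleton.elim _ _) rfl }
    rw [← rt_congr E.toEquiv]
    exact PB_congr E hH
  | h_option ih =>
    intro S _ _ h
    have h1 := ih (fun a => S (some a)) (fun a => h (some a))
    have h2 := step (S none) ((∀ a, S (some a)) × H) (rt (S none)) (rt ((∀ a, S (some a)) × H))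
      (rt_pos _).le (rt_pos _).le (h none).1 (h none).2 h1
    let E : (S none × ((∀ a, S (some a)) × H)) ≃* ((∀ a, S a) × H) :=
      { toFun := fun x => (fun a => match a with
          | none => x.1
          | some a => x.2.1 a, x.2.2)
        invFun := fun x => (x.1 none, (fun a => x.1 (some a), x.2))
        left_inv := fun x => rfl
        right_inv := fun x => Prod.ext (funext fun a => by cases a <;> rfl) rfl
        map_mul' := fun x y => Prod.ext (funext fun a => by cases a <;> rfl) rfl }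
    have h3 := PB_congr E h2
    rwa [← rt_prod, rt_congr E.toEquiv] at h3

theorem final (step : S_STEP) (acdl : S_ACD) (few : S_FEW) (mid : S_MID) (perf : S_PERF)
    (psl : S_PSL) (G : Type) [Group G] [Finite G] (N : Subgroup G) [N.Normal]
    (ι : Type) [Fintype ι] (S : ι → Type) [∀ i, Group (S i)] [∀ i, Finite (S i)]
    (H : Type) [Group H] [Finite H] (hS : ∀ i, MidType (S i) ∨ PSLType (S i))
    (hH : Nat.card (ConjClasses H) ^ 8 ≤ Nat.card H)
    (e : Nonempty (G ⧸ N ≃* (∀ i, S i) × H)) :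
    (Nat.card (G ⧸ N) : ℝ) ≤ acd G ^ 4 := by
  have h1 : PB ((∀ i, S i) × H) (rt ((∀ i, S i) × H)) := by
    refine PB_pi step H (few H (rt H) (rt_pos H) (rt_pow H) hH) ι S fun i => ?_
    rcases hS i with ⟨h1, h2, h3⟩ | ⟨F, _, _, hF, ⟨f⟩⟩
    · exact ⟨h1, mid (S i) (rt (S i)) (rt_pos _) (rt_pow _) h2 h3⟩
    · refine ⟨fun g => ?_, ?_⟩
      · have h4 := (perf F hF).2 (g.comp f.symm.toMonoidHom)
        ext x
        have h5 := DFunLike.congr_fun h4 (f x)
        simpa using congrArg Units.val h5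
      · have h4 := psl F hF (rt (Matrix.ProjectiveSpecialLinearGroup (Fin 2) F)) (rt_pos _) (rt_pow _)
        rw [rt_congr f.toEquiv]
        exact PS_congr f.symm h4
  have h2 := acdl _ _ (rt_pos _).le h1 G N e
  obtain ⟨e⟩ := e
  have h3 : (Nat.card (G ⧸ N) : ℝ) = rt ((∀ i, S i) × H) ^ 4 := by
    rw [rt_pow, Nat.card_congr e.toEquiv]
  rw [h3]
  exact pow_le_pow_left₀ (rt_pos _).le h2 4

end Pool.Agent.RadIndex

end

section

/-!
# The order of `PSL_2(F)`
-/

set_option autoImplicit false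

namespace Pool.Agent.RadIndex

open Matrix

theorem card_ker_det (F : Type) [Field F] :
    Nat.card (GeneralLinearGroup.det : GL (Fin 2) F →* Fˣ).ker =
      Nat.card (SpecialLinearGroup (Fin 2) F) := by
  have h : (GeneralLinearGroup.det : GL (Fin 2) F →* Fˣ).ker =
      (SpecialLinearGroup.toGL : SpecialLinearGroup (Fin 2) F →* GL (Fin 2) F).range := by
    ext g
    rw [MonoidHom.mem_ker, MonoidHom.mem_range]
    constructor
    · intro h
      refine ⟨⟨g.val, ?_⟩, ?_⟩
      · have := congrArg Units.val h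
        simpa using this
      · ext; rfl
    · rintro ⟨s, rfl⟩
      ext
      simp
  rw [h, Nat.card_congr (MonoidHom.ofInjective SpecialLinearGroup.toGL_injective).toEquiv.symm]

theorem card_SL_two (F : Type) [Field F] [Finite F] :
    Nat.card (SpecialLinearGroup (Fin 2) F) = Nat.card F * (Nat.card F ^ 2 - 1) := by
  classical
  have _ := Fintype.ofFinite F
  have h1 := Matrix.card_GL_field (𝔽 := F) 2
  rw [Fin.prod_univ_two] at h1
  have hdet : Function.Surjective (GeneralLinearGroup.det : GL (Fin 2) F →* Fˣ) := by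
    intro u
    refine ⟨GeneralLinearGroup.mkOfDetNeZero !![(u : F), 0; 0, 1] (by simp [det_fin_two]), ?_⟩
    ext
    simp [det_fin_two]
  have hidx : (GeneralLinearGroup.det : GL (Fin 2) F →* Fˣ).ker.index = Nat.card Fˣ := by
    rw [Subgroup.index_ker, MonoidHom.range_eq_top.mpr hdet]
    exact Nat.card_congr Subgroup.topEquiv.toEquiv
  have h2 := Subgroup.card_mul_index (GeneralLinearGroup.det : GL (Fin 2) F →* Fˣ).ker
  rw [hidx, card_ker_det, h1, Nat.card_units, ← Nat.card_eq_fintype_card] at h2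
  have hq : 2 ≤ Nat.card F := Finite.one_lt_card
  obtain ⟨r, hr⟩ := Nat.exists_eq_add_of_le hq
  rw [hr] at h2 ⊢
  simp only [Fin.val_zero, pow_zero, Fin.val_one, pow_one] at h2
  have e1 : 2 + r - 1 = r + 1 := by omega
  have e2 : (2 + r) ^ 2 - (2 + r) = (r + 1) * (2 + r) := by
    have : (2 + r) ^ 2 = (r + 1) * (2 + r) + (2 + r) := by ring
    omega
  rw [e1, e2] at h2
  apply Nat.eq_of_mul_eq_mul_right (show 0 < r + 1 by omega)
  rw [h2]
  ring

theorem prf_CARD : S_CARD := by
  intro F _ _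
  classical
  have h1 : Nat.card (Subgroup.center (SpecialLinearGroup (Fin 2) F)) =
      Nat.gcd 2 (Nat.card F - 1) := by
    rw [Nat.card_congr (SpecialLinearGroup.center_equiv_rootsOfUnity' (0 : Fin 2)).toEquiv,
      ← Nat.card_units, Nat.gcd_comm, ← IsCyclic.card_powMonoidHom_ker Fˣ 2]
    rfl
  rw [← h1, ← card_SL_two, ← Subgroup.index_mul_card
    (Subgroup.center (SpecialLinearGroup (Fin 2) F))]
  rfl

end Pool.Agent.RadIndex

end

section

/-!
# Item DEG: the degrees of the characters over an invariant character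
-/

set_option autoImplicit false
set_option linter.unusedSectionVars false

open Module Representation Pool.Agent.DC7914

namespace Pool.Agent.RadIndex

theorem DEG_mem_ovr {G : Type} [Group G] [Fintype G] {N : Subgroup G} [Fintype N] {l : N → ℂ}
    {χ : G → ℂ} : χ ∈ ovr N l ↔ IsIrrChar χ ∧ mu χ l ≠ 0 := by
  classical
  unfold ovr
  rw [Finset.mem_filter, mem_irrs]

theorem DEG_irr_comp {H H' : Type} [Group H] [Group H'] (e : H' ≃* H) {l : H → ℂ}
    (hl : IsIrrChar l) : IsIrrChar (fun x => l (e x)) := by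
  obtain ⟨n, ρ, hρ, rfl⟩ := hl
  refine ⟨n, ρ.comp e.toMonoidHom, ?_, rfl⟩
  rw [DC7914.irreducible_iff] at hρ ⊢
  refine ⟨hρ.1, fun U hU => hρ.2 U fun x v hv => ?_⟩
  have := hU (e.symm x) v hv
  simpa using this

theorem DEG_twist {P : Type} [Group P] [Fintype P] (b : MulAut P) (s : Multiset (P → ℂ))
    (hs : ∀ θ ∈ s, IsIrrChar θ) (hb : ∀ x, s.sum (b x) = s.sum x) {η : P → ℂ} (h : η ∈ s) :
    (fun x => η (b x)) ∈ s := by
  classical
  have h1 := inner_sum s hs η (hs η h)
  have h2 := inner_sum s hs (fun x => η (b x)) (DEG_irr_comp b (hs η h))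
  have h3 : ∑ g, η (b g) * s.sum g⁻¹ = ∑ g, η g * s.sum g⁻¹ := by
    refine Fintype.sum_equiv b.toEquiv _ _ fun g => ?_
    change η (b g) * s.sum g⁻¹ = η (b g) * s.sum (b g)⁻¹
    rw [← map_inv, hb]
  have hP : (Nat.card P : ℂ) ≠ 0 := by exact_mod_cast Nat.card_pos.ne'
  rw [h3, h1] at h2
  have h4 := mul_right_cancel₀ hP h2
  have h5 : Multiset.count η s = Multiset.count (fun x => η (b x)) s := by exact_mod_cast h4
  rw [← Multiset.count_pos, ← h5, Multiset.count_pos]
  exact h

theorem DEG_twist_pow {P : Type} [Group P] [Fintype P] (b : MulAut P) (s : Multiset (P → ℂ))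
    (hs : ∀ θ ∈ s, IsIrrChar θ) (hb : ∀ x, s.sum (b x) = s.sum x) {η : P → ℂ} (h : η ∈ s) (k : ℕ) :
    (fun x => η ((b ^ k) x)) ∈ s := by
  induction k with
  | zero => simpa using h
  | succ k ih =>
    have h1 := DEG_twist b s hs hb ih
    have h2 : (fun x => η ((b ^ (k + 1)) x)) = (fun x => (fun y => η ((b ^ k) y)) (b x)) := by
      funext x
      rw [pow_succ, MulAut.mul_apply]
    rw [h2]
    exact h1

theorem DEG_mu_sum {P : Type} [Group P] [Fintype P] {M : Subgroup P} [M.Normal] [Fintype M]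
    (l' : M → ℂ) (s : Multiset (P → ℂ)) :
    (s.map (fun ξ => mu ξ l')).sum = ∑ n : M, l' n * s.sum ((n⁻¹ : M) : P) := by
  induction s using Multiset.induction_on with
  | empty => simp
  | cons ξ s ih =>
    rw [Multiset.map_cons, Multiset.sum_cons, Multiset.sum_cons, ih]
    unfold mu
    rw [← Finset.sum_add_distrib]
    refine Finset.sum_congr rfl fun n _ => ?_
    rw [Pi.add_apply]
    ring

theorem DEG_over {P : Type} [Group P] [Fintype P] {M : Subgroup P} [M.Normal] [Fintype M]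
    {θ : M → ℂ} (hθ : IsIrrChar θ) (s : Multiset (P → ℂ)) (hs : ∀ ξ ∈ s, IsIrrChar ξ) (e : ℕ)
    (he : ∀ n : M, s.sum n = e * θ n) : ∀ ξ ∈ s, mu ξ θ ≠ 0 := by
  classical
  intro ξ hξ h0
  obtain ⟨O, ⟨l', hl'⟩, hO, -⟩ := char_data (hs ξ hξ) M
  obtain ⟨hirr, -, -, e', he', hmu, -⟩ := hO l' hl'
  have hM : (0 : ℝ) < Nat.card M := by exact_mod_cast Nat.card_pos
  have hpos : 0 < (mu ξ l').re := by
    rw [hmu]
    have h1 : ((e' : ℂ) * (Nat.card M : ℂ)).re = (e' : ℝ) * Nat.card M := by
      rw [← Nat.cast_mul, Complex.natCast_re]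
      push_cast
      rfl
    rw [h1]
    have h2 : (0 : ℝ) < e' := by exact_mod_cast he'
    positivity
  have hne : l' ≠ θ := by
    rintro rfl
    rw [h0] at hpos
    simp at hpos
  have hnn : ∀ ξ' ∈ s, 0 ≤ (mu ξ' l').re := by
    intro ξ' h'
    by_cases hz : mu ξ' l' = 0
    · rw [hz]; simp
    · obtain ⟨O', -, hO', hO''⟩ := char_data (hs ξ' h') M
      obtain ⟨-, -, -, e'', -, h'', -⟩ := hO' l' (hO'' l' hirr hz)
      rw [h'']
      have h1 : ((e'' : ℂ) * (Nat.card M : ℂ)).re = (e'' : ℝ) * Nat.card M := by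
        rw [← Nat.cast_mul, Complex.natCast_re]
        push_cast
        rfl
      rw [h1]
      positivity
  have hsum : (s.map (fun ξ' => mu ξ' l')).sum = 0 := by
    rw [DEG_mu_sum]
    have h1 : ∑ n : M, l' n * s.sum ((n⁻¹ : M) : P) = e * ∑ n : M, l' n * θ n⁻¹ := by
      rw [Finset.mul_sum]
      refine Finset.sum_congr rfl fun n _ => ?_
      rw [he]
      ring
    rw [h1, hirr.orthonormal hθ, if_neg hne, mul_zero]
  have hsum' : (s.map (fun ξ' => (mu ξ' l').re)).sum = 0 := by
    have h1 := congrArg Complex.re hsum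
    have h2 : ((s.map (fun ξ' => mu ξ' l')).sum).re = (s.map (fun ξ' => (mu ξ' l').re)).sum := by
      have := map_multiset_sum Complex.reAddGroupHom (s.map (fun ξ' => mu ξ' l'))
      rw [Multiset.map_map] at this
      exact this
    rw [← h2, h1, Complex.zero_re]
  have hle : (mu ξ l').re ≤ (s.map (fun ξ' => (mu ξ' l').re)).sum := by
    apply Multiset.single_le_sum
    · intro x hx
      obtain ⟨ξ', h1, rfl⟩ := Multiset.mem_map.1 hx
      exact hnn ξ' h1
    · exact Multiset.mem_map_of_mem _ hξ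
  rw [hsum'] at hle
  linarith

/-- the algebra spanned by a subgroup -/
theorem DEG_span_mul {H : Type} [Group H] {V : Type} [AddCommGroup V] [Module ℂ V]
    (ρ : H →* End ℂ V) {x y : End ℂ V} (hx : x ∈ Submodule.span ℂ (Set.range fun n => ρ n))
    (hy : y ∈ Submodule.span ℂ (Set.range fun n => ρ n)) :
    x * y ∈ Submodule.span ℂ (Set.range fun n => ρ n) := by
  have h1 := Submodule.mul_mem_mul hx hy
  rw [Submodule.span_mul_span] at h1
  refine Submodule.span_mono ?_ h1
  rintro _ ⟨_, ⟨a, rfl⟩, _, ⟨c, rfl⟩, rfl⟩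
  exact ⟨a * c, map_mul ρ a c⟩

/-- an algebra homomorphism between endomorphism algebras of the same dimension is surjective -/
theorem DEG_surj {d d' : ℕ} (hd : d = d') (hpos : 0 < d)
    (R : End ℂ (Fin d → ℂ) →ₐ[ℂ] End ℂ (Fin d' → ℂ)) : Function.Surjective R := by
  subst hd
  have : Nonempty (Fin d) := ⟨⟨0, hpos⟩⟩
  have hinj : Function.Injective R := by
    have h1 : Function.Injective
        ((R : End ℂ (Fin d → ℂ) →+* End ℂ (Fin d → ℂ)).comp
          (LinearMap.toMatrixAlgEquiv' (R := ℂ) (n := Fin d)).symm.toRingEquiv.toRingHom) :=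
      RingHom.injective _
    intro x y hxy
    have h2 := @h1 (LinearMap.toMatrixAlgEquiv' (R := ℂ) (n := Fin d) x)
      (LinearMap.toMatrixAlgEquiv' (R := ℂ) (n := Fin d) y)
    have h3 : LinearMap.toMatrixAlgEquiv' (R := ℂ) (n := Fin d) x =
        LinearMap.toMatrixAlgEquiv' (R := ℂ) (n := Fin d) y := by
      apply h2
      change R ((LinearMap.toMatrixAlgEquiv' (R := ℂ) (n := Fin d)).symm
        (LinearMap.toMatrixAlgEquiv' (R := ℂ) (n := Fin d) x)) =
        R ((LinearMap.toMatrixAlgEquiv' (R := ℂ) (n := Fin d)).symm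
        (LinearMap.toMatrixAlgEquiv' (R := ℂ) (n := Fin d) y))
      rw [AlgEquiv.symm_apply_apply, AlgEquiv.symm_apply_apply, hxy]
    exact (LinearMap.toMatrixAlgEquiv' (R := ℂ) (n := Fin d)).injective h3
  exact (LinearMap.injective_iff_surjective (f := R.toLinearMap)).1 hinj

theorem DEG_case2 (burn : S_BURN) (transfer : S_TRANSFER)
    {G : Type} [Group G] [Fintype G] (N : Subgroup G) [N.Normal] [Fintype N] (l : N → ℂ)
    (hl : IsIrrChar l) {S : Type} [Group S] (hS : IsSimpleGroup S) (π : G →* S)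
    (hπ : Function.Surjective π) (hker : ∀ g, π g = 1 ↔ g ∈ N)
    (P : Subgroup G) (hNP : N ≤ P) (hPN : ∃ x ∈ P, x ∉ N)
    (χ : G → ℂ) (hχ : IsIrrChar χ) (e : ℕ) (he0 : 0 < e) (heN : ∀ n : N, χ n = e * l n)
    (ξ : P → ℂ) (hξ : IsIrrChar ξ) (hξl : ∀ n : N, ξ ⟨n, hNP n.2⟩ = l n)
    (hχξ : ∀ x : P, χ x = e * ξ x) : χ 1 = l 1 := by
  classical
  have := Fintype.ofFinite P
  obtain ⟨d, ρ, hρ, rfl⟩ := hχ
  obtain ⟨d0, σ0, hσ0, rfl⟩ := hξ
  have hl' := hl
  obtain ⟨dl, σ, hσ, rfl⟩ := hl
  have := nontrivial_of_irr hσ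
  have := nontrivial_of_irr hσ0
  -- dimensions
  have hdim : dl = d0 := by
    have h1 := hξl 1
    have h2 : (⟨((1 : N) : G), hNP (1 : N).2⟩ : P) = 1 := rfl
    rw [h2, char_one, char_one] at h1
    simp only [Module.finrank_fintype_fun_eq_card, Fintype.card_fin] at h1
    exact_mod_cast h1.symm
  have hdl : 0 < dl := by
    have h1 : 0 < finrank ℂ (Fin dl → ℂ) := Module.finrank_pos
    simpa using h1
  obtain ⟨R, hR, -, -⟩ := transfer P (Fin d0 → ℂ) σ0 hσ0 (Fin d → ℂ) (ρ.comp P.subtype) e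
    (fun x => hχξ x)
  obtain ⟨R', hR', -, -⟩ := transfer N (Fin dl → ℂ) σ hσ (Fin d0 → ℂ)
    (σ0.comp (Subgroup.inclusion hNP)) 1 (fun n => by rw [one_mul]; exact hξl n)
  have hsurj := DEG_surj hdim hdl R'
  -- the operators of `N` span everything
  have hspan : ∀ Z : End ℂ (Fin dl → ℂ), Z ∈ Submodule.span ℂ (Set.range fun n : N => σ n) := by
    intro Z
    have h1 := burn N (Fin dl → ℂ) σ hσ Z
    have h2 : ((Fintype.card N : ℂ) / finrank ℂ (Fin dl → ℂ)) ≠ 0 := by
      apply div_ne_zero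
      · exact_mod_cast Fintype.card_ne_zero
      · have h3 : 0 < finrank ℂ (Fin dl → ℂ) := Module.finrank_pos
        exact_mod_cast h3.ne'
    have h3 : Z = ((Fintype.card N : ℂ) / finrank ℂ (Fin dl → ℂ))⁻¹ •
        ∑ n : N, LinearMap.trace ℂ (Fin dl → ℂ) (Z * σ n⁻¹) • σ n := by
      rw [h1, smul_smul, inv_mul_cancel₀ h2, one_smul]
    rw [h3]
    refine Submodule.smul_mem _ _ (Submodule.sum_mem _ fun n _ => Submodule.smul_mem _ _ ?_)
    exact Submodule.subset_span ⟨n, rfl⟩
  set A : Submodule ℂ (End ℂ (Fin d → ℂ)) :=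
    Submodule.span ℂ (Set.range fun n : N => (ρ.comp N.subtype : N →* End ℂ (Fin d → ℂ)) n) with hA
  have hAN : ∀ n : N, ρ n ∈ A := fun n => Submodule.subset_span ⟨n, rfl⟩
  have hAP : ∀ x : P, ρ x ∈ A := by
    intro x
    obtain ⟨Z, hZ⟩ := hsurj (σ0 x)
    have h1 : ρ x = R (R' Z) := by
      rw [hZ, hR]
      rfl
    rw [h1]
    have h2 : ∀ Z ∈ Submodule.span ℂ (Set.range fun n : N => σ n), R (R' Z) ∈ A := by
      intro Z hZ
      induction hZ using Submodule.span_induction with
      | mem Z hZ =>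
        obtain ⟨n, rfl⟩ := hZ
        change R (R' (σ n)) ∈ A
        rw [hR']
        change R (σ0 (Subgroup.inclusion hNP n)) ∈ A
        rw [hR]
        exact hAN n
      | zero => rw [map_zero, map_zero]; exact Submodule.zero_mem _
      | add x y _ _ hx hy => rw [map_add, map_add]; exact Submodule.add_mem _ hx hy
      | smul c x _ hx => rw [map_smul, map_smul]; exact Submodule.smul_mem _ _ hx
    exact h2 Z (hspan Z)
  have hAmul : ∀ {x y : End ℂ (Fin d → ℂ)}, x ∈ A → y ∈ A → x * y ∈ A := fun hx hy =>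
    DEG_span_mul (ρ.comp N.subtype : N →* End ℂ (Fin d → ℂ)) hx hy
  have hA1 : (1 : End ℂ (Fin d → ℂ)) ∈ A := by
    have h := hAN 1
    have h2 : ρ ((1 : N) : G) = 1 := by
      rw [Subgroup.coe_one, map_one]
    rwa [h2] at h
  have hApow : ∀ {x : End ℂ (Fin d → ℂ)}, x ∈ A → ∀ k : ℕ, x ^ k ∈ A := by
    intro x hx k
    induction k with
    | zero => rw [pow_zero]; exact hA1
    | succ k ih => rw [pow_succ]; exact hAmul ih hx
  have hAconj : ∀ (g : G) {Z : End ℂ (Fin d → ℂ)}, Z ∈ A → ρ g * Z * ρ g⁻¹ ∈ A := by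
    intro g Z hZ
    rw [hA] at hZ
    induction hZ using Submodule.span_induction with
    | mem Z hZ =>
      obtain ⟨n, rfl⟩ := hZ
      change ρ g * ρ n * ρ g⁻¹ ∈ A
      rw [← map_mul, ← map_mul]
      exact hAN ⟨g * n * g⁻¹, ‹N.Normal›.conj_mem n n.2 g⟩
    | zero => rw [mul_zero, zero_mul]; exact Submodule.zero_mem _
    | add x y _ _ hx hy => rw [mul_add, add_mul]; exact Submodule.add_mem _ hx hy
    | smul c x _ hx =>
      rw [mul_smul_comm, smul_mul_assoc]
      exact Submodule.smul_mem _ _ hx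
  let K : Subgroup G :=
    { carrier := {g | ρ g ∈ A}
      mul_mem' := by
        intro a c ha hc
        change ρ (a * c) ∈ A
        rw [map_mul]
        exact hAmul ha hc
      one_mem' := by
        change ρ 1 ∈ A
        rw [map_one]
        exact hA1
      inv_mem' := by
        intro g hg
        change ρ g⁻¹ ∈ A
        have h1 : g⁻¹ = g ^ (Fintype.card G - 1) := by
          symm
          apply eq_inv_of_mul_eq_one_left
          rw [← pow_succ, Nat.sub_add_cancel Fintype.card_pos, pow_card_eq_one]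
        rw [h1, map_pow]
        exact hApow hg _ }
  have hKn : K.Normal := ⟨fun x hx g => by
    change ρ (g * x * g⁻¹) ∈ A
    rw [map_mul, map_mul]
    exact hAconj g hx⟩
  have hKtop : K = ⊤ := by
    have hNK : N ≤ K := fun n hn => hAN ⟨n, hn⟩
    have hmn : (K.map π).Normal := hKn.map π hπ
    rcases hS.eq_bot_or_eq_top_of_normal (K.map π) hmn with h | h
    · exfalso
      obtain ⟨x, hxP, hxN⟩ := hPN
      apply hxN
      rw [← hker x, ← Subgroup.mem_bot, ← h]
      exact Subgroup.mem_map_of_mem π (hAP ⟨x, hxP⟩)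
    · rw [Subgroup.eq_top_iff']
      intro g
      have h1 : π g ∈ K.map π := by rw [h]; trivial
      obtain ⟨k, hk, hkg⟩ := h1
      have h2 : g * k⁻¹ ∈ N := by
        rw [← hker, map_mul, map_inv, hkg, mul_inv_cancel]
      have h3 := K.mul_mem (hNK h2) hk
      rwa [inv_mul_cancel_right] at h3
  have hall : ∀ g : G, ρ g ∈ A := by
    intro g
    have : g ∈ K := by rw [hKtop]; trivial
    exact this
  -- irreducibility of the restriction
  have hirr : (resRep N ρ).IsIrreducible := by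
    rw [DC7914.irreducible_iff] at hρ ⊢
    refine ⟨hρ.1, fun U hU => hρ.2 U fun g v hv => ?_⟩
    have h1 : ∀ Z ∈ A, Z v ∈ U := by
      intro Z hZ
      rw [hA] at hZ
      induction hZ using Submodule.span_induction with
      | mem Z hZ =>
        obtain ⟨n, rfl⟩ := hZ
        exact hU n v hv
      | zero => exact Submodule.zero_mem _
      | add x y _ _ hx hy => exact Submodule.add_mem _ hx hy
      | smul c x _ hx => exact Submodule.smul_mem _ _ hx
    exact h1 _ (hall g)
  have hirr' := isIrrChar_of_rep _ hirr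
  have horth := hirr'.orthonormal hl'
  have h1 : ∑ g : N, (resRep N ρ).character g *
      σ.character g⁻¹ = (e : ℂ) * Nat.card N := by
    have h2 := hl'.orthonormal hl'
    rw [if_pos rfl] at h2
    rw [← h2, Finset.mul_sum]
    refine Finset.sum_congr rfl fun n _ => ?_
    have h3 : (resRep N ρ).character n =
        e * σ.character n := heN n
    rw [h3]
    ring
  rw [h1] at horth
  by_cases heq : (resRep N ρ).character = σ.character
  · have h2 := congrFun heq 1
    rw [← h2]
    rfl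
  · rw [if_neg heq] at horth
    exfalso
    rcases mul_eq_zero.1 horth with h2 | h2
    · have : e = 0 := by exact_mod_cast h2
      omega
    · have h3 : Nat.card N = 0 := by exact_mod_cast h2
      exact Nat.card_pos.ne' h3

theorem prf_DEG (burn : S_BURN) (ext : S_EXT) (fix : S_FIX) (transfer : S_TRANSFER)
    (iso : S_ISO) : S_DEG := by
  classical
  intro S F _ _ _ τ hS D hF G _ _ N _ _ l hQ hl hinv χ hχ
  obtain ⟨q⟩ := hQ
  rw [DEG_mem_ovr] at hχ
  obtain ⟨hχ, hmu⟩ := hχ
  let π : G →* S := q.toMonoidHom.comp (QuotientGroup.mk' N)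
  have hπ : Function.Surjective π := q.surjective.comp (QuotientGroup.mk'_surjective N)
  have hker : ∀ g, π g = 1 ↔ g ∈ N := by
    intro g
    change q (g : G ⧸ N) = 1 ↔ _
    rw [map_eq_one_iff q q.injective, QuotientGroup.eq_one_iff]
  let P : Subgroup G := D.u.range.comap π
  have : Fintype P := Fintype.ofFinite P
  have hNP : N ≤ P := by
    intro g hg
    change π g ∈ D.u.range
    rw [(hker g).2 hg]
    exact one_mem _
  obtain ⟨t0, ht0⟩ := hπ D.t
  have hc0 : D.c ≠ 0 := by
    intro h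
    have h1 := D.ord
    rw [h, orderOf_zero] at h1
    have := D.pos
    omega
  have hb1 : ∀ x : G, x ∈ P → t0 * x * t0⁻¹ ∈ P := by
    intro x hx
    obtain ⟨y, hy⟩ := hx
    refine ⟨Multiplicative.ofAdd (D.c * Multiplicative.toAdd y), ?_⟩
    rw [← D.act, ofAdd_toAdd, hy, map_mul, map_mul, map_inv, ht0]
  have hb2 : ∀ x : G, x ∈ P → t0⁻¹ * x * t0 ∈ P := by
    intro x hx
    obtain ⟨y, hy⟩ := hx
    refine ⟨Multiplicative.ofAdd (D.c⁻¹ * Multiplicative.toAdd y), ?_⟩
    have h := D.act (D.c⁻¹ * Multiplicative.toAdd y)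
    rw [mul_inv_cancel_left₀ hc0, ofAdd_toAdd, hy] at h
    have h5 : π (t0⁻¹ * x * t0) = D.t⁻¹ * π x * D.t := by
      rw [map_mul π, map_mul π, map_inv π, ht0]
    rw [h5, ← h]
    group
  let b : MulAut P :=
    { toFun := fun x => ⟨t0 * x * t0⁻¹, hb1 x x.2⟩
      invFun := fun x => ⟨t0⁻¹ * x * t0, hb2 x x.2⟩
      left_inv := fun x => by
        apply Subtype.ext
        change t0⁻¹ * (t0 * x * t0⁻¹) * t0 = x
        group
      right_inv := fun x => by
        apply Subtype.ext
        change t0 * (t0⁻¹ * x * t0) * t0⁻¹ = x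
        group
      map_mul' := fun x y => by
        apply Subtype.ext
        change t0 * (x * y) * t0⁻¹ = (t0 * x * t0⁻¹) * (t0 * y * t0⁻¹)
        group }
  have hbval : ∀ x : P, ((b x : P) : G) = t0 * x * t0⁻¹ := fun x => rfl
  let p : P →* Multiplicative F := (MonoidHom.ofInjective D.inj).symm.toMonoidHom.comp
    ((π.comp P.subtype).codRestrict D.u.range (fun x => x.2))
  have hp : ∀ x : P, D.u (p x) = π x := by
    intro x
    change D.u ((MonoidHom.ofInjective D.inj).symm
      (((π.comp P.subtype).codRestrict D.u.range (fun x => x.2)) x)) = π x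
    rw [MonoidHom.apply_ofInjective_symm]
    rfl
  set M : Subgroup P := N.subgroupOf P with hM
  have : Fintype M := Fintype.ofFinite M
  have hMmem : ∀ x : P, x ∈ M ↔ (x : G) ∈ N := fun x => Subgroup.mem_subgroupOf
  let E : PData P F M τ :=
    { p := p
      sur := by
        intro y
        obtain ⟨g, hg⟩ := hπ (D.u y)
        have hgP : g ∈ P := ⟨y, hg.symm⟩
        refine ⟨⟨g, hgP⟩, ?_⟩
        apply D.inj
        rw [hp]
        exact hg
      ker := by
        intro x
        rw [hMmem, ← hker, ← hp x, map_eq_one_iff D.u D.inj]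
      b := b
      c := D.c
      act := by
        intro x
        apply D.inj
        rw [hp, ← D.act, ofAdd_toAdd, hp, hbval, map_mul, map_mul, map_inv, ht0]
      ord := D.ord
      pos := D.pos }
  let ε : M ≃* N := Subgroup.subgroupOfEquivOfLe hNP
  have hεval : ∀ n : M, ((ε n : N) : G) = ((n : P) : G) := fun n => rfl
  let θ : M → ℂ := fun x => l (ε x)
  have hθ : IsIrrChar θ := DEG_irr_comp ε hl
  have hconj : ∀ (g : G) (m n : N), (m : G) = g * n * g⁻¹ → l m = l n := by
    intro g m n hmn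
    have h1 := congrFun (hinv g) n
    have h2 : MulAut.conjNormal g n = m := by
      apply Subtype.ext
      rw [MulAut.conjNormal_apply, hmn]
    change l (MulAut.conjNormal g n) = l n at h1
    rw [h2] at h1
    exact h1
  have hθinv : ∀ a : P, cj a θ = θ := by
    intro a
    funext n
    change l (ε (MulAut.conjNormal a n)) = l (ε n)
    apply hconj (a : G)
    rw [hεval, hεval, MulAut.conjNormal_apply]
    rfl
  have hbM : ∀ n : M, E.b n ∈ M := by
    intro n
    rw [hMmem]
    change t0 * ((n : P) : G) * t0⁻¹ ∈ N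
    exact ‹N.Normal›.conj_mem _ ((hMmem n).1 n.2) t0
  have hθb : ∀ n : M, θ ⟨E.b n, hbM n⟩ = θ n := by
    intro n
    change l (ε ⟨E.b n, hbM n⟩) = l (ε n)
    apply hconj t0
    rw [hεval, hεval]
    rfl
  have hFE : FormTriv F E.c := hF
  obtain ⟨ξ₀, hξ₀, hξ₀b, hfix⟩ := fix P F M τ E hFE θ hθ hθinv hbM hθb
  obtain ⟨e, he0, heN⟩ := iso G N l hl hinv χ hχ hmu
  -- decomposition of the restriction to `P`
  have hdec : ∃ s : Multiset (P → ℂ), (∀ ξ ∈ s, IsIrrChar ξ) ∧ ∀ x : P, χ x = s.sum x := by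
    obtain ⟨d, ρ, hρ, rfl⟩ := hχ
    obtain ⟨s, hs, hsum⟩ := decomp (ρ.comp P.subtype : Representation ℂ P (Fin d → ℂ))
    refine ⟨s, fun ξ h => (hs ξ h).1, fun x => ?_⟩
    rw [← hsum]
    rfl
  obtain ⟨s, hs, hsum⟩ := hdec
  have hsM : ∀ n : M, s.sum n = e * θ n := by
    intro n
    rw [← hsum]
    have h1 := heN (ε n)
    rw [hεval] at h1
    exact h1
  have hover := DEG_over hθ s hs e hsM
  have hext : ∀ ξ ∈ s, ∀ n : M, ξ n = θ n := fun ξ h =>
    ext P F M τ E hFE θ hθ hθinv hbM hθb ξ (hs ξ h) (hover ξ h)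
  have hsb : ∀ x, s.sum (b x) = s.sum x := by
    intro x
    rw [← hsum, ← hsum, hbval]
    exact hχ.conj x t0
  -- the degree
  have hone : ∀ ξ ∈ s, ξ 1 = l 1 := by
    intro ξ h
    have h1 := hext ξ h 1
    have h2 : θ 1 = l 1 := by
      change l (ε 1) = l 1
      rw [map_one]
    rw [← h2, ← h1]
    rfl
  have hdeg : χ 1 = (Multiset.card s : ℂ) * l 1 := by
    have h1 : χ 1 = s.sum 1 := by
      have := hsum 1
      rwa [Subgroup.coe_one] at this
    rw [h1]
    clear h1 hsum hsM hover hext hsb hs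
    induction s using Multiset.induction_on with
    | empty => simp
    | cons ξ s ih =>
      rw [Multiset.sum_cons, Pi.add_apply, ih (fun ξ h => hone ξ (Multiset.mem_cons_of_mem h)),
        hone ξ (Multiset.mem_cons_self ξ s), Multiset.card_cons]
      push_cast
      ring
  by_cases hcase : ∃ ξ ∈ s, ξ ≠ ξ₀
  · right
    obtain ⟨ξ, hξ, hne⟩ := hcase
    have hξo : ξ ∈ ovr M θ := DEG_mem_ovr.2 ⟨hs ξ hξ, hover ξ hξ⟩
    have hmem := DEG_twist_pow b s hs hsb hξ
    have hinj : ∀ i j : ℕ, i < j → j < τ →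
        (fun x => ξ ((b ^ i) x)) ≠ (fun x => ξ ((b ^ j) x)) := by
      intro i j hij hj h
      apply hne
      refine hfix ξ hξo (j - i) (by omega) (by omega) fun x => ?_
      have h1 := congrFun h ((b ^ i)⁻¹ x)
      change ξ ((b ^ i) ((b ^ i)⁻¹ x)) = ξ ((b ^ j) ((b ^ i)⁻¹ x)) at h1
      have h2 : (b ^ i) ((b ^ i)⁻¹ x) = x := by
        rw [← MulAut.mul_apply, mul_inv_cancel, MulAut.one_apply]
      have h3 : (b ^ j) ((b ^ i)⁻¹ x) = (b ^ (j - i)) x := by
        rw [← MulAut.mul_apply]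
        congr 1
        rw [pow_sub b hij.le]
      rw [h2, h3] at h1
      exact h1.symm
    have hcard : τ ≤ Multiset.card s := by
      have h1 : (Finset.range τ).card ≤ s.toFinset.card := by
        refine Finset.card_le_card_of_injOn (fun k x => ξ ((b ^ k) x)) ?_ ?_
        · intro k _
          rw [Finset.mem_coe, Multiset.mem_toFinset]
          exact hmem k
        · intro i hi j hj hij
          rw [Finset.mem_coe, Finset.mem_range] at hi hj
          rcases lt_trichotomy i j with h | h | h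
          · exact absurd hij (hinj i j h hj)
          · exact h
          · exact absurd hij.symm (hinj j i h hi)
      rw [Finset.card_range] at h1
      exact h1.trans (Multiset.toFinset_card_le s)
    rw [hdeg, norm_mul, Complex.norm_natCast]
    exact mul_le_mul_of_nonneg_right (by exact_mod_cast hcard) (norm_nonneg _)
  · left
    push Not at hcase
    have hsumξ : ∀ x : P, χ x = (Multiset.card s : ℂ) * ξ₀ x := by
      intro x
      rw [hsum]
      have h1 : s = Multiset.replicate (Multiset.card s) ξ₀ := Multiset.eq_replicate_card.2 hcase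
      conv_lhs => rw [h1]
      rw [Multiset.sum_replicate, Pi.smul_apply, nsmul_eq_mul]
    have hξ₀' := DEG_mem_ovr.1 hξ₀
    have hξ₀M : ∀ n : M, ξ₀ n = θ n :=
      ext P F M τ E hFE θ hθ hθinv hbM hθb ξ₀ hξ₀'.1 hξ₀'.2
    have hlone : l 1 ≠ 0 := hl.one_ne_zero
    have hce : (Multiset.card s : ℂ) = e := by
      have h1 := heN 1
      rw [Subgroup.coe_one, hdeg] at h1
      exact mul_right_cancel₀ hlone h1
    have hce' : Multiset.card s = e := by exact_mod_cast hce
    have hPN : ∃ x ∈ P, x ∉ N := by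
      obtain ⟨g, hg⟩ := hπ (D.u (Multiplicative.ofAdd 1))
      refine ⟨g, ⟨_, hg.symm⟩, fun hgN => ?_⟩
      rw [← hker, hg, map_eq_one_iff D.u D.inj] at hgN
      have : (1 : F) = 0 := by
        exact congrArg Multiplicative.toAdd hgN
      exact one_ne_zero this
    have h := DEG_case2 burn transfer N l hl hS π hπ hker P hNP hPN χ hχ e he0 heN ξ₀ hξ₀'.1
      (fun n => by
        have h1 := hξ₀M (ε.symm n)
        have h2 : θ (ε.symm n) = l n := by
          change l (ε (ε.symm n)) = l n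
          rw [MulEquiv.apply_symm_apply]
        rw [h2] at h1
        rw [← h1]
        rfl)
      (fun x => by rw [hsumξ x, hce])
    rw [h]

end Pool.Agent.RadIndex

end

section

/-!
# The characters of `P` over `θ` extend `θ`
-/

set_option autoImplicit false
set_option linter.unusedSectionVars false

open Module Representation Pool.Agent.DC7914

namespace Pool.Agent.RadIndex

/-- the form is trivial -/
theorem EXT_form {P F : Type} [Group P] [Field F] (N : Subgroup P) [N.Normal] {t : ℕ}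
    (D : PData P F N t) (hF : FormTriv F D.c) (B : P → P → ℂ)
    (h1 : ∀ x x' y, B (x * x') y = B x y * B x' y) (h2 : ∀ x y y', B x (y * y') = B x y * B x y')
    (h3 : ∀ (n : N) y, B n y = 1 ∧ B y n = 1) (h4 : ∀ x, B x x = 1)
    (h5 : ∀ x y, B (D.b x) (D.b y) = B x y) (h6 : ∀ x y, B x y ≠ 0) (x y : P) : B x y = 1 := by
  have hl : ∀ z : F, ∃ x : P, D.p x = Multiplicative.ofAdd z := fun z => D.sur _
  choose s hs using hl
  have hx : ∀ x x', D.p x = D.p x' → ∀ y, B x y = B x' y ∧ B y x = B y x' := by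
    intro x x' h y
    have hn : x'⁻¹ * x ∈ N := by
      rw [← D.ker, map_mul, map_inv, h, inv_mul_cancel]
    have e : x = x' * ((⟨x'⁻¹ * x, hn⟩ : N) : P) := by simp
    have e1 : B x y = B (x' * ((⟨x'⁻¹ * x, hn⟩ : N) : P)) y := congrArg (fun z => B z y) e
    have e2 : B y x = B y (x' * ((⟨x'⁻¹ * x, hn⟩ : N) : P)) := congrArg (fun z => B y z) e
    constructor
    · rw [e1, h1, (h3 _ y).1, mul_one]
    · rw [e2, h2, (h3 _ y).2, mul_one]
  have key := hF (fun u v => B (s u) (s v)) (by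
      intro u u' v
      show B (s (u + u')) (s v) = B (s u) (s v) * B (s u') (s v)
      rw [← h1]
      exact (hx _ _ (by rw [hs, map_mul, hs, hs, ofAdd_add]) _).1) (by
      intro u v v'
      show B (s u) (s (v + v')) = B (s u) (s v) * B (s u) (s v')
      rw [← h2]
      exact (hx _ _ (by rw [hs, map_mul, hs, hs, ofAdd_add]) _).2) (fun u => h4 _) (by
      intro u v
      show B (s (D.c * u)) (s (D.c * v)) = B (s u) (s v)
      rw [← h5 (s u) (s v), (hx (s (D.c * u)) (D.b (s u)) (by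
        rw [hs, D.act, hs, toAdd_ofAdd]) _).1, (hx (s (D.c * v)) (D.b (s v)) (by
        rw [hs, D.act, hs, toAdd_ofAdd]) _).2]) (fun u v => h6 _ _)
  have h7 := key (Multiplicative.toAdd (D.p x)) (Multiplicative.toAdd (D.p y))
  rw [← h7]
  rw [(hx x (s (Multiplicative.toAdd (D.p x))) (by rw [hs, ofAdd_toAdd]) _).1,
    (hx y (s (Multiplicative.toAdd (D.p y))) (by rw [hs, ofAdd_toAdd]) _).2]

theorem prf_EXT (hburn : S_BURN) (hform : S_FORM) (htr : S_TRANSFER) (hiso : S_ISO) : S_EXT := by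
  intro P F _ _ _ N _ _ t D hF θ hθ hinv hb hbθ ξ hξ hmu n₀
  have hc : ∀ x y : P, x * y * x⁻¹ * y⁻¹ ∈ N := by
    intro x y
    rw [← D.ker]
    simp only [map_mul, map_inv]
    rw [mul_comm (D.p x) (D.p y)]
    group
  obtain ⟨d, σ, hσ, rfl⟩ := hθ
  obtain ⟨k, τ, hτ, rfl⟩ := hξ
  obtain ⟨e, he, hres⟩ := hiso P N σ.character (isIrrChar_of_rep σ hσ) hinv τ.character
    (isIrrChar_of_rep τ hτ) hmu
  obtain ⟨Y, Yi, B, hY, hYσ, hYY, hB1, hB2, hB3, hB4, hB5⟩ := hform P N hc (Fin d → ℂ) σ hσ hinv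
  have hnt : Nontrivial (Fin d → ℂ) := nontrivial_of_irr hσ
  have hB0 : ∀ x y, B x y ≠ 0 := by
    intro x y h
    have h1 := hYY x y
    rw [h, zero_smul] at h1
    have h2 : (1 : End ℂ (Fin d → ℂ)) = 0 := by
      calc (1 : End ℂ (Fin d → ℂ)) = Y x * (Y y * Yi y) * Yi x := by
            rw [(hY y).1, mul_one, (hY x).1]
        _ = (Y x * Y y) * Yi y * Yi x := by simp only [mul_assoc]
        _ = 0 := by rw [h1, zero_mul, zero_mul]
    exact one_ne_zero h2
  have hB : ∀ x y, B x y = 1 := EXT_form N D hF B hB1 hB2 hB3 hB4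
    (hB5 D.b hb hbθ) hB0
  have hYY' : ∀ x y, Y x * Y y = σ ⟨x * y * x⁻¹ * y⁻¹, hc x y⟩ * Y y * Y x := by
    intro x y
    rw [hYY x y, hB, one_smul]
  obtain ⟨R, hR1, -, -⟩ := htr N (Fin d → ℂ) σ hσ (Fin k → ℂ) (resRep N τ) e (fun n => hres n)
  have hR1' : ∀ n : N, R (σ n) = τ (n : P) := hR1
  -- the span of the operators of `N`
  have hspan : ∀ Z : End ℂ (Fin d → ℂ), Z ∈ Submodule.span ℂ (Set.range fun n => σ n) := by
    intro Z
    have h1 := hburn N (Fin d → ℂ) σ hσ Z
    have h2 : ((Fintype.card N : ℂ) / finrank ℂ (Fin d → ℂ)) ≠ 0 := by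
      apply div_ne_zero
      · exact_mod_cast Fintype.card_ne_zero
      · exact_mod_cast (Module.finrank_pos (R := ℂ) (M := Fin d → ℂ)).ne'
    have h3 : Z = ((Fintype.card N : ℂ) / finrank ℂ (Fin d → ℂ))⁻¹ •
        ∑ n : N, LinearMap.trace ℂ (Fin d → ℂ) (Z * σ n⁻¹) • σ n := by
      rw [h1, smul_smul, inv_mul_cancel₀ h2, one_smul]
    rw [h3]
    exact Submodule.smul_mem _ _ (Submodule.sum_mem _ fun n _ =>
      Submodule.smul_mem _ _ (Submodule.subset_span ⟨n, rfl⟩))
  have c1 : ∀ (v : P) (Z : End ℂ (Fin d → ℂ)), τ v * R Z = R (Y v * Z * Yi v) * τ v := by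
    intro v Z
    induction hspan Z using Submodule.span_induction with
    | mem Z hZ =>
      obtain ⟨n, rfl⟩ := hZ
      show τ v * R (σ n) = R (Y v * σ n * Yi v) * τ v
      rw [hYσ v n, mul_assoc, (hY v).1, mul_one, hR1', hR1', ← map_mul, ← map_mul]
      congr 1
      rw [MulAut.conjNormal_apply]
      group
    | zero => simp
    | add Z Z' _ _ h h' => rw [map_add, mul_add, h, h', mul_add, add_mul, map_add, add_mul]
    | smul a Z _ h => rw [map_smul, mul_smul_comm, h, mul_smul_comm, smul_mul_assoc, map_smul,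
        smul_mul_assoc]
  have c2 : ∀ (u : P) (m : N), τ u * R (Yi u) * τ m = τ m * (τ u * R (Yi u)) := by
    intro u m
    set m' : N := MulAut.conjNormal u⁻¹ m with hm'
    have h1 := hYσ u m'
    have h2 : MulAut.conjNormal u m' = m := by
      ext
      rw [hm', MulAut.conjNormal_apply, MulAut.conjNormal_apply]
      group
    rw [h2] at h1
    have h3 : Yi u * σ m = σ m' * Yi u := by
      calc Yi u * σ m = Yi u * (σ m * Y u) * Yi u := by
            rw [mul_assoc (Yi u), mul_assoc (σ m), (hY u).1, mul_one]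
        _ = Yi u * (Y u * σ m') * Yi u := by rw [h1]
        _ = (Yi u * Y u) * σ m' * Yi u := by simp only [mul_assoc]
        _ = σ m' * Yi u := by rw [(hY u).2, one_mul]
    calc τ u * R (Yi u) * τ m = τ u * R (Yi u * σ m) := by
          rw [map_mul, hR1', mul_assoc]
      _ = τ u * τ m' * R (Yi u) := by rw [h3, map_mul, hR1', mul_assoc]
      _ = τ m * (τ u * R (Yi u)) := by
          rw [← mul_assoc, ← map_mul, ← map_mul]
          congr 2
          rw [hm', MulAut.conjNormal_apply]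
          group
  have c3 : ∀ u v : P, τ u * R (Yi u) * τ v = τ v * (τ u * R (Yi u)) := by
    intro u v
    set c : N := ⟨v * u * v⁻¹ * u⁻¹, hc v u⟩ with hcdef
    have h1 : σ c * Y u = Y v * Y u * Yi v := by
      rw [hYY' v u, mul_assoc, (hY v).1, mul_one]
    have h2 : Y v * Yi u * Yi v * σ c = Yi u := by
      calc Y v * Yi u * Yi v * σ c = Y v * Yi u * Yi v * (σ c * Y u) * Yi u := by
            rw [mul_assoc (Y v * Yi u * Yi v), mul_assoc (σ c), (hY u).1, mul_one]
        _ = Y v * Yi u * (Yi v * Y v) * Y u * Yi v * Yi u := by rw [h1]; simp only [mul_assoc]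
        _ = Y v * (Yi u * Y u) * Yi v * Yi u := by rw [(hY v).2, mul_one]; simp only [mul_assoc]
        _ = Yi u := by rw [(hY u).2, mul_one, (hY v).1, one_mul]
    have h3 : Y v * Yi u * Yi v = Yi u * σ c⁻¹ := by
      calc Y v * Yi u * Yi v = Y v * Yi u * Yi v * (σ c * σ c⁻¹) := by
            rw [← map_mul, mul_inv_cancel, map_one, mul_one]
        _ = Y v * Yi u * Yi v * σ c * σ c⁻¹ := by rw [mul_assoc (Y v * Yi u * Yi v)]
        _ = Yi u * σ c⁻¹ := by rw [h2]
    have h4 : τ v * τ u = τ c * τ u * τ v := by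
      rw [← map_mul, ← map_mul, ← map_mul]
      congr 1
      rw [hcdef]
      group
    symm
    calc τ v * (τ u * R (Yi u)) = τ v * τ u * R (Yi u) := by rw [mul_assoc]
      _ = τ c * τ u * (τ v * R (Yi u)) := by rw [h4]; simp only [mul_assoc]
      _ = τ c * τ u * (R (Yi u * σ c⁻¹) * τ v) := by rw [c1, h3]
      _ = (τ c * (τ u * R (Yi u))) * τ ((c⁻¹ : N) : P) * τ v := by
          rw [map_mul R, hR1']; simp only [mul_assoc]
      _ = τ u * R (Yi u) * (τ c * τ ((c⁻¹ : N) : P)) * τ v := by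
          rw [← c2]; simp only [mul_assoc]
      _ = τ u * R (Yi u) * τ v := by
          rw [← map_mul]
          have h5 : ((c : P) * ((c⁻¹ : N) : P)) = 1 := by simp
          rw [h5, map_one, mul_one]
  have c5 : ∀ Z : End ℂ (Fin d → ℂ),
      R Z ∈ Submodule.span ℂ (Set.range fun n : N => τ (n : P)) := by
    intro Z
    induction hspan Z using Submodule.span_induction with
    | mem Z hZ =>
      obtain ⟨n, rfl⟩ := hZ
      show R (σ n) ∈ _
      rw [hR1']
      exact Submodule.subset_span ⟨n, rfl⟩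
    | zero => rw [map_zero]; exact Submodule.zero_mem _
    | add Z Z' _ _ h h' => rw [map_add]; exact Submodule.add_mem _ h h'
    | smul a Z _ h => rw [map_smul]; exact Submodule.smul_mem _ _ h
  have c4 : ∀ u : P, τ u ∈ Submodule.span ℂ (Set.range fun n : N => τ (n : P)) := by
    intro u
    obtain ⟨a, ha⟩ := schur τ hτ (τ u * R (Yi u)) (c3 u)
    have h1 : τ u = a • R (Y u) := by
      calc τ u = τ u * R (Yi u) * R (Y u) := by
            rw [mul_assoc, ← map_mul, (hY u).2, map_one, mul_one]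
        _ = a • R (Y u) := by rw [ha, smul_mul_assoc, one_mul]
    rw [h1]
    exact Submodule.smul_mem _ _ (c5 _)
  have hirr : (resRep N τ).IsIrreducible := by
    rw [DC7914.irreducible_iff]
    refine ⟨nontrivial_of_irr hτ, fun U hU => ((DC7914.irreducible_iff τ).1 hτ).2 U fun g v hv => ?_⟩
    have hg := c4 g
    generalize τ g = A at hg
    induction hg using Submodule.span_induction with
    | mem A hA =>
      obtain ⟨n, rfl⟩ := hA
      exact hU n v hv
    | zero => simp
    | add A A' _ _ h h' => exact U.add_mem h h'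
    | smul a A _ h => exact U.smul_mem a h
  have hor := (isIrrChar_of_rep σ hσ).orthonormal (isIrrChar_of_rep (resRep N τ) hirr)
  by_cases h : σ.character = (resRep N τ).character
  · rw [h]
    rfl
  · exfalso
    rw [if_neg h] at hor
    have h1 := (isIrrChar_of_rep σ hσ).orthonormal (isIrrChar_of_rep σ hσ)
    rw [if_pos rfl] at h1
    have h2 : ∑ g : N, σ.character g * (resRep N τ).character g⁻¹ = e * (Nat.card N : ℂ) := by
      rw [← h1, Finset.mul_sum]
      refine Finset.sum_congr rfl fun g _ => ?_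
      have h3 : (resRep N τ).character g⁻¹ = e * σ.character g⁻¹ := hres g⁻¹
      rw [h3]
      ring
    rw [hor] at h2
    have h4 : (Nat.card N : ℂ) ≠ 0 := by exact_mod_cast Nat.card_pos.ne'
    have h5 : (e : ℂ) ≠ 0 := by exact_mod_cast he.ne'
    exact mul_ne_zero h5 h4 h2.symm

end Pool.Agent.RadIndex

end

section

/-!
# Item FIX: the fixed points on the set of the extensions
-/

set_option autoImplicit false
set_option linter.unusedSectionVars false

open Module Representation Pool.Agent.DC7914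

namespace Pool.Agent.RadIndex

namespace ItFIX

section

variable {P F : Type} [Group P] [Fintype P] [Field F] {N : Subgroup P} [N.Normal] [Fintype N]
  {τ : ℕ}

/-- composition with an automorphism -/
theorem irr_aut (b : MulAut P) {ξ : P → ℂ} (h : IsIrrChar ξ) : IsIrrChar fun x => ξ (b x) := by
  obtain ⟨n, ρ, hρ, rfl⟩ := h
  refine ⟨n, ρ.comp b.toMonoidHom, ?_, rfl⟩
  rw [DC7914.irreducible_iff] at hρ ⊢
  refine ⟨hρ.1, fun U hU => hρ.2 U fun x v hv => ?_⟩
  have := hU (b.symm x) v hv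
  simpa using this

/-- the powers of `b` -/
theorem p_pow (D : PData P F N τ) (k : ℕ) (x : P) :
    D.p ((D.b ^ k) x) = Multiplicative.ofAdd (D.c ^ k * Multiplicative.toAdd (D.p x)) := by
  induction k with
  | zero => simp
  | succ k ih =>
    rw [pow_succ', MulAut.mul_apply, D.act, ih, toAdd_ofAdd, pow_succ', mul_assoc]

/-- homomorphisms trivial on `N` -/
theorem factor (D : PData P F N τ) (f : P →* ℂˣ) (hf : ∀ n ∈ N, f n = 1) :
    ∃ m : Multiplicative F →* ℂˣ, ∀ x, f x = m (D.p x) := by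
  have hk : D.p.ker ≤ f.ker := fun x hx => hf x ((D.ker x).1 hx)
  refine ⟨D.p.liftOfSurjective D.sur ⟨f, hk⟩, fun x => ?_⟩
  exact (MonoidHom.liftOfRightInverse_comp_apply D.p _ (Function.rightInverse_surjInv D.sur)
    ⟨f, hk⟩ x).symm

theorem c_ne (D : PData P F N τ) {k : ℕ} (hk : 0 < k) (hkτ : k < τ) : D.c ^ k ≠ 1 := by
  intro h
  have h1 := orderOf_dvd_of_pow_eq_one h
  rw [D.ord] at h1
  exact absurd (Nat.le_of_dvd hk h1) (by omega)

/-- extensions lie over -/
theorem mem_ovr {θ : N → ℂ} (hθ : IsIrrChar θ) {ξ : P → ℂ} (hξ : IsIrrChar ξ)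
    (h : ∀ n : N, ξ n = θ n) : ξ ∈ ovr N θ := by
  classical
  unfold ovr
  rw [Finset.mem_filter]
  refine ⟨mem_irrs.2 hξ, ?_⟩
  have h1 : mu ξ θ = ∑ n : N, θ n * θ n⁻¹ :=
    Finset.sum_congr rfl fun n _ => by rw [h n⁻¹]
  rw [h1, hθ.orthonormal hθ, if_pos rfl]
  exact_mod_cast Nat.card_pos.ne'

end

end ItFIX

open ItFIX in
theorem prf_FIX (hEXT : S_EXT) (hGALL : S_GALL) : S_FIX := by
  classical
  intro P F _ _ _ N _ _ τ D hF θ hθ hA hb hbθ
  have ext := hEXT P F N τ D hF θ hθ hA hb hbθ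
  have ext' : ∀ ξ ∈ ovr N θ, IsIrrChar ξ ∧ ∀ n : N, ξ n = θ n := by
    intro ξ hξ
    unfold ovr at hξ
    rw [Finset.mem_filter] at hξ
    exact ⟨mem_irrs.1 hξ.1, ext ξ (mem_irrs.1 hξ.1) hξ.2⟩
  -- an extension
  obtain ⟨ξ, hξi, hξθ⟩ : ∃ ξ : P → ℂ, IsIrrChar ξ ∧ ∀ n : N, ξ n = θ n := by
    by_contra hcon
    push Not at hcon
    have h1 := sum_mu (G := P) θ
    rw [Finset.sum_eq_zero] at h1
    · exact mul_ne_zero hθ.one_ne_zero (by exact_mod_cast Fintype.card_ne_zero) h1.symm
    · intro χ hχ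
      have h2 : mu χ θ = 0 := by
        by_contra h3
        obtain ⟨n, hn⟩ := hcon χ (mem_irrs.1 hχ)
        exact hn (ext χ (mem_irrs.1 hχ) h3 n)
      rw [h2, mul_zero]
  -- the character f
  obtain ⟨f, hfN, hf⟩ := (hGALL P N θ hθ ξ hξi hξθ).1 (fun x => ξ (D.b x)) (irr_aut D.b hξi)
    (fun n => by
      have h1 : ξ (D.b n) = ξ ((⟨D.b n, hb n⟩ : N) : P) := rfl
      rw [h1, hξθ, hbθ])
  obtain ⟨m, hm⟩ := factor D f hfN
  have hc1 : D.c - 1 ≠ 0 := by
    have := c_ne D (k := 1) one_pos D.pos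
    rw [pow_one] at this
    exact sub_ne_zero.2 this
  -- the twist
  let nn : Multiplicative F →* ℂˣ :=
    { toFun := fun y => (m (Multiplicative.ofAdd ((D.c - 1)⁻¹ * Multiplicative.toAdd y)))⁻¹
      map_one' := by simp
      map_mul' := fun y z => by
        rw [toAdd_mul, mul_add, ofAdd_add, map_mul, mul_inv] }
  have hnn : ∀ y, nn y = (m (Multiplicative.ofAdd ((D.c - 1)⁻¹ * Multiplicative.toAdd y)))⁻¹ :=
    fun y => rfl
  obtain ⟨g, hg⟩ : ∃ g : P →* ℂˣ, ∀ x, g x = nn (D.p x) := ⟨nn.comp D.p, fun x => rfl⟩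
  have hgb : ∀ x, g (D.b x) * f x = g x := by
    intro x
    rw [hg, hg, hm, hnn, hnn, D.act, toAdd_ofAdd]
    have h1 : (D.c - 1)⁻¹ * (D.c * Multiplicative.toAdd (D.p x)) =
        Multiplicative.toAdd (D.p x) + (D.c - 1)⁻¹ * Multiplicative.toAdd (D.p x) := by
      field_simp
      ring
    rw [h1, ofAdd_add, map_mul, ofAdd_toAdd, mul_inv]
    rw [mul_comm (m (D.p x))⁻¹, mul_assoc, inv_mul_cancel, mul_one]
  have hgN : ∀ n ∈ N, g n = 1 := by
    intro n hn
    rw [hg, (D.ker n).2 hn, map_one]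
  have hi0 : IsIrrChar fun x => (g x : ℂ) * ξ x := (hGALL P N θ hθ ξ hξi hξθ).2.1 g
  obtain ⟨ξ₀, hξ₀⟩ : ∃ ξ₀ : P → ℂ, ξ₀ = fun x => (g x : ℂ) * ξ x := ⟨_, rfl⟩
  rw [← hξ₀] at hi0
  have h0θ : ∀ n : N, ξ₀ n = θ n := by
    intro n
    rw [hξ₀]
    simp only [hgN n n.2, Units.val_one, one_mul, hξθ]
  have h0b : ∀ x, ξ₀ (D.b x) = ξ₀ x := by
    intro x
    rw [hξ₀]
    have h1 := hf x
    simp only at h1 ⊢
    rw [h1, ← mul_assoc, ← Units.val_mul, hgb]
  refine ⟨ξ₀, mem_ovr hθ hi0 h0θ, h0b, fun ξ' hξ' k hk hkτ hfix => ?_⟩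
  obtain ⟨hi', hθ'⟩ := ext' ξ' hξ'
  obtain ⟨f', hf'N, hf'⟩ := (hGALL P N θ hθ ξ₀ hi0 h0θ).1 ξ' hi' hθ'
  obtain ⟨m', hm'⟩ := factor D f' hf'N
  have h0bk : ∀ (k : ℕ) x, ξ₀ ((D.b ^ k) x) = ξ₀ x := by
    intro k
    induction k with
    | zero => intro x; simp
    | succ k ih =>
      intro x
      rw [pow_succ', MulAut.mul_apply, h0b, ih]
  -- the quotient of the characters
  obtain ⟨h, hh⟩ : ∃ h : P →* ℂˣ, ∀ x, h x = f' ((D.b ^ k) x) * (f' x)⁻¹ :=
    ⟨(f'.comp (D.b ^ k).toMonoidHom) * f'⁻¹, fun x => rfl⟩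
  have h1 : h = 1 := by
    refine (hGALL P N θ hθ ξ₀ hi0 h0θ).2.2 h (fun n hn => ?_) fun x => ?_
    · rw [hh, hm', p_pow, (D.ker n).2 hn, hf'N n hn]
      simp
    · have h2 := hfix x
      rw [hf', hf', h0bk] at h2
      rw [hh, Units.val_mul]
      have h3 : (f' x : ℂ) ≠ 0 := (f' x).ne_zero
      rw [Units.val_inv_eq_inv_val]
      field_simp
      linear_combination h2
  have h2 : ∀ y : F, m' (Multiplicative.ofAdd y) = 1 := by
    intro y
    obtain ⟨x, hx⟩ := D.sur (Multiplicative.ofAdd ((D.c ^ k - 1)⁻¹ * y))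
    have h3 := hh x
    rw [h1, MonoidHom.one_apply, hm', hm', p_pow, hx, toAdd_ofAdd] at h3
    have h4 := c_ne D hk hkτ
    have h5 : D.c ^ k - 1 ≠ 0 := sub_ne_zero.2 h4
    have h6 : D.c ^ k * ((D.c ^ k - 1)⁻¹ * y) = y + (D.c ^ k - 1)⁻¹ * y := by
      field_simp
      ring
    rw [h6, ofAdd_add, map_mul, mul_assoc, mul_inv_cancel, mul_one] at h3
    exact h3.symm
  funext x
  rw [hf' x, hm', ← ofAdd_toAdd (D.p x), h2, Units.val_one, one_mul]

end Pool.Agent.RadIndex

end

section

/-!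
# Item FORM (helper31): the commutator form of an invariant character
-/

set_option autoImplicit false
set_option linter.unusedSectionVars false

open Module Representation Pool.Agent.DC7914

namespace Pool.Agent.RadIndex

section abstract_part

variable {N E : Type} [Group N] [Ring E] [Algebra ℂ E] [Nontrivial E]

/-- `Y` implements `φ` -/
def FORM_Imp (s : N →* E) (φ : N → N) (Y : Eˣ) : Prop := ∀ n, (Y : E) * s n = s (φ n) * Y

theorem FORM_uniq (s : N →* E)
    (hs : ∀ A : E, (∀ n, A * s n = s n * A) → ∃ c : ℂ, A = c • (1 : E)) {φ : N → N} {Y Z : Eˣ}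
    (hY : FORM_Imp s φ Y) (hZ : FORM_Imp s φ Z) : ∃ c : ℂ, c ≠ 0 ∧ (Y : E) = c • (Z : E) := by
  have h1 : ∀ n, ((Z⁻¹ : Eˣ) : E) * s (φ n) = s n * ((Z⁻¹ : Eˣ) : E) := by
    intro n
    calc ((Z⁻¹ : Eˣ) : E) * s (φ n) = ((Z⁻¹ : Eˣ) : E) * (s (φ n) * Z) * ((Z⁻¹ : Eˣ) : E) := by
          rw [mul_assoc, mul_assoc, Units.mul_inv, mul_one]
      _ = ((Z⁻¹ : Eˣ) : E) * (Z * s n) * ((Z⁻¹ : Eˣ) : E) := by rw [hZ n]
      _ = s n * ((Z⁻¹ : Eˣ) : E) := by rw [← mul_assoc, Units.inv_mul, one_mul]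
  obtain ⟨c, hc⟩ := hs (((Z⁻¹ : Eˣ) : E) * Y) (fun n => by
    rw [mul_assoc, hY n, ← mul_assoc, h1 n, mul_assoc])
  have h2 : (Y : E) = c • (Z : E) := by
    calc (Y : E) = (Z : E) * (((Z⁻¹ : Eˣ) : E) * Y) := by rw [← mul_assoc, Units.mul_inv, one_mul]
      _ = c • (Z : E) := by rw [hc, mul_smul_comm, mul_one]
  refine ⟨c, ?_, h2⟩
  rintro rfl
  rw [zero_smul] at h2
  exact Y.ne_zero h2

theorem FORM_mul {s : N →* E} {φ ψ : N → N} {Y Z : Eˣ} (hY : FORM_Imp s φ Y)
    (hZ : FORM_Imp s ψ Z) : FORM_Imp s (fun n => φ (ψ n)) (Y * Z) := by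
  intro n
  rw [Units.val_mul, mul_assoc, hZ n, ← mul_assoc, hY, mul_assoc]

theorem FORM_inv {s : N →* E} {φ ψ : N → N} {Y : Eˣ} (hY : FORM_Imp s φ Y)
    (h : ∀ n, φ (ψ n) = n) : FORM_Imp s ψ Y⁻¹ := by
  intro n
  have h1 := hY (ψ n)
  rw [h] at h1
  calc ((Y⁻¹ : Eˣ) : E) * s n = ((Y⁻¹ : Eˣ) : E) * (s n * Y) * ((Y⁻¹ : Eˣ) : E) := by
        rw [mul_assoc, mul_assoc, Units.mul_inv, mul_one]
    _ = ((Y⁻¹ : Eˣ) : E) * (Y * s (ψ n)) * ((Y⁻¹ : Eˣ) : E) := by rw [h1]
    _ = s (ψ n) * ((Y⁻¹ : Eˣ) : E) := by rw [← mul_assoc, Units.inv_mul, one_mul]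

theorem FORM_congr {s : N →* E} {φ ψ : N → N} {Y : Eˣ} (hY : FORM_Imp s φ Y)
    (h : ∀ n, φ n = ψ n) : FORM_Imp s ψ Y := fun n => by rw [← h n]; exact hY n

theorem FORM_self (s : N →* E) (m : N) :
    FORM_Imp s (fun n => m * n * m⁻¹) (s.toHomUnits m) := by
  intro n
  rw [MonoidHom.coe_toHomUnits, ← map_mul, ← map_mul]
  congr 1
  group

theorem FORM_cancel {a b : ℂ} (u : Eˣ) (h : a • (u : E) = b • (u : E)) : a = b :=
  smul_left_injective ℂ u.ne_zero h

end abstract_part

theorem prf_FORM (hI : S_INTER) : S_FORM := by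
  classical
  intro P _ _ N _ _ hc W _ _ _ σ hσ hinv
  have hW : Nontrivial W := nontrivial_of_irr hσ
  have hE : Nontrivial (End ℂ W) := inferInstance
  let s : N →* End ℂ W := σ
  have hs : ∀ A : End ℂ W, (∀ n, A * s n = s n * A) → ∃ c : ℂ, A = c • (1 : End ℂ W) :=
    fun A hA => schur σ hσ A hA
  -- choice of the operators
  have hex : ∀ φ : MulAut N, (∀ n, σ.character (φ n) = σ.character n) →
      ∃ Y : (End ℂ W)ˣ, FORM_Imp s (fun n => φ n) Y := by
    intro φ hφ
    obtain ⟨Y, Yi, h1, h2, h3⟩ := hI N W σ hσ φ hφ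
    exact ⟨⟨Y, Yi, h1, h2⟩, h3⟩
  choose Y hY using fun x : P => hex (MulAut.conjNormal x) (fun n => congrFun (hinv x) n)
  let K : P → P → N := fun x y => ⟨x * y * x⁻¹ * y⁻¹, hc x y⟩
  have hKv : ∀ x y, ((K x y : N) : P) = x * y * x⁻¹ * y⁻¹ := fun x y => rfl
  -- both products implement conjugation by `x y`
  have hI1 : ∀ (x y : P) (X Z : (End ℂ W)ˣ), FORM_Imp s (fun n => MulAut.conjNormal x n) X →
      FORM_Imp s (fun n => MulAut.conjNormal y n) Z →
      FORM_Imp s (fun n => MulAut.conjNormal (x * y) n) (X * Z) := by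
    intro x y X Z hX hZ
    refine FORM_congr (FORM_mul hX hZ) fun n => ?_
    rw [map_mul]; rfl
  have hI2 : ∀ (x y : P) (X Z : (End ℂ W)ˣ), FORM_Imp s (fun n => MulAut.conjNormal x n) X →
      FORM_Imp s (fun n => MulAut.conjNormal y n) Z →
      FORM_Imp s (fun n => MulAut.conjNormal (x * y) n) (s.toHomUnits (K x y) * Z * X) := by
    intro x y X Z hX hZ
    refine FORM_congr (FORM_mul (FORM_mul (FORM_self s (K x y)) hZ) hX) fun n => ?_
    apply Subtype.ext
    simp only [Subgroup.coe_mul, Subgroup.coe_inv, MulAut.conjNormal_apply, hKv]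
    group
  have hBex : ∀ x y : P, ∃ c : ℂ, c ≠ 0 ∧
      ((Y x * Y y : (End ℂ W)ˣ) : End ℂ W) =
        c • ((s.toHomUnits (K x y) * Y y * Y x : (End ℂ W)ˣ) : End ℂ W) :=
    fun x y => FORM_uniq s hs (hI1 x y _ _ (hY x) (hY y)) (hI2 x y _ _ (hY x) (hY y))
  choose B hB0 hB using hBex
  -- the same relation for all implementing operators
  have hL : ∀ (x y : P) (X Z : (End ℂ W)ˣ), FORM_Imp s (fun n => MulAut.conjNormal x n) X →
      FORM_Imp s (fun n => MulAut.conjNormal y n) Z →
      (X : End ℂ W) * Z = B x y • (s (K x y) * Z * X) := by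
    intro x y X Z hX hZ
    obtain ⟨a, -, ha⟩ := FORM_uniq s hs hX (hY x)
    obtain ⟨b, -, hb⟩ := FORM_uniq s hs hZ (hY y)
    have h1 := hB x y
    simp only [Units.val_mul, MonoidHom.coe_toHomUnits] at h1
    rw [ha, hb]
    simp only [smul_mul_assoc, mul_smul_comm]
    rw [h1]
    simp only [smul_smul]
    congr 1
    ring
  -- uniqueness of the scalar
  have hU : ∀ (x y : P) (X Z : (End ℂ W)ˣ) (c : ℂ),
      FORM_Imp s (fun n => MulAut.conjNormal x n) X →
      FORM_Imp s (fun n => MulAut.conjNormal y n) Z →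
      (X : End ℂ W) * Z = c • (s (K x y) * Z * X) → B x y = c := by
    intro x y X Z c hX hZ h
    rw [hL x y X Z hX hZ] at h
    exact FORM_cancel (s.toHomUnits (K x y) * Z * X) h
  have hBB : ∀ x y, B x y * B y x = 1 := by
    intro x y
    have h1 := hL x y _ _ (hY x) (hY y)
    have h2 := hL y x _ _ (hY y) (hY x)
    have h3 : s (K x y) * s (K y x) = 1 := by
      rw [← map_mul]
      have : K x y * K y x = 1 := by
        apply Subtype.ext
        simp only [Subgroup.coe_mul, hKv, Subgroup.coe_one]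
        group
      rw [this, map_one]
    have h4 : (1 : ℂ) • ((Y x * Y y : (End ℂ W)ˣ) : End ℂ W)
        = (B x y * B y x) • ((Y x * Y y : (End ℂ W)ˣ) : End ℂ W) := by
      rw [one_smul, Units.val_mul]
      calc (Y x : End ℂ W) * Y y = B x y • (s (K x y) * (Y y * Y x)) := by rw [h1, mul_assoc]
        _ = (B x y * B y x) • ((s (K x y) * s (K y x)) * Y x * Y y) := by
            rw [h2, mul_smul_comm, smul_smul, mul_assoc, mul_assoc, mul_assoc]
        _ = (B x y * B y x) • ((Y x : End ℂ W) * Y y) := by rw [h3, one_mul]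
    exact (FORM_cancel _ h4).symm
  have hmul1 : ∀ x x' y, B (x * x') y = B x y * B x' y := by
    intro x x' y
    refine hU (x * x') y (Y x * Y x') (Y y) _ (hI1 x x' _ _ (hY x) (hY x')) (hY y) ?_
    have h1 := hL x y _ _ (hY x) (hY y)
    have h2 := hL x' y _ _ (hY x') (hY y)
    have h3 : (Y x : End ℂ W) * s (K x' y) = s (MulAut.conjNormal x (K x' y)) * Y x := hY x _
    have h4 : s (MulAut.conjNormal x (K x' y)) * s (K x y) = s (K (x * x') y) := by
      rw [← map_mul]
      congr 1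
      apply Subtype.ext
      simp only [Subgroup.coe_mul, MulAut.conjNormal_apply, hKv]
      group
    rw [Units.val_mul]
    calc (Y x : End ℂ W) * Y x' * Y y = Y x * (Y x' * Y y) := mul_assoc _ _ _
      _ = B x' y • (Y x * s (K x' y) * Y y * Y x') := by
          rw [h2, mul_smul_comm]; simp only [mul_assoc]
      _ = B x' y • (s (MulAut.conjNormal x (K x' y)) * (Y x * Y y) * Y x') := by
          rw [h3]; simp only [mul_assoc]
      _ = (B x y * B x' y) • (s (MulAut.conjNormal x (K x' y)) * s (K x y) * Y y * Y x * Y x') := by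
          rw [h1, mul_smul_comm, smul_mul_assoc, smul_smul, mul_comm (B x' y)]
          simp only [mul_assoc]
      _ = (B x y * B x' y) • (s (K (x * x') y) * Y y * (Y x * Y x')) := by
          rw [h4]; simp only [mul_assoc]
  have hsymm : ∀ x y, B x y = (B y x)⁻¹ := fun x y => eq_inv_of_mul_eq_one_left (hBB x y)
  have hmul2 : ∀ x y y', B x (y * y') = B x y * B x y' := by
    intro x y y'
    rw [hsymm x (y * y'), hmul1, mul_inv, ← hsymm, ← hsymm]
  have hN1 : ∀ (n : N) (y : P), B n y = 1 := by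
    intro n y
    have h0 : FORM_Imp s (fun m => MulAut.conjNormal (n : P) m) (s.toHomUnits n) := by
      refine FORM_congr (FORM_self s n) fun m => ?_
      apply Subtype.ext
      simp only [Subgroup.coe_mul, Subgroup.coe_inv, MulAut.conjNormal_apply]
    refine hU n y _ (Y y) 1 h0 (hY y) ?_
    rw [one_smul, MonoidHom.coe_toHomUnits, mul_assoc, hY y n, ← mul_assoc, ← map_mul]
    congr 2
    apply Subtype.ext
    simp only [Subgroup.coe_mul, MulAut.conjNormal_apply, hKv]
    group
  refine ⟨fun x => (Y x : End ℂ W), fun x => ((Y x)⁻¹ : (End ℂ W)ˣ), B,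
    fun x => ⟨Units.mul_inv _, Units.inv_mul _⟩, fun x n => hY x n, fun x y => ?_, hmul1, hmul2,
    fun n y => ⟨hN1 n y, ?_⟩, fun x => ?_, ?_⟩
  · exact hL x y _ _ (hY x) (hY y)
  · rw [hsymm, hN1, inv_one]
  · refine hU x x (Y x) (Y x) 1 (hY x) (hY x) ?_
    have : K x x = 1 := by
      apply Subtype.ext
      simp only [hKv, Subgroup.coe_one]
      group
    rw [this, map_one, one_mul, one_smul]
  · intro b hb hbc x y
    let φ0 : N →* N :=
      { toFun := fun n => ⟨b n, hb n⟩
        map_one' := Subtype.ext (by simp)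
        map_mul' := fun m n => Subtype.ext (by simp) }
    have hinj : Function.Injective φ0 := by
      intro m n h
      have h1 := congrArg Subtype.val h
      exact Subtype.ext (b.injective h1)
    let φ : MulAut N := MulEquiv.ofBijective φ0 (Finite.injective_iff_bijective.1 hinj)
    have hφ : ∀ n : N, ((φ n : N) : P) = b n := fun n => rfl
    obtain ⟨V, hV⟩ := hex φ (fun n => hbc n)
    have hVi : FORM_Imp s (fun n => φ.symm n) V⁻¹ :=
      FORM_inv hV fun n => φ.apply_symm_apply n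
    have hφs : ∀ n : N, b ((φ.symm n : N) : P) = n := fun n => by
      rw [← hφ, MulEquiv.apply_symm_apply]
    have hconj : ∀ x : P, FORM_Imp s (fun n => MulAut.conjNormal (b x) n) (V * Y x * V⁻¹) := by
      intro x
      refine FORM_congr (FORM_mul (FORM_mul hV (hY x)) hVi) fun n => ?_
      apply Subtype.ext
      rw [hφ, MulAut.conjNormal_apply, MulAut.conjNormal_apply, map_mul, map_mul, hφs, map_inv]
    refine hU (b x) (b y) _ _ (B x y) (hconj x) (hconj y) ?_
    have h1 := hL x y _ _ (hY x) (hY y)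
    have h2 : (V : End ℂ W) * s (K x y) = s (K (b x) (b y)) * V := by
      have h3 := hV (K x y)
      have h4 : φ (K x y) = K (b x) (b y) := by
        apply Subtype.ext
        rw [hφ, hKv, hKv]
        simp
      rw [← h4]
      exact h3
    have hvv : ((V⁻¹ : (End ℂ W)ˣ) : End ℂ W) * V = 1 := Units.inv_mul V
    simp only [Units.val_mul]
    calc (V : End ℂ W) * Y x * ((V⁻¹ : (End ℂ W)ˣ) : End ℂ W)
          * (V * Y y * ((V⁻¹ : (End ℂ W)ˣ) : End ℂ W))
        = V * Y x * (((V⁻¹ : (End ℂ W)ˣ) : End ℂ W) * V) * Y y * ((V⁻¹ : (End ℂ W)ˣ) : End ℂ W) := by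
          simp only [mul_assoc]
      _ = V * (Y x * Y y) * ((V⁻¹ : (End ℂ W)ˣ) : End ℂ W) := by
          rw [hvv, mul_one]; simp only [mul_assoc]
      _ = B x y • (V * s (K x y) * Y y * Y x * ((V⁻¹ : (End ℂ W)ˣ) : End ℂ W)) := by
          rw [h1, mul_smul_comm, smul_mul_assoc]; simp only [mul_assoc]
      _ = B x y • (s (K (b x) (b y)) * (V * Y y) * 1 * (Y x * ((V⁻¹ : (End ℂ W)ˣ) : End ℂ W))) := by
          rw [h2, mul_one]; simp only [mul_assoc]
      _ = B x y • (s (K (b x) (b y)) * (V * Y y * ((V⁻¹ : (End ℂ W)ˣ) : End ℂ W))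
          * (V * Y x * ((V⁻¹ : (End ℂ W)ˣ) : End ℂ W))) := by
          rw [← hvv]; simp only [mul_assoc]

end Pool.Agent.RadIndex

end

section

/-!
# The extensions of an irreducible character differ by linear characters
-/

set_option autoImplicit false
set_option linter.unusedSectionVars false

open Module Representation Pool.Agent.DC7914

namespace Pool.Agent.RadIndex

namespace Gall

section

variable {G : Type} [Group G] [Fintype G]
variable {V : Type} [AddCommGroup V] [Module ℂ V] [FiniteDimensional ℂ V]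
variable {W : Type} [AddCommGroup W] [Module ℂ W] [FiniteDimensional ℂ W]

/-- degrees of the members of a multiset of irreducible characters -/
theorem deg_sum (s : Multiset (G → ℂ)) (hs : ∀ θ ∈ s, IsIrrChar θ) :
    ∃ n : ℕ, s.sum 1 = n := by
  induction s using Multiset.induction_on with
  | empty => exact ⟨0, by simp⟩
  | cons ψ s ih =>
    obtain ⟨n, hn⟩ := ih (fun θ h => hs θ (Multiset.mem_cons_of_mem h))
    obtain ⟨m, -, hm⟩ := (hs ψ (Multiset.mem_cons_self _ _)).degree
    exact ⟨m + n, by rw [Multiset.sum_cons, Pi.add_apply, hn, hm]; push_cast; ring⟩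

/-- a representation with an irreducible character is irreducible -/
theorem irr_of_char (ρ : Representation ℂ G V) (h : IsIrrChar ρ.character) :
    ρ.IsIrreducible := by
  classical
  have hone := h.one_ne_zero
  rw [char_one] at hone
  have hV : Nontrivial V := by
    have h0 : finrank ℂ V ≠ 0 := by exact_mod_cast hone
    exact Module.nontrivial_of_finrank_pos (R := ℂ) (Nat.pos_of_ne_zero h0)
  rw [DC7914.irreducible_iff]
  refine ⟨hV, fun U hU => ?_⟩
  by_contra hcon
  push Not at hcon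
  obtain ⟨hU0, hU1⟩ := hcon
  have hG : NeZero (Nat.card G : ℂ) := ⟨by exact_mod_cast Nat.card_pos.ne'⟩
  obtain ⟨S', hS'⟩ := exists_isCompl (⟨U, fun g v hv => hU g v hv⟩ : Subrepresentation ρ)
  obtain ⟨U', hUU⟩ : ∃ U' : Submodule ℂ V, U' = S'.toSubmodule := ⟨_, rfl⟩
  have hU' : ∀ g, ∀ v ∈ U', ρ g v ∈ U' := by
    intro g v hv
    rw [hUU] at hv ⊢
    exact S'.apply_mem_toSubmodule g hv
  have hc : IsCompl U U' := by
    rw [isCompl_iff, disjoint_iff, codisjoint_iff] at hS' ⊢
    constructor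
    · have := congrArg Subrepresentation.toSubmodule hS'.1
      rw [hUU]
      exact this
    · have := congrArg Subrepresentation.toSubmodule hS'.2
      rw [hUU]
      exact this
  have hU'1 : U' ≠ ⊤ := by
    rintro rfl
    exact hU0 (hc.disjoint.eq_bot_of_le le_top)
  have hlt : finrank ℂ U < finrank ℂ V := Submodule.finrank_lt hU1
  have hlt' : finrank ℂ U' < finrank ℂ V := Submodule.finrank_lt hU'1
  obtain ⟨s, hs1, hs2⟩ := decomp (subRep ρ U hU)
  obtain ⟨s', hs1', hs2'⟩ := decomp (subRep ρ U' hU')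
  have hsum : ρ.character = (s + s').sum := by
    rw [Multiset.sum_add, ← hs2, ← hs2']
    ext g
    exact trace_add_of_isCompl hc (ρ g) (hU g) (hU' g)
  have hall : ∀ θ ∈ s + s', IsIrrChar θ := by
    intro θ hθ
    rw [Multiset.mem_add] at hθ
    rcases hθ with hθ | hθ
    · exact (hs1 θ hθ).1
    · exact (hs1' θ hθ).1
  have h1 := inner_sum (s + s') hall ρ.character h
  rw [← hsum, h.orthonormal h, if_pos rfl] at h1
  have h2 : (Multiset.count ρ.character (s + s') : ℂ) = 1 := by
    have h3 : (Nat.card G : ℂ) ≠ 0 := by exact_mod_cast Nat.card_pos.ne'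
    have h4 : (1 : ℂ) * Nat.card G = Multiset.count ρ.character (s + s') * Nat.card G := by
      rw [one_mul]; exact h1
    exact (mul_right_cancel₀ h3 h4).symm
  have h3 : Multiset.count ρ.character (s + s') = 1 := by exact_mod_cast h2
  have key : ∀ (T : Submodule ℂ V) (hT : ∀ g, ∀ v ∈ T, ρ g v ∈ T) (t : Multiset (G → ℂ)),
      (∀ θ ∈ t, IsIrrChar θ) → (subRep ρ T hT).character = t.sum →
      finrank ℂ T < finrank ℂ V → ρ.character ∉ t := by
    intro T hT t ht hts hlt hmem
    obtain ⟨t', rfl⟩ := Multiset.exists_cons_of_mem hmem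
    obtain ⟨n, hn⟩ := deg_sum t' (fun θ h => ht θ (Multiset.mem_cons_of_mem h))
    have h5 := congrFun hts 1
    rw [char_one, Multiset.sum_cons, Pi.add_apply, hn, char_one] at h5
    have h6 : finrank ℂ T = finrank ℂ V + n := by exact_mod_cast h5
    omega
  have h4 : ρ.character ∈ s + s' := by
    rw [← Multiset.count_pos]; omega
  rw [Multiset.mem_add] at h4
  rcases h4 with h4 | h4
  · exact key U hU s (fun θ hθ => (hs1 θ hθ).1) hs2 hlt h4
  · exact key U' hU' s' (fun θ hθ => (hs1' θ hθ).1) hs2' hlt' h4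

/-- representations with the same irreducible character are equivalent -/
theorem exists_equiv (ρ : Representation ℂ G V) (σ : Representation ℂ G W)
    (hρ : ρ.IsIrreducible) (hσ : σ.IsIrreducible) (h : ρ.character = σ.character) :
    ∃ T : V ≃ₗ[ℂ] W, ∀ g v, T (ρ g v) = σ g (T v) := by
  have hG : (Nat.card G : ℂ) ≠ 0 := by exact_mod_cast Nat.card_pos.ne'
  have : Invertible (Nat.card G : ℂ) := invertibleOfNonzero hG
  have := hρ
  have := hσ
  have h1 := char_orthonormal σ ρ
  have h2 : Nonempty (Representation.Equiv ρ σ) := by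
    by_contra hn
    rw [if_neg hn] at h1
    have h3 := (isIrrChar_of_rep σ hσ).orthonormal (isIrrChar_of_rep σ hσ)
    rw [if_pos rfl] at h3
    rw [h, h3] at h1
    field_simp at h1
    simp at h1
  obtain ⟨φ⟩ := h2
  refine ⟨φ.toLinearEquiv, fun g v => ?_⟩
  exact LinearMap.congr_fun (φ.toIntertwiningMap.isIntertwining' g) v

end

section

variable {P : Type} [Group P] [Fintype P] {N : Subgroup P} [N.Normal] [Fintype N]
variable {V : Type} [AddCommGroup V] [Module ℂ V] [FiniteDimensional ℂ V]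

/-- twisting by a linear character -/
noncomputable def tw (f : P →* ℂˣ) (σ : Representation ℂ P V) : Representation ℂ P V where
  toFun x := (f x : ℂ) • σ x
  map_one' := by simp
  map_mul' x y := by
    rw [map_mul, map_mul, Units.val_mul, smul_mul_smul_comm]

theorem tw_apply (f : P →* ℂˣ) (σ : Representation ℂ P V) (x : P) :
    tw f σ x = (f x : ℂ) • σ x := rfl

theorem tw_irr (f : P →* ℂˣ) (σ : Representation ℂ P V) (h : σ.IsIrreducible) :
    (tw f σ).IsIrreducible := by
  rw [DC7914.irreducible_iff] at h ⊢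
  refine ⟨h.1, fun U hU => h.2 U fun x v hv => ?_⟩
  have h1 := hU x v hv
  rw [tw_apply, LinearMap.smul_apply] at h1
  have h2 := U.smul_mem (((f x)⁻¹ : ℂˣ) : ℂ) h1
  rwa [smul_smul, ← Units.val_mul, inv_mul_cancel, Units.val_one, one_smul] at h2

theorem tw_char (f : P →* ℂˣ) (σ : Representation ℂ P V) (x : P) :
    (tw f σ).character x = f x * σ.character x := by
  rw [Representation.character, tw_apply, map_smul, smul_eq_mul]
  rfl

theorem res_irr {θ : N → ℂ} (hθ : IsIrrChar θ) (σ : Representation ℂ P V)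
    (h : ∀ n : N, σ.character n = θ n) : (resRep N σ).IsIrreducible := by
  apply irr_of_char
  have : (resRep N σ).character = θ := by
    ext n
    exact h n
  rw [this]
  exact hθ

theorem rep_mul_inv (σ : Representation ℂ P V) (x : P) : σ x * σ x⁻¹ = 1 := by
  rw [← map_mul, mul_inv_cancel, map_one]

theorem rep_inv_mul (σ : Representation ℂ P V) (x : P) : σ x⁻¹ * σ x = 1 := by
  rw [← map_mul, inv_mul_cancel, map_one]

theorem smul_rep_inj [Nontrivial V] (σ : Representation ℂ P V) {x : P} {a b : ℂ}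
    (h : a • σ x = b • σ x) : a = b := by
  have h1 : a • (1 : End ℂ V) = b • (1 : End ℂ V) := by
    have := congrArg (fun A => A * σ x⁻¹) h
    simpa only [smul_mul_assoc, rep_mul_inv] using this
  exact smul_one_inj h1

end

end Gall

open Gall

theorem prf_GALL : S_GALL := by
  intro P _ _ N _ _ θ hθ ξ hξ hξθ
  obtain ⟨d, σ, hσ, rfl⟩ := hξ
  have hσN := res_irr hθ σ hξθ
  have hnt : Nontrivial (Fin d → ℂ) := nontrivial_of_irr hσ
  refine ⟨?_, ?_, ?_⟩
  · rintro ξ' ⟨d', σ', hσ', rfl⟩ hξ'θ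
    have hσN' := res_irr hθ σ' hξ'θ
    have hch : (resRep N σ).character = (resRep N σ').character := by
      ext n
      exact (hξθ n).trans (hξ'θ n).symm
    obtain ⟨T, hT⟩ := exists_equiv (resRep N σ) (resRep N σ') hσN hσN' hch
    have hT' : ∀ (n : N) v, T (σ n v) = σ' n (T v) := fun n v => hT n v
    have hTs : ∀ (n : N) w, T.symm (σ' n w) = σ n (T.symm w) := by
      intro n w
      rw [LinearEquiv.symm_apply_eq, hT', LinearEquiv.apply_symm_apply]
    have hex : ∀ x : P, ∃ c : ℂ, ∀ v, T.symm (σ' x (T v)) = c • σ x v := by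
      intro x
      obtain ⟨c, hc⟩ := schur (resRep N σ) hσN
        ((T.symm.toLinearMap ∘ₗ σ' x ∘ₗ T.toLinearMap) * σ x⁻¹) (by
          intro n
          refine LinearMap.ext fun v => ?_
          change T.symm (σ' x (T (σ x⁻¹ (σ n v)))) = σ n (T.symm (σ' x (T (σ x⁻¹ v))))
          have e1 : σ x⁻¹ (σ n v) = σ (x⁻¹ * n * x) (σ x⁻¹ v) := by
            have : x⁻¹ * (n : P) = (x⁻¹ * n * x) * x⁻¹ := by group
            rw [← Module.End.mul_apply, ← Module.End.mul_apply, ← map_mul, ← map_mul, ← this]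
          have hn : x⁻¹ * (n : P) * x ∈ N := by
            have := ‹N.Normal›.conj_mem n n.2 x⁻¹
            simpa using this
          have e2 : σ' x (σ' (x⁻¹ * n * x) (T (σ x⁻¹ v))) = σ' n (σ' x (T (σ x⁻¹ v))) := by
            have : x * (x⁻¹ * (n : P) * x) = n * x := by group
            rw [← Module.End.mul_apply, ← Module.End.mul_apply, ← map_mul, ← map_mul, this]
          rw [e1, hT' ⟨_, hn⟩, e2, hTs])
      refine ⟨c, fun v => ?_⟩
      have h1 := LinearMap.congr_fun hc (σ x v)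
      have h2 : σ x⁻¹ (σ x v) = v := LinearMap.congr_fun (rep_inv_mul σ x) v
      simpa [h2] using h1
    choose F hF using hex
    have hF1 : F 1 = 1 := by
      apply smul_rep_inj σ (x := 1)
      refine LinearMap.ext fun v => ?_
      rw [LinearMap.smul_apply, ← hF, map_one, map_one, one_smul, Module.End.one_apply,
        LinearEquiv.symm_apply_apply, Module.End.one_apply]
    have hFm : ∀ x y, F (x * y) = F x * F y := by
      intro x y
      apply smul_rep_inj σ (x := x * y)
      refine LinearMap.ext fun v => ?_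
      have h1 := hF y v
      have h2 := hF x (σ y v)
      have h3 : T (F y • σ y v) = σ' y (T v) := by rw [← h1, LinearEquiv.apply_symm_apply]
      rw [LinearMap.smul_apply, ← hF, map_mul, Module.End.mul_apply, ← h3, map_smul, map_smul,
        map_smul, h2, LinearMap.smul_apply, map_mul, Module.End.mul_apply, smul_smul, mul_comm]
    let F' : P →* ℂ := { toFun := F, map_one' := hF1, map_mul' := hFm }
    refine ⟨F'.toHomUnits, ?_, ?_⟩
    · intro n hn
      ext1
      rw [MonoidHom.coe_toHomUnits, Units.val_one]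
      change F n = 1
      apply smul_rep_inj σ (x := n)
      refine LinearMap.ext fun v => ?_
      rw [LinearMap.smul_apply, ← hF, one_smul, ← hT' ⟨n, hn⟩, LinearEquiv.symm_apply_apply]
    · intro x
      rw [MonoidHom.coe_toHomUnits]
      change σ'.character x = F x * σ.character x
      have h1 : T.symm.toLinearMap ∘ₗ σ' x ∘ₗ T.toLinearMap = F x • σ x := by
        refine LinearMap.ext fun v => ?_
        exact hF x v
      have h2 := congrArg (LinearMap.trace ℂ _) h1
      rw [map_smul, smul_eq_mul] at h2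
      rw [Representation.character, Representation.character, ← h2]
      exact (LinearMap.trace_conj' (σ' x) T.symm).symm
  · intro f
    have h1 := isIrrChar_of_rep (tw f σ) (tw_irr f σ hσ)
    have h2 : (tw f σ).character = fun x => (f x : ℂ) * σ.character x := by
      ext x
      exact tw_char f σ x
    rwa [h2] at h1
  · intro f hf hfx
    have h2 : σ.character = (tw f σ).character := by
      ext x
      rw [tw_char, hfx]
    obtain ⟨T, hT⟩ := exists_equiv σ (tw f σ) hσ (tw_irr f σ hσ) h2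
    obtain ⟨c, hc⟩ := schur (resRep N σ) hσN T.toLinearMap (by
      intro n
      refine LinearMap.ext fun v => ?_
      have h3 := hT n v
      rw [tw_apply, hf n n.2, Units.val_one, one_smul] at h3
      exact h3)
    have hTv : ∀ v, T v = c • v := by
      intro v
      have := LinearMap.congr_fun hc v
      simpa using this
    have hc0 : c ≠ 0 := by
      rintro rfl
      obtain ⟨v, hv⟩ := exists_ne (0 : Fin d → ℂ)
      have := hTv v
      rw [zero_smul, LinearEquiv.map_eq_zero_iff] at this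
      exact hv this
    ext x
    rw [MonoidHom.one_apply, Units.val_one]
    apply smul_rep_inj σ (x := x)
    refine LinearMap.ext fun v => ?_
    have h3 := hT x v
    rw [hTv, hTv, tw_apply, map_smul] at h3
    have h4 := smul_right_injective _ hc0 h3
    rw [one_smul]
    exact h4.symm

end Pool.Agent.RadIndex

end

section

/-!
# Item IDX: the index of the proper subgroups
-/

set_option autoImplicit false
set_option linter.unusedSectionVars false

open Module Representation Pool.Agent.DC7914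

namespace Pool.Agent.RadIndex

namespace IDX

variable {S F : Type} [Group S] [Field F] {τ : ℕ} (D : UData S F τ)

/-- the additive form of the subgroup -/
def uu (x : F) : S := D.u (Multiplicative.ofAdd x)

lemma uu_zero : uu D 0 = 1 := by
  unfold uu
  rw [ofAdd_zero, map_one]

lemma uu_add (x y : F) : uu D (x + y) = uu D x * uu D y := by
  unfold uu
  rw [ofAdd_add, map_mul]

lemma uu_comm (x y : F) : uu D x * uu D y = uu D y * uu D x := by
  rw [← uu_add, add_comm, uu_add]

lemma uu_inj {x y : F} (h : uu D x = uu D y) : x = y := by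
  unfold uu at h
  exact Multiplicative.ofAdd.injective (D.inj h)

lemma t_uu (x : F) : D.t * uu D x = uu D (D.c * x) * D.t := by
  have h := D.act x
  unfold uu
  rw [← h]
  group

lemma tpow_uu (i : ℕ) (x : F) : D.t ^ i * uu D x = uu D (D.c ^ i * x) * D.t ^ i := by
  induction i generalizing x with
  | zero => simp
  | succ i ih =>
    rw [pow_succ D.t, mul_assoc, t_uu, ← mul_assoc, ih, mul_assoc]
    congr 2
    ring

variable {Ω : Type} [MulAction S Ω] (ω : Ω)

/-- the stabiliser -/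
def Z : AddSubgroup F where
  carrier := {x | uu D x • ω = ω}
  add_mem' := by
    intro x y hx hy
    show uu D (x + y) • ω = ω
    rw [uu_add, mul_smul]
    rw [show uu D y • ω = ω from hy, show uu D x • ω = ω from hx]
  zero_mem' := by
    show uu D 0 • ω = ω
    rw [uu_zero, one_smul]
  neg_mem' := by
    intro x hx
    show uu D (-x) • ω = ω
    have h1 : uu D x • ω = ω := hx
    have h2 : uu D (-x) * uu D x = 1 := by
      rw [← uu_add, neg_add_cancel, uu_zero]
    calc uu D (-x) • ω = uu D (-x) • (uu D x • ω) := by rw [h1]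
      _ = (uu D (-x) * uu D x) • ω := by rw [mul_smul]
      _ = ω := by rw [h2, one_smul]

lemma mem_Z {x : F} : x ∈ Z D ω ↔ uu D x • ω = ω := Iff.rfl

lemma sub_mem_Z {x y : F} (h : uu D x • ω = uu D y • ω) : x - y ∈ Z D ω := by
  rw [mem_Z, sub_eq_neg_add, uu_add, mul_smul, h, ← mul_smul, ← uu_add, neg_add_cancel, uu_zero,
    one_smul]

lemma key [Finite S] (hne : ∃ x, uu D x • ω ≠ ω) :
    ∃ k m : ℕ, τ ≤ k * m ∧ 0 < k ∧ ∃ f : Fin k × Option (Fin m) → Ω, Function.Injective f := by
  classical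
  haveI : Finite (Multiplicative F) := Finite.of_injective D.u D.inj
  haveI : Finite F := this
  haveI : Fintype F := Fintype.ofFinite F
  obtain ⟨x₀, hx₀⟩ := hne
  have hc0 : D.c ≠ 0 := by
    intro h
    have h1 := D.ord
    have h2 := D.pos
    have h3 : D.c ^ orderOf D.c = 1 := pow_orderOf_eq_one _
    rw [h, zero_pow (by rw [← h, h1]; omega)] at h3
    exact zero_ne_one h3
  have hex : ∃ k : ℕ, 0 < k ∧ ∃ y, D.t ^ k • ω = uu D y • ω :=
    ⟨orderOf D.t, orderOf_pos D.t, 0, by rw [pow_orderOf_eq_one, uu_zero]⟩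
  set k := Nat.find hex with hk
  obtain ⟨hk0, y, hy⟩ := Nat.find_spec hex
  have hmin : ∀ j, 0 < j → j < k → ∀ y, D.t ^ j • ω ≠ uu D y • ω := by
    intro j hj hjk y hy
    exact Nat.find_min hex hjk ⟨hj, y, hy⟩
  rw [← hk] at hk0 hy
  set e := D.c ^ k with he
  have he0 : e ≠ 0 := pow_ne_zero _ hc0
  -- the stabiliser is stable under `e`
  have hst : ∀ x ∈ Z D ω, e * x ∈ Z D ω := by
    intro x hx
    rw [mem_Z] at hx ⊢
    have h1 : uu D (e * x) • (D.t ^ k • ω) = D.t ^ k • ω := by
      rw [← mul_smul, ← tpow_uu, mul_smul, hx]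
    rw [hy, ← mul_smul, uu_comm, mul_smul] at h1
    exact smul_left_cancel _ h1
  have hstp : ∀ (i : ℕ), ∀ x ∈ Z D ω, e ^ i * x ∈ Z D ω := by
    intro i
    induction i with
    | zero => intro x hx; simpa using hx
    | succ i ih =>
      intro x hx
      rw [pow_succ, mul_assoc]
      exact ih _ (hst x hx)
  have hz : ∀ z : F, z ≠ 0 → (∀ x ∈ Z D ω, z * x ∈ Z D ω) → ∀ x, z * x ∈ Z D ω → x ∈ Z D ω := by
    intro z hz0 hzst x hx
    have h1 : ∀ n : ℕ, z ^ (n + 1) * x ∈ Z D ω := by
      intro n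
      induction n with
      | zero => simpa using hx
      | succ n ih =>
        rw [pow_succ', mul_assoc]
        exact hzst _ ih
    have h2 := FiniteField.pow_card_sub_one_eq_one z hz0
    have h3 : 1 < Fintype.card F := Fintype.one_lt_card
    have h4 := h1 (Fintype.card F - 2)
    have h5 : Fintype.card F - 2 + 1 = Fintype.card F - 1 := by omega
    rw [h5, h2, one_mul] at h4
    exact h4
  have hx₀' : x₀ ∉ Z D ω := hx₀
  have hm : τ ≤ k * orderOf e := by
    have h1 : D.c ^ (k * orderOf e) = 1 := by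
      rw [pow_mul, ← he, pow_orderOf_eq_one]
    have h2 : τ ∣ k * orderOf e := by
      rw [← D.ord]
      exact orderOf_dvd_of_pow_eq_one h1
    have h3 : 0 < orderOf e := by
      rw [orderOf_pos_iff, isOfFinOrder_iff_pow_eq_one]
      have h3 : 1 < Fintype.card F := Fintype.one_lt_card
      exact ⟨Fintype.card F - 1, by omega, FiniteField.pow_card_sub_one_eq_one e he0⟩
    exact Nat.le_of_dvd (Nat.mul_pos hk0 h3) h2
  -- the injection
  let g : Option (Fin (orderOf e)) → F := fun o => o.elim 0 fun j => e ^ (j : ℕ) * x₀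
  have hg : ∀ o o', g o - g o' ∈ Z D ω → o = o' := by
    have h1 : ∀ j : ℕ, e ^ j * x₀ ∉ Z D ω := by
      intro j hj
      exact hx₀' (hz (e ^ j) (pow_ne_zero _ he0) (hstp j) x₀ hj)
    rintro (_ | j) (_ | j') h
    · rfl
    · exfalso
      have h2 : -(e ^ (j' : ℕ) * x₀) ∈ Z D ω := by
        simpa [g] using h
      exact h1 j' (neg_mem_iff.mp h2)
    · exfalso
      have h2 : e ^ (j : ℕ) * x₀ ∈ Z D ω := by
        simpa [g] using h
      exact h1 j h2
    · congr 1
      by_contra hne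
      have h2 : (e ^ (j : ℕ) - e ^ (j' : ℕ)) * x₀ ∈ Z D ω := by
        rw [sub_mul]
        exact h
      have h3 : e ^ (j : ℕ) - e ^ (j' : ℕ) ≠ 0 := by
        intro h4
        have h5 := pow_injOn_Iio_orderOf (x := e) (Set.mem_Iio.mpr j.2) (Set.mem_Iio.mpr j'.2)
          (sub_eq_zero.mp h4)
        exact hne (Fin.ext h5)
      refine hx₀' (hz _ h3 (fun x hx => ?_) x₀ h2)
      rw [sub_mul]
      exact AddSubgroup.sub_mem _ (hstp _ x hx) (hstp _ x hx)
  refine ⟨k, orderOf e, hm, hk0, fun p => D.t ^ (p.1 : ℕ) • (uu D (g p.2) • ω), ?_⟩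
  have haux : ∀ (i j : ℕ), i ≤ j → j < k → ∀ a a' : F,
      D.t ^ i • (uu D a • ω) = D.t ^ j • (uu D a' • ω) → i = j ∧ a - a' ∈ Z D ω := by
    intro i j hij hjk a a' h
    obtain ⟨l, rfl⟩ := Nat.exists_eq_add_of_le hij
    rw [pow_add, mul_smul] at h
    have h1 := smul_left_cancel _ h
    rw [← mul_smul (D.t ^ l), tpow_uu, mul_smul] at h1
    rcases Nat.eq_zero_or_pos l with rfl | hl
    · rw [pow_zero, one_mul, pow_zero, one_smul] at h1
      exact ⟨rfl, sub_mem_Z D ω h1⟩
    · exfalso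
      refine hmin l hl (by omega) (-(D.c ^ l * a') + a) ?_
      rw [uu_add, mul_smul, h1, ← mul_smul, ← uu_add, neg_add_cancel, uu_zero, one_smul]
  rintro ⟨⟨i, hi⟩, o⟩ ⟨⟨j, hj⟩, o'⟩ h
  simp only at h
  rcases le_total i j with hij | hij
  · obtain ⟨rfl, h2⟩ := haux i j hij hj _ _ h
    rw [hg o o' h2]
  · obtain ⟨rfl, h2⟩ := haux j i hij hi _ _ h.symm
    rw [hg o' o h2]

end IDX

open IDX in
theorem prf_IDX : S_IDX := by
  intro S F _ _ _ τ hS D K hK
  classical
  haveI := hS
  -- a point which is not fixed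
  obtain ⟨ω, hω⟩ : ∃ ω : S ⧸ K, ∃ x, uu D x • ω ≠ ω := by
    by_contra hcon
    push Not at hcon
    have h1 : K.normalCore = ⊥ := by
      rcases hS.eq_bot_or_eq_top_of_normal K.normalCore (Subgroup.normalCore_normal K) with h | h
      · exact h
      · exact absurd (top_le_iff.mp (h ▸ Subgroup.normalCore_le K)) hK
    have h2 : uu D 1 ∈ K.normalCore := by
      rw [Subgroup.normalCore_eq_ker, MonoidHom.mem_ker]
      ext ω
      exact hcon ω 1
    rw [h1, Subgroup.mem_bot, ← uu_zero D] at h2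
    exact one_ne_zero (uu_inj D h2)
  obtain ⟨k, m, hkm, hk, f, hf⟩ := key D ω hω
  haveI : Finite (S ⧸ K) := inferInstance
  have h3 := Finite.card_le_of_embedding ⟨f, hf⟩
  rw [Nat.card_prod, Nat.card_eq_fintype_card, Nat.card_eq_fintype_card, Fintype.card_fin,
    Fintype.card_option, Fintype.card_fin] at h3
  have h4 : K.index = Nat.card (S ⧸ K) := rfl
  rw [h4]
  have h5 : k * (m + 1) = k * m + k := by ring
  omega

end Pool.Agent.RadIndex

end

section

/-!
# KPSL: the number of conjugacy classes of `PSL_2(F)`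
-/

set_option autoImplicit false
set_option linter.unusedSectionVars false

open Module Representation Pool.Agent.DC7914

namespace Pool.Agent.RadIndex

namespace ItKPSL

open Matrix Finset

variable {F : Type} [Field F]

/-- the form `det [v, A v]` -/
def Q (A : SpecialLinearGroup (Fin 2) F) (x y : F) : F :=
  A 1 0 * x ^ 2 + (A 1 1 - A 0 0) * x * y - A 0 1 * y ^ 2

/-- the matrix with columns `v` and `A v` -/
def Pm (A : SpecialLinearGroup (Fin 2) F) (x y : F) : Matrix (Fin 2) (Fin 2) F :=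
  !![x, A 0 0 * x + A 0 1 * y; y, A 1 0 * x + A 1 1 * y]

theorem Pm_det (A : SpecialLinearGroup (Fin 2) F) (x y : F) : (Pm A x y).det = Q A x y := by
  rw [Pm, det_fin_two_of, Q]
  ring

theorem det_eq (A : SpecialLinearGroup (Fin 2) F) : A 0 0 * A 1 1 - A 0 1 * A 1 0 = 1 := by
  have := A.2
  rw [det_fin_two] at this
  exact this

theorem Pm_mul (A : SpecialLinearGroup (Fin 2) F) (x y : F) :
    (A : Matrix (Fin 2) (Fin 2) F) * Pm A x y = Pm A x y * !![0, -1; 1, A 0 0 + A 1 1] := by
  have hd := det_eq A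
  ext i j
  fin_cases i <;> fin_cases j
  · simp [Pm, Matrix.mul_apply, Fin.sum_univ_two]
  · simp [Pm, Matrix.mul_apply, Fin.sum_univ_two]
    linear_combination (-x) * hd
  · simp [Pm, Matrix.mul_apply, Fin.sum_univ_two]
  · simp [Pm, Matrix.mul_apply, Fin.sum_univ_two]
    linear_combination (-y) * hd

theorem key (A B : SpecialLinearGroup (Fin 2) F) (ht : A 0 0 + A 1 1 = B 0 0 + B 1 1)
    (x y x' y' : F) (h0 : Q A x y ≠ 0) (h : Q A x y = Q B x' y') : IsConj A B := by
  have hu : IsUnit (Pm A x y).det := by rw [Pm_det]; exact isUnit_iff_ne_zero.mpr h0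
  have hdet : (Pm B x' y' * (Pm A x y)⁻¹).det = 1 := by
    rw [det_mul, Pm_det, Matrix.det_nonsing_inv, Pm_det, ← h, Ring.inverse_eq_inv',
      mul_inv_cancel₀ h0]
  rw [isConj_iff]
  refine ⟨⟨Pm B x' y' * (Pm A x y)⁻¹, hdet⟩, ?_⟩
  rw [mul_inv_eq_iff_eq_mul]
  apply Subtype.ext
  change Pm B x' y' * (Pm A x y)⁻¹ * (A : Matrix (Fin 2) (Fin 2) F) =
    (B : Matrix (Fin 2) (Fin 2) F) * (Pm B x' y' * (Pm A x y)⁻¹)
  have e1 : (Pm A x y)⁻¹ * (A : Matrix (Fin 2) (Fin 2) F) =
      !![0, -1; 1, A 0 0 + A 1 1] * (Pm A x y)⁻¹ := by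
    have := Pm_mul A x y
    calc (Pm A x y)⁻¹ * (A : Matrix (Fin 2) (Fin 2) F)
        = (Pm A x y)⁻¹ * ((A : Matrix (Fin 2) (Fin 2) F) * Pm A x y) * (Pm A x y)⁻¹ := by
          rw [Matrix.mul_assoc, Matrix.mul_assoc, Matrix.mul_nonsing_inv _ hu, Matrix.mul_one]
      _ = !![0, -1; 1, A 0 0 + A 1 1] * (Pm A x y)⁻¹ := by
          rw [this, ← Matrix.mul_assoc (Pm A x y)⁻¹, Matrix.nonsing_inv_mul _ hu, Matrix.one_mul]
  rw [Matrix.mul_assoc, e1, ht, ← Matrix.mul_assoc, ← Pm_mul B x' y', Matrix.mul_assoc]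

theorem Q_smul (A : SpecialLinearGroup (Fin 2) F) (l x y : F) :
    Q A (l * x) (l * y) = l ^ 2 * Q A x y := by
  rw [Q, Q]
  ring

/-- the companion matrix -/
def Cm (t : F) : SpecialLinearGroup (Fin 2) F := ⟨!![0, -1; 1, t], by simp [det_fin_two_of]⟩

theorem Cm_tr (t : F) : (Cm t) 0 0 + (Cm t) 1 1 = t := by
  change (0 : F) + t = t
  rw [zero_add]

theorem Cm_Q (t : F) : Q (Cm t) 1 0 = 1 := by
  change (1 : F) * 1 ^ 2 + (t - 0) * 1 * 0 - (-1) * 0 ^ 2 = 1
  ring

theorem conj_Cm (A : SpecialLinearGroup (Fin 2) F) (x y : F) (h : Q A x y = 1) :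
    IsConj A (Cm (A 0 0 + A 1 1)) :=
  key A _ (Cm_tr _).symm x y 1 0 (by rw [h]; exact one_ne_zero) (by rw [h, Cm_Q])

theorem conj_Cm_sq (A : SpecialLinearGroup (Fin 2) F) (x y : F) (h : Q A x y ≠ 0)
    (hs : IsSquare (Q A x y)) : IsConj A (Cm (A 0 0 + A 1 1)) := by
  obtain ⟨r, hr⟩ := hs
  have hr0 : r ≠ 0 := by
    rintro rfl
    exact h (by rw [hr, mul_zero])
  refine conj_Cm A (r⁻¹ * x) (r⁻¹ * y) ?_
  rw [Q_smul, hr]
  field_simp

theorem exists_ne (A : SpecialLinearGroup (Fin 2) F) (hA : A ∉ Subgroup.center _) :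
    ∃ x y, Q A x y ≠ 0 := by
  by_contra hc
  push Not at hc
  apply hA
  have h1 := hc 1 0
  have h2 := hc 0 1
  have h3 := hc 1 1
  simp only [Q] at h1 h2 h3
  have e1 : A 1 0 = 0 := by linear_combination h1
  have e2 : A 0 1 = 0 := by linear_combination -h2
  have e3 : A 1 1 = A 0 0 := by linear_combination h3 - e1 + e2
  rw [Matrix.SpecialLinearGroup.mem_center_iff]
  refine ⟨A 0 0, ?_, ?_⟩
  · have := det_eq A
    rw [e1, e3] at this
    simp only [Fintype.card_fin]
    linear_combination this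
  · ext i j
    fin_cases i <;> fin_cases j
    · simp
    · simp [e2]
    · simp [e1]
    · simp [e3]

/-- the class of an element of `SL_2` in `PSL_2` -/
noncomputable def cc (A : SpecialLinearGroup (Fin 2) F) :
    ConjClasses (Matrix.ProjectiveSpecialLinearGroup (Fin 2) F) :=
  ConjClasses.mk (QuotientGroup.mk A)

theorem cc_conj {A B : SpecialLinearGroup (Fin 2) F} (h : IsConj A B) : cc A = cc B := by
  rw [cc, cc, ConjClasses.mk_eq_mk_iff_isConj]
  exact (QuotientGroup.mk' (Subgroup.center (SpecialLinearGroup (Fin 2) F))).map_isConj h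

theorem cc_surj (x : ConjClasses (Matrix.ProjectiveSpecialLinearGroup (Fin 2) F)) :
    ∃ A, cc A = x := by
  obtain ⟨y, rfl⟩ := ConjClasses.mk_surjective x
  obtain ⟨A, rfl⟩ := QuotientGroup.mk_surjective y
  exact ⟨A, rfl⟩

theorem cc_center {A : SpecialLinearGroup (Fin 2) F} (h : A ∈ Subgroup.center _) :
    cc A = cc 1 := by
  rw [cc, cc]
  congr 1
  exact QuotientGroup.eq.mpr (by rw [mul_one]; exact inv_mem h)

/-- the negative -/
def ng (A : SpecialLinearGroup (Fin 2) F) : SpecialLinearGroup (Fin 2) F :=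
  ⟨!![-A 0 0, -A 0 1; -A 1 0, -A 1 1], by
    rw [det_fin_two_of]
    linear_combination det_eq A⟩

theorem ng_tr (A : SpecialLinearGroup (Fin 2) F) :
    (ng A) 0 0 + (ng A) 1 1 = -(A 0 0 + A 1 1) := by
  change -A 0 0 + -A 1 1 = _
  ring

theorem cc_ng (A : SpecialLinearGroup (Fin 2) F) : cc (ng A) = cc A := by
  rw [cc, cc]
  congr 1
  refine QuotientGroup.eq.mpr ?_
  rw [Matrix.SpecialLinearGroup.mem_center_iff]
  refine ⟨-1, by simp, ?_⟩
  have h : (A : Matrix (Fin 2) (Fin 2) F) = (ng A : Matrix (Fin 2) (Fin 2) F) *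
      Matrix.scalar (Fin 2) (-1) := by
    ext i j
    fin_cases i <;> fin_cases j <;> simp [ng, Matrix.mul_apply, Fin.sum_univ_two]
  have h2 : (((ng A)⁻¹ : SpecialLinearGroup (Fin 2) F) : Matrix (Fin 2) (Fin 2) F) *
      (ng A : Matrix (Fin 2) (Fin 2) F) = 1 := by
    have h3 := Matrix.SpecialLinearGroup.coe_mul (ng A)⁻¹ (ng A)
    rw [← h3, inv_mul_cancel]
    rfl
  rw [Matrix.SpecialLinearGroup.coe_mul, h, ← Matrix.mul_assoc, h2, Matrix.one_mul]

/-- in odd characteristic the form is universal if it is not degenerate -/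
theorem univ_Q [Finite F] (hodd : Odd (Nat.card F)) (A : SpecialLinearGroup (Fin 2) F)
    (hD : (A 0 0 + A 1 1) ^ 2 ≠ 4) : ∃ x y, Q A x y = 1 := by
  classical
  have := Fintype.ofFinite F
  have hd := det_eq A
  have hD' : (A 1 1 - A 0 0) ^ 2 + 4 * (A 0 1 * A 1 0) ≠ 0 := by
    intro h
    apply hD
    linear_combination h + 4 * hd
  have hcard : Fintype.card F % 2 = 1 := by
    rw [← Nat.card_eq_fintype_card]
    exact Nat.odd_iff.mp hodd
  have h2 : (2 : F) ≠ 0 := by
    have hch : ringChar F ≠ 2 := by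
      intro h
      rw [FiniteField.even_card_iff_char_two] at h
      omega
    exact Ring.two_ne_zero hch
  by_cases hc : A 1 0 = 0
  · rw [hc] at hD'
    have h1 : A 1 1 - A 0 0 ≠ 0 := by
      intro h
      apply hD'
      rw [h]
      ring
    refine ⟨(1 + A 0 1) / (A 1 1 - A 0 0), 1, ?_⟩
    rw [Q, hc]
    field_simp
    ring
  · obtain ⟨u, y, huy⟩ := FiniteField.exists_root_sum_quadratic
      (f := Polynomial.X ^ 2 - Polynomial.C (4 * A 1 0))
      (g := Polynomial.C (-((A 1 1 - A 0 0) ^ 2 + 4 * (A 0 1 * A 1 0))) * Polynomial.X ^ 2)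
      (Polynomial.degree_X_pow_sub_C (by norm_num) _)
      (Polynomial.degree_C_mul_X_pow 2 (neg_ne_zero.mpr hD')) hcard
    simp only [Polynomial.eval_sub, Polynomial.eval_pow, Polynomial.eval_X, Polynomial.eval_C,
      Polynomial.eval_mul] at huy
    refine ⟨(u - (A 1 1 - A 0 0) * y) / (2 * A 1 0), y, ?_⟩
    rw [Q]
    field_simp
    linear_combination huy

theorem even_case [Finite F] (he : Even (Nat.card F)) :
    Nat.card (ConjClasses (Matrix.ProjectiveSpecialLinearGroup (Fin 2) F)) ≤ Nat.card F + 1 := by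
  classical
  have := Fintype.ofFinite F
  have hch : ringChar F = 2 := by
    rw [FiniteField.even_card_iff_char_two, ← Nat.card_eq_fintype_card]
    exact Nat.even_iff.mp he
  let Φ : Option F → ConjClasses (Matrix.ProjectiveSpecialLinearGroup (Fin 2) F) :=
    fun o => o.elim (cc 1) fun t => cc (Cm t)
  have hs : Function.Surjective Φ := by
    intro x
    obtain ⟨A, rfl⟩ := cc_surj x
    by_cases hA : A ∈ Subgroup.center _
    · exact ⟨none, (cc_center hA).symm⟩
    · obtain ⟨x, y, hxy⟩ := exists_ne A hA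
      exact ⟨some (A 0 0 + A 1 1),
        (cc_conj (conj_Cm_sq A x y hxy (FiniteField.isSquare_of_char_two hch _))).symm⟩
  have h := Nat.card_le_card_of_surjective Φ hs
  rwa [Finite.card_option] at h

/-- trace two, and the form takes a nonsquare value -/
def NS (A : SpecialLinearGroup (Fin 2) F) : Prop :=
  A 0 0 + A 1 1 = 2 ∧ ∃ x y, ¬ IsSquare (Q A x y)

theorem ns_conj [Finite F] (A B : SpecialLinearGroup (Fin 2) F) (hA : NS A) (hB : NS B) :
    IsConj A B := by
  classical
  have := Fintype.ofFinite F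
  obtain ⟨tA, x, y, hx⟩ := hA
  obtain ⟨tB, x', y', hx'⟩ := hB
  have h0 : Q A x y ≠ 0 := fun h => hx (h ▸ IsSquare.zero)
  have h0' : Q B x' y' ≠ 0 := fun h => hx' (h ▸ IsSquare.zero)
  have h1 : quadraticChar F (Q A x y * Q B x' y') = 1 := by
    rw [map_mul, quadraticChar_neg_one_iff_not_isSquare.mpr hx,
      quadraticChar_neg_one_iff_not_isSquare.mpr hx']
    norm_num
  obtain ⟨r, hr⟩ := (quadraticChar_one_iff_isSquare (mul_ne_zero h0 h0')).mp h1
  have h2 : Q A (r / Q A x y * x) (r / Q A x y * y) = Q B x' y' := by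
    rw [Q_smul]
    have : (r / Q A x y) ^ 2 * Q A x y = (r * r) / Q A x y := by
      field_simp
    rw [this, ← hr]
    field_simp
  exact key A B (tA.trans tB.symm) _ _ x' y' (by rw [h2]; exact h0') h2

theorem ng_Q (A : SpecialLinearGroup (Fin 2) F) (x y : F) : Q (ng A) x y = -Q A x y := by
  change -A 1 0 * x ^ 2 + (-A 1 1 - -A 0 0) * x * y - -A 0 1 * y ^ 2 = _
  rw [Q]
  ring

theorem odd_case [Finite F] (ho : Odd (Nat.card F)) :
    2 * Nat.card (ConjClasses (Matrix.ProjectiveSpecialLinearGroup (Fin 2) F)) ≤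
      Nat.card F + 5 := by
  classical
  have := Fintype.ofFinite F
  have h2 : (2 : F) ≠ 0 := by
    have hch : ringChar F ≠ 2 := by
      intro h
      rw [FiniteField.even_card_iff_char_two, ← Nat.card_eq_fintype_card] at h
      have := Nat.odd_iff.mp ho
      omega
    exact Ring.two_ne_zero hch
  have h4 : (2 : F) ≠ -2 := by
    intro h
    have h5 : (2 : F) * 2 = 0 := by linear_combination h
    rcases mul_eq_zero.mp h5 with h6 | h6 <;> exact h2 h6
  have := Fintype.ofFinite (ConjClasses (Matrix.ProjectiveSpecialLinearGroup (Fin 2) F))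
  obtain ⟨w, hw⟩ : ∃ w : ConjClasses (Matrix.ProjectiveSpecialLinearGroup (Fin 2) F),
      ∀ A, NS A → cc A = w := by
    by_cases h : ∃ A : SpecialLinearGroup (Fin 2) F, NS A
    · obtain ⟨B, hB⟩ := h
      exact ⟨cc B, fun A hA => cc_conj (ns_conj A B hA hB)⟩
    · exact ⟨cc 1, fun A hA => absurd ⟨A, hA⟩ h⟩
  let Ψ : Fin 5 → ConjClasses (Matrix.ProjectiveSpecialLinearGroup (Fin 2) F) :=
    ![cc 1, cc 1, w, w, cc (Cm 0)]
  let Φ : F ⊕ Fin 5 → ConjClasses (Matrix.ProjectiveSpecialLinearGroup (Fin 2) F) :=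
    Sum.elim (fun t => if t = -2 then cc (Cm 2) else cc (Cm t)) Ψ
  have two : ∀ (x : ConjClasses (Matrix.ProjectiveSpecialLinearGroup (Fin 2) F))
      (p p' : F ⊕ Fin 5), p ≠ p' → Φ p = x → Φ p' = x → 2 ≤ #{p ∈ univ | Φ p = x} := by
    intro x p p' hne h1 h2
    have : ({p, p'} : Finset (F ⊕ Fin 5)) ⊆
        (univ : Finset (F ⊕ Fin 5)).filter (fun p => Φ p = x) := by
      intro z hz
      rw [Finset.mem_insert, Finset.mem_singleton] at hz
      rw [Finset.mem_filter]
      rcases hz with rfl | rfl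
      · exact ⟨Finset.mem_univ _, h1⟩
      · exact ⟨Finset.mem_univ _, h2⟩
    exact (Finset.card_pair hne).symm.le.trans (Finset.card_le_card this)
  have key2 : ∀ x ∈ (univ : Finset (ConjClasses (Matrix.ProjectiveSpecialLinearGroup (Fin 2) F))),
      2 ≤ #{p ∈ univ | Φ p = x} := by
    intro x _
    obtain ⟨A, rfl⟩ := cc_surj x
    by_cases hA : A ∈ Subgroup.center _
    · exact two _ (Sum.inr 0) (Sum.inr 1) (by simp) (cc_center hA).symm (cc_center hA).symm
    obtain ⟨x, y, hxy⟩ := exists_ne A hA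
    by_cases ht : (A 0 0 + A 1 1) ^ 2 = 4
    · obtain ⟨A', hA', htr, hne⟩ : ∃ A', cc A' = cc A ∧ A' 0 0 + A' 1 1 = 2 ∧ Q A' x y ≠ 0 := by
        have h3 : (A 0 0 + A 1 1 - 2) * (A 0 0 + A 1 1 + 2) = 0 := by linear_combination ht
        rcases mul_eq_zero.mp h3 with h | h
        · exact ⟨A, rfl, by linear_combination h, hxy⟩
        · refine ⟨ng A, cc_ng A, ?_, ?_⟩
          · rw [ng_tr]
            linear_combination -h
          · rw [ng_Q]
            exact neg_ne_zero.mpr hxy
      by_cases hsq : IsSquare (Q A' x y)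
      · have h5 : cc A = cc (Cm 2) := by
          rw [← hA', ← htr]
          exact cc_conj (conj_Cm_sq A' x y hne hsq)
        refine two _ (Sum.inl 2) (Sum.inl (-2)) ?_ ?_ ?_
        · intro h
          exact h4 (Sum.inl_injective h)
        · change (if (2 : F) = -2 then cc (Cm 2) else cc (Cm 2)) = cc A
          rw [if_neg h4, h5]
        · change (if (-2 : F) = -2 then cc (Cm 2) else cc (Cm (-2))) = cc A
          rw [if_pos rfl, h5]
      · have h5 : cc A = w := by
          rw [← hA']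
          exact hw A' ⟨htr, x, y, hsq⟩
        exact two _ (Sum.inr 2) (Sum.inr 3) (by simp) h5.symm h5.symm
    · obtain ⟨x', y', h5⟩ := univ_Q ho A ht
      have h6 : cc A = cc (Cm (A 0 0 + A 1 1)) := cc_conj (conj_Cm A x' y' h5)
      obtain ⟨t, ht'⟩ : ∃ t, t = A 0 0 + A 1 1 := ⟨_, rfl⟩
      rw [← ht'] at h6 ht
      have htm : t ≠ -2 := by
        rintro rfl
        exact ht (by norm_num)
      have htp : t ≠ 2 := by
        rintro rfl
        exact ht (by norm_num)
      by_cases ht0 : t = 0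
      · subst ht0
        refine two _ (Sum.inl 0) (Sum.inr 4) (by simp) ?_ h6.symm
        change (if (0 : F) = -2 then cc (Cm 2) else cc (Cm 0)) = cc A
        rw [if_neg htm, h6]
      · have h7 : cc (Cm (-t)) = cc (Cm t) := by
          have e1 : (ng (Cm t)) 0 0 + (ng (Cm t)) 1 1 = -t := by rw [ng_tr, Cm_tr]
          obtain ⟨x'', y'', h8⟩ := univ_Q ho (ng (Cm t)) (by rw [e1, neg_sq]; exact ht)
          have h9 := cc_conj (conj_Cm (ng (Cm t)) x'' y'' h8)
          rw [e1, cc_ng] at h9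
          exact h9.symm
        refine two _ (Sum.inl t) (Sum.inl (-t)) ?_ ?_ ?_
        · intro h
          have h8 : t = -t := Sum.inl_injective h
          have h9 : (2 : F) * t = 0 := by linear_combination h8
          rcases mul_eq_zero.mp h9 with h10 | h10
          · exact h2 h10
          · exact ht0 h10
        · change (if t = -2 then cc (Cm 2) else cc (Cm t)) = cc A
          rw [if_neg htm, h6]
        · change (if -t = -2 then cc (Cm 2) else cc (Cm (-t))) = cc A
          rw [if_neg (fun h => htp (neg_injective h)), h7, h6]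
  have h := Finset.mul_card_image_le_card_of_maps_to (f := Φ) (s := univ) (t := univ)
    (fun _ _ => Finset.mem_univ _) 2 key2
  rw [Finset.card_univ, Finset.card_univ, Fintype.card_sum, Fintype.card_fin] at h
  rw [Nat.card_eq_fintype_card, Nat.card_eq_fintype_card]
  exact h

end ItKPSL

theorem prf_KPSL : S_KPSL :=
  fun _ _ _ => ⟨ItKPSL.odd_case, ItKPSL.even_case⟩

end Pool.Agent.RadIndex

end

section

/-!
# The numerical lemma for large groups
-/

set_option autoImplicit false

namespace Pool.Agent.RadIndex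

theorem prf_NUM : S_NUM := by
  intro ι s e h d h1 hd he huniq hsum
  classical
  by_cases hex : ∃ i ∈ s, e i = 1
  · obtain ⟨i0, hi0, hei0⟩ := hex
    have hge : ∀ i ∈ s.erase i0, h + 1 ≤ e i := by
      intro i hi
      rw [Finset.mem_erase] at hi
      rcases he i hi.2 with h2 | h2
      · exact absurd (huniq i hi.2 i0 hi0 h2 hei0) hi.1
      · linarith
    have hsplit : ∑ i ∈ s, e i = 1 + ∑ i ∈ s.erase i0, e i := by
      rw [← Finset.add_sum_erase s e hi0, hei0]
    have hsplit2 : ∑ i ∈ s.erase i0, e i ^ 2 = h ^ 4 - 1 := by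
      rw [← hsum, ← Finset.add_sum_erase s (fun i => e i ^ 2) hi0, hei0]
      ring
    have hcard : ((s.erase i0).card : ℝ) = s.card - 1 := by
      rw [Finset.card_erase_of_mem hi0, Nat.cast_sub (Finset.card_pos.mpr ⟨i0, hi0⟩)]
      simp
    rcases le_total h (s.card : ℝ) with hn | hn
    · have h3 : ((s.erase i0).card : ℝ) * (h + 1) ≤ ∑ i ∈ s.erase i0, e i := by
        rw [← nsmul_eq_mul]
        exact Finset.card_nsmul_le_sum _ _ _ hge
      rw [hsplit]
      rw [hcard] at h3
      nlinarith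
    · have h4 : ∑ i ∈ s.erase i0, e i ^ 2 ≤ (∑ i ∈ s.erase i0, e i) ^ 2 := by
        apply Finset.sum_sq_le_sq_sum_of_nonneg
        intro i hi
        linarith [hge i hi]
      have h5 : 0 ≤ ∑ i ∈ s.erase i0, e i := by
        apply Finset.sum_nonneg
        intro i hi
        linarith [hge i hi]
      have h6 : h ^ 2 - 1 ≤ ∑ i ∈ s.erase i0, e i := by
        apply le_of_sq_le_sq _ h5
        rw [hsplit2] at h4
        nlinarith
      rw [hsplit]
      nlinarith
  · push Not at hex
    have hge : ∀ i ∈ s, h ≤ e i := by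
      intro i hi
      rcases he i hi with h2 | h2
      · exact absurd h2 (hex i hi)
      · linarith
    rw [mul_comm, ← nsmul_eq_mul]
    exact Finset.card_nsmul_le_sum _ _ _ hge

end Pool.Agent.RadIndex

end

section

/-!
# Item ONE: the relative degrees over an invariant character, perfect quotient
-/

set_option autoImplicit false
set_option linter.unusedSectionVars false

open Module Representation Pool.Agent.DC7914

namespace Pool.Agent.RadIndex

theorem ONE_conj {A B : Type} [Group A] [Group B] (φ : A ≃* B) :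
    Nat.card (ConjClasses A) = Nat.card (ConjClasses B) := by
  refine Nat.card_congr ⟨ConjClasses.map φ.toMonoidHom, ConjClasses.map φ.symm.toMonoidHom, ?_, ?_⟩
  · intro x
    obtain ⟨a, rfl⟩ := ConjClasses.mk_surjective x
    show ConjClasses.mk (φ.symm (φ a)) = _
    rw [MulEquiv.symm_apply_apply]
  · intro x
    obtain ⟨a, rfl⟩ := ConjClasses.mk_surjective x
    show ConjClasses.mk (φ (φ.symm a)) = _
    rw [MulEquiv.apply_symm_apply]

theorem prf_ONE (gall : S_GALL) (iso : S_ISO) (block : S_BLOCK) : S_ONE := by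
  classical
  intro S _ _ hS G _ _ N _ _ l hφ hl hinv
  obtain ⟨φ⟩ := hφ
  have hirr (χ : G → ℂ) (hχ : χ ∈ ovr N l) : IsIrrChar χ := mem_irrs.1 (Finset.mem_filter.1 hχ).1
  have hex (χ : G → ℂ) (hχ : χ ∈ ovr N l) : ∃ e : ℕ, 0 < e ∧ ∀ n : N, χ n = e * l n :=
    iso G N l hl hinv χ (hirr χ hχ) (Finset.mem_filter.1 hχ).2
  let e : (G → ℂ) → ℕ := fun χ =>
    if h : ∃ e : ℕ, 0 < e ∧ ∀ n : N, χ n = e * l n then h.choose else 0
  have he (χ : G → ℂ) (hχ : χ ∈ ovr N l) : 0 < e χ ∧ ∀ n : N, χ n = e χ * l n := by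
    have h := hex χ hχ
    have h2 : e χ = h.choose := dif_pos h
    rw [h2]
    exact h.choose_spec
  have hn (χ : G → ℂ) (hχ : χ ∈ ovr N l) : ‖χ 1‖ = e χ * ‖l 1‖ := by
    have h := (he χ hχ).2 1
    rw [OneMemClass.coe_one] at h
    rw [h, norm_mul, Complex.norm_natCast]
  have hl1 : ‖l 1‖ ≠ 0 := norm_ne_zero_iff.2 hl.one_ne_zero
  have horb : (orb N l).card = 1 := by
    rw [Finset.card_eq_one]
    refine ⟨l, Finset.eq_singleton_iff_unique_mem.2 ⟨self_mem_orb l, ?_⟩⟩
    intro m hm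
    obtain ⟨g, hg⟩ := mem_orb.1 hm
    rw [← hg, hinv g]
  obtain ⟨-, b2, b3, -, -⟩ := block G N l hl
  refine ⟨e, fun χ hχ => ⟨(he χ hχ).1, hn χ hχ⟩, ?_, ?_, ?_⟩
  · intro χ hχ χ' hχ' h1 h1'
    have hr : ∀ n : N, χ n = l n := by
      intro n
      rw [(he χ hχ).2 n, h1, Nat.cast_one, one_mul]
    have hr' : ∀ n : N, χ' n = l n := by
      intro n
      rw [(he χ' hχ').2 n, h1', Nat.cast_one, one_mul]
    obtain ⟨f, hf1, hf2⟩ := (gall G N l hl χ (hirr χ hχ) hr).1 χ' (hirr χ' hχ') hr'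
    have hf3 : (QuotientGroup.lift N f hf1).comp φ.symm.toMonoidHom = 1 := hS _
    have hf4 : f = 1 := by
      ext x
      have h := DFunLike.congr_fun hf3 (φ (QuotientGroup.mk x))
      have h2 : (QuotientGroup.lift N f hf1) (φ.symm (φ (QuotientGroup.mk x))) = f x := by
        rw [MulEquiv.symm_apply_apply]
        exact QuotientGroup.lift_mk N hf1 x
      rw [← h2]
      exact congrArg Units.val h
    funext x
    rw [hf2 x, hf4]
    simp
  · have h3 : (Nat.card (G ⧸ N) : ℝ) * ‖l 1‖ ^ 2 = (∑ χ ∈ ovr N l, (e χ : ℝ) ^ 2) * ‖l 1‖ ^ 2 := by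
      rw [horb, Nat.cast_one, one_mul] at b2
      rw [b2, Finset.sum_mul]
      refine Finset.sum_congr rfl fun χ hχ => ?_
      rw [hn χ hχ, mul_pow]
    have h4 := mul_right_cancel₀ (pow_ne_zero 2 hl1) h3
    rw [← Nat.card_congr φ.toEquiv]
    exact_mod_cast h4.symm
  · rw [horb, mul_one, ONE_conj φ] at b3
    exact b3

end Pool.Agent.RadIndex

end

section

/-!
# `PSL_2(F)` is simple and has no nontrivial linear characters
-/

set_option autoImplicit false

open Module Representation Pool.Agent.DC7914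

namespace Pool.Agent.RadIndex

theorem PERF_field {F : Type} [Field F] [Finite F] (hF : 4 ≤ Nat.card F) :
    ∃ a : F, a ≠ 0 ∧ a ^ 2 ≠ 1 := by
  obtain ⟨x, hx⟩ : IsCyclic Fˣ := by infer_instance
  refine ⟨x, Units.ne_zero x, fun h ↦ ?_⟩
  have h1 : orderOf x ≤ 2 := orderOf_le_of_pow_eq_one zero_lt_two (Units.ext <| by simpa using h)
  have h2 := Nat.card_eq_card_units_add_one F
  rw [← orderOf_eq_card_of_forall_mem_zpowers hx] at h2
  omega

theorem prf_PERF : S_PERF := by
  intro F _ _ hF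
  refine ⟨Matrix.ProjectiveSpecialLinearGroup.rank_two_simple hF, ?_⟩
  intro f
  have h := SL2Simple.PSL_commutator_eq_top (PERF_field hF)
  have h2 : commutator (Matrix.ProjectiveSpecialLinearGroup (Fin 2) F) ≤ f.ker :=
    Abelianization.commutator_subset_ker f
  rw [h] at h2
  refine MonoidHom.ext fun x => ?_
  have h3 : x ∈ f.ker := h2 (Subgroup.mem_top x)
  rw [MonoidHom.mem_ker] at h3
  rw [h3, MonoidHom.one_apply]

end Pool.Agent.RadIndex

end

section

/-!
# Item PRIME
-/

set_option autoImplicit false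
set_option linter.unusedSectionVars false

open Module Representation Pool.Agent.DC7914

namespace Pool.Agent.RadIndex

theorem prf_PRIME : S_PRIME := by
  intro F _ c hp B hl hr hd _ hne
  have : Fact (Nat.card F).Prime := ⟨hp⟩
  have hgen : ∀ x : F, ∃ n : ℕ, n • (1 : F) = x := fun x =>
    (AddSubmonoid.mem_multiples_iff _ _).mp
      (mem_multiples_of_prime_card (g' := x) rfl (one_ne_zero : (1 : F) ≠ 0))
  have h0l : ∀ y, B 0 y = 1 := by
    intro y
    have h := hl 0 0 y
    rw [add_zero] at h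
    exact (mul_eq_left₀ (hne 0 y)).mp h.symm
  have h0r : ∀ x, B x 0 = 1 := by
    intro x
    have h := hr x 0 0
    rw [add_zero] at h
    exact (mul_eq_left₀ (hne x 0)).mp h.symm
  have hnl : ∀ (n : ℕ) (x y : F), B x y = 1 → B (n • x) y = 1 := by
    intro n x y h
    induction n with
    | zero => rw [zero_smul]; exact h0l y
    | succ n ih => rw [succ_nsmul, hl, ih, h, one_mul]
  have hnr : ∀ (n : ℕ) (x y : F), B x y = 1 → B x (n • y) = 1 := by
    intro n x y h
    induction n with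
    | zero => rw [zero_smul]; exact h0r x
    | succ n ih => rw [succ_nsmul, hr, ih, h, one_mul]
  intro x y
  obtain ⟨n, rfl⟩ := hgen x
  obtain ⟨m, rfl⟩ := hgen y
  exact hnl n 1 _ (hnr m 1 1 (hd 1))

end Pool.Agent.RadIndex

end

section

/-!
# Item PSL: the groups `PSL_2(F)`
-/

set_option autoImplicit false
set_option linter.unusedSectionVars false

open Module Representation Pool.Agent.DC7914

namespace Pool.Agent.RadIndex

namespace PSLItem

/-- the possible cases -/
theorem cases_q (q : ℕ) (hq : 4 ≤ q) (hp : IsPrimePow q) :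
    ((8 ≤ q ∧ Even q) ∨ (19 ≤ q ∧ Odd q)) ∨ q = 4 ∨ q = 5 ∨ q = 7 ∨ q = 9 ∨ q = 11 ∨ q = 13 ∨
      q = 17 := by
  have h6 : q ≠ 6 := by
    rintro rfl
    rw [isPrimePow_nat_iff] at hp
    obtain ⟨p, k, hp, hk, h⟩ := hp
    have h2 : 2 ∣ p ^ k := by rw [h]; norm_num
    have h3 : 3 ∣ p ^ k := by rw [h]; norm_num
    have e2 := (Nat.prime_dvd_prime_iff_eq Nat.prime_two hp).mp (Nat.prime_two.dvd_of_dvd_pow h2)
    have e3 := (Nat.prime_dvd_prime_iff_eq Nat.prime_three hp).mp
      (Nat.prime_three.dvd_of_dvd_pow h3)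
    omega
  have h15 : q ≠ 15 := by
    rintro rfl
    rw [isPrimePow_nat_iff] at hp
    obtain ⟨p, k, hp, hk, h⟩ := hp
    have h2 : 5 ∣ p ^ k := by rw [h]; norm_num
    have h3 : 3 ∣ p ^ k := by rw [h]; norm_num
    have e2 := (Nat.prime_dvd_prime_iff_eq Nat.prime_five hp).mp (Nat.prime_five.dvd_of_dvd_pow h2)
    have e3 := (Nat.prime_dvd_prime_iff_eq Nat.prime_three hp).mp
      (Nat.prime_three.dvd_of_dvd_pow h3)
    omega
  rcases Nat.even_or_odd q with he | ho
  · obtain ⟨m, hm⟩ := he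
    by_cases h8 : 8 ≤ q
    · exact Or.inl (Or.inl ⟨h8, ⟨m, hm⟩⟩)
    · omega
  · obtain ⟨m, hm⟩ := ho
    by_cases h19 : 19 ≤ q
    · exact Or.inl (Or.inr ⟨h19, ⟨m, hm⟩⟩)
    · omega

theorem gcd_even {q : ℕ} (hq : 4 ≤ q) (h : Even q) : Nat.gcd 2 (q - 1) = 1 := by
  obtain ⟨m, hm⟩ := h
  rw [← Nat.coprime_iff_gcd_eq_one, Nat.coprime_two_left]
  exact ⟨m - 1, by omega⟩

theorem gcd_odd {q : ℕ} (h : Odd q) : Nat.gcd 2 (q - 1) = 2 := by
  obtain ⟨m, hm⟩ := h
  apply Nat.gcd_eq_left
  exact ⟨m, by omega⟩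

/-- `|PSL| ≤ (1 + τ)^4` -/
theorem numA (q n : ℕ) (hq : 4 ≤ q) (hn : n * Nat.gcd 2 (q - 1) = q * (q ^ 2 - 1)) :
    n ≤ (1 + (q - 1) / Nat.gcd 2 (q - 1)) ^ 4 := by
  rcases Nat.even_or_odd q with he | ho
  · rw [gcd_even hq he] at hn ⊢
    rw [mul_one] at hn
    rw [Nat.div_one, hn]
    have e1 : 1 + (q - 1) = q := by omega
    rw [e1]
    calc q * (q ^ 2 - 1) ≤ q * q ^ 2 := Nat.mul_le_mul_left _ (Nat.sub_le _ _)
      _ = q ^ 3 := by ring
      _ ≤ q ^ 4 := Nat.pow_le_pow_right (by omega) (by norm_num)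
  · rw [gcd_odd ho] at hn ⊢
    obtain ⟨m, rfl⟩ := ho
    have e1 : (2 * m + 1 - 1) / 2 = m := by omega
    have e2 : (2 * m + 1) ^ 2 - 1 = 4 * m ^ 2 + 4 * m := by
      have : (2 * m + 1) ^ 2 = 4 * m ^ 2 + 4 * m + 1 := by ring
      omega
    rw [e1]
    rw [e2] at hn
    have e3 : n = (2 * m + 1) * (2 * m ^ 2 + 2 * m) := by
      have : n * 2 = ((2 * m + 1) * (2 * m ^ 2 + 2 * m)) * 2 := by rw [hn]; ring
      omega
    rw [e3]
    obtain ⟨t, rfl⟩ : ∃ t, m = t + 1 := ⟨m - 1, by omega⟩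
    nlinarith [Nat.zero_le (t ^ 4), Nat.zero_le (t ^ 3), Nat.zero_le (t ^ 2), Nat.zero_le t]

/-- `|PSL| ≤ (τ - 1)^4` for large `q` -/
theorem numB (q n : ℕ) (hq : (8 ≤ q ∧ Even q) ∨ (19 ≤ q ∧ Odd q))
    (hn : n * Nat.gcd 2 (q - 1) = q * (q ^ 2 - 1)) :
    ∃ t : ℕ, (q - 1) / Nat.gcd 2 (q - 1) = t + 1 ∧ n ≤ t ^ 4 := by
  rcases hq with ⟨h8, he⟩ | ⟨h19, ho⟩
  · rw [gcd_even (by omega) he] at hn ⊢
    rw [mul_one] at hn
    refine ⟨q - 2, by rw [Nat.div_one]; omega, ?_⟩
    obtain ⟨t, rfl⟩ : ∃ t, q = t + 8 := ⟨q - 8, by omega⟩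
    have e1 : (t + 8) ^ 2 - 1 = t ^ 2 + 16 * t + 63 := by
      have : (t + 8) ^ 2 = t ^ 2 + 16 * t + 63 + 1 := by ring
      omega
    have e2 : t + 8 - 2 = t + 6 := by omega
    rw [hn, e1, e2]
    nlinarith [Nat.zero_le (t ^ 4), Nat.zero_le (t ^ 3), Nat.zero_le (t ^ 2), Nat.zero_le t]
  · rw [gcd_odd ho] at hn ⊢
    obtain ⟨m, rfl⟩ := ho
    obtain ⟨t, rfl⟩ : ∃ t, m = t + 9 := ⟨m - 9, by omega⟩
    have e2 : (2 * (t + 9) + 1) ^ 2 - 1 = 4 * (t + 9) ^ 2 + 4 * (t + 9) := by
      have : (2 * (t + 9) + 1) ^ 2 = 4 * (t + 9) ^ 2 + 4 * (t + 9) + 1 := by ring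
      omega
    rw [e2] at hn
    have e3 : n = (2 * (t + 9) + 1) * (2 * (t + 9) ^ 2 + 2 * (t + 9)) := by
      have : n * 2 = ((2 * (t + 9) + 1) * (2 * (t + 9) ^ 2 + 2 * (t + 9))) * 2 := by rw [hn]; ring
      omega
    refine ⟨t + 8, by omega, ?_⟩
    rw [e3]
    nlinarith [Nat.zero_le (t ^ 4), Nat.zero_le (t ^ 3), Nat.zero_le (t ^ 2), Nat.zero_le t]

theorem le_of_pow4 {a b : ℝ} (hb : 0 ≤ b) (h : a ^ 4 ≤ b ^ 4) : a ≤ b :=
  le_of_pow_le_pow_left₀ (by norm_num) hb h

theorem main (hBLOCK : S_BLOCK) (hONE : S_ONE) (hDEG : S_DEG) (hIDX : S_IDX) (hNUM : S_NUM)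
    (hSMALL : S_SMALL) (S F : Type) [Group S] [Finite S] [Field F] (q : ℕ) (hq : 4 ≤ q)
    (hsimple : IsSimpleGroup S) (hperf : ∀ f : S →* ℂˣ, f = 1)
    (D : UData S F ((q - 1) / Nat.gcd 2 (q - 1)))
    (hD : (8 ≤ q ∧ Even q) ∨ 17 ≤ q ∨ q.Prime → FormTriv F D.c)
    (hcard : Nat.card S * Nat.gcd 2 (q - 1) = q * (q ^ 2 - 1))
    (hk1 : Odd q → 2 * Nat.card (ConjClasses S) ≤ q + 5)
    (hk2 : Even q → Nat.card (ConjClasses S) ≤ q + 1)
    (hpp : IsPrimePow q) (h : ℝ) (hh : 0 < h) (hh4 : h ^ 4 = Nat.card S) : PS S h := by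
  intro G _ _ N _ _ l hiso hl
  obtain ⟨hb1, hb2, hb3, ⟨K, hK⟩, hb5⟩ := hBLOCK G N l hl
  have hl1 : 1 ≤ ‖l 1‖ := one_le_deg hl
  have hl0 : 0 < ‖l 1‖ := by linarith
  by_cases hinv : ∀ g : G, cj g l = l
  swap
  · -- not invariant
    right
    intro χ hχ
    have h1 := hb1 χ hχ
    obtain ⟨e⟩ := hiso
    have hne : (orb N l).card ≠ 1 := fun h => hinv (hb5 h)
    have hidx : (K.map (e : G ⧸ N →* S)).index = (orb N l).card := by
      rw [Subgroup.index_map_equiv, hK]
    have hKtop : K.map (e : G ⧸ N →* S) ≠ ⊤ := by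
      intro h2
      rw [h2, Subgroup.index_top] at hidx
      exact hne hidx.symm
    have h3 := hIDX S F _ hsimple D _ hKtop
    rw [hidx] at h3
    have h4 := numA q (Nat.card S) hq hcard
    have h5 : h ≤ ((1 + (q - 1) / Nat.gcd 2 (q - 1) : ℕ) : ℝ) := by
      apply le_of_pow4 (Nat.cast_nonneg _)
      rw [hh4]
      exact_mod_cast h4
    have h6 : h ≤ ((orb N l).card : ℝ) := h5.trans (by exact_mod_cast h3)
    exact (mul_le_mul_of_nonneg_right h6 hl0.le).trans h1
  -- invariant
  left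
  refine ⟨hinv, ?_⟩
  obtain ⟨e, he1, he2, he3, he4⟩ := hONE S hperf G N l hiso hl hinv
  -- reduction to a sum of natural numbers
  suffices hsuff : h * (ovr N l).card ≤ ((∑ χ ∈ ovr N l, e χ : ℕ) : ℝ) by
    calc h * ‖l 1‖ * (ovr N l).card = (h * (ovr N l).card) * ‖l 1‖ := by ring
      _ ≤ ((∑ χ ∈ ovr N l, e χ : ℕ) : ℝ) * ‖l 1‖ := mul_le_mul_of_nonneg_right hsuff hl0.le
      _ = ∑ χ ∈ ovr N l, ‖χ 1‖ := by
        push_cast
        rw [Finset.sum_mul]
        exact Finset.sum_congr rfl fun χ hχ => (he1 χ hχ).2.symm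
  have hdeg : FormTriv F D.c → ∀ χ ∈ ovr N l, e χ = 1 ∨ (q - 1) / Nat.gcd 2 (q - 1) ≤ e χ := by
    intro hform χ hχ
    rcases hDEG S F _ hsimple D hform G N l hiso hl hinv χ hχ with h1 | h1
    · left
      rw [(he1 χ hχ).2] at h1
      have : (e χ : ℝ) = 1 := by
        apply mul_right_cancel₀ hl0.ne'
        rw [h1, one_mul]
      exact_mod_cast this
    · right
      rw [(he1 χ hχ).2] at h1
      have := le_of_mul_le_mul_right h1 hl0
      exact_mod_cast this
  rcases cases_q q hq hpp with hbig | hsmall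
  · -- large groups
    obtain ⟨t, ht1, ht2⟩ := numB q (Nat.card S) hbig hcard
    have hform : FormTriv F D.c := by
      apply hD
      rcases hbig with h1 | h1
      · exact Or.inl h1
      · exact Or.inr (Or.inl (by omega))
    have hdg := hdeg hform
    have ht : h ≤ t := by
      apply le_of_pow4 (Nat.cast_nonneg _)
      rw [hh4]
      exact_mod_cast ht2
    have h1 : 1 ≤ h := by
      apply le_of_pow4 hh.le
      rw [hh4, one_pow]
      exact_mod_cast (Nat.card_pos : 0 < Nat.card S)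
    have := hNUM (G → ℂ) (ovr N l) (fun χ => (e χ : ℝ)) h (((q - 1) / Nat.gcd 2 (q - 1) : ℕ) : ℝ)
      h1 (by rw [ht1]; push_cast; linarith) ?_ ?_ ?_
    · push_cast
      exact this
    · intro χ hχ
      rcases hdg χ hχ with h2 | h2
      · left; exact_mod_cast h2
      · right; exact_mod_cast h2
    · intro χ hχ χ' hχ' h2 h3
      exact he2 χ hχ χ' hχ' (by exact_mod_cast h2) (by exact_mod_cast h3)
    · rw [hh4]
      exact_mod_cast he3
  · -- small groups
    have key : ∀ (n k d : ℕ), (n = 60 ∧ k = 5 ∧ d = 2 ∨ n = 168 ∧ k = 6 ∧ d = 3 ∨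
        n = 360 ∧ k = 7 ∧ d = 2 ∨ n = 660 ∧ k = 8 ∧ d = 5 ∨ n = 1092 ∧ k = 9 ∧ d = 6 ∨
        n = 2448 ∧ k = 11 ∧ d = 8) → Nat.card S = n → Nat.card (ConjClasses S) ≤ k →
        (∀ χ ∈ ovr N l, e χ = 1 ∨ d ≤ e χ) →
        h * (ovr N l).card ≤ ((∑ χ ∈ ovr N l, e χ : ℕ) : ℝ) := by
      intro n k d hnkd hn hk hd
      have h1 := hSMALL n k d hnkd (G → ℂ) (ovr N l) e (he4.trans hk) hd he2 (by rw [he3, hn])
      apply le_of_pow4 (Nat.cast_nonneg _)
      rw [mul_pow, hh4, hn]
      exact_mod_cast h1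
    have htwo : ∀ χ ∈ ovr N l, e χ = 1 ∨ 2 ≤ e χ := by
      intro χ hχ
      have := (he1 χ hχ).1
      omega
    have hprime : q.Prime → ∀ χ ∈ ovr N l, e χ = 1 ∨ (q - 1) / Nat.gcd 2 (q - 1) ≤ e χ :=
      fun hp => hdeg (hD (Or.inr (Or.inr hp)))
    rcases hsmall with hq' | hq' | hq' | hq' | hq' | hq' | hq'
    · rw [hq'] at hcard hk2
      have h1 := hk2 (by decide)
      exact key 60 5 2 (by norm_num) (by norm_num at hcard; omega) h1 htwo
    · rw [hq'] at hcard hk1
      have h1 := hk1 (by decide)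
      exact key 60 5 2 (by norm_num) (by norm_num at hcard; omega) (by omega) htwo
    · rw [hq'] at hcard hk1 hprime
      have h1 := hk1 (by decide)
      have h2 := hprime (by norm_num)
      norm_num at h2
      exact key 168 6 3 (by norm_num) (by norm_num at hcard; omega) (by omega) h2
    · rw [hq'] at hcard hk1
      have h1 := hk1 (by decide)
      exact key 360 7 2 (by norm_num) (by norm_num at hcard; omega) (by omega) htwo
    · rw [hq'] at hcard hk1 hprime
      have h1 := hk1 (by decide)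
      have h2 := hprime (by norm_num)
      norm_num at h2
      exact key 660 8 5 (by norm_num) (by norm_num at hcard; omega) (by omega) h2
    · rw [hq'] at hcard hk1 hprime
      have h1 := hk1 (by decide)
      have h2 := hprime (by norm_num)
      norm_num at h2
      exact key 1092 9 6 (by norm_num) (by norm_num at hcard; omega) (by omega) h2
    · rw [hq'] at hcard hk1 hprime
      have h1 := hk1 (by decide)
      have h2 := hprime (by norm_num)
      norm_num at h2
      exact key 2448 11 8 (by norm_num) (by norm_num at hcard; omega) (by omega) h2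

end PSLItem

open PSLItem in
theorem prf_PSL (hBLOCK : S_BLOCK) (hONE : S_ONE) (hDEG : S_DEG) (hIDX : S_IDX) (hNUM : S_NUM)
    (hSMALL : S_SMALL) (hUNIP : S_UNIP) (hCARD : S_CARD) (hKPSL : S_KPSL) (hPERF : S_PERF) :
    S_PSL := by
  intro F _ _ hq h hh hh4
  obtain ⟨hsimple, hperf⟩ := hPERF F hq
  obtain ⟨D, hD⟩ := hUNIP F hq
  have hpp : IsPrimePow (Nat.card F) := by
    haveI := Fintype.ofFinite F
    rw [Nat.card_eq_fintype_card]
    exact Fintype.isPrimePow_card_of_field
  exact PSLItem.main hBLOCK hONE hDEG hIDX hNUM hSMALL _ F (Nat.card F) hq hsimple hperf D hD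
    (hCARD F) (hKPSL F).1 (hKPSL F).2 hpp h hh hh4

end Pool.Agent.RadIndex

end

section

/-!
# The numerical lemma for small groups
-/

set_option autoImplicit false
set_option linter.unusedSectionVars false

namespace Pool.Agent.RadIndex

/-- a verified search: `true` implies that `m` numbers in `[d, M]` with sum of squares `n` have
sum at least `S` -/
def smallChk (d : ℕ) : ℕ → ℕ → ℕ → ℕ → Bool
  | 0, m, n, S => (m != 0) || (n != 0) || (S == 0)
  | M + 1, m, n, S =>
    decide ((M + 1 + d) * S ≤ n + m * (M + 1) * d) ||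
    decide (m * (M + 1) ^ 2 < n) ||
    (List.range (m + 1)).all fun j =>
      decide (n < j * (M + 1) ^ 2) || (decide (M + 1 < d) && decide (0 < j)) ||
        smallChk d M (m - j) (n - j * (M + 1) ^ 2) (S - j * (M + 1))

theorem smallChk_sound (d : ℕ) (hd : 0 < d) (M : ℕ) : ∀ (ι : Type) (s : Finset ι) (e : ι → ℕ)
    (S : ℕ), (∀ i ∈ s, d ≤ e i ∧ e i ≤ M) → smallChk d M s.card (∑ i ∈ s, e i ^ 2) S = true →
    S ≤ ∑ i ∈ s, e i := by
  induction M with
  | zero =>
    intro ι s e S h hc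
    simp only [smallChk, Bool.or_eq_true, bne_iff_ne, ne_eq, beq_iff_eq] at hc
    have hs : s = ∅ := by
      refine Finset.eq_empty_of_forall_notMem fun i hi => ?_
      have := h i hi
      omega
    subst hs
    simp at hc
    rw [hc]; exact Nat.zero_le _
  | succ M ih =>
    intro ι s e S h hc
    rw [smallChk] at hc
    simp only [Bool.or_eq_true, decide_eq_true_eq, List.all_eq_true, List.mem_range,
      Bool.and_eq_true] at hc
    rcases hc with (hc | hc) | hc
    · have h1 : ∑ i ∈ s, (e i ^ 2 + (M + 1) * d) ≤ ∑ i ∈ s, (M + 1 + d) * e i := by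
        refine Finset.sum_le_sum fun i hi => ?_
        obtain ⟨a, b⟩ := h i hi
        obtain ⟨u, hu⟩ := Nat.exists_eq_add_of_le a
        obtain ⟨v, hv⟩ := Nat.exists_eq_add_of_le b
        rw [hv, hu]
        nlinarith [Nat.zero_le (u * v)]
      rw [Finset.sum_add_distrib, Finset.sum_const, ← Finset.mul_sum, smul_eq_mul] at h1
      have h2 : (M + 1 + d) * S ≤ (M + 1 + d) * ∑ i ∈ s, e i := by
        refine le_trans hc (le_trans (le_of_eq ?_) h1)
        ring
      exact Nat.le_of_mul_le_mul_left h2 (by omega)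
    · exfalso
      have h1 : ∑ i ∈ s, e i ^ 2 ≤ ∑ i ∈ s, (M + 1) ^ 2 :=
        Finset.sum_le_sum fun i hi => Nat.pow_le_pow_left (h i hi).2 2
      rw [Finset.sum_const, smul_eq_mul] at h1
      omega
    · classical
      have hsplit := Finset.card_filter_add_card_filter_not (s := s) (fun i => e i = M + 1)
      have hj := hc (s.filter (fun i => e i = M + 1)).card (by omega)
      have hsq : ∑ i ∈ s, e i ^ 2 = (s.filter (fun i => e i = M + 1)).card * (M + 1) ^ 2 +
          ∑ i ∈ s.filter (fun i => ¬ e i = M + 1), e i ^ 2 := by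
        rw [← Finset.sum_filter_add_sum_filter_not s (fun i => e i = M + 1)]
        congr 1
        rw [← smul_eq_mul, ← Finset.sum_const]
        refine Finset.sum_congr rfl fun i hi => ?_
        rw [(Finset.mem_filter.1 hi).2]
      have hsm : ∑ i ∈ s, e i = (s.filter (fun i => e i = M + 1)).card * (M + 1) +
          ∑ i ∈ s.filter (fun i => ¬ e i = M + 1), e i := by
        rw [← Finset.sum_filter_add_sum_filter_not s (fun i => e i = M + 1)]
        congr 1
        rw [← smul_eq_mul, ← Finset.sum_const]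
        refine Finset.sum_congr rfl fun i hi => ?_
        rw [(Finset.mem_filter.1 hi).2]
      rcases hj with (hj | hj) | hj
      · omega
      · exfalso
        obtain ⟨i, hi⟩ := Finset.card_pos.1 hj.2
        obtain ⟨hi1, hi2⟩ := Finset.mem_filter.1 hi
        have := (h i hi1).1
        omega
      · have e1 : s.card - (s.filter (fun i => e i = M + 1)).card =
            (s.filter (fun i => ¬ e i = M + 1)).card := by omega
        have e2 : ∑ i ∈ s, e i ^ 2 - (s.filter (fun i => e i = M + 1)).card * (M + 1) ^ 2 =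
            ∑ i ∈ s.filter (fun i => ¬ e i = M + 1), e i ^ 2 := by omega
        rw [e1, e2] at hj
        have := ih ι _ e _ (fun i hi => by
          obtain ⟨hi1, hi2⟩ := Finset.mem_filter.1 hi
          have := h i hi1
          omega) hj
        omega

/-- the least `T` with `n m ^ 4 ≤ T ^ 4` (searched below `200`) -/
def smallT (n m : ℕ) : ℕ := ((List.range 200).find? (fun T => decide (n * m ^ 4 ≤ T ^ 4))).getD 0

/-- the complete check for `n`, `d` and all cardinalities up to `k` -/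
def smallAll (n k d : ℕ) : Bool :=
  (List.range (k + 1)).all fun m =>
    decide (n * m ^ 4 ≤ smallT n m ^ 4) && smallChk d 50 m n (smallT n m) &&
      (decide (m = 0) || smallChk d 50 (m - 1) (n - 1) (smallT n m - 1))

theorem smallAll_sound (n k d : ℕ) (hd : 2 ≤ d) (hn : n < 51 ^ 2) (hc : smallAll n k d = true) :
    ∀ (ι : Type) (s : Finset ι) (e : ι → ℕ), s.card ≤ k → (∀ i ∈ s, e i = 1 ∨ d ≤ e i) →
    (∀ i ∈ s, ∀ j ∈ s, e i = 1 → e j = 1 → i = j) → ∑ i ∈ s, e i ^ 2 = n →
    n * s.card ^ 4 ≤ (∑ i ∈ s, e i) ^ 4 := by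
  intro ι s e hk he h1 hs
  classical
  simp only [smallAll, List.all_eq_true, List.mem_range, Bool.and_eq_true, Bool.or_eq_true,
    decide_eq_true_eq] at hc
  obtain ⟨⟨c1, c2⟩, c3⟩ := hc s.card (by omega)
  refine le_trans c1 (Nat.pow_le_pow_left ?_ 4)
  have hM : ∀ i ∈ s, e i ≤ 50 := by
    intro i hi
    by_contra hlt
    have h51 : 51 ≤ e i := by omega
    have h2 : e i ^ 2 ≤ ∑ i ∈ s, e i ^ 2 :=
      Finset.single_le_sum (f := fun i => e i ^ 2) (fun j _ => Nat.zero_le _) hi
    have h3 : 51 ^ 2 ≤ e i ^ 2 := Nat.pow_le_pow_left h51 2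
    omega
  by_cases hone : ∃ i ∈ s, e i = 1
  · obtain ⟨i, hi, hi1⟩ := hone
    have hcard : (s.erase i).card = s.card - 1 := Finset.card_erase_of_mem hi
    have hpos : 0 < s.card := Finset.card_pos.2 ⟨i, hi⟩
    have hsq : e i ^ 2 + ∑ j ∈ s.erase i, e j ^ 2 = ∑ j ∈ s, e j ^ 2 :=
      Finset.add_sum_erase s (fun j => e j ^ 2) hi
    have hsm : e i + ∑ j ∈ s.erase i, e j = ∑ j ∈ s, e j := Finset.add_sum_erase s e hi
    rw [hi1] at hsq hsm
    have e2 : n - 1 = ∑ j ∈ s.erase i, e j ^ 2 := by omega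
    rcases c3 with c3 | c3
    · omega
    · rw [e2, ← hcard] at c3
      have := smallChk_sound d (by omega) 50 ι (s.erase i) e _ (fun j hj => by
        obtain ⟨hj1, hj2⟩ := Finset.mem_erase.1 hj
        refine ⟨?_, hM j hj2⟩
        rcases he j hj2 with h | h
        · exact absurd (h1 j hj2 i hi h hi1) hj1
        · exact h) c3
      omega
  · rw [← hs] at c2
    have := smallChk_sound d (by omega) 50 ι s e _ (fun j hj => ⟨by
      rcases he j hj with h | h
      · exact absurd ⟨j, hj, h⟩ hone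
      · exact h, hM j hj⟩) c2
    rw [← hs]
    exact this

theorem prf_SMALL : S_SMALL := by
  intro n k d hnkd
  rcases hnkd with h | h | h | h | h | h <;> obtain ⟨rfl, rfl, rfl⟩ := h
  · exact smallAll_sound _ _ _ (by norm_num) (by norm_num) (by decide +kernel)
  · exact smallAll_sound _ _ _ (by norm_num) (by norm_num) (by decide +kernel)
  · exact smallAll_sound _ _ _ (by norm_num) (by norm_num) (by decide +kernel)
  · exact smallAll_sound _ _ _ (by norm_num) (by norm_num) (by decide +kernel)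
  · exact smallAll_sound _ _ _ (by norm_num) (by norm_num) (by decide +kernel)
  · exact smallAll_sound _ _ _ (by norm_num) (by norm_num) (by decide +kernel)

end Pool.Agent.RadIndex

end

section

/-!
# Item TRICK: invariant forms are trivial
-/

set_option autoImplicit false

namespace Pool.Agent.RadIndex

theorem prf_TRICK : S_TRICK := by
  rintro F _ c hc ⟨i, j, k, h1, h2⟩ B hl hr _ hinv hne x y'
  have hpow : ∀ (n : ℕ) (x y : F), B (c ^ n * x) (c ^ n * y) = B x y := by
    intro n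
    induction n with
    | zero => intro x y; simp
    | succ n ih =>
      intro x y
      rw [pow_succ', mul_assoc, mul_assoc, hinv, ih]
  have hadj : ∀ (n : ℕ) (x y : F), B (c ^ n * x) y = B x ((c ^ n)⁻¹ * y) := by
    intro n x y
    rw [← hpow n x ((c ^ n)⁻¹ * y), mul_inv_cancel_left₀ (pow_ne_zero n hc)]
  have hδ : (c ^ i)⁻¹ + (c ^ j)⁻¹ - (c ^ k)⁻¹ ≠ 0 := sub_ne_zero.2 h2
  set δ := (c ^ i)⁻¹ + (c ^ j)⁻¹ - (c ^ k)⁻¹ with hδdef
  set y := δ⁻¹ * y' with hy
  have hy' : y' = δ * y := by rw [hy, mul_inv_cancel_left₀ hδ]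
  have e1 : B (c ^ k * x) y = B x ((c ^ k)⁻¹ * y) := hadj k x y
  have e2 : B (c ^ k * x) y = B x ((c ^ i)⁻¹ * y) * B x ((c ^ j)⁻¹ * y) := by
    rw [← h1, add_mul, hl, hadj, hadj]
  have e3 : B x (δ * y + (c ^ k)⁻¹ * y) = B x ((c ^ i)⁻¹ * y) * B x ((c ^ j)⁻¹ * y) := by
    rw [← hr]
    congr 1
    rw [hδdef]; ring
  rw [hr, ← e2, e1] at e3
  rw [hy']
  have h0 := hne x ((c ^ k)⁻¹ * y)
  exact mul_right_cancel₀ h0 (e3.trans (one_mul _).symm)

end Pool.Agent.RadIndex

end

section

/-!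
# Unipotent and diagonal elements of `PSL_2(F)`
-/

set_option autoImplicit false
set_option linter.unusedSectionVars false

open Module Representation Pool.Agent.DC7914

namespace Pool.Agent.RadIndex

open Matrix

private noncomputable def unipM {F : Type} [Field F] : Multiplicative F →* SpecialLinearGroup (Fin 2) F where
  toFun x := ⟨!![1, Multiplicative.toAdd x; 0, 1], by simp [Matrix.det_fin_two]⟩
  map_one' := by
    ext i j
    fin_cases i <;> fin_cases j <;> simp
  map_mul' x y := by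
    ext i j
    fin_cases i <;> fin_cases j <;> simp [add_comm]

private noncomputable def unipT {F : Type} [Field F] (g : Fˣ) : SpecialLinearGroup (Fin 2) F :=
  ⟨!![(g : F), 0; 0, (g⁻¹ : Fˣ)], by simp [Matrix.det_fin_two]⟩

private lemma unip_act {F : Type} [Field F] (g : Fˣ) (x : F) :
    unipT g * unipM (Multiplicative.ofAdd x) * (unipT g)⁻¹ =
      unipM (Multiplicative.ofAdd ((g : F) ^ 2 * x)) := by
  rw [mul_inv_eq_iff_eq_mul]
  ext i j
  fin_cases i <;> fin_cases j <;> simp [unipT, unipM]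
  field_simp

private lemma unip_inj {F : Type} [Field F] : Function.Injective
    ((QuotientGroup.mk' (Subgroup.center (SpecialLinearGroup (Fin 2) F))).comp unipM) := by
  rw [injective_iff_map_eq_one]
  intro x hx
  rw [MonoidHom.comp_apply, QuotientGroup.mk'_apply, QuotientGroup.eq_one_iff,
    Subgroup.mem_center_iff] at hx
  have h := hx ⟨!![1, 0; 1, 1], by simp [Matrix.det_fin_two]⟩
  have h2 := congrArg (fun M : SpecialLinearGroup (Fin 2) F => (M : Matrix (Fin 2) (Fin 2) F) 0 0) h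
  simp [unipM] at h2
  exact h2

private lemma unip_pow {F : Type} [Field F] (g : Fˣ) (hg : ∀ a : Fˣ, a ∈ Subgroup.zpowers g)
    [Finite F] (s : F) (hs : s ≠ 0) : ∃ i : ℕ, ((g : F) ^ 2) ^ i = s ^ 2 := by
  have h1 := hg (Units.mk0 s hs)
  rw [← mem_powers_iff_mem_zpowers, Submonoid.mem_powers_iff] at h1
  obtain ⟨i, hi⟩ := h1
  refine ⟨i, ?_⟩
  have h2 : (g : F) ^ i = s := by
    have := congrArg (fun u : Fˣ => (u : F)) hi
    simpa using this
  rw [← h2]
  ring

private lemma unip_key {F : Type} [Field F] [Finite F] (g : Fˣ)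
    (hg : ∀ a : Fˣ, a ∈ Subgroup.zpowers g) (htr : S_TRICK) (a b c : F) (ha : a ≠ 0) (hb : b ≠ 0)
    (hc : c ≠ 0) (h : a ^ 2 + b ^ 2 = c ^ 2) (h2 : c ^ 4 ≠ a ^ 2 * b ^ 2) :
    FormTriv F ((g : F) ^ 2) := by
  obtain ⟨i, hi⟩ := unip_pow g hg a ha
  obtain ⟨j, hj⟩ := unip_pow g hg b hb
  obtain ⟨k, hk⟩ := unip_pow g hg c hc
  refine htr F _ (pow_ne_zero _ g.ne_zero) ⟨i, j, k, ?_, ?_⟩
  · rw [hi, hj, hk, h]
  · rw [hi, hj, hk]
    intro h3
    apply h2
    have h4 : b ^ 2 + a ^ 2 = a ^ 2 * b ^ 2 * (c ^ 2)⁻¹ := by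
      rw [← h3]
      field_simp
    have h5 : (b ^ 2 + a ^ 2) * c ^ 2 = a ^ 2 * b ^ 2 := by
      rw [h4]
      field_simp
    rw [← h5, add_comm, h]
    ring

private lemma unip_root {F : Type} [Field F] [Finite F] (p : Polynomial F) (n : ℕ) (hp : p ≠ 0)
    (hn : p.natDegree ≤ n) (hF : n < Nat.card F) : ∃ s, p.eval s ≠ 0 := by
  refine Polynomial.exists_eval_ne_zero_of_natDegree_lt_card p hp ?_
  have := Fintype.ofFinite F
  rw [Cardinal.mk_fintype, ← Nat.card_eq_fintype_card]
  exact_mod_cast lt_of_le_of_lt hn hF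

theorem prf_UNIP (htr : S_TRICK) (hpr : S_PRIME) : S_UNIP := by
  intro F _ _ hF
  obtain ⟨g, hg⟩ := IsCyclic.exists_generator (α := Fˣ)
  have hord : orderOf g = Nat.card F - 1 := by
    rw [orderOf_eq_card_of_forall_mem_zpowers hg, Nat.card_units]
  have hord2 : orderOf ((g : F) ^ 2) = (Nat.card F - 1) / Nat.gcd 2 (Nat.card F - 1) := by
    have : ((g : F) ^ 2) = ((g ^ 2 : Fˣ) : F) := by simp
    rw [this, orderOf_units, orderOf_pow, hord, Nat.gcd_comm]
  have hq : 1 < (Nat.card F - 1) / Nat.gcd 2 (Nat.card F - 1) := by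
    have hle : Nat.gcd 2 (Nat.card F - 1) ≤ 2 := Nat.gcd_le_left _ (by norm_num)
    have hpos : 0 < Nat.gcd 2 (Nat.card F - 1) := Nat.gcd_pos_of_pos_left _ (by norm_num)
    rcases Nat.eq_or_lt_of_le hle with h | h
    · rw [h]
      have h2 : 2 ∣ Nat.card F - 1 := by
        rw [← h]
        exact Nat.gcd_dvd_right _ _
      omega
    · have h1 : Nat.gcd 2 (Nat.card F - 1) = 1 := by omega
      rw [h1]
      omega
  refine ⟨⟨(QuotientGroup.mk' (Subgroup.center (SpecialLinearGroup (Fin 2) F))).comp unipM,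
    unip_inj, QuotientGroup.mk' _ (unipT g), (g : F) ^ 2, fun x => ?_, hord2, hq⟩, ?_⟩
  · rw [MonoidHom.comp_apply, MonoidHom.comp_apply, ← unip_act g x, map_mul, map_mul, map_inv]
  · intro h
    show FormTriv F ((g : F) ^ 2)
    by_cases hprime : (Nat.card F).Prime
    · exact hpr F _ hprime
    by_cases hev : Even (Nat.card F)
    · have hq8 : 8 ≤ Nat.card F := by
        rcases h with h | h | h
        · exact h.1
        · omega
        · exact absurd h hprime
      have := Fintype.ofFinite F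
      have hchar : ringChar F = 2 := by
        rw [FiniteField.even_card_iff_char_two, ← Nat.card_eq_fintype_card]
        exact Nat.even_iff.mp hev
      have : CharP F 2 := ringChar.of_eq hchar
      have h2 : (2 : F) = 0 := CharTwo.two_eq_zero
      have hp0 : (Polynomial.X * (Polynomial.X + 1) * ((Polynomial.X + 1) ^ 4 - Polynomial.X ^ 2) :
          Polynomial F) ≠ 0 := by
        refine mul_ne_zero (mul_ne_zero Polynomial.X_ne_zero ?_) ?_
        · intro h0
          have := congrArg (Polynomial.eval 0) h0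
          simp at this
        · intro h0
          have := congrArg (Polynomial.eval 0) h0
          simp at this
      obtain ⟨s, hs⟩ := unip_root _ 6 hp0 (by compute_degree) (by omega)
      simp only [Polynomial.eval_mul, Polynomial.eval_add, Polynomial.eval_sub, Polynomial.eval_pow,
        Polynomial.eval_X, Polynomial.eval_one] at hs
      have h3 := mul_ne_zero_iff.mp hs
      have h4 := mul_ne_zero_iff.mp h3.1
      refine unip_key g hg htr s 1 (s + 1) h4.1 one_ne_zero h4.2 ?_ ?_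
      · linear_combination (-s) * h2
      · intro h5
        apply h3.2
        rw [h5]
        ring
    · have hq17 : 17 ≤ Nat.card F := by
        rcases h with h | h | h
        · exact absurd h.2 hev
        · exact h
        · exact absurd h hprime
      have := Fintype.ofFinite F
      have h2 : (2 : F) ≠ 0 := by
        have hchar : ringChar F ≠ 2 := by
          rw [Ne, FiniteField.even_card_iff_char_two, ← Nat.card_eq_fintype_card]
          exact fun h => hev (Nat.even_iff.mpr h)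
        exact Ring.two_ne_zero hchar
      have hp0 : (Polynomial.X * (1 - Polynomial.X ^ 2) * (1 + Polynomial.X ^ 2) *
          ((1 + Polynomial.X ^ 2) ^ 4 - (1 - Polynomial.X ^ 2) ^ 2 * (2 * Polynomial.X) ^ 2) :
          Polynomial F) ≠ 0 := by
        refine mul_ne_zero (mul_ne_zero (mul_ne_zero Polynomial.X_ne_zero ?_) ?_) ?_
        all_goals
          intro h0
          have := congrArg (Polynomial.eval 0) h0
          simp at this
      obtain ⟨s, hs⟩ := unip_root _ 13 hp0 (by compute_degree) (by omega)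
      simp only [Polynomial.eval_mul, Polynomial.eval_add, Polynomial.eval_sub, Polynomial.eval_pow,
        Polynomial.eval_X, Polynomial.eval_one, Polynomial.eval_ofNat] at hs
      have h3 := mul_ne_zero_iff.mp hs
      have h4 := mul_ne_zero_iff.mp h3.1
      have h5 := mul_ne_zero_iff.mp h4.1
      refine unip_key g hg htr (1 - s ^ 2) (2 * s) (1 + s ^ 2) h5.2 (mul_ne_zero h2 h5.1) h4.2 ?_ ?_
      · ring
      · intro h6
        apply h3.2
        rw [h6]
        ring

end Pool.Agent.RadIndex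

end
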