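import Pool.Agent.Work.MP_76dc41_al.Bd.B04

/-! Bundle of small proof modules (one section per former module). -/

section

/-!
# From blocks to the average degree
-/

set_option autoImplicit false
set_option linter.unusedSectionVars false

open Module Representation Pool.Agent.DC7914

namespace Pool.Agent.RadIndex

theorem prf_ACD : S_ACD := by
  classical
  intro H _ _ β hβ hPB G _ _ N _ hiso
  have := Fintype.ofFinite G
  have := Fintype.ofFinite N
  have hdat : ∀ χ : G → ℂ, ∃ O : Finset (N → ℂ), χ ∈ irrs G → (O.Nonempty ∧ (∀ l ∈ O, IsIrrChar l ∧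
      orb N l = O ∧ χ ∈ WO (G := G) l ∧
      ∃ e : ℕ, 0 < e ∧ mu χ l = e * Nat.card N ∧ χ 1 = e * O.card * l 1) ∧
      ∀ l : N → ℂ, IsIrrChar l → mu χ l ≠ 0 → l ∈ O) := by
    intro χ
    by_cases h : χ ∈ irrs G
    · obtain ⟨O, hO⟩ := char_data (mem_irrs.1 h) N
      exact ⟨O, fun _ => hO⟩
    · exact ⟨∅, fun h' => absurd h' h⟩
  choose O hO using hdat
  have hne : (irrs G).Nonempty := by
    by_contra h
    rw [Finset.not_nonempty_iff_eq_empty] at h
    have h1 := sum_deg (G := G) 1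
    rw [h, Finset.sum_empty, if_pos rfl] at h1
    exact Fintype.card_ne_zero (by exact_mod_cast h1.symm)
  have hcard : Nat.card {χ : G → ℂ // IsIrrChar χ} = (irrs G).card := by
    exact (Nat.card_coe_set_eq {χ : G → ℂ | IsIrrChar χ}).trans
      (Set.ncard_eq_toFinset_card _ (irr_finite (G := G)))
  have hsum : ∑ᶠ χ : {χ : G → ℂ // IsIrrChar χ}, ‖χ.1 1‖ = ∑ χ ∈ irrs G, ‖χ 1‖ := by
    have : Fintype {χ : G → ℂ // IsIrrChar χ} := (irr_finite (G := G)).fintype
    rw [finsum_eq_sum_of_fintype]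
    refine (Finset.sum_subtype (irrs G) (fun χ => mem_irrs) (fun χ => ‖χ 1‖)).symm
  have hpos : (0 : ℝ) < (irrs G).card := by exact_mod_cast Finset.card_pos.2 hne
  have hacd : ∑ χ ∈ irrs G, ‖χ 1‖ = acd G * (irrs G).card := by
    rw [acd, hcard, hsum, div_mul_cancel₀ _ hpos.ne']
  have hNc : (Nat.card N : ℂ) ≠ 0 := by exact_mod_cast Nat.card_pos.ne'
  have hblock : ∀ P ∈ (irrs G).image O,
      β * ((irrs G).filter (fun χ => O χ = P)).card ≤
        ∑ χ ∈ (irrs G).filter (fun χ => O χ = P), ‖χ 1‖ := by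
    intro P hP
    obtain ⟨χ₀, h1, h2⟩ := Finset.mem_image.1 hP
    obtain ⟨l, hl⟩ := (hO χ₀ h1).1
    obtain ⟨hlirr, horb, -, -⟩ := (hO χ₀ h1).2.1 l hl
    rw [h2] at hl horb
    have hovr : ovr N l = (irrs G).filter (fun χ => O χ = P) := by
      ext χ
      rw [ovr, Finset.mem_filter, Finset.mem_filter]
      refine and_congr_right fun hχ => ?_
      constructor
      · intro h
        have h3 := (hO χ hχ).2.2 l hlirr h
        have h4 := ((hO χ hχ).2.1 l h3).2.1
        rw [← h4, horb]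
      · intro h
        obtain ⟨-, -, -, e, he, hmu, -⟩ := (hO χ hχ).2.1 l (by rw [h]; exact hl)
        rw [hmu]
        exact mul_ne_zero (by exact_mod_cast he.ne') hNc
    rw [← hovr]
    refine le_trans ?_ (hPB G N l hiso hlirr)
    have hl1 := one_le_deg hlirr
    have h5 : β * 1 ≤ β * ‖l 1‖ := mul_le_mul_of_nonneg_left hl1 hβ
    rw [mul_one] at h5
    exact mul_le_mul_of_nonneg_right h5 (Nat.cast_nonneg _)
  have htot : β * (irrs G).card ≤ ∑ χ ∈ irrs G, ‖χ 1‖ := by
    rw [← Finset.sum_fiberwise_of_maps_to (s := irrs G) (t := (irrs G).image O) (g := O)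
      (fun χ h => Finset.mem_image_of_mem O h) (fun χ => ‖χ 1‖),
      Finset.card_eq_sum_card_fiberwise (s := irrs G) (t := (irrs G).image O) (f := O)
      (fun χ h => Finset.mem_image_of_mem O h)]
    push_cast
    rw [Finset.mul_sum]
    exact Finset.sum_le_sum hblock
  rw [hacd] at htot
  exact le_of_mul_le_mul_right htot hpos

end Pool.Agent.RadIndex

end

section

/-!
# S_BIJ
-/

set_option autoImplicit false
set_option linter.unusedSectionVars false

open Module Representation Pool.Agent.DC7914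

namespace Pool.Agent.RadIndex

section

variable {G : Type} [Group G]

theorem BIJ_irr_comp {H K : Type} [Group H] [Group K] (φ : H ≃* K) {l : K → ℂ}
    (hl : IsIrrChar l) : IsIrrChar (fun h => l (φ h)) := by
  obtain ⟨n, ρ, hρ, rfl⟩ := hl
  refine ⟨n, ρ.comp φ.toMonoidHom, ?_, ?_⟩
  · rw [DC7914.irreducible_iff] at hρ ⊢
    refine ⟨hρ.1, fun U hU => hρ.2 U fun x v hv => ?_⟩
    have := hU (φ.symm x) v hv
    simpa using this
  · rfl

theorem BIJ_down_irr {N A : Subgroup G} (h : N ≤ A) {l : N → ℂ} (hl : IsIrrChar l) :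
    IsIrrChar (down h l) :=
  BIJ_irr_comp (Subgroup.subgroupOfEquivOfLe h) hl

theorem BIJ_down_cj {N A : Subgroup G} [N.Normal] (h : N ≤ A) {l : N → ℂ}
    [(N.subgroupOf A).Normal] (hl : ∀ a ∈ A, cj a l = l) (a : A) :
    cj a (down h l) = down h l := by
  funext x
  have h1 := congrFun (hl a a.2) (Subgroup.subgroupOfEquivOfLe h x)
  have h2 : Subgroup.subgroupOfEquivOfLe h (MulAut.conjNormal a x) =
      MulAut.conjNormal (a : G) (Subgroup.subgroupOfEquivOfLe h x) := by
    apply Subtype.ext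
    simp
  show l (Subgroup.subgroupOfEquivOfLe h (MulAut.conjNormal a x)) = _
  rw [h2]
  exact h1

theorem BIJ_incl {N A : Subgroup G} [N.Normal] [A.Normal] (h : N ≤ A) (g : G) (n : N) :
    MulAut.conjNormal g (Subgroup.inclusion h n) =
      Subgroup.inclusion h (MulAut.conjNormal g n) := by
  apply Subtype.ext
  simp

end

theorem prf_BIJ (hE : S_EONE) (hI : S_ISO) : S_BIJ := by
  intro G _ _ N A B _ _ _ _ _ _ hQ l hl hA η hη hmu
  have : (N.subgroupOf A).Normal := inferInstance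
  obtain ⟨e, he, hres⟩ := hI A (N.subgroupOf A) (down hQ.nA l) (BIJ_down_irr hQ.nA hl)
    (BIJ_down_cj hQ.nA hA) η hη hmu
  have he' : (e : ℂ) ≠ 0 := by exact_mod_cast he.ne'
  have hη1 : ∀ n : N, η (Subgroup.inclusion hQ.nA n) = e * l n := by
    intro n
    have h1 := hres ⟨Subgroup.inclusion hQ.nA n, Subgroup.mem_subgroupOf.mpr n.2⟩
    exact h1
  have hcj : ∀ (g : G) (n : N), cj g η (Subgroup.inclusion hQ.nA n) = e * cj g l n := by
    intro g n
    show η (MulAut.conjNormal g (Subgroup.inclusion hQ.nA n)) = e * l (MulAut.conjNormal g n)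
    rw [BIJ_incl, hη1]
  set r : (A → ℂ) → (N → ℂ) := fun η' n => η' (Subgroup.inclusion hQ.nA n) / e with hr
  have hrcj : ∀ g : G, r (cj g η) = cj g l := by
    intro g
    funext n
    show cj g η (Subgroup.inclusion hQ.nA n) / e = _
    rw [hcj, mul_div_cancel_left₀ _ he']
  have hmem : Set.MapsTo r (orb A η) (orb N l) := by
    intro η' h
    obtain ⟨g, rfl⟩ := mem_orb.1 (Finset.mem_coe.1 h)
    rw [hrcj]
    exact Finset.mem_coe.2 (mem_orb.2 ⟨g, rfl⟩)
  have hinj : Set.InjOn r (orb A η) := by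
    intro η₁ h1 η₂ h2 h12
    obtain ⟨g, rfl⟩ := mem_orb.1 (Finset.mem_coe.1 h1)
    obtain ⟨h, rfl⟩ := mem_orb.1 (Finset.mem_coe.1 h2)
    rw [hrcj, hrcj] at h12
    have h3 : cj (h * g⁻¹) l = l := by
      rw [← cj_cj, ← h12, cj_cj, mul_inv_cancel, cj_id]
    have h4 : mu (cj (h * g⁻¹) η) (down hQ.nA l) = mu η (down hQ.nA l) := by
      unfold mu
      refine Finset.sum_congr rfl fun n _ => ?_
      congr 1
      have h5 : ∀ m : N, cj (h * g⁻¹) η (Subgroup.inclusion hQ.nA m) =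
          η (Subgroup.inclusion hQ.nA m) := by
        intro m
        rw [hcj, h3, hη1]
      exact h5 (Subgroup.subgroupOfEquivOfLe hQ.nA n⁻¹)
    have h6 := hE G N A B hQ l hl hA η hη hmu (h * g⁻¹) (by rw [h4]; exact hmu)
    calc cj g η = cj g (cj (h * g⁻¹) η) := by rw [h6]
      _ = cj h η := by rw [cj_cj, inv_mul_cancel_right]
  have hsurj : Set.SurjOn r (orb A η) (orb N l) := by
    intro l' h
    obtain ⟨g, rfl⟩ := mem_orb.1 (Finset.mem_coe.1 h)
    exact ⟨cj g η, Finset.mem_coe.2 (mem_orb.2 ⟨g, rfl⟩), hrcj g⟩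
  refine ⟨e, r, he, ?_, ⟨hmem, hinj, hsurj⟩, η 1 / Nat.card A * e * (Nat.card N / l 1), ?_, ?_⟩
  · intro η' _ n
    show η' (Subgroup.inclusion hQ.nA n) = e * (η' (Subgroup.inclusion hQ.nA n) / e)
    rw [mul_div_cancel₀ _ he']
  · have hcA : (Nat.card A : ℂ) ≠ 0 := by exact_mod_cast Nat.card_pos.ne'
    have hcN : (Nat.card N : ℂ) ≠ 0 := by exact_mod_cast Nat.card_pos.ne'
    exact mul_ne_zero (mul_ne_zero (div_ne_zero hη.one_ne_zero hcA) he')
      (div_ne_zero hcN hl.one_ne_zero)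
  · intro n
    have hcN : (Nat.card N : ℂ) ≠ 0 := by exact_mod_cast Nat.card_pos.ne'
    have hl1 : l 1 ≠ 0 := hl.one_ne_zero
    unfold fO
    have e1 : ∑ l' ∈ orb A η, l' 1 / (Nat.card A : ℂ) * l' (Subgroup.inclusion hQ.nA n)⁻¹ =
        ∑ l' ∈ orb A η, η 1 / (Nat.card A : ℂ) * e * r l' n⁻¹ := by
      refine Finset.sum_congr rfl fun η' h => ?_
      rw [one_orb h]
      show _ = η 1 / (Nat.card A : ℂ) * e * (η' (Subgroup.inclusion hQ.nA n⁻¹) / e)
      rw [← map_inv]
      field_simp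
    have e2 : ∑ l' ∈ orb A η, η 1 / (Nat.card A : ℂ) * e * r l' n⁻¹ =
        ∑ l' ∈ orb N l, η 1 / (Nat.card A : ℂ) * e * l' n⁻¹ :=
      Finset.sum_bij (fun η' _ => r η') (fun η' h => Finset.mem_coe.1 (hmem (Finset.mem_coe.2 h)))
        (fun η₁ h1 η₂ h2 h12 => hinj (Finset.mem_coe.2 h1) (Finset.mem_coe.2 h2) h12)
        (fun l' h => by
          obtain ⟨η', h1, h2⟩ := hsurj (Finset.mem_coe.2 h)
          exact ⟨η', Finset.mem_coe.1 h1, h2⟩) (fun η' _ => rfl)
    rw [e1, e2, ← Finset.mul_sum]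
    have e3 : ∑ l' ∈ orb N l, l' 1 / (Nat.card N : ℂ) * l' n⁻¹ =
        l 1 / (Nat.card N : ℂ) * ∑ l' ∈ orb N l, l' n⁻¹ := by
      rw [Finset.mul_sum]
      refine Finset.sum_congr rfl fun l' h => ?_
      rw [one_orb h]
    rw [e3]
    field_simp

end Pool.Agent.RadIndex

end

section

/-!
# Item BLOCK: the block of an orbit
-/

set_option autoImplicit false
set_option linter.unusedSectionVars false

open Module Representation Pool.Agent.DC7914

namespace Pool.Agent.RadIndex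

section BLOCK

variable {G : Type} [Group G] [Fintype G] {N : Subgroup G} [N.Normal] [Fintype N]

theorem BLOCK_data {l : N → ℂ} (hl : IsIrrChar l) {χ : G → ℂ} (h : χ ∈ ovr N l) :
    χ ∈ irrs G ∧ χ ∈ WO (G := G) l ∧ ∃ e : ℝ, 1 ≤ e ∧ (e : ℂ) * Nat.card N = mu χ l ∧
      ‖χ 1‖ = e * (orb N l).card * ‖l 1‖ := by
  classical
  obtain ⟨h1, h2⟩ := Finset.mem_filter.mp h
  obtain ⟨O, -, hO, hO'⟩ := char_data (mem_irrs.1 h1) N
  obtain ⟨-, horb, hWO, e, he, hmu, hval⟩ := hO l (hO' l hl h2)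
  refine ⟨h1, hWO, e, by exact_mod_cast he, by rw [hmu]; push_cast; rfl, ?_⟩
  rw [hval, ← horb]; simp

/-- the stabiliser -/
def BLOCK_T (l : N → ℂ) : Subgroup G where
  carrier := {g | cj g l = l}
  one_mem' := cj_id l
  mul_mem' := by
    intro g h hg hh
    change cj (g * h) l = l
    change cj g l = l at hg
    change cj h l = l at hh
    rw [← cj_cj, hg, hh]
  inv_mem' := by
    intro g hg
    change cj g⁻¹ l = l
    change cj g l = l at hg
    nth_rewrite 1 [← hg]
    rw [cj_cj, mul_inv_cancel, cj_id]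

theorem BLOCK_mem {l : N → ℂ} {g : G} : g ∈ BLOCK_T l ↔ cj g l = l := Iff.rfl

theorem BLOCK_N {l : N → ℂ} (hl : IsIrrChar l) {g : G} (hg : g ∈ N) : g ∈ BLOCK_T l := by
  rw [BLOCK_mem]
  funext m
  have h1 : MulAut.conjNormal g m = (⟨g, hg⟩ : N) * m * (⟨g, hg⟩ : N)⁻¹ := by
    ext; simp
  unfold cj
  rw [h1, hl.conj]

theorem BLOCK_index (l : N → ℂ) : (BLOCK_T (G := G) l).index = (orb N l).card := by
  classical
  rw [Subgroup.index, ← Fintype.card_coe, ← Nat.card_eq_fintype_card]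
  let φ : G ⧸ BLOCK_T (G := G) l → {m // m ∈ orb N l} := fun q =>
    ⟨cj (Quotient.out q)⁻¹ l, mem_orb.2 ⟨_, rfl⟩⟩
  refine Nat.card_congr (Equiv.ofBijective φ ⟨?_, ?_⟩)
  · intro q r hqr
    have h1 : cj (Quotient.out q)⁻¹ l = cj (Quotient.out r)⁻¹ l := congrArg Subtype.val hqr
    have h2 : (Quotient.out q)⁻¹ * Quotient.out r ∈ BLOCK_T l := by
      rw [BLOCK_mem, ← cj_cj, h1, cj_cj, inv_mul_cancel, cj_id]
    rw [← QuotientGroup.out_eq' q, ← QuotientGroup.out_eq' r]
    exact QuotientGroup.eq.2 h2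
  · rintro ⟨m, hm⟩
    obtain ⟨g, rfl⟩ := mem_orb.1 hm
    obtain ⟨t, ht⟩ := QuotientGroup.mk_out_eq_mul (BLOCK_T (G := G) l) g⁻¹
    refine ⟨(g⁻¹ : G), Subtype.ext ?_⟩
    change cj (Quotient.out ((g⁻¹ : G) : G ⧸ BLOCK_T (G := G) l))⁻¹ l = cj g l
    rw [ht, mul_inv_rev, inv_inv, ← cj_cj]
    congr 1
    exact BLOCK_mem.1 ((BLOCK_T l).inv_mem t.2)

end BLOCK

theorem prf_BLOCK : S_BLOCK := by
  classical
  intro G _ _ N _ _ l hl
  have hNr : (0 : ℝ) < Nat.card N := by exact_mod_cast Nat.card_pos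
  refine ⟨?_, ?_, ?_, ?_, ?_⟩
  · intro χ h
    obtain ⟨-, -, e, he, -, hv⟩ := BLOCK_data hl h
    rw [hv]
    have h2 : (0 : ℝ) ≤ (orb N l).card * ‖l 1‖ := by positivity
    nlinarith
  · have hd : ∀ χ ∈ ovr N l, ∃ e : ℝ, (e : ℂ) * Nat.card N = mu χ l ∧
        ‖χ 1‖ = e * (orb N l).card * ‖l 1‖ := by
      intro χ h
      obtain ⟨-, -, e, -, h1, h2⟩ := BLOCK_data hl h
      exact ⟨e, h1, h2⟩
    choose! e hmu hv using hd
    have h1 : ∑ χ ∈ ovr N l, χ 1 * mu χ l = l 1 * Fintype.card G := by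
      rw [← sum_mu (G := G) l]
      refine Finset.sum_subset (fun χ h => (Finset.mem_filter.1 h).1) fun χ h h' => ?_
      have h2 : mu χ l = 0 := by
        by_contra hne
        exact h' (Finset.mem_filter.2 ⟨h, hne⟩)
      rw [h2, mul_zero]
    have h2 : ∑ χ ∈ ovr N l, ‖χ 1‖ * (e χ * Nat.card N) = ‖l 1‖ * Nat.card G := by
      have h3 : ((∑ χ ∈ ovr N l, ‖χ 1‖ * (e χ * Nat.card N) : ℝ) : ℂ) =
          ((‖l 1‖ * Nat.card G : ℝ) : ℂ) := by
        push_cast
        rw [norm_deg hl, Nat.card_eq_fintype_card (α := G), ← h1]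
        refine Finset.sum_congr rfl fun χ h => ?_
        rw [norm_deg (mem_irrs.1 (Finset.mem_filter.1 h).1), hmu χ h]
      exact_mod_cast h3
    have h3 : ∑ χ ∈ ovr N l, ‖χ 1‖ * e χ = ‖l 1‖ * Nat.card (G ⧸ N) := by
      rw [card_mul N] at h2
      have h4 : (∑ χ ∈ ovr N l, ‖χ 1‖ * e χ) * Nat.card N =
          ‖l 1‖ * Nat.card (G ⧸ N) * Nat.card N := by
        rw [Finset.sum_mul]
        calc ∑ χ ∈ ovr N l, ‖χ 1‖ * e χ * Nat.card N =
              ∑ χ ∈ ovr N l, ‖χ 1‖ * (e χ * Nat.card N) :=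
              Finset.sum_congr rfl fun χ _ => by ring
          _ = ‖l 1‖ * (Nat.card (G ⧸ N) * Nat.card N) := h2
          _ = _ := by ring
      exact mul_right_cancel₀ hNr.ne' h4
    have h4 : ∑ χ ∈ ovr N l, ‖χ 1‖ ^ 2 =
        (orb N l).card * ‖l 1‖ * (‖l 1‖ * Nat.card (G ⧸ N)) := by
      rw [← h3, Finset.mul_sum]
      refine Finset.sum_congr rfl fun χ h => ?_
      rw [pow_two]
      nth_rewrite 2 [hv χ h]
      ring
    rw [h4]
    ring
  · have h1 : (ovr N l).card ≤ finrank ℂ (WO (G := G) l) := by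
      let v : {χ // χ ∈ ovr N l} → WO (G := G) l := fun χ =>
        ⟨χ.1, (BLOCK_data hl χ.2).2.1⟩
      have hv : LinearIndependent ℂ v := by
        have h2 : LinearIndependent ℂ (fun χ : {χ // χ ∈ ovr N l} => χ.1) := by
          have h3 := (irr_linearIndependent (G := G)).comp
            (fun χ : {χ // χ ∈ ovr N l} =>
              (⟨χ.1, mem_irrs.1 (BLOCK_data hl χ.2).1⟩ : {χ : G → ℂ // IsIrrChar χ}))
            (fun a b h => Subtype.ext (by have h5 := congrArg Subtype.val h; exact h5))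
          exact h3
        exact LinearIndependent.of_comp (WO (G := G) l).subtype h2
      have h4 := hv.fintype_card_le_finrank
      rwa [Fintype.card_coe] at h4
    exact h1.trans (WO_finrank (G := G) l hl)
  · refine ⟨(BLOCK_T (G := G) l).map (QuotientGroup.mk' N), ?_⟩
    rw [Subgroup.index_map_eq _ (QuotientGroup.mk'_surjective N) (by
      rw [QuotientGroup.ker_mk']
      exact fun g hg => BLOCK_N hl hg), BLOCK_index]
  · intro h g
    exact Finset.card_le_one.1 h.le _ (mem_orb.2 ⟨g, rfl⟩) _ (self_mem_orb l)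

end Pool.Agent.RadIndex

end

section

/-!
# Item BURN (Schur orthogonality / Burnside) (helper27)
-/

set_option autoImplicit false
set_option linter.unusedSectionVars false

open Module Representation Pool.Agent.DC7914

namespace Pool.Agent.RadIndex

section BURN

variable {N : Type} [Group N] [Fintype N] {W : Type} [AddCommGroup W] [Module ℂ W]
  [FiniteDimensional ℂ W] {σ : Representation ℂ N W}

theorem BURN_trace_smulRight (f : Module.Dual ℂ W) (w : W) :
    LinearMap.trace ℂ W (f.smulRight w) = f w := by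
  exact LinearMap.trace_smulRight f w

theorem BURN_scalar (hσ : σ.IsIrreducible) (A : End ℂ W) :
    ∑ n : N, σ n * A * σ n⁻¹ =
      ((Fintype.card N : ℂ) / finrank ℂ W * LinearMap.trace ℂ W A) • (1 : End ℂ W) := by
  have hnt := nontrivial_of_irr hσ
  have hd : (finrank ℂ W : ℂ) ≠ 0 := by
    exact_mod_cast (Module.finrank_pos (R := ℂ) (M := W)).ne'
  obtain ⟨c, hc⟩ := schur σ hσ (∑ n : N, σ n * A * σ n⁻¹) (by
    intro g
    rw [Finset.sum_mul, Finset.mul_sum]
    refine Finset.sum_bij (fun n _ => g⁻¹ * n) (fun _ _ => Finset.mem_univ _)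
      (fun a _ b _ h => mul_left_cancel h) (fun b _ => ⟨g * b, Finset.mem_univ _, by group⟩) ?_
    intro n _
    have h1 : σ g * σ (g⁻¹ * n) = σ n := by rw [← map_mul]; congr 1; group
    have h2 : σ (g⁻¹ * n)⁻¹ = σ n⁻¹ * σ g := by rw [← map_mul]; congr 1; group
    rw [h2, ← mul_assoc, ← mul_assoc, ← mul_assoc, h1, mul_assoc])
  have h1 : LinearMap.trace ℂ W (∑ n : N, σ n * A * σ n⁻¹) =
      (Fintype.card N : ℂ) * LinearMap.trace ℂ W A := by
    rw [map_sum]
    have h2 : ∀ n : N, LinearMap.trace ℂ W (σ n * A * σ n⁻¹) = LinearMap.trace ℂ W A := by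
      intro n
      rw [LinearMap.trace_mul_comm, ← mul_assoc, ← map_mul, inv_mul_cancel, map_one, one_mul]
    rw [Finset.sum_congr rfl (fun n _ => h2 n), Finset.sum_const, Finset.card_univ, nsmul_eq_mul]
  rw [hc, map_smul, LinearMap.trace_one, smul_eq_mul] at h1
  rw [hc]
  congr 1
  field_simp
  rw [h1]

end BURN

theorem prf_BURN : S_BURN := by
  intro N _ _ W _ _ _ σ hσ Z
  set k : ℂ := (Fintype.card N : ℂ) / finrank ℂ W with hk
  let T : End ℂ W →ₗ[ℂ] End ℂ W :=
    ∑ n : N, ((LinearMap.trace ℂ W).comp (LinearMap.mulRight ℂ (σ n⁻¹))).smulRight (σ n)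
  have hT : ∀ Z : End ℂ W, T Z = ∑ n : N, LinearMap.trace ℂ W (Z * σ n⁻¹) • σ n := by
    intro Z
    simp only [T, LinearMap.sum_apply, LinearMap.smulRight_apply, LinearMap.comp_apply,
      LinearMap.mulRight_apply]
  have h1 : ∀ (f : Module.Dual ℂ W) (v : W), T (f.smulRight v) = k • (f.smulRight v) := by
    intro f v
    rw [hT]
    ext w
    have h2 := LinearMap.congr_fun (BURN_scalar hσ (f.smulRight w)) v
    rw [BURN_trace_smulRight] at h2
    simp only [LinearMap.sum_apply, Module.End.mul_apply, LinearMap.smulRight_apply, map_smul,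
      LinearMap.smul_apply, Module.End.one_apply] at h2 ⊢
    have h3 : ∀ n : N, LinearMap.trace ℂ W (f.smulRight v * σ n⁻¹) = f (σ n⁻¹ v) := by
      intro n
      have h4 : (f.smulRight v * σ n⁻¹ : End ℂ W) = (f.comp (σ n⁻¹)).smulRight v := by
        ext u; simp
      rw [h4, BURN_trace_smulRight]
      rfl
    rw [Finset.sum_congr rfl (fun n _ => by rw [h3 n]), h2, smul_smul]
  have h2 : Z = ∑ i, ((Module.finBasis ℂ W).coord i).smulRight (Z (Module.finBasis ℂ W i)) := by
    refine (Module.finBasis ℂ W).ext fun j => ?_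
    simp only [LinearMap.sum_apply, LinearMap.smulRight_apply, Basis.coord_apply,
      Basis.repr_self]
    rw [Finset.sum_eq_single j]
    · simp
    · intro i _ hi
      rw [Finsupp.single_apply, if_neg (fun h => hi h.symm), zero_smul]
    · intro h; exact absurd (Finset.mem_univ _) h
  rw [← hT, h2, map_sum, Finset.smul_sum]
  exact Finset.sum_congr rfl fun i _ => h1 _ _

end Pool.Agent.RadIndex

end

section

/-!
# The operator implementing an automorphism
-/

set_option autoImplicit false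

open Module Representation Pool.Agent.DC7914

namespace Pool.Agent.RadIndex

theorem prf_CORE (transfer : S_TRANSFER) (inter : S_INTER) (iso : S_ISO) (burn : S_BURN) :
    S_CORE := by
  intro A _ _ N _ _ β hc hβ hp θ hθ hA hb V _ _ _ τ hτ hov
  obtain ⟨d, σ, hσ, rfl⟩ := hθ
  obtain ⟨e, he, hee⟩ := iso A N σ.character ⟨d, σ, hσ, rfl⟩ hA τ.character
    (isIrrChar_of_rep τ hτ) hov
  obtain ⟨R, hR, hRs, hRt⟩ := transfer N (Fin d → ℂ) σ hσ V (τ.comp N.subtype) e (fun n => hee n)
  have hR' : ∀ n : N, R (σ n) = τ n := hR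
  have hRs' : ∀ Z, R Z ∈ Submodule.span ℂ (Set.range fun n : N => τ n) := hRs
  clear hR hRs
  have hVn : Nontrivial V := nontrivial_of_irr hτ
  have hWn : Nontrivial (Fin d → ℂ) := nontrivial_of_irr hσ
  have he0 : (e : ℂ) ≠ 0 := by exact_mod_cast he.ne'
  have hcard : ((Fintype.card N : ℂ) / finrank ℂ (Fin d → ℂ)) ≠ 0 := by
    apply div_ne_zero
    · exact_mod_cast Fintype.card_ne_zero
    · exact_mod_cast (Module.finrank_pos (R := ℂ) (M := Fin d → ℂ)).ne'
  have hinj : ∀ Z, R Z = 0 → Z = 0 := by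
    intro Z hZ
    have h1 := burn N (Fin d → ℂ) σ hσ Z
    have h2 : ∀ n : N, LinearMap.trace ℂ (Fin d → ℂ) (Z * σ n⁻¹) = 0 := by
      intro n
      have h3 := hRt (Z * σ n⁻¹)
      rw [map_mul, hZ, zero_mul, map_zero] at h3
      exact (mul_eq_zero.1 h3.symm).resolve_left he0
    simp only [h2, zero_smul, Finset.sum_const_zero] at h1
    exact (smul_eq_zero.1 h1.symm).resolve_left hcard
  have hinj' : Function.Injective R := by
    intro Z Z' h
    have := hinj (Z - Z') (by rw [map_sub, h, sub_self])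
    exact sub_eq_zero.1 this
  have hspan : ∀ Z : End ℂ (Fin d → ℂ), Z ∈ Submodule.span ℂ (Set.range fun n : N => σ n) := by
    intro Z
    have h1 := burn N (Fin d → ℂ) σ hσ Z
    have h2 : Z = ((Fintype.card N : ℂ) / finrank ℂ (Fin d → ℂ))⁻¹ •
        ∑ n : N, LinearMap.trace ℂ (Fin d → ℂ) (Z * σ n⁻¹) • σ n := by
      rw [h1, smul_smul, inv_mul_cancel₀ hcard, one_smul]
    rw [h2]
    exact Submodule.smul_mem _ _ (Submodule.sum_mem _ fun n _ =>
      Submodule.smul_mem _ _ (Submodule.subset_span ⟨n, rfl⟩))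
  -- the restriction of the automorphism
  let b0 : N →* N := (β.toMonoidHom.comp N.subtype).codRestrict N (fun n => hβ n)
  have hb0 : Function.Injective b0 := by
    intro x y h
    have h1 : β x = β y := congrArg Subtype.val h
    exact Subtype.ext (β.injective h1)
  have hb1 : Function.Bijective b0 := Finite.injective_iff_bijective.1 hb0
  let bN : MulAut N := MulEquiv.ofBijective b0 hb1
  have hbN : ∀ n : N, ((bN n : N) : A) = β n := fun n => rfl
  obtain ⟨Yb, Ybi, hY1, hY2, hY3⟩ := inter N (Fin d → ℂ) σ hσ bN (fun n => hb n)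
  have hconj : ∀ (a : A) (Ya Yai : End ℂ (Fin d → ℂ)), Ya * Yai = 1 →
      (∀ n, Ya * σ n = σ (MulAut.conjNormal a n) * Ya) →
      ∀ Z, τ a * R Z = R (Ya * Z * Yai) * τ a := by
    intro a Ya Yai h1 h2 Z
    refine Submodule.span_induction (p := fun Z _ => τ a * R Z = R (Ya * Z * Yai) * τ a)
      ?_ ?_ ?_ ?_ (hspan Z)
    · rintro _ ⟨n, rfl⟩
      have h3 : Ya * σ n * Yai = σ (MulAut.conjNormal a n) := by
        rw [h2 n, mul_assoc, h1, mul_one]
      simp only
      rw [h3, hR', hR', ← map_mul, ← map_mul]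
      congr 1
      rw [MulAut.conjNormal_apply]
      group
    · simp
    · intro x y _ _ hx hy
      rw [map_add, mul_add, hx, hy, mul_add, add_mul, map_add, add_mul]
    · intro c x _ hx
      rw [map_smul, mul_smul_comm, hx, mul_smul_comm, smul_mul_assoc, map_smul, smul_mul_assoc]
  have hXX : R Yb * R Ybi = 1 := by rw [← map_mul, hY1, map_one]
  have hXX' : R Ybi * R Yb = 1 := by rw [← map_mul, hY2, map_one]
  have hX : ∀ n : N, R Yb * τ n = τ (β n) * R Yb := by
    intro n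
    rw [← hbN, ← hR', ← hR', ← map_mul, ← map_mul, hY3]
  have hXi : ∀ n : N, R Ybi * τ (β n) = τ n * R Ybi := by
    intro n
    calc R Ybi * τ (β n) = R Ybi * (τ (β n) * R Yb) * R Ybi := by
          rw [mul_assoc, mul_assoc, hXX, mul_one]
      _ = R Ybi * (R Yb * τ n) * R Ybi := by rw [hX]
      _ = τ n * R Ybi := by rw [← mul_assoc (R Ybi), hXX', one_mul]
  have hone : ∀ c c' : ℂ, c • (1 : End ℂ V) = c' • 1 → c = c' := by
    intro c c' h
    obtain ⟨v, hv⟩ := exists_ne (0 : V)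
    have h1 := LinearMap.congr_fun h v
    simp only [LinearMap.smul_apply, Module.End.one_apply] at h1
    exact smul_left_injective ℂ hv h1
  have hinv : ∀ a : A, τ a⁻¹ * τ a = 1 := fun a => by rw [← map_mul, inv_mul_cancel, map_one]
  have hinv' : ∀ a : A, τ a * τ a⁻¹ = 1 := fun a => by rw [← map_mul, mul_inv_cancel, map_one]
  have hC : ∀ a : A, ∃ c : ℂ, R Yb * τ a * R Ybi * τ (β a)⁻¹ = c • 1 := by
    intro a
    obtain ⟨Ya, Yai, h1, h2, h3⟩ := inter N (Fin d → ℂ) σ hσ (MulAut.conjNormal a)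
      (fun n => congrFun (hA a) n)
    have h4 := hconj a Ya Yai h1 h3 Ybi
    have h5 : R (Yb * (Ya * Ybi * Yai) * σ ⟨a * (β a)⁻¹, hc a⟩) =
        R Yb * τ a * R Ybi * τ (β a)⁻¹ := by
      rw [map_mul, map_mul, hR']
      change R Yb * R (Ya * Ybi * Yai) * τ (a * (β a)⁻¹) = _
      rw [map_mul τ, mul_assoc (R Yb), ← mul_assoc (R (Ya * Ybi * Yai)), ← h4]
      simp only [mul_assoc]
    have h6 : ∀ n : N, R Yb * τ a * R Ybi * τ (β a)⁻¹ * τ n =
        τ n * (R Yb * τ a * R Ybi * τ (β a)⁻¹) := by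
      intro n
      obtain ⟨k, hk⟩ := hb1.2 (MulAut.conjNormal (β a)⁻¹ n)
      have hk' : β k = (β a)⁻¹ * n * β a := by
        have h7 : ((b0 k : N) : A) = ((MulAut.conjNormal (β a)⁻¹ n : N) : A) := by rw [hk]
        rw [MulAut.conjNormal_apply, inv_inv] at h7
        exact h7
      have h8 : τ (β a)⁻¹ * τ n = τ (β k) * τ (β a)⁻¹ := by
        rw [← map_mul, ← map_mul, hk']
        congr 1
        group
      have h9 : τ a * τ k = τ ((MulAut.conjNormal a k : N) : A) * τ a := by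
        rw [← map_mul, ← map_mul, MulAut.conjNormal_apply]
        congr 1
        group
      have h10 : β ((MulAut.conjNormal a k : N) : A) = n := by
        rw [MulAut.conjNormal_apply, map_mul, map_mul, map_inv, hk']
        group
      calc R Yb * τ a * R Ybi * τ (β a)⁻¹ * τ n
          = R Yb * τ a * R Ybi * (τ (β a)⁻¹ * τ n) := by rw [mul_assoc]
        _ = R Yb * τ a * (R Ybi * τ (β k)) * τ (β a)⁻¹ := by rw [h8]; simp only [mul_assoc]
        _ = R Yb * (τ a * τ k) * R Ybi * τ (β a)⁻¹ := by rw [hXi]; simp only [mul_assoc]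
        _ = R Yb * τ ((MulAut.conjNormal a k : N) : A) * τ a * R Ybi * τ (β a)⁻¹ := by
            rw [h9]; simp only [mul_assoc]
        _ = τ n * (R Yb * τ a * R Ybi * τ (β a)⁻¹) := by
            rw [hX, h10]; simp only [mul_assoc]
    obtain ⟨c, hcc⟩ := schur σ hσ (Yb * (Ya * Ybi * Yai) * σ ⟨a * (β a)⁻¹, hc a⟩) (by
      intro n
      apply hinj'
      rw [map_mul R, map_mul R (σ n), h5, hR', h6])
    refine ⟨c, ?_⟩
    rw [← h5, hcc, map_smul, map_one]
  choose c hcc using hC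
  have hmul : ∀ a b, c (a * b) = c a * c b := by
    intro a b
    apply hone
    rw [← hcc, map_mul τ, map_mul β, mul_inv_rev, map_mul τ]
    calc R Yb * (τ a * τ b) * R Ybi * (τ (β b)⁻¹ * τ (β a)⁻¹)
        = R Yb * τ a * (R Ybi * R Yb) * τ b * R Ybi * τ (β b)⁻¹ * τ (β a)⁻¹ := by
          rw [hXX', mul_one]; simp only [mul_assoc]
      _ = R Yb * τ a * R Ybi * (R Yb * τ b * R Ybi * τ (β b)⁻¹) * τ (β a)⁻¹ := by
          simp only [mul_assoc]
      _ = c b • (R Yb * τ a * R Ybi * τ (β a)⁻¹) := by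
          rw [hcc b, mul_smul_comm, mul_one, smul_mul_assoc]
      _ = (c a * c b) • 1 := by rw [hcc a, smul_smul, mul_comm]
  have hcN : ∀ n ∈ N, c n = 1 := by
    intro n hn
    apply hone
    rw [← hcc, hX ⟨n, hn⟩]
    change τ (β n) * R Yb * R Ybi * τ (β n)⁻¹ = _
    rw [mul_assoc (τ (β n)), hXX, mul_one, hinv', one_smul]
  let f : A →* ℂ :=
    { toFun := c
      map_one' := hcN 1 N.one_mem
      map_mul' := hmul }
  have hf1 : f.toHomUnits = 1 := hp f.toHomUnits (fun n hn => Units.ext (hcN n hn))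
  have hf2 : ∀ a, c a = 1 := by
    intro a
    have h1 : ((f.toHomUnits a : ℂˣ) : ℂ) = 1 := by rw [hf1]; simp
    exact h1
  refine ⟨R Yb, R Ybi, hRs' _, hRs' _, hXX, hXX', fun a => ?_⟩
  calc R Yb * τ a = R Yb * τ a * R Ybi * (τ (β a)⁻¹ * τ (β a)) * R Yb := by
        rw [hinv, mul_one, mul_assoc (R Yb * τ a), hXX', mul_one]
    _ = (R Yb * τ a * R Ybi * τ (β a)⁻¹) * τ (β a) * R Yb := by simp only [mul_assoc]
    _ = τ (β a) * R Yb := by rw [hcc, hf2, one_smul, one_mul]

end Pool.Agent.RadIndex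

end

section

/-!
# Restriction to `B` is injective
-/

set_option autoImplicit false
set_option linter.unusedSectionVars false

open Module Representation Pool.Agent.DC7914

namespace Pool.Agent.RadIndex

/-- values on a coset in terms of the operators `AF` -/
theorem DOWN_val {G : Type} [Group G] [Fintype G] {A : Subgroup G} [A.Normal] [Fintype A]
    (η : A → ℂ) (k : (A → ℂ) → ℕ)
    (ρ : ∀ η' : A → ℂ, Representation ℂ A (Fin (k η') → ℂ))
    (hρ : ∀ η' ∈ orb A η, η' = (ρ η').character) {f : G → ℂ}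
    (hf : ∀ g, ∑ m : A, fO (G := G) η m * f (g * m) = f g) (b : G) (x : A) :
    f (b * x) = ∑ η' ∈ orb A η, (η' 1 / Nat.card A) *
      LinearMap.trace ℂ _ (AF (ρ η') b f * ρ η' x) := by
  rw [← hf (b * x)]
  unfold fO
  have h1 : ∑ m : A, (∑ l' ∈ orb A η, (l' 1 / Nat.card A) * l' m⁻¹) * f (b * x * m) =
      ∑ l' ∈ orb A η, (l' 1 / Nat.card A) * ∑ m : A, l' m⁻¹ * f (b * x * m) := by
    simp only [Finset.sum_mul, Finset.mul_sum]
    rw [Finset.sum_comm]
    refine Finset.sum_congr rfl fun l' _ => Finset.sum_congr rfl fun g _ => ?_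
    ring
  rw [h1]
  refine Finset.sum_congr rfl fun η' hη' => ?_
  rw [AF_trace, ← hρ η' hη']

theorem prf_DOWN (bij : S_BIJ) (zspan : S_ZSPAN) (orth : S_ORTH) (wob : S_WOB) (trans : S_TRANS) :
    S_DOWN := by
  intro G _ _ N A B _ _ _ _ _ _ hQ l hl hinv η hη hmu
  classical
  have hle : WO (G := G) η ≤ WO (G := G) l := by
    rw [← (wob G A η hη).1, ← (wob G N l hl).1]
    refine Submodule.span_le.2 fun χ hχ => Submodule.subset_span ?_
    have hχ' : χ ∈ ovr A η := hχ
    unfold ovr at hχ'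
    rw [Finset.mem_filter] at hχ'
    have hirr := mem_irrs.1 hχ'.1
    show χ ∈ ovr N l
    unfold ovr
    rw [Finset.mem_filter]
    exact ⟨hχ'.1, (trans G N A hQ.nA l hl χ hirr).2 ⟨η, hη, hχ'.2, hmu⟩⟩
  let Φ : WO (G := G) η →ₗ[ℂ] WB B hQ.nB l :=
    { toFun := fun f => ⟨fun b => f.1 b, by
        constructor
        · intro g b
          show f.1 ((MulAut.conjNormal g b : B) : G) = f.1 b
          rw [MulAut.conjNormal_apply]
          exact f.2.1 _ _
        · intro b
          exact (hle f.2).2 b⟩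
      map_add' := fun f f' => rfl
      map_smul' := fun c f => rfl }
  refine LinearMap.finrank_le_finrank_of_injective (f := Φ) ?_
  rw [← LinearMap.ker_eq_bot, LinearMap.ker_eq_bot']
  intro f hf
  have hfB : ∀ b : B, f.1 b = 0 := fun b => congrFun (congrArg Subtype.val hf) b
  obtain ⟨e, r, he, hr1, hr2, -⟩ := bij G N A B hQ l hl hinv η hη hmu
  have he' : (e : ℂ) ≠ 0 := by exact_mod_cast he.ne'
  have hrl : ∀ η' ∈ orb A η, r η' ∈ orb N l := fun η' h => hr2.mapsTo h
  have hex : ∀ η' : A → ℂ, ∃ (k : ℕ) (ρ : Representation ℂ A (Fin k → ℂ)),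
      η' ∈ orb A η → ρ.IsIrreducible ∧ η' = ρ.character := by
    intro η'
    by_cases h : η' ∈ orb A η
    · obtain ⟨k, ρ, h1, h2⟩ := irr_orb hη h
      exact ⟨k, ρ, fun _ => ⟨h1, h2⟩⟩
    · exact ⟨0, 1, fun h' => absurd h' h⟩
  choose k ρ hρ using hex
  have hval := DOWN_val (G := G) η k ρ (fun η' h => (hρ η' h).2) (f := f.1) f.2.2
  have hchar : ∀ η' ∈ orb A η, ∀ n : N,
      (ρ η').character (Subgroup.inclusion hQ.nA n) = e * r η' n := by
    intro η' h n
    rw [← (hρ η' h).2]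
    exact hr1 η' h n
  have hinv' : ∀ η' ∈ orb A η, ∀ a ∈ A, cj a (r η') = r η' := by
    intro η' h a ha
    obtain ⟨g, hg⟩ := mem_orb.1 (hrl η' h)
    rw [← hg, cj_cj]
    have h1 : g * a = (g * a * g⁻¹) * g := by group
    rw [h1, ← cj_cj, hinv _ (‹A.Normal›.conj_mem a ha g)]
  have hAc : (Nat.card A : ℂ) ≠ 0 := by exact_mod_cast Nat.card_pos.ne'
  have hNc : (Fintype.card N : ℂ) ≠ 0 := by exact_mod_cast Fintype.card_ne_zero
  have hZ0 : ∀ b ∈ B, ∀ η₂ ∈ orb A η, AF (ρ η₂) b f.1 = 0 := by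
    intro b hb η₂ h₂
    have hspan : ∀ η' ∈ orb A η, AF (ρ η') b f.1 ∈
        Submodule.span ℂ (Set.range fun n : N => ρ η' (Subgroup.inclusion hQ.nA n)) := by
      intro η' h
      exact zspan G N A B hQ (r η') (irr_orb hl (hrl η' h)) (hinv' η' h) _ (ρ η') (hρ η' h).1 e he'
        (hchar η' h) f.1 f.2.1 b hb
    have h0 : ∀ n : N, ∑ η' ∈ orb A η, (η' 1 / Nat.card A) *
        LinearMap.trace ℂ _ (AF (ρ η') b f.1 * ρ η' (Subgroup.inclusion hQ.nA n)) = 0 := by
      intro n
      rw [← hval b (Subgroup.inclusion hQ.nA n)]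
      exact hfB ⟨b * n, B.mul_mem hb (hQ.nB n.2)⟩
    have h1 : ∑ η' ∈ orb A η, (η' 1 / Nat.card A) • ∑ n : N,
        LinearMap.trace ℂ _ (AF (ρ η') b f.1 * ρ η' (Subgroup.inclusion hQ.nA n)) •
          ρ η₂ (Subgroup.inclusion hQ.nA n⁻¹) = 0 := by
      have h2 : ∑ n : N, (∑ η' ∈ orb A η, (η' 1 / Nat.card A) *
        LinearMap.trace ℂ _ (AF (ρ η') b f.1 * ρ η' (Subgroup.inclusion hQ.nA n))) •
          ρ η₂ (Subgroup.inclusion hQ.nA n⁻¹) = 0 :=
        Finset.sum_eq_zero fun n _ => by rw [h0 n, zero_smul]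
      rw [← h2]
      simp only [Finset.sum_smul, Finset.smul_sum, smul_smul]
      rw [Finset.sum_comm]
    rw [Finset.sum_eq_single η₂] at h1
    · have h3 := (orth A N (Subgroup.inclusion hQ.nA) _ _ (ρ η₂) (ρ η₂) (r η₂) (r η₂) e
        (irr_orb hl (hrl η₂ h₂)) (irr_orb hl (hrl η₂ h₂)) (hchar η₂ h₂) (hchar η₂ h₂)
        (AF (ρ η₂) b f.1) (hspan η₂ h₂)).2 (AF (ρ η₂) b f.1) (hspan η₂ h₂)
      rw [h3, smul_smul, smul_eq_zero] at h1
      rcases h1 with h1 | h1
      · exfalso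
        have h4 : η₂ 1 ≠ 0 := (irr_orb hη h₂).one_ne_zero
        have h5 : r η₂ 1 ≠ 0 := (irr_orb hl (hrl η₂ h₂)).one_ne_zero
        exact (mul_ne_zero (div_ne_zero h4 hAc) (div_ne_zero (mul_ne_zero he' hNc) h5)) h1
      · exact h1
    · intro η' h' hne
      have h3 := (orth A N (Subgroup.inclusion hQ.nA) _ _ (ρ η') (ρ η₂) (r η') (r η₂) e
        (irr_orb hl (hrl η' h')) (irr_orb hl (hrl η₂ h₂)) (hchar η' h') (hchar η₂ h₂)
        (AF (ρ η') b f.1) (hspan η' h')).1 (fun h => hne (hr2.injOn h' h₂ h))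
      rw [h3, smul_zero]
    · intro h
      exact absurd h₂ h
  apply Subtype.ext
  funext g
  show f.1 g = 0
  obtain ⟨a, ha, b, hb, hg⟩ := hQ.sup g⁻¹
  have h1 : g = b⁻¹ * ((⟨a⁻¹, A.inv_mem ha⟩ : A) : G) := by
    show g = b⁻¹ * a⁻¹
    rw [← mul_inv_rev, ← hg, inv_inv]
  rw [h1, hval]
  refine Finset.sum_eq_zero fun η' h' => ?_
  rw [hZ0 b⁻¹ (B.inv_mem hb) η' h', zero_mul, map_zero, mul_zero]

end Pool.Agent.RadIndex

end

section

/-!
# Conjugate constituents with the same constituent below are equal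
-/

set_option autoImplicit false
set_option linter.unusedSectionVars false

open Module Representation Pool.Agent.DC7914

namespace Pool.Agent.RadIndex

theorem EONE_equiv {H K : Type*} [Group H] [Group K] (e : H ≃* K) {l : K → ℂ}
    (hl : IsIrrChar l) : IsIrrChar (fun x => l (e x)) := by
  obtain ⟨n, ρ, hρ, rfl⟩ := hl
  refine ⟨n, ρ.comp e.toMonoidHom, ?_, rfl⟩
  rw [DC7914.irreducible_iff] at hρ ⊢
  refine ⟨hρ.1, fun U hU => hρ.2 U fun x v hv => ?_⟩
  have := hU (e.symm x) v hv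
  simpa using this

theorem EONE_irr {G : Type} [Group G] {N A : Subgroup G} (h : N ≤ A) {l : N → ℂ}
    (hl : IsIrrChar l) : IsIrrChar (down h l) :=
  EONE_equiv (Subgroup.subgroupOfEquivOfLe h) hl

theorem EONE_down {G : Type} [Group G] {N A : Subgroup G} (h : N ≤ A) (l : N → ℂ)
    (x : A) (hx : x ∈ N.subgroupOf A) (y : G) (hy : y ∈ N) (hxy : (x : G) = y) :
    down h l ⟨x, hx⟩ = l ⟨y, hy⟩ := by
  unfold down
  congr 1
  ext
  rw [Subgroup.subgroupOfEquivOfLe_apply_coe]
  exact hxy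

theorem EONE_inv {G : Type} [Group G] {N A : Subgroup G} [N.Normal] (h : N ≤ A) {l : N → ℂ}
    (hA : ∀ a ∈ A, cj a l = l) (a : A) : cj a (down h l) = down h l := by
  ext ⟨x, hx⟩
  have hx' : (x : G) ∈ N := Subgroup.mem_subgroupOf.1 hx
  have h1 := congrFun (hA a a.2) ⟨x, hx'⟩
  rw [EONE_down h l x hx x hx' rfl, ← h1]
  unfold cj
  refine EONE_down h l _ _ _ _ ?_
  have e1 : ((MulAut.conjNormal a (⟨x, hx⟩ : N.subgroupOf A) : N.subgroupOf A) : A) =
      a * x * a⁻¹ := MulAut.conjNormal_apply _ _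
  have e2 : ((MulAut.conjNormal (a : G) (⟨x, hx'⟩ : N) : N) : G) = a * x * (a : G)⁻¹ :=
    MulAut.conjNormal_apply _ _
  exact (congrArg (fun z : A => (z : G)) e1).trans e2.symm

theorem prf_EONE (core : S_CORE) (iso : S_ISO) : S_EONE := by
  intro G _ _ N A B _ _ _ _ _ _ hQ l hl hA η hη hmu g hmug
  have hθ := EONE_irr hQ.nA hl
  have hinv := EONE_inv hQ.nA hA
  obtain ⟨e, he, h1⟩ := iso A (N.subgroupOf A) (down hQ.nA l) hθ hinv η hη hmu
  obtain ⟨e', he', h2⟩ := iso A (N.subgroupOf A) (down hQ.nA l) hθ hinv (cj g η) (irr_cj g hη) hmug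
  have hg1 : ∀ (n : G) (hn : n ∈ N), cj g η ⟨n, hQ.nA hn⟩ = e * cj g l ⟨n, hn⟩ := by
    intro n hn
    have hc : g * n * g⁻¹ ∈ N := ‹N.Normal›.conj_mem n hn g
    have h3 := h1 ⟨⟨g * n * g⁻¹, hQ.nA hc⟩, Subgroup.mem_subgroupOf.2 hc⟩
    rw [EONE_down hQ.nA l _ _ _ hc rfl] at h3
    exact h3
  have hg2 : ∀ (n : G) (hn : n ∈ N), cj g η ⟨n, hQ.nA hn⟩ = e' * l ⟨n, hn⟩ := by
    intro n hn
    have h3 := h2 ⟨⟨n, hQ.nA hn⟩, Subgroup.mem_subgroupOf.2 hn⟩
    rw [EONE_down hQ.nA l _ _ _ hn rfl] at h3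
    exact h3
  have hee : (e : ℂ) = e' := by
    have h3 := hg1 1 N.one_mem
    rw [hg2 1 N.one_mem] at h3
    have h4 : cj g l ⟨1, N.one_mem⟩ = l 1 := cj_one_val g l
    have h5 : l ⟨1, N.one_mem⟩ = l 1 := rfl
    rw [h4, h5] at h3
    exact (mul_right_cancel₀ hl.one_ne_zero h3).symm
  have hgl : cj g l = l := by
    ext ⟨n, hn⟩
    have h3 := hg1 n hn
    rw [hg2 n hn, ← hee] at h3
    have h4 : (e : ℂ) ≠ 0 := by exact_mod_cast he.ne'
    exact (mul_left_cancel₀ h4 h3).symm
  obtain ⟨a, ha, b, hb, rfl⟩ := hQ.sup g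
  have hηa : cj a η = η := by
    ext x
    have h3 := hη.conj x ⟨a, ha⟩
    rw [← h3]
    unfold cj
    congr 1
  rw [← cj_cj, hηa]
  rw [← cj_cj, hA a ha] at hgl
  obtain ⟨d, τ, hτ, rfl⟩ := hη
  have hβ : ∀ n : N.subgroupOf A, (MulAut.conjNormal b : MulAut A) n ∈ N.subgroupOf A := by
    rintro ⟨n, hn⟩
    rw [Subgroup.mem_subgroupOf] at hn ⊢
    rw [MulAut.conjNormal_apply]
    exact ‹N.Normal›.conj_mem _ hn b
  obtain ⟨X, Xi, -, -, hX1, hX2, hX⟩ := core A (N.subgroupOf A) (MulAut.conjNormal b) (by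
    intro x
    rw [Subgroup.mem_subgroupOf]
    apply hQ.inf
    refine ⟨(x * (MulAut.conjNormal b x)⁻¹).2, ?_⟩
    have h3 : ((x * (MulAut.conjNormal b x)⁻¹ : A) : G) = (x * b * (x : G)⁻¹) * b⁻¹ := by
      rw [Subgroup.coe_mul, Subgroup.coe_inv, MulAut.conjNormal_apply]
      group
    rw [SetLike.mem_coe, h3]
    exact B.mul_mem (‹B.Normal›.conj_mem b hb x) (B.inv_mem hb)) hβ (by
    intro f hf
    exact hQ.perf f fun n hn => hf n (Subgroup.mem_subgroupOf.2 hn)) (down hQ.nA l) hθ hinv (by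
    rintro ⟨n, hn⟩
    have hn' : (n : G) ∈ N := Subgroup.mem_subgroupOf.1 hn
    have hc : b * n * b⁻¹ ∈ N := ‹N.Normal›.conj_mem _ hn' b
    rw [EONE_down hQ.nA l n hn _ hn' rfl, EONE_down hQ.nA l _ _ _ hc (by
      rw [MulAut.conjNormal_apply])]
    have h3 := congrFun hgl ⟨n, hn'⟩
    rw [← h3]
    rfl) (Fin d → ℂ) τ hτ hmu
  ext x
  have h3 : τ (MulAut.conjNormal b x) = X * τ x * Xi := by
    rw [hX, mul_assoc, hX1, mul_one]
  change LinearMap.trace ℂ _ (τ (MulAut.conjNormal b x)) = LinearMap.trace ℂ _ (τ x)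
  rw [h3, LinearMap.trace_mul_comm, ← mul_assoc, hX2, one_mul]

end Pool.Agent.RadIndex

end

section

/-!
# FEW: groups with few classes
-/

set_option autoImplicit false
set_option linter.unusedSectionVars false

open Module Representation Pool.Agent.DC7914

namespace Pool.Agent.RadIndex

theorem FEW_conj {H K : Type} [Group H] [Group K] (e : H ≃* K) :
    Nat.card (ConjClasses H) = Nat.card (ConjClasses K) := by
  refine Nat.card_congr ⟨ConjClasses.map e.toMonoidHom, ConjClasses.map e.symm.toMonoidHom,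
    fun a => ?_, fun a => ?_⟩
  · obtain ⟨a, rfl⟩ := ConjClasses.exists_rep a
    show ConjClasses.mk (e.symm (e a)) = _
    rw [e.symm_apply_apply]
  · obtain ⟨a, rfl⟩ := ConjClasses.exists_rep a
    show ConjClasses.mk (e (e.symm a)) = _
    rw [e.apply_symm_apply]

theorem prf_FEW (hB : S_BLOCK) : S_FEW := by
  intro H _ _ h hh h4 hk G _ _ N _ _ l hiso hl
  obtain ⟨e⟩ := hiso
  obtain ⟨hb1, hb2, hb3, -, -⟩ := hB G N l hl
  have hcard : (Nat.card (G ⧸ N) : ℝ) = h ^ 4 := by
    rw [h4, Nat.card_congr e.toEquiv]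
  rw [FEW_conj e] at hb3
  rw [hcard] at hb2
  set x : ℝ := ((orb N l).card : ℝ) with hx
  set L : ℝ := ‖l 1‖ with hL
  set m : ℝ := ((ovr N l).card : ℝ) with hm
  set k : ℝ := (Nat.card (ConjClasses H) : ℝ) with hkd
  have hL1 : 1 ≤ L := one_le_deg hl
  have hx0 : 0 ≤ x := Nat.cast_nonneg _
  have hm0 : 0 ≤ m := Nat.cast_nonneg _
  have hk0 : 0 ≤ k := Nat.cast_nonneg _
  have hm3 : m ≤ k * x := by
    rw [hm, hkd, hx]
    exact_mod_cast hb3
  have hk8 : (k ^ 2) ^ 4 ≤ h ^ 4 := by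
    rw [h4, hkd, ← pow_mul]
    exact_mod_cast hk
  have hk2 : k ^ 2 ≤ h := le_of_pow_le_pow_left₀ (by norm_num) hh.le hk8
  rcases le_or_gt h x with hxh | hxh
  · calc h * L * m = ∑ χ ∈ ovr N l, h * L := by
          rw [Finset.sum_const, nsmul_eq_mul, hm]
          ring
      _ ≤ ∑ χ ∈ ovr N l, ‖χ 1‖ := Finset.sum_le_sum fun χ hχ =>
          (mul_le_mul_of_nonneg_right hxh (by linarith)).trans (hb1 χ hχ)
  · have hS0 : 0 ≤ ∑ χ ∈ ovr N l, ‖χ 1‖ := Finset.sum_nonneg fun χ _ => norm_nonneg _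
    have h1 : ∑ χ ∈ ovr N l, ‖χ 1‖ ^ 2 ≤ (∑ χ ∈ ovr N l, ‖χ 1‖) ^ 2 :=
      Finset.sum_sq_le_sq_sum_of_nonneg fun χ _ => norm_nonneg _
    rw [← hb2] at h1
    refine le_of_pow_le_pow_left₀ (n := 2) (by norm_num) hS0 (le_trans ?_ h1)
    have h2 : m ^ 2 ≤ k ^ 2 * x ^ 2 := by
      rw [← mul_pow]
      exact pow_le_pow_left₀ hm0 hm3 2
    have h3 : k ^ 2 * x ^ 2 ≤ h * (h * x) := by
      calc k ^ 2 * x ^ 2 ≤ h * x ^ 2 := mul_le_mul_of_nonneg_right hk2 (by positivity)
        _ = h * (x * x) := by ring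
        _ ≤ h * (h * x) := by
          apply mul_le_mul_of_nonneg_left _ hh.le
          exact mul_le_mul_of_nonneg_right hxh.le hx0
    calc (h * L * m) ^ 2 = h ^ 2 * L ^ 2 * m ^ 2 := by ring
      _ ≤ h ^ 2 * L ^ 2 * (h * (h * x)) :=
        mul_le_mul_of_nonneg_left (h2.trans h3) (by positivity)
      _ = x * h ^ 4 * L ^ 2 := by ring

end Pool.Agent.RadIndex

end

section

/-!
# Item IDEM: the function `fO l` is idempotent
-/

set_option autoImplicit false
set_option linter.unusedSectionVars false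

open Module Representation Pool.Agent.DC7914

namespace Pool.Agent.RadIndex

theorem prf_IDEM : S_IDEM := by
  intro G _ _ N _ _ l hl n
  -- the action of `fO l` on the characters of the orbit
  have key : ∀ l' ∈ orb N l, ∀ x : N, ∑ m : N, fO (G := G) l m * l' (m * x) = l' x := by
    intro l' hl' x
    obtain ⟨d, ρ, hρ, hch⟩ := irr_orb hl hl'
    have hirr : IsIrrChar l' := irr_orb hl hl'
    have hcl : ∀ g y : N, fO (G := G) l (y * g * y⁻¹) = fO (G := G) l g := by
      intro g y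
      have h1 : y * g * y⁻¹ = MulAut.conjNormal (y : G) g := by
        ext; simp
      rw [h1, fO_cj]
    have h2 := op_eq_smul ρ hρ (fO (G := G) l) (op_comm_of_class ρ _ hcl)
    have h3 : (∑ g, fO (G := G) l g * ρ.character g) / ρ.character 1 = 1 := by
      have h4 := om_fO (G := G) hl hirr
      rw [if_pos hl'] at h4
      rw [← hch]
      exact h4
    rw [h3, one_smul] at h2
    have h5 := trace_op_mul ρ (fO (G := G) l) x
    rw [h2, one_mul] at h5
    rw [hch]
    exact h5.symm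
  have h1 : ∀ m : N, fO (G := G) l (m⁻¹ * n) =
      ∑ l' ∈ orb N l, (l' 1 / Nat.card N) * l' (m * n⁻¹) := by
    intro m
    unfold fO
    refine Finset.sum_congr rfl fun l' hl' => ?_
    have h2 : (m⁻¹ * n)⁻¹ = n⁻¹ * m := by group
    rw [h2, (irr_orb hl hl').mul_comm]
  calc ∑ m : N, fO (G := G) l m * fO (G := G) l (m⁻¹ * n)
      = ∑ m : N, ∑ l' ∈ orb N l, (l' 1 / Nat.card N) * (fO (G := G) l m * l' (m * n⁻¹)) := by
        refine Finset.sum_congr rfl fun m _ => ?_
        rw [h1, Finset.mul_sum]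
        refine Finset.sum_congr rfl fun l' _ => ?_
        ring
    _ = ∑ l' ∈ orb N l, (l' 1 / Nat.card N) * l' n⁻¹ := by
        rw [Finset.sum_comm]
        refine Finset.sum_congr rfl fun l' hl' => ?_
        rw [← Finset.mul_sum, key l' hl']
    _ = fO (G := G) l n := rfl

end Pool.Agent.RadIndex

end

section

/-!
# Item INTER: intertwining operators from the equality of characters
-/

set_option autoImplicit false

open Module Representation Pool.Agent.DC7914

namespace Pool.Agent.RadIndex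

theorem prf_INTER : S_INTER := by
  intro N _ _ W _ _ _ σ hσ φ hφ
  let σ' : Representation ℂ N W := σ.comp φ.toMonoidHom
  have hσ'v : ∀ n, σ' n = σ (φ n) := fun n => rfl
  have hσ' : σ'.IsIrreducible := by
    rw [DC7914.irreducible_iff] at hσ ⊢
    refine ⟨hσ.1, fun U hU => hσ.2 U fun g v hv => ?_⟩
    have h1 := hU (φ.symm g) v hv
    rw [hσ'v, MulEquiv.apply_symm_apply] at h1
    exact h1
  have hchar : ∀ n, σ'.character n = σ.character n := fun n => hφ n
  have hG : (Nat.card N : ℂ) ≠ 0 := by exact_mod_cast Nat.card_pos.ne'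
  have : Invertible (Nat.card N : ℂ) := invertibleOfNonzero hG
  have := hσ
  have := hσ'
  have h1 := char_orthonormal σ' σ
  have h2 := char_orthonormal σ σ
  have h3 : Nonempty (Representation.Equiv σ σ) := ⟨Representation.Equiv.refl σ⟩
  rw [if_pos h3] at h2
  simp only [hchar] at h1
  rw [h2] at h1
  have h4 : Nonempty (Representation.Equiv σ σ') := by
    by_contra hc
    rw [if_neg hc] at h1
    exact one_ne_zero h1
  obtain ⟨e⟩ := h4
  refine ⟨e.toLinearEquiv.toLinearMap, e.toLinearEquiv.symm.toLinearMap, ?_, ?_, fun n => ?_⟩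
  · ext v
    exact e.toLinearEquiv.apply_symm_apply v
  · ext v
    exact e.toLinearEquiv.symm_apply_apply v
  · exact e.toIntertwiningMap.isIntertwining' n

end Pool.Agent.RadIndex

end

section

/-!
# Item ISO: restriction over an invariant character
-/

set_option autoImplicit false
set_option linter.unusedSectionVars false

open Module Representation Pool.Agent.DC7914

namespace Pool.Agent.RadIndex

theorem prf_ISO : S_ISO := by
  classical
  intro A _ _ N _ _ θ hθ hinv χ hχ hmu0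
  obtain ⟨s, hs, hsum, hl⟩ := clifford hχ N
  have hmu : mu χ θ = Multiset.count θ s * Nat.card N := by
    rw [← inner_sum s hs θ hθ]
    unfold mu
    refine Finset.sum_congr rfl fun n _ => ?_
    rw [hsum n⁻¹]
  have hmem : θ ∈ s := by
    rw [← Multiset.count_pos]
    by_contra h3
    have h0 : Multiset.count θ s = 0 := by omega
    rw [hmu, h0] at hmu0
    simp at hmu0
  have hall : ∀ θ' ∈ s, θ' = θ := by
    intro θ' h'
    obtain ⟨g, hg⟩ := mem_orb.1 ((hl θ hmem).1 θ' h')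
    rw [← hg, hinv g]
  have hrep : s = Multiset.replicate (Multiset.card s) θ :=
    Multiset.eq_replicate.2 ⟨rfl, hall⟩
  refine ⟨Multiset.card s, Multiset.card_pos.2 fun h => ?_, fun n => ?_⟩
  · rw [h] at hmem
    exact absurd hmem (Multiset.notMem_zero θ)
  · rw [hsum n]
    conv_lhs => rw [hrep]
    rw [Multiset.sum_replicate, Pi.smul_apply, nsmul_eq_mul]

end Pool.Agent.RadIndex

end

section

/-!
# Item MID
-/

set_option autoImplicit false
set_option linter.unusedSectionVars false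

open Module Representation Pool.Agent.DC7914

namespace Pool.Agent.RadIndex

theorem MID_conj {H K : Type} [Group H] [Group K] [Finite H] (e : K ≃* H) :
    Nat.card (ConjClasses K) ≤ Nat.card (ConjClasses H) := by
  have : Finite (ConjClasses H) := Finite.of_surjective _ (ConjClasses.mk_surjective (α := H))
  exact Nat.card_le_card_of_surjective (ConjClasses.map e.symm.toMonoidHom)
    (ConjClasses.map_surjective e.symm.surjective)

theorem prf_MID (block : S_BLOCK) : S_MID := by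
  intro H _ _ h hh hcard hk hK G _ _ N _ _ l hiso hl
  obtain ⟨e⟩ := hiso
  obtain ⟨h1, h2, h3, ⟨K, hKi⟩, h5⟩ := block G N l hl
  have hL : 0 ≤ ‖l 1‖ := norm_nonneg _
  have hcG : Nat.card (G ⧸ N) = Nat.card H := Nat.card_congr e.toEquiv
  by_cases hx : (orb N l).card = 1
  · left
    refine ⟨h5 hx, ?_⟩
    have hkc := MID_conj e
    have hkh : (Nat.card (ConjClasses H) : ℝ) ≤ h := by
      have h6 : ((Nat.card (ConjClasses H) : ℝ)) ^ 4 ≤ h ^ 4 := by
        rw [hcard]; exact_mod_cast hk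
      exact le_of_pow_le_pow_left₀ (by norm_num) hh.le h6
    have hE : ((ovr N l).card : ℝ) ≤ h := by
      refine le_trans ?_ hkh
      have : (ovr N l).card ≤ Nat.card (ConjClasses H) := by
        rw [hx, mul_one] at h3
        exact h3.trans hkc
      exact_mod_cast this
    have hsq : (h ^ 2 * ‖l 1‖) ^ 2 ≤ (∑ χ ∈ ovr N l, ‖χ 1‖) ^ 2 := by
      have h7 : (h ^ 2 * ‖l 1‖) ^ 2 = ∑ χ ∈ ovr N l, ‖χ 1‖ ^ 2 := by
        rw [← h2, hx, hcG, ← hcard]
        push_cast
        ring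
      rw [h7]
      exact Finset.sum_sq_le_sq_sum_of_nonneg fun χ _ => norm_nonneg _
    have hs0 : 0 ≤ ∑ χ ∈ ovr N l, ‖χ 1‖ := Finset.sum_nonneg fun χ _ => norm_nonneg _
    have h8 : h ^ 2 * ‖l 1‖ ≤ ∑ χ ∈ ovr N l, ‖χ 1‖ := le_of_sq_le_sq hsq hs0
    calc h * ‖l 1‖ * (ovr N l).card ≤ h * ‖l 1‖ * h :=
          mul_le_mul_of_nonneg_left hE (mul_nonneg hh.le hL)
      _ = h ^ 2 * ‖l 1‖ := by ring
      _ ≤ _ := h8
  · right
    intro χ hχ
    refine le_trans ?_ (h1 χ hχ)
    refine mul_le_mul_of_nonneg_right ?_ hL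
    have hidx : (K.map e.toMonoidHom).index = (orb N l).card := by
      rw [← hKi]
      exact Subgroup.index_map_equiv K e
    have hne : K.map e.toMonoidHom ≠ ⊤ := by
      intro h'
      rw [h', Subgroup.index_top] at hidx
      exact hx hidx.symm
    have h6 := hK _ hne
    rw [hidx] at h6
    have h7 : h ^ 4 ≤ ((orb N l).card : ℝ) ^ 4 := by
      rw [hcard]; exact_mod_cast h6
    exact le_of_pow_le_pow_left₀ (by norm_num) (Nat.cast_nonneg _) h7

end Pool.Agent.RadIndex

end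

section

/-!
# Item ORB
-/

set_option autoImplicit false
set_option linter.unusedSectionVars false

open Module Representation Pool.Agent.DC7914

namespace Pool.Agent.RadIndex

theorem prf_ORB : S_ORB := by
  intro G _ _ N _ _ l l' hl hl' χ hχ hmu
  obtain ⟨O, -, hO1, hO2⟩ := char_data hχ N
  have hlO : l ∈ O := hO2 l hl hmu
  rw [(hO1 l hlO).2.1]
  constructor
  · exact hO2 l' hl'
  · intro h
    obtain ⟨e, he, h1, -⟩ := (hO1 l' h).2.2.2
    rw [h1]
    have hN : (Nat.card N : ℂ) ≠ 0 := by exact_mod_cast Nat.card_pos.ne'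
    exact mul_ne_zero (by exact_mod_cast he.ne') hN

end Pool.Agent.RadIndex

end

section

/-! Item ORTH: orthogonality for operators in the span of the operators of `N`. -/

set_option autoImplicit false
set_option linter.unusedSectionVars false

open Module Representation Pool.Agent.DC7914

namespace Pool.Agent.RadIndex

/-- the function `l(k⁻¹)` -/
def ORTH_f {N : Type} [Group N] (l : N → ℂ) (k : N) : ℂ := l k⁻¹

theorem ORTH_class {N : Type} [Group N] {l : N → ℂ} (hl : IsIrrChar l) (g x : N) :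
    ORTH_f l (x * g * x⁻¹) = ORTH_f l g := by
  unfold ORTH_f
  have : (x * g * x⁻¹)⁻¹ = x * g⁻¹ * x⁻¹ := by group
  rw [this, hl.conj]

theorem ORTH_norm {N : Type} [Group N] [Fintype N] {l : N → ℂ} (hl : IsIrrChar l) :
    ∑ g, ORTH_f l g * l g = Fintype.card N := by
  have h := hl.orthonormal hl
  rw [if_pos rfl, Nat.card_eq_fintype_card] at h
  rw [← h]
  exact Finset.sum_congr rfl fun g _ => mul_comm _ _

theorem ORTH_conv {N : Type} [Group N] [Fintype N] {l : N → ℂ} (hl : IsIrrChar l) (n : N) :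
    ∑ m, ORTH_f l m * l (m * n) = (Fintype.card N : ℂ) / l 1 * l n := by
  have hn := ORTH_norm hl
  have hc := ORTH_class hl
  obtain ⟨d, σ, hσ, rfl⟩ := hl
  have h1 := op_eq_smul σ hσ (ORTH_f σ.character) (op_comm_of_class σ _ hc)
  rw [hn] at h1
  have h3 := trace_op_mul σ (ORTH_f σ.character) n
  rw [← h3, h1, smul_mul_assoc, one_mul, map_smul, smul_eq_mul]
  rfl

section

variable {N : Type} [Group N] [Fintype N] {V : Type} [AddCommGroup V] [Module ℂ V]
  [FiniteDimensional ℂ V] (ρ : Representation ℂ N V)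

theorem ORTH_sq {l : N → ℂ} (hl : IsIrrChar l) :
    op ρ (ORTH_f l) * op ρ (ORTH_f l) = ((Fintype.card N : ℂ) / l 1) • op ρ (ORTH_f l) := by
  have h1 : op ρ (ORTH_f l) * op ρ (ORTH_f l) =
      ∑ j, ∑ k, (ORTH_f l j * ORTH_f l k) • ρ (j * k) := by
    rw [op, Finset.sum_mul_sum]
    refine Finset.sum_congr rfl fun j _ => Finset.sum_congr rfl fun k _ => ?_
    rw [smul_mul_assoc, mul_smul_comm, smul_smul, map_mul]
  have h2 : ∀ j : N, ∑ k, (ORTH_f l j * ORTH_f l k) • ρ (j * k) =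
      ∑ m, (ORTH_f l j * ORTH_f l (j⁻¹ * m)) • ρ m := by
    intro j
    refine Fintype.sum_equiv (Equiv.mulLeft j) _ _ fun k => ?_
    simp
  rw [h1, Finset.sum_congr rfl (fun j _ => h2 j), Finset.sum_comm]
  rw [op, Finset.smul_sum]
  refine Finset.sum_congr rfl fun m _ => ?_
  rw [← Finset.sum_smul, smul_smul]
  congr 1
  have h3 := ORTH_conv hl m⁻¹
  have h4 : ORTH_f l m = l m⁻¹ := rfl
  rw [h4, ← h3]
  refine Finset.sum_congr rfl fun j _ => ?_
  congr 1
  unfold ORTH_f
  rw [mul_inv_rev, inv_inv]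
  exact hl.mul_comm _ _

theorem ORTH_idem (P : End ℂ V) (hP : P * P = P) :
    LinearMap.trace ℂ V P = (finrank ℂ (LinearMap.range P) : ℂ) := by
  have h := (LinearMap.isProj_range_iff_isIdempotentElem P).2 hP
  exact h.trace

theorem ORTH_op {l l' : N → ℂ} (hl : IsIrrChar l) (hl' : IsIrrChar l') (e : ℂ)
    (hρ : ∀ n, ρ.character n = e * l' n) :
    (l ≠ l' → op ρ (ORTH_f l) = 0) ∧
    (l = l' → op ρ (ORTH_f l) = ((Fintype.card N : ℂ) / l 1) • (1 : End ℂ V)) := by
  have hN : (Fintype.card N : ℂ) ≠ 0 := by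
    exact_mod_cast Fintype.card_ne_zero
  have hl1 := hl.one_ne_zero
  set c : ℂ := (Fintype.card N : ℂ) / l 1 with hc
  have hc0 : c ≠ 0 := div_ne_zero hN hl1
  set P : End ℂ V := c⁻¹ • op ρ (ORTH_f l) with hP
  have hPP : P * P = P := by
    rw [hP, smul_mul_assoc, mul_smul_comm, ORTH_sq ρ hl, ← hc, smul_smul, smul_smul]
    congr 1
    field_simp
  have hop : op ρ (ORTH_f l) = c • P := by
    rw [hP, smul_smul, mul_inv_cancel₀ hc0, one_smul]
  have htr : LinearMap.trace ℂ V P = c⁻¹ * (e * ∑ g, ORTH_f l g * l' g) := by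
    rw [hP, map_smul, smul_eq_mul, trace_op]
    congr 1
    rw [Finset.mul_sum]
    refine Finset.sum_congr rfl fun g _ => ?_
    rw [hρ]
    ring
  constructor
  · intro hne
    have h0 : ∑ g, ORTH_f l g * l' g = 0 := by
      have h := hl'.orthonormal hl
      rw [if_neg (Ne.symm hne)] at h
      rw [← h]
      exact Finset.sum_congr rfl fun g _ => mul_comm _ _
    rw [h0, mul_zero, mul_zero, ORTH_idem P hPP] at htr
    have h1 : finrank ℂ (LinearMap.range P) = 0 := by exact_mod_cast htr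
    have h2 : LinearMap.range P = ⊥ := Submodule.finrank_eq_zero.1 h1
    rw [LinearMap.range_eq_bot] at h2
    rw [hop, h2, smul_zero]
  · intro heq
    subst heq
    have h0 := ORTH_norm hl
    have h1 : LinearMap.trace ℂ V P = e * l 1 := by
      rw [htr, h0, hc]
      field_simp
    have h2 : e * l 1 = (finrank ℂ V : ℂ) := by
      rw [← hρ 1, char_one]
    rw [ORTH_idem P hPP, h2] at h1
    have h3 : finrank ℂ (LinearMap.range P) = finrank ℂ V := by exact_mod_cast h1
    have h4 : LinearMap.range P = ⊤ := Submodule.eq_top_of_finrank_eq h3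
    have h5 : P = 1 := by
      ext v
      have hv : v ∈ LinearMap.range P := by rw [h4]; trivial
      obtain ⟨w, rfl⟩ := hv
      have := LinearMap.congr_fun hPP w
      simpa using this
    rw [hop, h5]

end

theorem ORTH_main {N : Type} [Group N] [Fintype N] {V' V'' : Type} [AddCommGroup V'] [Module ℂ V']
    [FiniteDimensional ℂ V'] [AddCommGroup V''] [Module ℂ V''] [FiniteDimensional ℂ V'']
    (ρ' : Representation ℂ N V') (ρ'' : Representation ℂ N V'') (l' : N → ℂ) (e : ℂ)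
    (h' : ∀ n, ρ'.character n = e * l' n) (m : N) :
    ∑ n : N, LinearMap.trace ℂ V' (ρ' m * ρ' n) • ρ'' n⁻¹ =
      e • (op ρ'' (ORTH_f l') * ρ'' m) := by
  have h1 : ∀ n : N, LinearMap.trace ℂ V' (ρ' m * ρ' n) = e * l' (m * n) := by
    intro n
    rw [← map_mul, ← h']
    rfl
  have h2 : ∑ n : N, LinearMap.trace ℂ V' (ρ' m * ρ' n) • ρ'' n⁻¹ =
      ∑ n : N, (e * l' (m * n)) • ρ'' n⁻¹ :=
    Finset.sum_congr rfl fun n _ => by rw [h1]
  rw [h2, op, Finset.sum_mul, Finset.smul_sum]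
  refine Fintype.sum_equiv ((Equiv.mulLeft m).trans (Equiv.inv N)) _ _ fun n => ?_
  simp only [Equiv.trans_apply, Equiv.coe_mulLeft, Equiv.inv_apply, ORTH_f, inv_inv]
  rw [smul_mul_assoc, ← map_mul, smul_smul]
  congr 2
  group

theorem prf_ORTH : S_ORTH := by
  intro A _ _ N _ _ i V' V'' _ _ _ _ _ _ τ' τ'' l' l'' e hl' hl'' h' h'' Z hZ
  let ρ' : Representation ℂ N V' := τ'.comp i
  let ρ'' : Representation ℂ N V'' := τ''.comp i
  have k' : ∀ n, ρ'.character n = e * l' n := h'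
  have k'' : ∀ n, ρ''.character n = e * l'' n := h''
  have hr' : ∀ n, ρ' n = τ' (i n) := fun _ => rfl
  have hr'' : ∀ n, ρ'' n = τ'' (i n) := fun _ => rfl
  constructor
  · intro hne
    have h0 := (ORTH_op ρ'' hl' hl'' e k'').1 hne
    induction hZ using Submodule.span_induction with
    | mem Z hZ =>
      obtain ⟨m, rfl⟩ := hZ
      have := ORTH_main ρ' ρ'' l' e k' m
      rw [h0, zero_mul, smul_zero] at this
      exact this
    | zero => simp
    | add x y _ _ hx hy =>
      simp only [add_mul, map_add, add_smul, Finset.sum_add_distrib] at hx hy ⊢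
      rw [hx, hy, add_zero]
    | smul a x _ hx =>
      simp only [smul_mul_assoc, map_smul, smul_assoc] at hx ⊢
      rw [← Finset.smul_sum, hx, smul_zero]
  · intro Z'' hZ''
    have h0 := (ORTH_op ρ'' hl'' hl'' e k'').2 rfl
    induction hZ'' using Submodule.span_induction with
    | mem Z hZ =>
      obtain ⟨m, rfl⟩ := hZ
      have := ORTH_main ρ'' ρ'' l'' e k'' m
      rw [h0, smul_mul_assoc, one_mul, smul_smul] at this
      refine Eq.trans this ?_
      congr 1
      ring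
    | zero => simp
    | add x y _ _ hx hy =>
      simp only [add_mul, map_add, add_smul, Finset.sum_add_distrib, smul_add] at hx hy ⊢
      rw [hx, hy]
    | smul a x _ hx =>
      simp only [smul_mul_assoc, map_smul, smul_assoc] at hx ⊢
      rw [← Finset.smul_sum, hx, smul_comm]

end Pool.Agent.RadIndex

end

section

/-!
# The step
-/

set_option autoImplicit false
set_option linter.unusedSectionVars false

open Module Representation Pool.Agent.DC7914

namespace Pool.Agent.RadIndex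

theorem STEP_mem_ovr {G : Type} [Group G] [Fintype G] {N : Subgroup G} [Fintype N] {l : N → ℂ}
    {χ : G → ℂ} : χ ∈ ovr N l ↔ IsIrrChar χ ∧ mu χ l ≠ 0 := by
  unfold ovr
  rw [Finset.mem_filter, mem_irrs]

theorem STEP_irr_down {G : Type} [Group G] {N A : Subgroup G} (h : N ≤ A) {l : N → ℂ}
    (hl : IsIrrChar l) : IsIrrChar (down h l) := by
  obtain ⟨n, ρ, hρ, rfl⟩ := hl
  refine ⟨n, ρ.comp (Subgroup.subgroupOfEquivOfLe h).toMonoidHom, ?_, ?_⟩
  · rw [DC7914.irreducible_iff] at hρ ⊢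
    refine ⟨hρ.1, fun U hU => hρ.2 U fun x v hv => ?_⟩
    have := hU ((Subgroup.subgroupOfEquivOfLe h).symm x) v hv
    simpa using this
  · funext x
    rfl

theorem STEP_down_one {G : Type} [Group G] {N A : Subgroup G} (h : N ≤ A) (l : N → ℂ) :
    down h l 1 = l 1 := by
  unfold down
  rw [map_one]

/-- two sets of characters over irreducible characters are equal or disjoint -/
theorem STEP_eq (hORB : S_ORB) {G : Type} [Group G] [Fintype G] {A : Subgroup G} [A.Normal]
    [Fintype A] {η η' : A → ℂ} (h1 : IsIrrChar η) (h2 : IsIrrChar η') {χ : G → ℂ}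
    (h3 : χ ∈ ovr A η) (h4 : χ ∈ ovr A η') : ovr A η = ovr A η' := by
  rw [STEP_mem_ovr] at h3 h4
  have o1 : η' ∈ orb A η := (hORB G A η η' h1 h2 χ h3.1 h3.2).1 h4.2
  have o2 : η ∈ orb A η' := (hORB G A η' η h2 h1 χ h4.1 h4.2).1 h3.2
  ext ψ
  rw [STEP_mem_ovr, STEP_mem_ovr]
  constructor
  · rintro ⟨a, b⟩
    exact ⟨a, (hORB G A η η' h1 h2 ψ a b).2 o1⟩
  · rintro ⟨a, b⟩
    exact ⟨a, (hORB G A η' η h2 h1 ψ a b).2 o2⟩

theorem prf_STEP (hTRANS : S_TRANS) (hORB : S_ORB) (hWOB : S_WOB) (hEONE : S_EONE) (hUP : S_UP)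
    (hDOWN : S_DOWN) : S_STEP := by
  classical
  intro H₁ H₂ _ _ _ _ β₁ β₂ hβ₁ hβ₂ hperf hPS hPB G _ _ N _ _ l hiso hl
  obtain ⟨e⟩ := hiso
  let π : G →* H₁ × H₂ := e.toMonoidHom.comp (QuotientGroup.mk' N)
  have hπs : Function.Surjective π := e.surjective.comp (QuotientGroup.mk'_surjective N)
  have hπN : ∀ g : G, π g = 1 ↔ g ∈ N := by
    intro g
    show e (QuotientGroup.mk' N g) = 1 ↔ _
    rw [map_eq_one_iff e e.injective]
    exact QuotientGroup.eq_one_iff g
  let p₁ : G →* H₁ := (MonoidHom.fst H₁ H₂).comp π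
  let p₂ : G →* H₂ := (MonoidHom.snd H₁ H₂).comp π
  have hp₁ : Function.Surjective p₁ := by
    intro x
    obtain ⟨g, hg⟩ := hπs (x, 1)
    exact ⟨g, by show (π g).1 = x; rw [hg]⟩
  have hp₂ : Function.Surjective p₂ := by
    intro x
    obtain ⟨g, hg⟩ := hπs (1, x)
    exact ⟨g, by show (π g).2 = x; rw [hg]⟩
  let A : Subgroup G := p₂.ker
  let B : Subgroup G := p₁.ker
  have hA : ∀ g, g ∈ A ↔ (π g).2 = 1 := fun g => Iff.rfl
  have hB : ∀ g, g ∈ B ↔ (π g).1 = 1 := fun g => Iff.rfl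
  letI : Fintype A := Fintype.ofFinite A
  letI : Fintype (N.subgroupOf A) := Fintype.ofFinite _
  have hNA : N ≤ A := fun g hg => by rw [hA, (hπN g).2 hg]; rfl
  have hNB : N ≤ B := fun g hg => by rw [hB, (hπN g).2 hg]; rfl
  let p : A →* H₁ := p₁.comp A.subtype
  have hp : Function.Surjective p := by
    intro x
    obtain ⟨g, hg⟩ := hπs (x, 1)
    exact ⟨⟨g, by rw [hA, hg]⟩, by show (π g).1 = x; rw [hg]⟩
  have hpk : p.ker = N.subgroupOf A := by
    ext a
    rw [MonoidHom.mem_ker, Subgroup.mem_subgroupOf, ← hπN]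
    show (π a).1 = 1 ↔ π a = 1
    constructor
    · intro h
      exact Prod.ext h ((hA a).1 a.2)
    · intro h
      rw [h]; rfl
  have hQ : SetQ N A B :=
    { nA := hNA
      nB := hNB
      inf := by
        rintro g ⟨h1, h2⟩
        exact (hπN g).1 (Prod.ext ((hB g).1 h2) ((hA g).1 h1))
      sup := by
        intro g
        obtain ⟨a, ha⟩ := hπs ((π g).1, 1)
        refine ⟨a, by rw [hA, ha], a⁻¹ * g, ?_, by group⟩
        rw [hB, map_mul, map_inv, ha]
        simp
      perf := by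
        intro f hf
        have hk : p.ker ≤ f.ker := by
          intro a ha
          rw [hpk, Subgroup.mem_subgroupOf] at ha
          exact hf a ha
        let f' := MonoidHom.liftOfSurjective p hp ⟨f, hk⟩
        have h1 : f' = 1 := hperf f'
        have h2 : ∀ a, f' (p a) = f a := fun a =>
          MonoidHom.liftOfRightInverse_comp_apply p _ _ ⟨f, hk⟩ a
        ext a
        rw [← h2 a, h1]; rfl }
  have iso₂ : Nonempty (G ⧸ A ≃* H₂) :=
    ⟨QuotientGroup.quotientKerEquivOfSurjective p₂ hp₂⟩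
  have iso₁ : Nonempty (A ⧸ N.subgroupOf A ≃* H₁) :=
    ⟨(QuotientGroup.quotientMulEquivOfEq hpk.symm).trans
      (QuotientGroup.quotientKerEquivOfSurjective p hp)⟩
  have hl' : IsIrrChar (down hNA l) := STEP_irr_down hNA hl
  set E : Finset (A → ℂ) := ovr (N.subgroupOf A) (down hNA l) with hE
  have hEirr : ∀ η ∈ E, IsIrrChar η ∧ mu η (down hNA l) ≠ 0 := by
    intro η hη
    rw [hE, STEP_mem_ovr] at hη
    exact hη
  have hunion : ovr N l = E.biUnion fun η => ovr A η := by
    ext χ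
    rw [Finset.mem_biUnion, STEP_mem_ovr]
    constructor
    · rintro ⟨h1, h2⟩
      obtain ⟨η, a, b, c⟩ := (hTRANS G N A hNA l hl χ h1).1 h2
      exact ⟨η, by rw [hE, STEP_mem_ovr]; exact ⟨a, c⟩, by rw [STEP_mem_ovr]; exact ⟨h1, b⟩⟩
    · rintro ⟨η, h1, h2⟩
      rw [STEP_mem_ovr] at h2
      exact ⟨h2.1, (hTRANS G N A hNA l hl χ h2.1).2 ⟨η, (hEirr η h1).1, h2.2, (hEirr η h1).2⟩⟩
  have hPB' : ∀ η ∈ E, β₂ * ‖η 1‖ * (ovr A η).card ≤ ∑ χ ∈ ovr A η, ‖χ 1‖ :=
    fun η hη => hPB G A η iso₂ (hEirr η hη).1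
  have hl1 : ‖down hNA l 1‖ = ‖l 1‖ := by rw [STEP_down_one]
  rcases hPS A (N.subgroupOf A) (down hNA l) iso₁ hl' with ⟨hinv, hsum⟩ | hbig
  · -- case 1
    rw [hl1] at hsum
    have hinv' : ∀ a ∈ A, cj a l = l := by
      intro a ha
      funext n
      have h1 := congrFun (hinv ⟨a, ha⟩) ⟨⟨n, hNA n.2⟩, n.2⟩
      have h2 : down hNA l ⟨⟨n, hNA n.2⟩, n.2⟩ = l n := rfl
      rw [h2] at h1
      rw [← h1]
      rfl
    have hM : ∀ η ∈ E, (ovr A η).card = finrank ℂ (WB B hQ.nB l) := by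
      intro η hη
      rw [(hWOB G A η (hEirr η hη).1).2]
      exact le_antisymm (hDOWN G N A B hQ l hl hinv' η (hEirr η hη).1 (hEirr η hη).2)
        (hUP G N A B hQ l hl hinv' η (hEirr η hη).1 (hEirr η hη).2)
    have hdisj : (E : Set (A → ℂ)).PairwiseDisjoint fun η => ovr A η := by
      intro η hη η' hη' hne
      rw [Function.onFun, Finset.disjoint_left]
      intro χ h1 h2
      rw [STEP_mem_ovr] at h1 h2
      have o1 : η' ∈ orb A η :=
        (hORB G A η η' (hEirr η hη).1 (hEirr η' hη').1 χ h1.1 h1.2).1 h2.2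
      obtain ⟨g, hg⟩ := mem_orb.1 o1
      apply hne
      have h3 : mu (cj g η) (down hQ.nA l) ≠ 0 := by
        rw [hg]; exact (hEirr η' hη').2
      rw [← hg, hEONE G N A B hQ l hl hinv' η (hEirr η hη).1 (hEirr η hη).2 g h3]
    rw [hunion, Finset.card_biUnion hdisj, Finset.sum_biUnion hdisj,
      Finset.sum_congr rfl fun η hη => hM η hη, Finset.sum_const, smul_eq_mul]
    set M := finrank ℂ (WB B hQ.nB l) with hMdef
    calc β₁ * β₂ * ‖l 1‖ * ((E.card * M : ℕ) : ℝ)
        = β₂ * M * (β₁ * ‖l 1‖ * E.card) := by push_cast; ring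
      _ ≤ β₂ * M * ∑ η ∈ E, ‖η 1‖ := by
          refine mul_le_mul_of_nonneg_left hsum ?_
          positivity
      _ = ∑ η ∈ E, β₂ * ‖η 1‖ * (ovr A η).card := by
          rw [Finset.mul_sum]
          refine Finset.sum_congr rfl fun η hη => ?_
          rw [hM η hη]; ring
      _ ≤ ∑ η ∈ E, ∑ χ ∈ ovr A η, ‖χ 1‖ := Finset.sum_le_sum hPB'
  · -- case 2
    have hun2 : ovr N l = (E.image fun η => ovr A η).biUnion id := by
      rw [hunion, Finset.image_biUnion]
      rfl
    have hdisj : ((E.image fun η => ovr A η : Finset (Finset (G → ℂ))) :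
        Set (Finset (G → ℂ))).PairwiseDisjoint id := by
      intro S hS S' hS' hne
      rw [Finset.mem_coe, Finset.mem_image] at hS hS'
      obtain ⟨η, hη, rfl⟩ := hS
      obtain ⟨η', hη', rfl⟩ := hS'
      rw [Function.onFun, id, id, Finset.disjoint_left]
      intro χ h1 h2
      exact hne (STEP_eq hORB (hEirr η hη).1 (hEirr η' hη').1 h1 h2)
    rw [hun2, Finset.card_biUnion hdisj, Finset.sum_biUnion hdisj, Nat.cast_sum, Finset.mul_sum]
    refine Finset.sum_le_sum fun S hS => ?_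
    rw [Finset.mem_image] at hS
    obtain ⟨η, hη, rfl⟩ := hS
    have h1 := hbig η hη
    rw [hl1] at h1
    calc β₁ * β₂ * ‖l 1‖ * ((id (ovr A η)).card : ℝ)
        = β₂ * (β₁ * ‖l 1‖) * (ovr A η).card := by rw [id]; ring
      _ ≤ β₂ * ‖η 1‖ * (ovr A η).card := by
          refine mul_le_mul_of_nonneg_right (mul_le_mul_of_nonneg_left h1 hβ₂) ?_
          positivity
      _ ≤ ∑ χ ∈ id (ovr A η), ‖χ 1‖ := hPB' η hη

end Pool.Agent.RadIndex

end

section

/-!
# Transitivity of lying over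
-/

set_option autoImplicit false
set_option linter.unusedSectionVars false

open Module Representation Pool.Agent.DC7914

namespace Pool.Agent.RadIndex

theorem TRANS_irr_down {G : Type} [Group G] {N A : Subgroup G} (h : N ≤ A) {l : N → ℂ}
    (hl : IsIrrChar l) : IsIrrChar (down h l) := by
  obtain ⟨n, ρ, hρ, rfl⟩ := hl
  refine ⟨n, ρ.comp (Subgroup.subgroupOfEquivOfLe h).toMonoidHom, ?_, ?_⟩
  · rw [DC7914.irreducible_iff] at hρ ⊢
    refine ⟨hρ.1, fun U hU => hρ.2 U fun x v hv => ?_⟩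
    have := hU ((Subgroup.subgroupOfEquivOfLe h).symm x) v hv
    simpa using this
  · rfl

theorem TRANS_count {G : Type} [Group G] [Fintype G] {N : Subgroup G} [N.Normal] [Fintype N]
    {χ : G → ℂ} (s : Multiset (N → ℂ)) (hs : ∀ θ ∈ s, IsIrrChar θ)
    (hsum : ∀ n : N, χ n = s.sum n) {l : N → ℂ} (hl : IsIrrChar l) [DecidableEq (N → ℂ)] :
    mu χ l = (Multiset.count l s * Nat.card N : ℕ) := by
  have h := inner_sum s hs l hl
  have e : ∑ g, l g * s.sum g⁻¹ = mu χ l := by
    unfold mu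
    refine Finset.sum_congr rfl fun n _ => ?_
    rw [hsum n⁻¹]
  rw [← e, h, Nat.cast_mul]
  congr 2
  congr

theorem TRANS_nat {G : Type} [Group G] [Fintype G] {N : Subgroup G} [N.Normal] [Fintype N]
    {χ : G → ℂ} (hχ : IsIrrChar χ) {l : N → ℂ} (hl : IsIrrChar l) : ∃ k : ℕ, mu χ l = k := by
  classical
  obtain ⟨s, hs, hsum, -⟩ := clifford hχ N
  exact ⟨_, TRANS_count s hs hsum hl⟩

theorem TRANS_sum {G : Type} [Group G] [Fintype G] (N A : Subgroup G) [Fintype N]
    [Fintype (N.subgroupOf A)] (h : N ≤ A) (l : N → ℂ) (s : Multiset (A → ℂ)) :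
    ∑ n : N, l n * s.sum (Subgroup.inclusion h n⁻¹) =
      (s.map fun η => ∑ x : N.subgroupOf A, down h l x * η ((x⁻¹ : N.subgroupOf A) : A)).sum := by
  induction s using Multiset.induction_on with
  | empty => simp
  | cons η s ih =>
    rw [Multiset.sum_cons, Multiset.map_cons, Multiset.sum_cons, ← ih]
    simp only [Pi.add_apply, mul_add, Finset.sum_add_distrib]
    congr 1
    refine (Fintype.sum_equiv (Subgroup.subgroupOfEquivOfLe h).toEquiv _ _ fun x => ?_).symm
    rfl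

theorem prf_TRANS : S_TRANS := by
  intro G _ _ N A _ _ _ _ _ h l hl χ hχ
  classical
  obtain ⟨s, hs, hsum, -⟩ := clifford hχ A
  have hd := TRANS_irr_down h hl
  have hmem : ∀ η : A → ℂ, IsIrrChar η → (mu χ η ≠ 0 ↔ η ∈ s) := by
    intro η hη
    rw [TRANS_count s hs hsum hη, Nat.cast_ne_zero, ← Multiset.count_pos]
    have : 0 < Nat.card A := Nat.card_pos
    constructor
    · intro h1
      by_contra h2
      apply h1
      have : Multiset.count η s = 0 := by omega
      rw [this, zero_mul]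
    · intro h1
      positivity
  have hval : mu χ l = (s.map fun η => mu η (down h l)).sum := by
    have e : mu χ l = ∑ n : N, l n * s.sum (Subgroup.inclusion h n⁻¹) := by
      unfold mu
      refine Finset.sum_congr rfl fun n _ => ?_
      rw [← hsum]
      rfl
    rw [e, TRANS_sum]
    rfl
  have hk : ∀ η : A → ℂ, ∃ k : ℕ, η ∈ s → mu η (down h l) = k := by
    intro η
    by_cases hη : η ∈ s
    · obtain ⟨k, hk⟩ := TRANS_nat (hs η hη) hd
      exact ⟨k, fun _ => hk⟩
    · exact ⟨0, fun h => absurd h hη⟩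
  choose k hk using hk
  have hval2 : mu χ l = ((s.map k).sum : ℕ) := by
    rw [hval, Multiset.map_congr rfl hk, Nat.cast_multiset_sum, Multiset.map_map]
    rfl
  constructor
  · intro hne
    by_contra hcon
    push Not at hcon
    apply hne
    rw [hval]
    refine Multiset.sum_eq_zero fun x hx => ?_
    obtain ⟨η, hη, rfl⟩ := Multiset.mem_map.mp hx
    exact hcon η (hs η hη) ((hmem η (hs η hη)).mpr hη)
  · rintro ⟨η, hη, h1, h2⟩
    have hηs := (hmem η hη).mp h1
    rw [hval2, Nat.cast_ne_zero]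
    have h3 : k η ≠ 0 := by
      intro h0
      apply h2
      rw [hk η hηs, h0, Nat.cast_zero]
    have h4 : k η ≤ (s.map k).sum := Multiset.le_sum_of_mem (Multiset.mem_map_of_mem k hηs)
    omega

end Pool.Agent.RadIndex

end

section

/-!
# The transfer homomorphism of an isotypic representation
-/

set_option autoImplicit false

open Module Representation Pool.Agent.DC7914

namespace Pool.Agent.RadIndex

section

variable {N : Type} [Group N] [Fintype N] {W : Type} [AddCommGroup W] [Module ℂ W]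
  {V : Type} [AddCommGroup V] [Module ℂ V]

/-- the transfer map -/
noncomputable def tfR (σ : Representation ℂ N W) (τ : Representation ℂ N V) (c : ℂ) :
    End ℂ W →ₗ[ℂ] End ℂ V where
  toFun Z := c • ∑ n : N, LinearMap.trace ℂ W (Z * σ n⁻¹) • τ n
  map_add' Z Z' := by
    simp only [add_mul, map_add, add_smul, Finset.sum_add_distrib, smul_add]
  map_smul' r Z := by
    simp only [smul_mul_assoc, map_smul, smul_eq_mul, RingHom.id_apply, mul_smul]
    rw [← Finset.smul_sum, smul_comm]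

theorem tfR_apply (σ : Representation ℂ N W) (τ : Representation ℂ N V) (c : ℂ) (Z : End ℂ W) :
    tfR σ τ c Z = c • ∑ n : N, LinearMap.trace ℂ W (Z * σ n⁻¹) • τ n := rfl

theorem tfR_mul_rep (σ : Representation ℂ N W) (τ : Representation ℂ N V) (c : ℂ) (Z : End ℂ W)
    (m : N) : tfR σ τ c (Z * σ m) = tfR σ τ c Z * τ m := by
  rw [tfR_apply, tfR_apply, smul_mul_assoc, Finset.sum_mul]
  congr 1
  refine (Fintype.sum_equiv (Equiv.mulRight m) _ _ fun n => ?_).symm
  have e1 : τ (n * m) = τ n * τ m := map_mul τ n m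
  have e2 : Z * σ m * σ (n * m)⁻¹ = Z * σ n⁻¹ := by
    rw [mul_assoc, ← map_mul σ, mul_inv_rev, mul_inv_cancel_left]
  rw [Equiv.coe_mulRight, smul_mul_assoc]
  show LinearMap.trace ℂ W (Z * σ n⁻¹) • (τ n * τ m) =
    LinearMap.trace ℂ W (Z * σ m * σ (n * m)⁻¹) • τ (n * m)
  rw [e1, e2]

theorem tfR_mul (σ : Representation ℂ N W) (τ : Representation ℂ N V) (c : ℂ)
    (hc : ∀ Z : End ℂ W, c • ∑ n : N, LinearMap.trace ℂ W (Z * σ n⁻¹) • σ n = Z)
    (Z Z' : End ℂ W) : tfR σ τ c (Z * Z') = tfR σ τ c Z * tfR σ τ c Z' := by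
  have h1 : Z * Z' = c • ∑ n : N, LinearMap.trace ℂ W (Z' * σ n⁻¹) • (Z * σ n) := by
    conv_lhs => rw [← hc Z']
    rw [mul_smul_comm, Finset.mul_sum]
    congr 1
    refine Finset.sum_congr rfl fun n _ => ?_
    rw [mul_smul_comm]
  rw [h1, map_smul, map_sum, tfR_apply σ τ c Z', mul_smul_comm, Finset.mul_sum]
  congr 1
  refine Finset.sum_congr rfl fun n _ => ?_
  rw [map_smul, tfR_mul_rep, mul_smul_comm]

theorem tfR_trace (σ : Representation ℂ N W) (τ : Representation ℂ N V) (c e : ℂ)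
    (hc : ∀ Z : End ℂ W, c • ∑ n : N, LinearMap.trace ℂ W (Z * σ n⁻¹) • σ n = Z)
    (he : ∀ n, τ.character n = e * σ.character n) (Z : End ℂ W) :
    LinearMap.trace ℂ V (tfR σ τ c Z) = e * LinearMap.trace ℂ W Z := by
  have h1 : LinearMap.trace ℂ V (tfR σ τ c Z) =
      c * ∑ n : N, LinearMap.trace ℂ W (Z * σ n⁻¹) * LinearMap.trace ℂ V (τ n) := by
    rw [tfR_apply]
    simp only [map_smul, map_sum, smul_eq_mul]
  have h2 : LinearMap.trace ℂ W Z =
      c * ∑ n : N, LinearMap.trace ℂ W (Z * σ n⁻¹) * LinearMap.trace ℂ W (σ n) := by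
    conv_lhs => rw [← hc Z]
    simp only [map_smul, map_sum, smul_eq_mul]
  have h3 : ∑ n : N, LinearMap.trace ℂ W (Z * σ n⁻¹) * LinearMap.trace ℂ V (τ n) =
      e * ∑ n : N, LinearMap.trace ℂ W (Z * σ n⁻¹) * LinearMap.trace ℂ W (σ n) := by
    rw [Finset.mul_sum]
    refine Finset.sum_congr rfl fun n _ => ?_
    have h : LinearMap.trace ℂ V (τ n) = e * LinearMap.trace ℂ W (σ n) := he n
    rw [h]
    ring
  rw [h1, h2, h3]
  ring

end

theorem prf_TRANSFER (burn : S_BURN) : S_TRANSFER := by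
  intro N _ _ W _ _ _ σ hσ V _ _ _ τ e he
  have hnt : Nontrivial W := nontrivial_of_irr hσ
  have hd : (finrank ℂ W : ℂ) ≠ 0 := by
    have : 0 < finrank ℂ W := finrank_pos
    exact_mod_cast this.ne'
  have hN : (Fintype.card N : ℂ) ≠ 0 := by
    have : 0 < Fintype.card N := Fintype.card_pos
    exact_mod_cast this.ne'
  have hc : ∀ Z : End ℂ W, ((finrank ℂ W : ℂ) / Fintype.card N) •
      ∑ n : N, LinearMap.trace ℂ W (Z * σ n⁻¹) • σ n = Z := by
    intro Z
    rw [burn N W σ hσ Z, smul_smul]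
    have : (finrank ℂ W : ℂ) / Fintype.card N * ((Fintype.card N : ℂ) / finrank ℂ W) = 1 := by
      field_simp
    rw [this, one_smul]
  set c : ℂ := (finrank ℂ W : ℂ) / Fintype.card N with hcdef
  have hmul := tfR_mul σ τ c hc
  have htr := tfR_trace σ τ c e hc he
  have hP : IsIdempotentElem (tfR σ τ c 1) := by
    show tfR σ τ c 1 * tfR σ τ c 1 = tfR σ τ c 1
    rw [← hmul, one_mul]
  have hone : tfR σ τ c 1 = 1 := by
    have h1 : IsIdempotentElem (1 - tfR σ τ c 1) := hP.one_sub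
    have h2 : LinearMap.trace ℂ V (1 - tfR σ τ c 1) = 0 := by
      have h3 : LinearMap.trace ℂ V 1 = e * LinearMap.trace ℂ W 1 := by
        have h4 := he 1
        unfold Representation.character at h4
        rw [map_one τ, map_one σ] at h4
        exact h4
      rw [map_sub, htr, h3, sub_self]
    have h3 := LinearMap.IsIdempotentElem.eq_zero_of_trace_eq_zero h1 h2
    exact (sub_eq_zero.mp h3).symm
  refine ⟨AlgHom.ofLinearMap (tfR σ τ c) hone hmul, fun n => ?_, fun Z => ?_, fun Z => ?_⟩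
  · rw [AlgHom.ofLinearMap_apply]
    have := tfR_mul_rep σ τ c 1 n
    rw [one_mul, hone, one_mul] at this
    exact this
  · rw [AlgHom.ofLinearMap_apply, tfR_apply]
    refine Submodule.smul_mem _ _ (Submodule.sum_mem _ fun n _ => Submodule.smul_mem _ _ ?_)
    exact Submodule.subset_span ⟨n, rfl⟩
  · rw [AlgHom.ofLinearMap_apply]
    exact htr Z

end Pool.Agent.RadIndex

end

section

/-!
# UP: extension of a function on `B` to a function over the orbit
-/

set_option autoImplicit false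
set_option linter.unusedSectionVars false

open Module Representation Pool.Agent.DC7914

namespace Pool.Agent.RadIndex

namespace ItUP

section

variable {G : Type} [Group G] [Fintype G]

theorem ext0_add {B : Subgroup G} (f f' : B → ℂ) (g : G) :
    ext0 (f + f') g = ext0 f g + ext0 f' g := by
  unfold ext0
  split_ifs
  · rfl
  · rw [add_zero]

theorem ext0_smul {B : Subgroup G} (c : ℂ) (f : B → ℂ) (g : G) :
    ext0 (c • f) g = c * ext0 f g := by
  unfold ext0
  split_ifs
  · rfl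
  · rw [mul_zero]

theorem ext0_cls {B : Subgroup G} [B.Normal] {f : B → ℂ}
    (h : ∀ (g : G) (b : B), f (MulAut.conjNormal g b) = f b) (g x : G) :
    ext0 f (x * g * x⁻¹) = ext0 f g := by
  unfold ext0
  by_cases hg : g ∈ B
  · have h' : x * g * x⁻¹ ∈ B := ‹B.Normal›.conj_mem g hg x
    rw [dif_pos hg, dif_pos h']
    have e : (⟨x * g * x⁻¹, h'⟩ : B) = MulAut.conjNormal x ⟨g, hg⟩ := by
      ext; simp
    rw [e, h]
  · have h' : ¬ x * g * x⁻¹ ∈ B := by
      intro h2
      apply hg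
      have := ‹B.Normal›.conj_mem _ h2 x⁻¹
      simpa [mul_assoc] using this
    rw [dif_neg hg, dif_neg h']

/-- the extension -/
noncomputable def Ff {A B : Subgroup G} [A.Normal] [Fintype A] (η : A → ℂ) :
    (B → ℂ) →ₗ[ℂ] (G → ℂ) where
  toFun f := fun g => ∑ a : A, fO (G := G) η a * ext0 f (g * a)
  map_add' f f' := by
    funext g
    simp only [ext0_add, Pi.add_apply, mul_add, Finset.sum_add_distrib]
  map_smul' c f := by
    funext g
    simp only [ext0_smul, Pi.smul_apply, smul_eq_mul, RingHom.id_apply, Finset.mul_sum]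
    refine Finset.sum_congr rfl fun a _ => ?_
    ring

theorem Ff_apply {A B : Subgroup G} [A.Normal] [Fintype A] (η : A → ℂ) (f : B → ℂ) (g : G) :
    Ff (B := B) η f g = ∑ a : A, fO (G := G) η a * ext0 f (g * a) := rfl

theorem Ff_class {A B : Subgroup G} [A.Normal] [B.Normal] [Fintype A] (η : A → ℂ) {f : B → ℂ}
    (h : ∀ (g : G) (b : B), f (MulAut.conjNormal g b) = f b) : IsClassFn (Ff (B := B) η f) := by
  intro g x
  rw [Ff_apply, Ff_apply]
  symm
  refine Fintype.sum_equiv (MulAut.conjNormal x).toEquiv _ _ fun a => ?_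
  have h1 : (MulAut.conjNormal x).toEquiv a = MulAut.conjNormal x a := rfl
  rw [h1, fO_cj]
  congr 1
  have h2 : x * g * x⁻¹ * ((MulAut.conjNormal x a : A) : G) = x * (g * a) * x⁻¹ := by
    rw [MulAut.conjNormal_apply]
    group
  rw [h2, ext0_cls h]

theorem Ff_idem (idem : S_IDEM) {A B : Subgroup G} [A.Normal] [B.Normal] [Fintype A] {η : A → ℂ}
    (hη : IsIrrChar η) (f : B → ℂ) (g : G) :
    ∑ m : A, fO (G := G) η m * Ff (B := B) η f (g * m) = Ff (B := B) η f g := by
  simp only [Ff_apply]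
  have h1 : ∀ m : A, fO (G := G) η m * ∑ a : A, fO (G := G) η a * ext0 f (g * m * a) =
      ∑ b : A, fO (G := G) η m * fO (G := G) η (m⁻¹ * b) * ext0 f (g * b) := by
    intro m
    rw [Finset.mul_sum]
    refine Fintype.sum_equiv (Equiv.mulLeft m) _ _ fun a => ?_
    have e1 : m⁻¹ * (Equiv.mulLeft m a) = a := by simp
    have e2 : g * ((Equiv.mulLeft m a : A) : G) = g * m * a := by
      show g * ((m * a : A) : G) = g * m * a
      rw [Subgroup.coe_mul, mul_assoc]
    rw [e1, e2]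
    ring
  rw [Finset.sum_congr rfl fun m _ => h1 m, Finset.sum_comm]
  refine Finset.sum_congr rfl fun b _ => ?_
  rw [← Finset.sum_mul, idem G A η hη b]

theorem Ff_res {N A B : Subgroup G} [N.Normal] [A.Normal] [B.Normal] [Fintype N] [Fintype A]
    (hQ : SetQ N A B) (l : N → ℂ) (η : A → ℂ) (c : ℂ)
    (hc : ∀ n : N, fO (G := G) η (Subgroup.inclusion hQ.nA n) = c * fO (G := G) l n)
    {f : B → ℂ} (hf : ∀ b : B, ∑ m : N, fO (G := G) l m * f (b * Subgroup.inclusion hQ.nB m) = f b)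
    (b : B) : Ff (B := B) η f (b : G) = c * f b := by
  rw [Ff_apply, ← hf b, Finset.mul_sum]
  symm
  refine Fintype.sum_of_injective (Subgroup.inclusion hQ.nA) (Subgroup.inclusion_injective _) _ _
    ?_ ?_
  · intro a ha
    have h1 : ¬ ((b : G) * a ∈ B) := by
      intro h2
      have h3 : (a : G) ∈ B := by
        have := B.mul_mem (B.inv_mem b.2) h2
        simpa using this
      have h4 : (a : G) ∈ N := hQ.inf ⟨a.2, h3⟩
      exact ha ⟨⟨a, h4⟩, rfl⟩
    rw [ext0, dif_neg h1, mul_zero]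
  · intro n
    have h1 : (b : G) * ((Subgroup.inclusion hQ.nA n : A) : G) =
        ((b * Subgroup.inclusion hQ.nB n : B) : G) := rfl
    have h2 : ext0 f (((b * Subgroup.inclusion hQ.nB n : B) : G)) =
        f (b * Subgroup.inclusion hQ.nB n) := by
      rw [ext0, dif_pos (b * Subgroup.inclusion hQ.nB n : B).2]
    rw [hc, h1, h2, mul_assoc]

end

end ItUP

open ItUP in
theorem prf_UP (bij : S_BIJ) (idem : S_IDEM) : S_UP := by
  intro G _ _ N A B _ _ _ _ _ _ hQ l hl hA η hη hmu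
  obtain ⟨e, r, -, -, -, c, hc0, hc⟩ := bij G N A B hQ l hl hA η hη hmu
  let Φ : WB B hQ.nB l →ₗ[ℂ] WO (G := G) η :=
    LinearMap.codRestrict _ ((Ff (B := B) η).comp (WB B hQ.nB l).subtype)
      (fun f => ⟨Ff_class η f.2.1, fun g => Ff_idem idem hη f.1 g⟩)
  have hinj : Function.Injective Φ := by
    rw [← LinearMap.ker_eq_bot, LinearMap.ker_eq_bot']
    intro f hf
    have h0 : Ff (B := B) η f.1 = 0 := congrArg Subtype.val hf
    apply Subtype.ext
    funext b
    have h1 := Ff_res hQ l η c hc f.2.2 b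
    rw [h0] at h1
    have h2 : c * f.1 b = 0 := by rw [← h1]; rfl
    exact (mul_eq_zero.1 h2).resolve_left hc0
  exact LinearMap.finrank_le_finrank_of_injective hinj

end Pool.Agent.RadIndex

end

section

/-!
# Item WOB: the characters over `l` are a basis of `WO l`
-/

set_option autoImplicit false
set_option linter.unusedSectionVars false

open Module Representation Pool.Agent.DC7914

namespace Pool.Agent.RadIndex

/-- the projection kills the characters which are not over `l` -/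
theorem WOB_kill {G : Type} [Group G] [Fintype G] (N : Subgroup G) [N.Normal] [Fintype N]
    {l : N → ℂ} (hl : IsIrrChar l) {χ : G → ℂ} (hχ : IsIrrChar χ) (h0 : mu χ l = 0) (g : G) :
    ∑ m : N, fO (G := G) l m * χ (g * m) = 0 := by
  classical
  have hcl := hχ.isClassFn
  obtain ⟨d, ρ, hρ, hch⟩ := hχ
  obtain ⟨s, hs, hsum⟩ := decomp (resRep N ρ)
  obtain ⟨c, hc⟩ := schur ρ hρ (op ρ (ext0 (fO l)))
    (fun g => op_comm_of_class ρ _ (ext0_class l) g)
  have hc' : op (resRep N ρ) (fO l) = c • (1 : End ℂ (Fin d → ℂ)) := by rw [← op_ext, hc]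
  -- a constituent
  have hne : s ≠ 0 := by
    rintro rfl
    have h1 : (resRep N ρ).character 1 = 0 := by rw [hsum]; simp
    have h2 : ρ.character 1 = 0 := by
      have h3 : (resRep N ρ).character 1 = ρ.character 1 := by
        show LinearMap.trace ℂ _ (ρ (N.subtype 1)) = LinearMap.trace ℂ _ (ρ 1)
        rw [map_one]
      rw [← h3, h1]
    exact (isIrrChar_of_rep ρ hρ).one_ne_zero h2
  obtain ⟨θ, hθ⟩ := Multiset.exists_mem_of_ne_zero hne
  have h1 := (hs θ hθ).2 _ c hc'
  rw [om_fO hl (hs θ hθ).1] at h1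
  have hnot : θ ∉ orb N l := by
    intro hmem
    obtain ⟨x, rfl⟩ := mem_orb.1 hmem
    have h2 : mu χ (cj x l) = (Multiset.count (cj x l) s : ℂ) * Nat.card N := by
      rw [← inner_sum s (fun θ h => (hs θ h).1) (cj x l) (hs _ hθ).1]
      unfold mu
      refine Finset.sum_congr rfl fun n _ => ?_
      rw [← hsum, hch]
      rfl
    rw [mu_cj hcl, h0] at h2
    have h3 : (0 : ℕ) < Multiset.count (cj x l) s := Multiset.count_pos.2 hθ
    have h4 : (Nat.card N : ℂ) ≠ 0 := by exact_mod_cast Nat.card_pos.ne'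
    have h5 : (Multiset.count (cj x l) s : ℂ) ≠ 0 := by exact_mod_cast h3.ne'
    exact (mul_ne_zero h5 h4) h2.symm
  rw [if_neg hnot] at h1
  rw [← h1, zero_smul] at hc
  have h3 := trace_op_mul ρ (ext0 (fO l)) g
  rw [hc, zero_mul, map_zero] at h3
  have h4 : ∑ h : G, ext0 (fO l) h * ρ.character (h * g) =
      ∑ m : N, fO l m * ρ.character (m * g) := by
    rw [sum_ext (N := N) (fun h => ext0 (fO l) h * ρ.character (h * g))
      (fun h hh => by rw [ext0, dif_neg hh, zero_mul])]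
    refine Finset.sum_congr rfl fun m _ => ?_
    rw [ext0_coe]
  rw [h4] at h3
  rw [h3, hch]
  refine Finset.sum_congr rfl fun m _ => ?_
  rw [char_mul_comm ρ (m : G) g]

/-- a class function is the sum of its components -/
theorem WOB_exp {G : Type} [Group G] [Fintype G] {f : G → ℂ} (hf : IsClassFn f) :
    f = ∑ χ ∈ irrs G, ((∑ g, f g * χ g⁻¹) / Nat.card G) • χ := by
  classical
  have hG : (Nat.card G : ℂ) ≠ 0 := by exact_mod_cast Nat.card_pos.ne'
  have h1 : (fun g : G => f g⁻¹ - ∑ χ ∈ irrs G, ((∑ g, f g * χ g⁻¹) / Nat.card G) * χ g⁻¹) = 0 := by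
    refine class_eq_zero _ (fun g x => ?_) fun θ hθ => ?_
    · have h2 : (x * g * x⁻¹)⁻¹ = x * g⁻¹ * x⁻¹ := by group
      rw [h2, hf]
      congr 1
      refine Finset.sum_congr rfl fun χ hχ => ?_
      rw [(mem_irrs.1 hχ).conj]
    · unfold om
      have h2 : ∑ g : G, (f g⁻¹ - ∑ χ ∈ irrs G, ((∑ g, f g * χ g⁻¹) / Nat.card G) * χ g⁻¹) * θ g =
          0 := by
        simp only [sub_mul, Finset.sum_sub_distrib, Finset.sum_mul]
        rw [Finset.sum_comm]
        have h3 : ∀ χ ∈ irrs G, ∑ g : G, (∑ g, f g * χ g⁻¹) / Nat.card G * χ g⁻¹ * θ g =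
            if θ = χ then ∑ g, f g * θ g⁻¹ else 0 := by
          intro χ hχ
          have h4 : ∑ g : G, (∑ g, f g * χ g⁻¹) / Nat.card G * χ g⁻¹ * θ g =
              (∑ g, f g * χ g⁻¹) / Nat.card G * ∑ g : G, θ g * χ g⁻¹ := by
            rw [Finset.mul_sum]
            refine Finset.sum_congr rfl fun g _ => ?_
            ring
          rw [h4, hθ.orthonormal (mem_irrs.1 hχ)]
          split_ifs with h5
          · rw [h5]; field_simp
          · rw [mul_zero]
        rw [Finset.sum_congr rfl h3, Finset.sum_ite_eq, if_pos (mem_irrs.2 hθ)]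
        have h5 : ∑ g : G, f g⁻¹ * θ g = ∑ g, f g * θ g⁻¹ := by
          refine Fintype.sum_equiv (Equiv.inv G) _ _ fun g => ?_
          simp
        rw [h5, sub_self]
      rw [h2, zero_div]
  funext g
  have h2 := congrFun h1 g⁻¹
  simp only [inv_inv, Pi.zero_apply] at h2
  rw [Finset.sum_apply]
  simp only [Pi.smul_apply, smul_eq_mul]
  exact sub_eq_zero.1 h2

theorem prf_WOB : S_WOB := by
  classical
  intro G _ _ N _ _ l hl
  have hmem : ∀ χ, χ ∈ ovr N l ↔ χ ∈ irrs G ∧ mu χ l ≠ 0 := fun χ => by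
    unfold ovr
    rw [Finset.mem_filter]
  have hW : ∀ χ ∈ ovr N l, χ ∈ WO (G := G) l := by
    intro χ h
    obtain ⟨h1, h2⟩ := (hmem χ).1 h
    obtain ⟨O, -, hO1, hO2⟩ := char_data (mem_irrs.1 h1) N
    exact (hO1 l (hO2 l hl h2)).2.2.1
  have hspan : Submodule.span ℂ (ovr N l : Set (G → ℂ)) = WO (G := G) l := by
    apply le_antisymm
    · rw [Submodule.span_le]
      intro χ h
      exact hW χ (Finset.mem_coe.1 h)
    · intro f hf
      have h1 := WOB_exp hf.1
      have h2 : f = ∑ χ ∈ ovr N l, ((∑ g, f g * χ g⁻¹) / Nat.card G) • χ := by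
        funext g
        rw [← hf.2 g]
        have h3 : ∀ x : G, f x = ∑ χ ∈ irrs G, ((∑ g, f g * χ g⁻¹) / Nat.card G) * χ x := by
          intro x
          have h4 := congrFun h1 x
          rw [Finset.sum_apply] at h4
          simpa only [Pi.smul_apply, smul_eq_mul] using h4
        have h5 : ∑ m : N, fO l m * f (g * m) = ∑ χ ∈ irrs G,
            ((∑ g, f g * χ g⁻¹) / Nat.card G) * ∑ m : N, fO l m * χ (g * m) := by
          calc ∑ m : N, fO l m * f (g * m) = ∑ m : N, ∑ χ ∈ irrs G,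
              ((∑ g, f g * χ g⁻¹) / Nat.card G) * (fO l m * χ (g * m)) := by
                refine Finset.sum_congr rfl fun m _ => ?_
                rw [h3 (g * m), Finset.mul_sum]
                refine Finset.sum_congr rfl fun χ _ => ?_
                ring
            _ = _ := by
                rw [Finset.sum_comm]
                refine Finset.sum_congr rfl fun χ _ => ?_
                rw [Finset.mul_sum]
        rw [h5, Finset.sum_apply]
        symm
        have h6 : ∀ χ ∈ ovr N l, (((∑ g, f g * χ g⁻¹) / Nat.card G) • χ) g =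
            ((∑ g, f g * χ g⁻¹) / Nat.card G) * ∑ m : N, fO l m * χ (g * m) := by
          intro χ h
          rw [Pi.smul_apply, smul_eq_mul, (hW χ h).2 g]
        rw [Finset.sum_congr rfl h6]
        refine Finset.sum_subset (fun χ h => ((hmem χ).1 h).1) fun χ h h' => ?_
        have h7 : mu χ l = 0 := by
          by_contra hne
          exact h' ((hmem χ).2 ⟨h, hne⟩)
        rw [WOB_kill N hl (mem_irrs.1 h) h7 g, mul_zero]
      rw [h2]
      exact Submodule.sum_mem _ fun χ h => Submodule.smul_mem _ _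
        (Submodule.subset_span (Finset.mem_coe.2 h))
  refine ⟨hspan, ?_⟩
  rw [← hspan]
  symm
  apply finrank_span_finset_eq_card
  have h3 := (irr_linearIndependent (G := G)).comp
    (fun χ : (ovr N l : Set (G → ℂ)) => (⟨χ.1, mem_irrs.1 ((hmem χ.1).1
      (Finset.mem_coe.1 χ.2)).1⟩ : {χ : G → ℂ // IsIrrChar χ}))
    (fun a b h => Subtype.ext (by have h5 := congrArg Subtype.val h; exact h5))
  exact h3

end Pool.Agent.RadIndex

end

section

/-!
# Item ZSPAN: the operators of a class function are combinations of the operators of `N`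
-/

set_option autoImplicit false
set_option linter.unusedSectionVars false

open Module Representation Pool.Agent.DC7914

namespace Pool.Agent.RadIndex

section

variable {G : Type} [Group G] [Fintype G] {N A : Subgroup G} [N.Normal] [A.Normal]
  [Fintype N] [Fintype A]

/-- a function on `N`, extended by zero to `A` -/
noncomputable def ZSPAN_F (A : Subgroup G) (φ : N → ℂ) (a : A) : ℂ := ext0 φ (a : G)

/-- the function of the idempotent of `l` -/
noncomputable def ZSPAN_phi (l : N → ℂ) (n : N) : ℂ := (l 1 / Nat.card N) * l n⁻¹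

theorem ZSPAN_sum {M : Type*} [AddCommMonoid M] (h : N ≤ A) (H : A → M)
    (h0 : ∀ a : A, (a : G) ∉ N → H a = 0) : ∑ a, H a = ∑ n : N, H (Subgroup.inclusion h n) := by
  refine (Fintype.sum_of_injective (Subgroup.inclusion h) (Subgroup.inclusion_injective h) _ _
    ?_ (fun _ => rfl)).symm
  intro a ha
  refine h0 a (fun h1 => ha ⟨⟨a, h1⟩, ?_⟩)
  ext
  rfl

theorem ZSPAN_Fn (h : N ≤ A) (φ : N → ℂ) (n : N) :
    ZSPAN_F A φ (Subgroup.inclusion h n) = φ n := by
  unfold ZSPAN_F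
  exact ext0_coe φ n

theorem ZSPAN_F0 (φ : N → ℂ) (a : A) (ha : (a : G) ∉ N) : ZSPAN_F A φ a = 0 := by
  unfold ZSPAN_F ext0
  rw [dif_neg ha]

theorem ZSPAN_cls (h : N ≤ A) {l : N → ℂ} (hl : ∀ a ∈ A, cj a l = l) :
    IsClassFn (ZSPAN_F A (ZSPAN_phi l)) := by
  intro a x
  by_cases ha : (a : G) ∈ N
  · obtain ⟨n, rfl⟩ : ∃ n : N, Subgroup.inclusion h n = a := ⟨⟨a, ha⟩, rfl⟩
    have e1 : x * Subgroup.inclusion h n * x⁻¹ =
        Subgroup.inclusion h (MulAut.conjNormal (x : G) n) := by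
      ext
      simp
    rw [e1, ZSPAN_Fn, ZSPAN_Fn]
    unfold ZSPAN_phi
    congr 1
    have h1 := congrFun (hl x x.2) n⁻¹
    rw [← h1, cj_inv]
  · have hx : ((x * a * x⁻¹ : A) : G) ∉ N := by
      intro h2
      apply ha
      have := ‹N.Normal›.conj_mem _ h2 (x : G)⁻¹
      simpa [mul_assoc] using this
    rw [ZSPAN_F0 _ _ ha, ZSPAN_F0 _ _ hx]

variable {V : Type} [AddCommGroup V] [Module ℂ V] [FiniteDimensional ℂ V]

theorem ZSPAN_op (h : N ≤ A) (τ : Representation ℂ A V) (φ : N → ℂ) :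
    op τ (ZSPAN_F A φ) = ∑ n : N, φ n • τ (Subgroup.inclusion h n) := by
  unfold op
  rw [ZSPAN_sum h (fun a => ZSPAN_F A φ a • τ a)
    (fun a ha => by rw [ZSPAN_F0 _ _ ha, zero_smul])]
  refine Finset.sum_congr rfl fun n _ => ?_
  rw [ZSPAN_Fn]

open Classical in
theorem ZSPAN_scal (h : N ≤ A) (τ : Representation ℂ A V) (hτ : τ.IsIrreducible) {l l' : N → ℂ}
    (hl : IsIrrChar l) (hl' : IsIrrChar l') (hinv : ∀ a ∈ A, cj a l' = l') {e : ℂ} (he : e ≠ 0)
    (hch : ∀ n : N, τ.character (Subgroup.inclusion h n) = e * l n) :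
    op τ (ZSPAN_F A (ZSPAN_phi l')) = if l = l' then 1 else 0 := by
  rw [op_eq_smul τ hτ _ (fun g => op_comm_of_class τ _ (ZSPAN_cls h hinv) g)]
  have h1 : ∑ a, ZSPAN_F A (ZSPAN_phi l') a * τ.character a =
      e * (l' 1 / Nat.card N) * ∑ n : N, l n * l' n⁻¹ := by
    rw [ZSPAN_sum h (fun a => ZSPAN_F A (ZSPAN_phi l') a * τ.character a)
      (fun a ha => by rw [ZSPAN_F0 _ _ ha, zero_mul]), Finset.mul_sum]
    refine Finset.sum_congr rfl fun n _ => ?_
    rw [ZSPAN_Fn, hch]
    unfold ZSPAN_phi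
    ring
  have h2 : τ.character 1 = e * l 1 := by
    have := hch 1
    rwa [map_one] at this
  have hN : (Nat.card N : ℂ) ≠ 0 := by exact_mod_cast Nat.card_pos.ne'
  have hl1 := hl.one_ne_zero
  rw [h1, h2, hl.orthonormal hl']
  split_ifs with h3
  · subst h3
    have : e * (l 1 / (Nat.card N : ℂ)) * (Nat.card N : ℂ) / (e * l 1) = 1 := by
      field_simp
    rw [this, one_smul]
  · rw [mul_zero, zero_div, zero_smul]

/-- twisted intertwining operators vanish if the characters differ -/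
theorem ZSPAN_zero (h : N ≤ A) (τ : Representation ℂ A V) (hτ : τ.IsIrreducible) {l : N → ℂ}
    (hl : IsIrrChar l) (hinv : ∀ a ∈ A, cj a l = l) {e : ℂ} (he : e ≠ 0)
    (hch : ∀ n : N, τ.character (Subgroup.inclusion h n) = e * l n) (b : G) (hb : cj b l ≠ l)
    (Z : End ℂ V) (hZ : ∀ k : A, τ k * Z = Z * τ (MulAut.conjNormal b⁻¹ k)) : Z = 0 := by
  classical
  have hinv' : ∀ a ∈ A, cj a (cj b l) = cj b l := by
    intro a ha
    have h1 : b * a = (b * a * b⁻¹) * b := by group
    rw [cj_cj, h1, ← cj_cj, hinv _ (‹A.Normal›.conj_mem a ha b)]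
  have h1 := ZSPAN_scal h τ hτ hl hl hinv he hch
  have h2 := ZSPAN_scal h τ hτ hl (irr_cj b hl) hinv' he hch
  rw [if_pos rfl] at h1
  rw [if_neg (Ne.symm hb)] at h2
  have h3 : op τ (ZSPAN_F A (ZSPAN_phi l)) * Z = Z * op τ (ZSPAN_F A (ZSPAN_phi (cj b l))) := by
    rw [ZSPAN_op h, ZSPAN_op h, Finset.sum_mul, Finset.mul_sum]
    refine Fintype.sum_equiv (MulAut.conjNormal b⁻¹ : MulAut N).toEquiv _ _ fun n => ?_
    have e1 : (MulAut.conjNormal b⁻¹ : MulAut N).toEquiv n = MulAut.conjNormal b⁻¹ n := rfl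
    rw [e1, smul_mul_assoc, hZ, mul_smul_comm]
    have e2 : (MulAut.conjNormal b⁻¹ : MulAut A) (Subgroup.inclusion h n) =
        Subgroup.inclusion h (MulAut.conjNormal b⁻¹ n) := by
      ext
      simp
    rw [e2]
    congr 1
    unfold ZSPAN_phi
    rw [cj_one_val, cj_inv]
    congr 2
    have e3 : (MulAut.conjNormal b : MulAut N) (MulAut.conjNormal b⁻¹ n) = n := by
      ext
      simp
    rw [e3]
  rw [h1, h2, one_mul, mul_zero] at h3
  exact h3

theorem ZSPAN_irr (h : N ≤ A) {l : N → ℂ} (hl : IsIrrChar l) : IsIrrChar (down h l) := by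
  obtain ⟨n, ρ, hρ, rfl⟩ := hl
  refine ⟨n, ρ.comp (Subgroup.subgroupOfEquivOfLe h).toMonoidHom, ?_, ?_⟩
  · rw [DC7914.irreducible_iff] at hρ ⊢
    refine ⟨hρ.1, fun U hU => hρ.2 U fun x v hv => ?_⟩
    have := hU ((Subgroup.subgroupOfEquivOfLe h).symm x) v hv
    simpa using this
  · rfl

end

theorem prf_ZSPAN (core : S_CORE) : S_ZSPAN := by
  intro G _ _ N A B _ _ _ _ _ _ hQ l hl hinv V _ _ _ τ hτ e he hch f hf b hbB
  have hZ := AF_mem τ b hf
  by_cases hb : cj b l = l
  swap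
  · have h0 : AF τ b f = 0 :=
      ZSPAN_zero hQ.nA τ hτ hl hinv he hch b hb (AF τ b f) hZ
    rw [h0]
    exact Submodule.zero_mem _
  · obtain ⟨β, hβ⟩ : ∃ β : MulAut A, β = MulAut.conjNormal b := ⟨_, rfl⟩
    have hβ2 : ∀ a : A, ((β a : A) : G) = b * a * b⁻¹ := by
      intro a
      rw [hβ, MulAut.conjNormal_apply]
    have hc : ∀ a, a * (β a)⁻¹ ∈ N.subgroupOf A := by
      intro a
      rw [Subgroup.mem_subgroupOf]
      refine hQ.inf ⟨(a * (β a)⁻¹ : A).2, ?_⟩
      have e1 : ((a * (β a)⁻¹ : A) : G) = (a * b * (a : G)⁻¹) * b⁻¹ := by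
        push_cast
        rw [hβ2]
        group
      rw [e1]
      exact B.mul_mem (‹B.Normal›.conj_mem b hbB a) (B.inv_mem hbB)
    have hβN : ∀ n : N.subgroupOf A, β n ∈ N.subgroupOf A := by
      intro n
      rw [Subgroup.mem_subgroupOf, hβ2]
      exact ‹N.Normal›.conj_mem _ (Subgroup.mem_subgroupOf.1 n.2) b
    have hval : ∀ x : N.subgroupOf A, ((Subgroup.subgroupOfEquivOfLe hQ.nA x : N) : G) =
        ((x : A) : G) := fun x => rfl
    have hA : ∀ a : A, cj a (down hQ.nA l) = down hQ.nA l := by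
      intro a
      funext x
      have h1 := congrFun (hinv a a.2) (Subgroup.subgroupOfEquivOfLe hQ.nA x)
      refine Eq.trans ?_ h1
      show l _ = l _
      congr 1
    have hbb : ∀ n : N.subgroupOf A, down hQ.nA l ⟨β n, hβN n⟩ = down hQ.nA l n := by
      intro n
      have h1 := congrFun hb (Subgroup.subgroupOfEquivOfLe hQ.nA n)
      refine Eq.trans ?_ h1
      show l _ = l _
      congr 1
      ext
      rw [hval, MulAut.conjNormal_apply]
      exact hβ2 n
    have hov : mu τ.character (down hQ.nA l) ≠ 0 := by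
      have h1 : mu τ.character (down hQ.nA l) = e * ∑ n : N, l n * l n⁻¹ := by
        unfold mu
        rw [Finset.mul_sum]
        refine Fintype.sum_equiv (Subgroup.subgroupOfEquivOfLe hQ.nA).toEquiv _ _ fun x => ?_
        have h2 := hch (Subgroup.subgroupOfEquivOfLe hQ.nA x)⁻¹
        have h3 : Subgroup.inclusion hQ.nA (Subgroup.subgroupOfEquivOfLe hQ.nA x)⁻¹ =
            ((x⁻¹ : N.subgroupOf A) : A) := by
          ext
          rfl
        rw [h3] at h2
        rw [h2]
        show l (Subgroup.subgroupOfEquivOfLe hQ.nA x) *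
          (e * l (Subgroup.subgroupOfEquivOfLe hQ.nA x)⁻¹) =
          e * (l (Subgroup.subgroupOfEquivOfLe hQ.nA x) *
            l (Subgroup.subgroupOfEquivOfLe hQ.nA x)⁻¹)
        ring
      rw [h1, hl.orthonormal hl, if_pos rfl]
      exact mul_ne_zero he (by exact_mod_cast Nat.card_pos.ne')
    obtain ⟨X, Xi, hX, -, hX1, hX2, hX3⟩ := core A (N.subgroupOf A) β hc hβN
      (fun f h => hQ.perf f (fun n hn => h n hn)) (down hQ.nA l) (ZSPAN_irr hQ.nA hl) hA hbb V τ
      hτ hov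
    obtain ⟨Z, hZdef⟩ : ∃ Z : End ℂ V, Z = AF τ b f := ⟨_, rfl⟩
    rw [← hZdef] at hZ ⊢
    have hZ2 : ∀ a : A, τ (β a) * Z = Z * τ a := by
      intro a
      rw [hZ (β a)]
      congr 2
      ext
      rw [MulAut.conjNormal_apply, hβ2]
      group
    have hXi : ∀ a : A, Xi * τ (β a) = τ a * Xi := by
      intro a
      calc Xi * τ (β a) = Xi * (τ (β a) * X) * Xi := by rw [mul_assoc, mul_assoc, hX1, mul_one]
        _ = Xi * (X * τ a) * Xi := by rw [hX3 a]
        _ = (Xi * X) * τ a * Xi := by simp only [mul_assoc]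
        _ = τ a * Xi := by rw [hX2, one_mul]
    obtain ⟨c, hc2⟩ := schur τ hτ (Xi * Z) (fun a => by
      rw [mul_assoc, ← hZ2 a, ← mul_assoc, hXi a, mul_assoc])
    have hZX : Z = c • X := by
      calc Z = X * (Xi * Z) := by rw [← mul_assoc, hX1, one_mul]
        _ = c • X := by rw [hc2, mul_smul_comm, mul_one]
    rw [hZX]
    refine Submodule.smul_mem _ _ ?_
    have hspan : (Set.range fun n : N.subgroupOf A => τ n) ⊆
        Set.range fun n : N => τ (Subgroup.inclusion hQ.nA n) := by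
      rintro _ ⟨n, rfl⟩
      refine ⟨Subgroup.subgroupOfEquivOfLe hQ.nA n, ?_⟩
      show τ _ = τ _
      congr 1
    exact Submodule.span_mono hspan hX

end Pool.Agent.RadIndex

end
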